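import Mathlib
import Pool.Agent.TH932.Scale

set_option autoImplicit false

/-!
# Project AL: several coprime integers, places, the character, real germs (definitions)
-/

namespace Pool.Agent.TH796.AL

open Filter Topology Pool.Agent.TH932.Abs Pool.Agent.TH932.Germs Pool.Agent.TH932.Chi

/-- finitely many pairwise coprime integers `≥ 2` -/
structure Base (m : ℕ) where
  P : Fin m → ℕ
  two : ∀ i, 2 ≤ P i
  cop : ∀ i j, i ≠ j → IsCoprime (P i : ℤ) (P j : ℤ)

variable {m : ℕ}

/-- `S`-integers up to negligible denominators -/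
def RS (B : Base m) (L ε t : ℝ) (a : ℚ) : Prop :=
  ∃ (d c : ℤ) (k : Fin m → ℤ), d ≠ 0 ∧ |(d : ℝ)| ≤ Real.exp (ε * L) ∧
    (d : ℚ) * a = (∏ i, (B.P i : ℚ) ^ k i) * c ∧ ∀ i, (t - ε) * L ≤ k i * Real.log (B.P i)

/-- the conditions at the places; `none` is the real place -/
def Rv (B : Base m) : Option (Fin m) → ℝ → ℝ → ℝ → ℚ → Prop
  | some i => Rb (B.P i) (Pool.Agent.TH932.Germs.cop (B.P i))
  | none => Rinf

/-- germs with valuation at least `t` at the place `v` -/
def Sv (B : Base m) (L : ℕ → ℝ) (v : Option (Fin m)) (t : ℝ) : Set GG := SS L (Rv B v) t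

/-- `S`-integral germs, up to negligible denominators -/
def Sint (B : Base m) (L : ℕ → ℝ) (g : GG) : Prop := ∃ t : ℝ, g ∈ SS L (RS B) t

/-- the valuations of the character -/
noncomputable def lv (B : Base m) : Option (Fin m) → (Fin m → ℝ) → ℝ
  | some i, g => g i * Real.log (B.P i)
  | none, g => -∑ i, g i * Real.log (B.P i)

section char
variable (B : Base m) {L : ℕ → ℝ} (hL : Tendsto L atTop atTop)

/-- the character `g ↦ ∏ (P i) ^ (g i L)` -/
noncomputable def XX : Multiplicative (Fin m → ℝ) →* GG where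
  toFun := fun t => gm fun n => ∏ i, (B.P i : ℚ) ^ ⌊ell hL (Multiplicative.toAdd t i) n⌋
  map_one' := by
    rw [← gm_one]
    congr 1
    funext n
    refine Finset.prod_eq_one fun i _ => ?_
    have : (Multiplicative.toAdd (1 : Multiplicative (Fin m → ℝ))) i = 0 := rfl
    rw [this]
    simp [ell_zero]
  map_mul' := by
    intro s t
    rw [gm_mul, gm_eq]
    have h1 : ∀ᶠ n in (UU : Filter ℕ), ∀ i, ell hL (Multiplicative.toAdd s i) n
        = (⌊ell hL (Multiplicative.toAdd s i) n⌋ : ℚ) := by
      rw [Filter.eventually_all]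
      intro i
      filter_upwards [ev_of_atTop (ell_int hL (Multiplicative.toAdd s i))] with n hn
      exact hn.symm
    have h2 : ∀ᶠ n in (UU : Filter ℕ), ∀ i, ell hL (Multiplicative.toAdd t i) n
        = (⌊ell hL (Multiplicative.toAdd t i) n⌋ : ℚ) := by
      rw [Filter.eventually_all]
      intro i
      filter_upwards [ev_of_atTop (ell_int hL (Multiplicative.toAdd t i))] with n hn
      exact hn.symm
    filter_upwards [h1, h2] with n h1 h2
    rw [← Finset.prod_mul_distrib]
    refine Finset.prod_congr rfl fun i _ => ?_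
    have hp0 : (B.P i : ℚ) ≠ 0 := by
      have := B.two i
      have : B.P i ≠ 0 := by omega
      exact_mod_cast this
    have e1 : ⌊ell hL (Multiplicative.toAdd (s * t) i) n⌋ = ⌊ell hL (Multiplicative.toAdd s i) n⌋
        + ⌊ell hL (Multiplicative.toAdd t i) n⌋ := by
      have : Multiplicative.toAdd (s * t) i
          = Multiplicative.toAdd s i + Multiplicative.toAdd t i := rfl
      rw [this, ell_add, h1 i, h2 i, ← Int.cast_add, Int.floor_intCast, Int.floor_intCast,
        Int.floor_intCast]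
    rw [e1, zpow_add₀ hp0]

/-- the value of the character -/
noncomputable def ch (g : Fin m → ℝ) : GG := XX B hL (Multiplicative.ofAdd g)

lemma ch_eq (g : Fin m → ℝ) :
    ch B hL g = gm fun n => ∏ i, (B.P i : ℚ) ^ ⌊ell hL (g i) n⌋ := rfl

/-- the ring of finite sums of the character with negligible coefficients, abstractly -/
abbrev Rg (m : ℕ) {L : ℕ → ℝ} (hL : Tendsto L atTop atTop) :=
  AddMonoidAlgebra (KK L hL) (Fin m → ℝ)

/-- evaluation -/
noncomputable def ev : Rg m hL →+* GG :=
  AddMonoidAlgebra.liftNCRingHom (algebraMap (KK L hL) GG) (XX B hL) (fun _ _ => mul_comm _ _)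

end char

/-! ## real germs -/

/-- germs of real sequences -/
def HR : Type := Germ (UU : Filter ℕ) ℝ

noncomputable instance : Field HR := inferInstanceAs (Field (Germ (UU : Filter ℕ) ℝ))

/-- the germ of a real sequence -/
noncomputable def gr (a : ℕ → ℝ) : HR := (a : Germ (UU : Filter ℕ) ℝ)

lemma gr_eq {a b : ℕ → ℝ} : gr a = gr b ↔ ∀ᶠ n in (UU : Filter ℕ), a n = b n := Germ.coe_eq

lemma gr_add (a b : ℕ → ℝ) : gr a + gr b = gr (fun n => a n + b n) := rfl
lemma gr_sub (a b : ℕ → ℝ) : gr a - gr b = gr (fun n => a n - b n) := rfl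
lemma gr_mul (a b : ℕ → ℝ) : gr a * gr b = gr (fun n => a n * b n) := rfl
lemma gr_inv (a : ℕ → ℝ) : (gr a)⁻¹ = gr (fun n => (a n)⁻¹) := rfl
lemma gr_zero : gr (fun _ => 0) = 0 := rfl
lemma gr_one : gr (fun _ => 1) = 1 := rfl
lemma gr_neg (a : ℕ → ℝ) : - gr a = gr (fun n => - a n) := rfl

lemma gr_surj (g : HR) : ∃ a, gr a = g := by
  obtain ⟨a, ha⟩ := Quotient.exists_rep g
  exact ⟨a, ha⟩

lemma gr_ne_zero {a : ℕ → ℝ} : gr a ≠ 0 ↔ ∀ᶠ n in (UU : Filter ℕ), a n ≠ 0 := by
  rw [← gr_zero, Ne, gr_eq]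
  exact Ultrafilter.eventually_not.symm

/-- rational germs are real germs -/
noncomputable def rho : GG →+* HR where
  toFun g := Germ.map (fun q : ℚ => (q : ℝ)) g
  map_one' := by
    rw [← gm_one]
    change gr _ = _
    rw [← gr_one, gr_eq]
    exact Eventually.of_forall fun n => by simp
  map_zero' := by
    rw [← gm_zero]
    change gr _ = _
    rw [← gr_zero, gr_eq]
    exact Eventually.of_forall fun n => by simp
  map_mul' := by
    intro a b
    obtain ⟨a, rfl⟩ := gm_surj a
    obtain ⟨b, rfl⟩ := gm_surj b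
    rw [gm_mul]
    change gr _ = gr _ * gr _
    rw [gr_mul, gr_eq]
    exact Eventually.of_forall fun n => by simp
  map_add' := by
    intro a b
    obtain ⟨a, rfl⟩ := gm_surj a
    obtain ⟨b, rfl⟩ := gm_surj b
    rw [gm_add]
    change gr _ = gr _ + gr _
    rw [gr_add, gr_eq]
    exact Eventually.of_forall fun n => by simp

lemma rho_gm (a : ℕ → ℚ) : rho (gm a) = gr fun n => (a n : ℝ) := rfl

lemma rho_injective : Function.Injective rho := rho.injective

/-- constant germs -/
noncomputable def cst : ℝ →+* HR where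
  toFun r := gr fun _ => r
  map_one' := gr_one
  map_zero' := gr_zero
  map_mul' := fun _ _ => rfl
  map_add' := fun _ _ => rfl

noncomputable instance : Algebra ℝ HR := cst.toAlgebra

lemma cst_eq (r : ℝ) : algebraMap ℝ HR r = gr fun _ => r := rfl

/-- real germs of size at most `exp (-t L)` -/
def SR (L : ℕ → ℝ) (t : ℝ) : Set HR :=
  {g | ∃ a : ℕ → ℝ, g = gr a ∧ ∀ ε : ℝ, 0 < ε → ∀ᶠ n in (UU : Filter ℕ),
    |a n| ≤ Real.exp (-(t - ε) * L n)}

/-- the algebra over a real number field generated by the germs of negligible height -/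
noncomputable def KA (F : IntermediateField ℚ ℝ) {L : ℕ → ℝ} (hL : Tendsto L atTop atTop) :
    Subalgebra F HR := Algebra.adjoin F (rho '' (KK L hL : Set GG))

/-- finite sums of the character with coefficients in `KA`, abstractly -/
abbrev RgA (F : IntermediateField ℚ ℝ) (m : ℕ) {L : ℕ → ℝ} (hL : Tendsto L atTop atTop) :=
  AddMonoidAlgebra (KA F hL) (Fin m → ℝ)

/-- the character with real values -/
noncomputable def XA (B : Base m) {L : ℕ → ℝ} (hL : Tendsto L atTop atTop) :
    Multiplicative (Fin m → ℝ) →* HR := (rho : GG →* HR).comp (XX B hL)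

/-- evaluation -/
noncomputable def evA (F : IntermediateField ℚ ℝ) (B : Base m) {L : ℕ → ℝ}
    (hL : Tendsto L atTop atTop) : RgA F m hL →+* HR :=
  AddMonoidAlgebra.liftNCRingHom (algebraMap (KA F hL) HR) (XA B hL) (fun _ _ => mul_comm _ _)

end Pool.Agent.TH796.AL
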