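import Mathlib
import Pool.Agent.TH796.AL.Defs

set_option autoImplicit false
set_option linter.unusedSectionVars false

/-!
# Project AL: basic lemmas on places, characters and real germs
-/

namespace Pool.Agent.TH796.AL

open Filter Topology Pool.Agent.TH932.Abs Pool.Agent.TH932.Germs Pool.Agent.TH932.Chi

variable {m : ℕ} (B : Base m)

lemma Base.pos (i : Fin m) : 0 < B.P i := by have := B.two i; omega
lemma Base.q0 (i : Fin m) : (B.P i : ℚ) ≠ 0 := by have := B.pos i; exact_mod_cast this.ne'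
lemma Base.r0 (i : Fin m) : (0 : ℝ) < B.P i := by exact_mod_cast B.pos i
lemma Base.log_pos (i : Fin m) : 0 < Real.log (B.P i) :=
  Real.log_pos (by exact_mod_cast (by have := B.two i; omega : 1 < B.P i))

lemma pre_v (v : Option (Fin m)) : Pre (Rv B v) := by
  cases v with
  | none => exact pre_inf
  | some i => exact pre_b (B.two i) _

variable {B}

lemma filt_v {L : ℕ → ℝ} (hL : Tendsto L atTop atTop) (v : Option (Fin m)) :
    Filt (KK L hL) (Sv B L v) := (pre_v B v).filt hL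

variable (B)

lemma zkey {b : ℚ} (hb : b ≠ 0) {u v : ℤ} (huv : u ≤ v) : b ^ u * b ^ (v - u).toNat = b ^ v := by
  rw [← zpow_natCast, ← zpow_add₀ hb]
  congr 1
  omega

lemma pre_S : Pre (RS B) where
  zero := by
    intro ε hε t
    refine ⟨0, fun L hL => ?_⟩
    have h1 : ∀ i, ∃ k : ℕ, (t - ε) * L ≤ k * Real.log (B.P i) := by
      intro i
      obtain ⟨k, hk⟩ := exists_nat_ge ((t - ε) * L / Real.log (B.P i))
      rw [div_le_iff₀ (B.log_pos i)] at hk
      exact ⟨k, hk⟩
    choose k hk using h1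
    refine ⟨1, 0, fun i => k i, one_ne_zero, ?_, by simp, ?_⟩
    · simp only [Int.cast_one, abs_one]
      exact Real.one_le_exp (by positivity)
    · intro i
      have := hk i
      exact_mod_cast this
  add := by
    intro ε hε
    refine ⟨0, fun L hL t a c ha hc => ?_⟩
    obtain ⟨d, u, k, hd, hd1, h, h1⟩ := ha
    obtain ⟨d', u', k', hd', hd1', h', h1'⟩ := hc
    refine ⟨d * d', d' * (∏ i, (B.P i : ℤ) ^ (k i - min (k i) (k' i)).toNat) * u
      + d * (∏ i, (B.P i : ℤ) ^ (k' i - min (k i) (k' i)).toNat) * u',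
      fun i => min (k i) (k' i), mul_ne_zero hd hd', ?_, ?_, ?_⟩
    · push_cast
      rw [abs_mul]
      calc |(d : ℝ)| * |(d' : ℝ)| ≤ Real.exp (ε / 2 * L) * Real.exp (ε / 2 * L) := by gcongr
        _ = Real.exp (ε * L) := by rw [← Real.exp_add]; ring_nf
    · have e1 : (∏ i, (B.P i : ℚ) ^ (min (k i) (k' i)))
          * ∏ i, (B.P i : ℚ) ^ (k i - min (k i) (k' i)).toNat = ∏ i, (B.P i : ℚ) ^ k i := by
        rw [← Finset.prod_mul_distrib]
        exact Finset.prod_congr rfl fun i _ => zkey (B.q0 i) (min_le_left _ _)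
      have e2 : (∏ i, (B.P i : ℚ) ^ (min (k i) (k' i)))
          * ∏ i, (B.P i : ℚ) ^ (k' i - min (k i) (k' i)).toNat = ∏ i, (B.P i : ℚ) ^ k' i := by
        rw [← Finset.prod_mul_distrib]
        exact Finset.prod_congr rfl fun i _ => zkey (B.q0 i) (min_le_right _ _)
      push_cast
      linear_combination (d' : ℚ) * h + (d : ℚ) * h' - (d' * u : ℚ) * e1 - (d * u' : ℚ) * e2
    · intro i
      have h3 : (t - ε) * L ≤ (t - ε / 2) * L := by nlinarith
      have h4 := h1 i
      have h5 := h1' i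
      change _ ≤ ((min (k i) (k' i) : ℤ) : ℝ) * Real.log (B.P i)
      rcases min_choice (k i) (k' i) with h6 | h6
      · rw [h6]; linarith
      · rw [h6]; linarith
  mul := by
    intro ε hε
    refine ⟨0, fun L hL s t a c ha hc => ?_⟩
    obtain ⟨d, u, k, hd, hd1, h, h1⟩ := ha
    obtain ⟨d', u', k', hd', hd1', h', h1'⟩ := hc
    refine ⟨d * d', u * u', fun i => k i + k' i, mul_ne_zero hd hd', ?_, ?_, ?_⟩
    · push_cast
      rw [abs_mul]
      calc |(d : ℝ)| * |(d' : ℝ)| ≤ Real.exp (ε / 2 * L) * Real.exp (ε / 2 * L) := by gcongr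
        _ = Real.exp (ε * L) := by rw [← Real.exp_add]; ring_nf
    · have e1 : ∏ i, (B.P i : ℚ) ^ (k i + k' i)
          = (∏ i, (B.P i : ℚ) ^ k i) * ∏ i, (B.P i : ℚ) ^ k' i := by
        rw [← Finset.prod_mul_distrib]
        exact Finset.prod_congr rfl fun i _ => zpow_add₀ (B.q0 i) _ _
      push_cast
      rw [e1]
      calc (d : ℚ) * d' * (a * c) = (d * a) * (d' * c) := by ring
        _ = _ := by rw [h, h']; ring
    · intro i
      have h4 := h1 i
      have h5 := h1' i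
      push_cast
      nlinarith
  anti := by
    intro ε hε
    refine ⟨0, fun L hL s t a hst ha => ?_⟩
    obtain ⟨d, u, k, hd, hd1, h, h1⟩ := ha
    refine ⟨d, u, k, hd, hd1, h, fun i => ?_⟩
    have := h1 i
    nlinarith
  alg := by
    intro ε hε
    refine ⟨0, fun L hL u d hd hm hd1 => ?_⟩
    refine ⟨d, u, fun _ => 0, hd, hd1, ?_, fun i => ?_⟩
    · have : (d : ℚ) ≠ 0 := by exact_mod_cast hd
      simp only [zpow_zero, Finset.prod_const_one, one_mul]
      field_simp
    · simp only [Int.cast_zero, zero_mul]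
      nlinarith

variable {B}

lemma filt_S {L : ℕ → ℝ} (hL : Tendsto L atTop atTop) : Filt (KK L hL) (SS L (RS B)) :=
  (pre_S B).filt hL

section sint
variable {L : ℕ → ℝ} (hL : Tendsto L atTop atTop)
include hL

lemma Sint.mul {a b : GG} (ha : Sint B L a) (hb : Sint B L b) : Sint B L (a * b) := by
  obtain ⟨s, hs⟩ := ha
  obtain ⟨t, ht⟩ := hb
  exact ⟨s + t, (filt_S hL).mul_mem hs ht⟩

lemma Sint.add {a b : GG} (ha : Sint B L a) (hb : Sint B L b) : Sint B L (a + b) := by
  obtain ⟨s, hs⟩ := ha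
  obtain ⟨t, ht⟩ := hb
  exact ⟨min s t, (filt_S hL).add_mem ((filt_S hL).anti (min_le_left _ _) hs)
    ((filt_S hL).anti (min_le_right _ _) ht)⟩

lemma Sint.zero : Sint B L 0 := ⟨0, (filt_S hL).zero_mem 0⟩

lemma Sint.alg (c : KK L hL) : Sint B L (c : GG) := ⟨0, (filt_S hL).alg_mem c⟩

lemma Sint.sum {ι : Type*} (s : Finset ι) (f : ι → GG) (h : ∀ i ∈ s, Sint B L (f i)) :
    Sint B L (∑ i ∈ s, f i) :=
  Finset.sum_induction f (Sint B L) (fun _ _ => Sint.add hL) (Sint.zero hL) h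

end sint

/-- an `S`-integral germ is bounded at the finite places -/
lemma Rb_of_RS {L ε t : ℝ} {a : ℚ} (v : Fin m) (h : RS B L ε t a) :
    Rb (B.P v) (Pool.Agent.TH932.Germs.cop (B.P v)) L ε t a := by
  obtain ⟨d, u, k, hd, hd1, h, h1⟩ := h
  have hz : ∀ (b : ℚ) (_ : b ≠ 0) (k : ℤ), b ^ k * b ^ (-k).toNat = b ^ k.toNat := by
    intro b hb k
    rw [← zpow_natCast, ← zpow_natCast, ← zpow_add₀ hb]
    congr 1
    omega
  refine ⟨d, ∏ i ∈ Finset.univ.erase v, (B.P i : ℤ) ^ (-(k i)).toNat,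
    (∏ i ∈ Finset.univ.erase v, (B.P i : ℤ) ^ (k i).toNat) * u, k v, hd, hd1, ?_, ?_, h1 v⟩
  · change IsCoprime _ _
    refine IsCoprime.prod_left fun i hi => ?_
    exact IsCoprime.pow_left (B.cop i v (Finset.ne_of_mem_erase hi))
  · rw [← Finset.mul_prod_erase _ _ (Finset.mem_univ v)] at h
    have e : (∏ i ∈ Finset.univ.erase v, (B.P i : ℚ) ^ (k i))
        * ∏ i ∈ Finset.univ.erase v, (B.P i : ℚ) ^ (-(k i)).toNat
        = ∏ i ∈ Finset.univ.erase v, (B.P i : ℚ) ^ (k i).toNat := by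
      rw [← Finset.prod_mul_distrib]
      exact Finset.prod_congr rfl fun i _ => hz _ (B.q0 i) _
    push_cast
    rw [← e]
    linear_combination (∏ i ∈ Finset.univ.erase v, (B.P i : ℚ) ^ (-(k i)).toNat) * h

lemma Sint.fin {L : ℕ → ℝ} {g : GG} (h : Sint B L g) (v : Fin m) : ∃ t : ℝ, g ∈ Sv B L (some v) t := by
  obtain ⟨t, a, ha, hR⟩ := h
  refine ⟨t, a, ha, fun ε hε => ?_⟩
  filter_upwards [hR ε hε] with n hn using Rb_of_RS v hn

/-! ## the character -/

lemma lv_add (v : Option (Fin m)) (g h : Fin m → ℝ) : lv B v (g + h) = lv B v g + lv B v h := by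
  cases v with
  | none =>
    simp only [lv, Pi.add_apply, add_mul, Finset.sum_add_distrib]
    ring
  | some i => simp only [lv, Pi.add_apply]; ring

lemma lv_neg (v : Option (Fin m)) (g : Fin m → ℝ) : lv B v (-g) = -lv B v g := by
  cases v with
  | none => simp only [lv, Pi.neg_apply, neg_mul, Finset.sum_neg_distrib]
  | some i => simp only [lv, Pi.neg_apply]; ring

lemma lv_sub (v : Option (Fin m)) (g h : Fin m → ℝ) : lv B v (g - h) = lv B v g - lv B v h := by
  rw [sub_eq_add_neg, lv_add, lv_neg, sub_eq_add_neg]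

lemma lv_zero (v : Option (Fin m)) : lv B v 0 = 0 := by
  cases v <;> simp [lv]

/-- the product formula -/
lemma lv_sum (g : Fin m → ℝ) : ∑ v, lv B v g = 0 := by
  rw [Fintype.sum_option]
  simp only [lv]
  ring

section char
variable {L : ℕ → ℝ} (hL : Tendsto L atTop atTop)

lemma ch_add (g h : Fin m → ℝ) : ch B hL (g + h) = ch B hL g * ch B hL h := by
  unfold ch; rw [ofAdd_add, map_mul]

lemma ch_zero : ch B hL 0 = 1 := by unfold ch; rw [ofAdd_zero, map_one]

lemma ch_ne (g : Fin m → ℝ) : ch B hL g ≠ 0 := by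
  intro h
  have := ch_add (B := B) hL g (-g)
  rw [add_neg_cancel, ch_zero, h, zero_mul] at this
  exact one_ne_zero this

lemma ch_neg (g : Fin m → ℝ) : ch B hL (-g) = (ch B hL g)⁻¹ := by
  have := ch_add (B := B) hL g (-g)
  rw [add_neg_cancel, ch_zero] at this
  exact (eq_inv_of_mul_eq_one_right this.symm)

@[simp] lemma ev_single (g : Fin m → ℝ) (a : KK L hL) :
    ev B hL (AddMonoidAlgebra.single g a) = (a : GG) * ch B hL g := by
  unfold ev
  change AddMonoidAlgebra.liftNC _ _ _ = _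
  rw [AddMonoidAlgebra.liftNC_single]
  rfl

/-- elements of a group ring as sums -/
lemma sum_single {R : Type*} [Semiring R] (f : AddMonoidAlgebra R (Fin m → ℝ)) :
    f = ∑ g ∈ f.coeff.support, AddMonoidAlgebra.single g (f.coeff g) := by
  apply AddMonoidAlgebra.coeff_injective
  ext x
  have h : (∑ g ∈ f.coeff.support, AddMonoidAlgebra.single g (f.coeff g)).coeff x
      = ∑ g ∈ f.coeff.support, (AddMonoidAlgebra.single g (f.coeff g)).coeff x := by
    classical
    induction f.coeff.support using Finset.induction_on with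
    | empty => simp
    | insert a s ha ih => rw [Finset.sum_insert ha, Finset.sum_insert ha,
        AddMonoidAlgebra.coeff_add, Finsupp.add_apply, ih]
  rw [h]
  by_cases hx : x ∈ f.coeff.support
  · rw [Finset.sum_eq_single x]
    · rw [AddMonoidAlgebra.coeff_single, Finsupp.single_eq_same]
    · intro b _ hb
      rw [AddMonoidAlgebra.coeff_single, Finsupp.single_eq_of_ne (Ne.symm hb)]
    · intro h; exact absurd hx h
  · rw [Finset.sum_eq_zero]
    · exact Finsupp.notMem_support_iff.1 hx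
    · intro b hb
      rw [AddMonoidAlgebra.coeff_single, Finsupp.single_eq_of_ne]
      rintro rfl; exact hx hb

lemma ev_sum (f : Rg m hL) :
    ev B hL f = ∑ g ∈ f.coeff.support, ((f.coeff g : KK L hL) : GG) * ch B hL g := by
  conv_lhs => rw [sum_single f]
  rw [map_sum]
  exact Finset.sum_congr rfl fun g _ => ev_single hL g _

lemma ch_fin (v : Fin m) (g : Fin m → ℝ) : ch B hL g ∈ Sv B L (some v) (lv B (some v) g) := by
  have hlp := B.log_pos v
  unfold Sv
  rw [ch_eq, mem_SS]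
  intro ε hε
  have hε' : 0 < ε / Real.log (B.P v) := by positivity
  filter_upwards [ev_of_atTop (fl_near hL (g v) hε'), L_nonneg hL] with n h1 h2
  have hz : ∀ (b : ℚ) (_ : b ≠ 0) (k : ℤ), b ^ k * b ^ (-k).toNat = b ^ k.toNat := by
    intro b hb k
    rw [← zpow_natCast, ← zpow_natCast, ← zpow_add₀ hb]
    congr 1
    omega
  refine ⟨1, ∏ i ∈ Finset.univ.erase v, (B.P i : ℤ) ^ (-⌊ell hL (g i) n⌋).toNat,
    ∏ i ∈ Finset.univ.erase v, (B.P i : ℤ) ^ (⌊ell hL (g i) n⌋).toNat, ⌊ell hL (g v) n⌋,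
    one_ne_zero, ?_, ?_, ?_, ?_⟩
  · simp only [Int.cast_one, abs_one]
    exact Real.one_le_exp (by positivity)
  · change IsCoprime _ _
    refine IsCoprime.prod_left fun i hi => ?_
    exact IsCoprime.pow_left (B.cop i v (Finset.ne_of_mem_erase hi))
  · rw [← Finset.mul_prod_erase _ _ (Finset.mem_univ v)]
    have e : (∏ i ∈ Finset.univ.erase v, (B.P i : ℚ) ^ ⌊ell hL (g i) n⌋)
        * ∏ i ∈ Finset.univ.erase v, (B.P i : ℚ) ^ (-⌊ell hL (g i) n⌋).toNat
        = ∏ i ∈ Finset.univ.erase v, (B.P i : ℚ) ^ (⌊ell hL (g i) n⌋).toNat := by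
      rw [← Finset.prod_mul_distrib]
      exact Finset.prod_congr rfl fun i _ => hz _ (B.q0 i) _
    push_cast
    rw [← e]
    ring
  · have h3 := (abs_le.1 h1).1
    have h4 : (g v * L n - ε / Real.log (B.P v) * L n) * Real.log (B.P v)
        ≤ ((⌊ell hL (g v) n⌋ : ℤ) : ℝ) * Real.log (B.P v) := by
      gcongr; linarith
    have h5 : (g v * L n - ε / Real.log (B.P v) * L n) * Real.log (B.P v)
        = (g v * Real.log (B.P v) - ε) * L n := by
      field_simp
    unfold lv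
    linarith

lemma ch_inf (g : Fin m → ℝ) : ch B hL g ∈ Sv B L none (lv B none g) := by
  unfold Sv
  rw [ch_eq, mem_SS]
  intro ε hε
  have h1 : ∀ᶠ n in (UU : Filter ℕ), ∀ i, |((⌊ell hL (g i) n⌋ : ℤ) : ℝ) - g i * L n|
      ≤ ε / ((m + 1) * Real.log (B.P i)) * L n := by
    rw [Filter.eventually_all]
    intro i
    have := B.log_pos i
    exact ev_of_atTop (fl_near hL (g i) (by positivity))
  filter_upwards [h1, L_nonneg hL] with n h1 h3
  change Rinf _ _ _ _
  unfold Rinf
  push_cast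
  have e1 : ∏ i, (B.P i : ℝ) ^ ⌊ell hL (g i) n⌋
      = Real.exp (∑ i, ((⌊ell hL (g i) n⌋ : ℤ) : ℝ) * Real.log (B.P i)) := by
    rw [Real.exp_sum]
    exact Finset.prod_congr rfl fun i _ => zpow_exp (B.two i) _
  rw [e1, abs_of_pos (Real.exp_pos _)]
  apply Real.exp_le_exp.2
  have h2 : ∀ i, ((⌊ell hL (g i) n⌋ : ℤ) : ℝ) * Real.log (B.P i)
      ≤ g i * Real.log (B.P i) * L n + ε / (m + 1) * L n := by
    intro i
    have h4 := (abs_le.1 (h1 i)).2
    have hlp := B.log_pos i
    have h5 : ((⌊ell hL (g i) n⌋ : ℤ) : ℝ) * Real.log (B.P i)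
        ≤ (g i * L n + ε / ((m + 1) * Real.log (B.P i)) * L n) * Real.log (B.P i) := by
      gcongr; linarith
    refine h5.trans (le_of_eq ?_)
    field_simp
  calc ∑ i, ((⌊ell hL (g i) n⌋ : ℤ) : ℝ) * Real.log (B.P i)
      ≤ ∑ i, (g i * Real.log (B.P i) * L n + ε / (m + 1) * L n) :=
        Finset.sum_le_sum fun i _ => h2 i
    _ = (∑ i, g i * Real.log (B.P i)) * L n + m * (ε / (m + 1) * L n) := by
        rw [Finset.sum_add_distrib, Finset.sum_mul, Finset.sum_const, Finset.card_univ,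
          Fintype.card_fin, nsmul_eq_mul]
    _ ≤ _ := by
        have h6 : (m : ℝ) * (ε / (m + 1) * L n) ≤ ε * L n := by
          have : (m : ℝ) * (ε / (m + 1) * L n) = (m / (m + 1)) * (ε * L n) := by ring
          rw [this]
          have h7 : (m : ℝ) / (m + 1) ≤ 1 := by
            rw [div_le_one (by positivity)]; linarith
          have h8 : 0 ≤ ε * L n := by positivity
          nlinarith
        unfold lv
        nlinarith

/-- the valuations of the character -/
lemma ch_mem (v : Option (Fin m)) (g : Fin m → ℝ) : ch B hL g ∈ Sv B L v (lv B v g) := by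
  cases v with
  | none => exact ch_inf hL g
  | some v => exact ch_fin hL v g

lemma ch_sint (g : Fin m → ℝ) : Sint B L (ch B hL g) := by
  obtain ⟨t, ht⟩ : ∃ t : ℝ, ∀ i, t ≤ g i * Real.log (B.P i) := by
    refine ⟨-∑ i, |g i * Real.log (B.P i)|, fun i => ?_⟩
    have h1 : |g i * Real.log (B.P i)| ≤ ∑ i, |g i * Real.log (B.P i)| :=
      Finset.single_le_sum (f := fun i => |g i * Real.log (B.P i)|) (fun i _ => abs_nonneg _)
        (Finset.mem_univ i)
    have h2 := neg_abs_le (g i * Real.log (B.P i))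
    linarith
  refine ⟨t, ?_⟩
  rw [ch_eq, mem_SS]
  intro ε hε
  have h1 : ∀ᶠ n in (UU : Filter ℕ), ∀ i, |((⌊ell hL (g i) n⌋ : ℤ) : ℝ) - g i * L n|
      ≤ ε / Real.log (B.P i) * L n := by
    rw [Filter.eventually_all]
    intro i
    have := B.log_pos i
    exact ev_of_atTop (fl_near hL (g i) (by positivity))
  filter_upwards [h1, L_nonneg hL] with n h1 h3
  refine ⟨1, 1, fun i => ⌊ell hL (g i) n⌋, one_ne_zero, ?_, by simp, fun i => ?_⟩
  · simp only [Int.cast_one, abs_one]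
    exact Real.one_le_exp (by positivity)
  · have hlp := B.log_pos i
    have h4 := (abs_le.1 (h1 i)).1
    have h5 : (g i * L n - ε / Real.log (B.P i) * L n) * Real.log (B.P i)
        ≤ ((⌊ell hL (g i) n⌋ : ℤ) : ℝ) * Real.log (B.P i) := by
      gcongr; linarith
    have h6 : (g i * L n - ε / Real.log (B.P i) * L n) * Real.log (B.P i)
        = (g i * Real.log (B.P i) - ε) * L n := by
      field_simp
    have h7 := ht i
    nlinarith

lemma ev_sint (f : Rg m hL) : Sint B L (ev B hL f) := by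
  rw [ev_sum]
  exact Sint.sum hL _ _ fun g _ => Sint.mul hL (Sint.alg hL _) (ch_sint hL g)

/-- products of powers with negligible exponents are in the constant field -/
lemma prod_mem_KK (k : ℕ → Fin m → ℤ)
    (hk : ∀ i, ∀ ε : ℝ, 0 < ε → ∀ᶠ n in (UU : Filter ℕ), |(k n i : ℝ)| ≤ ε * L n) :
    gm (fun n => ∏ i, (B.P i : ℚ) ^ (k n i)) ∈ KK L hL := by
  have h1 : ∀ s : Finset (Fin m), gm (fun n => ∏ i ∈ s, (B.P i : ℚ) ^ (k n i)) ∈ KK L hL := by
    classical
    intro s
    induction s using Finset.induction_on with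
    | empty =>
      simp only [Finset.prod_empty]
      rw [gm_one]
      exact (KK L hL).one_mem
    | insert i s hi ih =>
      have e : gm (fun n => ∏ i ∈ insert i s, (B.P i : ℚ) ^ (k n i))
          = gm (fun n => (B.P i : ℚ) ^ (k n i)) * gm (fun n => ∏ i ∈ s, (B.P i : ℚ) ^ (k n i)) := by
        rw [gm_mul]
        congr 1
        funext n
        rw [Finset.prod_insert hi]
      rw [e]
      refine (KK L hL).mul_mem ?_ ih
      have h2 := pow_mem_KK hL (B.two i) (le_refl 2) (fun n => k n i) (fun _ => 0) (hk i) (by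
        intro ε hε
        filter_upwards [L_nonneg hL] with n hn
        simp only [Int.cast_zero, abs_zero]
        positivity)
      simpa using h2
  exact h1 Finset.univ

/-- products of powers with exponents close to `g i L` are constant multiples of the character -/
lemma exists_const (g : Fin m → ℝ) (a : ℕ → Fin m → ℤ)
    (ha : ∀ i, ∀ ε : ℝ, 0 < ε → ∀ᶠ n in (UU : Filter ℕ), |(a n i : ℝ) - g i * L n| ≤ ε * L n) :
    ∃ κ : KK L hL, κ ≠ 0 ∧ gm (fun n => ∏ i, (B.P i : ℚ) ^ (a n i))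
      = (κ : GG) * ch B hL g := by
  have hsub : ∀ i, ∀ ε : ℝ, 0 < ε → ∀ᶠ n in (UU : Filter ℕ),
      |((a n i - ⌊ell hL (g i) n⌋ : ℤ) : ℝ)| ≤ ε * L n := by
    intro i ε hε
    filter_upwards [ha i (ε / 2) (by positivity), ev_of_atTop (fl_near hL (g i) (half_pos hε))]
      with n h1 h2
    push_cast
    have h3 : (a n i : ℝ) - ((⌊ell hL (g i) n⌋ : ℤ) : ℝ) = ((a n i : ℝ) - g i * L n)
      - (((⌊ell hL (g i) n⌋ : ℤ) : ℝ) - g i * L n) := by ring
    rw [h3]
    refine (abs_sub _ _).trans ?_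
    linarith
  have hmem := prod_mem_KK (B := B) hL (fun n i => a n i - ⌊ell hL (g i) n⌋) hsub
  refine ⟨⟨_, hmem⟩, ?_, ?_⟩
  · intro h
    have h1 : gm (fun n => ∏ i, (B.P i : ℚ) ^ (a n i - ⌊ell hL (g i) n⌋)) = 0 :=
      congrArg Subtype.val h
    have h2 : gm (fun n => ∏ i, (B.P i : ℚ) ^ (a n i - ⌊ell hL (g i) n⌋)) ≠ 0 := by
      rw [gm_ne_zero]
      refine Eventually.of_forall fun n => ?_
      exact Finset.prod_ne_zero_iff.2 fun i _ => zpow_ne_zero _ (B.q0 i)
    exact h2 h1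
  · rw [ch_eq, gm_mul]
    congr 1
    funext n
    rw [← Finset.prod_mul_distrib]
    refine Finset.prod_congr rfl fun i _ => ?_
    rw [← zpow_add₀ (B.q0 i)]
    congr 1
    ring

end char

/-! ## real germs -/

lemma mem_SR {L : ℕ → ℝ} {t : ℝ} {a : ℕ → ℝ} :
    gr a ∈ SR L t ↔ ∀ ε : ℝ, 0 < ε → ∀ᶠ n in (UU : Filter ℕ),
      |a n| ≤ Real.exp (-(t - ε) * L n) := by
  constructor
  · rintro ⟨b, hb, h⟩ ε hε
    filter_upwards [gr_eq.1 hb, h ε hε] with n h1 h2
    rw [h1]; exact h2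
  · intro h; exact ⟨a, rfl, h⟩

section real
variable {L : ℕ → ℝ} (hL : Tendsto L atTop atTop)

lemma SR_zero (t : ℝ) : (0 : HR) ∈ SR L t := by
  rw [← gr_zero, mem_SR]
  intro ε _
  exact Eventually.of_forall fun n => by rw [abs_zero]; exact (Real.exp_pos _).le

include hL

lemma SR_add {t : ℝ} {a b : HR} (ha : a ∈ SR L t) (hb : b ∈ SR L t) : a + b ∈ SR L t := by
  obtain ⟨a, rfl⟩ := gr_surj a
  obtain ⟨b, rfl⟩ := gr_surj b
  rw [gr_add, mem_SR]
  rw [mem_SR] at ha hb
  intro ε hε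
  filter_upwards [ha (ε / 2) (by positivity), hb (ε / 2) (by positivity),
    two_le_exp hL (show 0 < ε / 2 by positivity)] with n h1 h2 h3
  calc |a n + b n| ≤ |a n| + |b n| := abs_add_le _ _
    _ ≤ Real.exp (-(t - ε / 2) * L n) + Real.exp (-(t - ε / 2) * L n) := by gcongr
    _ = 2 * Real.exp (-(t - ε / 2) * L n) := by ring
    _ ≤ Real.exp (ε / 2 * L n) * Real.exp (-(t - ε / 2) * L n) := by gcongr
    _ = Real.exp (-(t - ε) * L n) := by rw [← Real.exp_add]; ring_nf

lemma SR_mul {s t : ℝ} {a b : HR} (ha : a ∈ SR L s) (hb : b ∈ SR L t) : a * b ∈ SR L (s + t) := by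
  obtain ⟨a, rfl⟩ := gr_surj a
  obtain ⟨b, rfl⟩ := gr_surj b
  rw [gr_mul, mem_SR]
  rw [mem_SR] at ha hb
  intro ε hε
  filter_upwards [ha (ε / 2) (by positivity), hb (ε / 2) (by positivity)] with n h1 h2
  rw [abs_mul]
  calc |a n| * |b n| ≤ Real.exp (-(s - ε / 2) * L n) * Real.exp (-(t - ε / 2) * L n) := by
        gcongr
    _ = Real.exp (-(s + t - ε) * L n) := by rw [← Real.exp_add]; ring_nf

lemma SR_anti {s t : ℝ} {a : HR} (hst : s ≤ t) (ha : a ∈ SR L t) : a ∈ SR L s := by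
  obtain ⟨a, rfl⟩ := gr_surj a
  rw [mem_SR] at ha ⊢
  intro ε hε
  filter_upwards [ha ε hε, L_nonneg hL] with n h1 h2
  refine h1.trans (Real.exp_le_exp.2 ?_)
  nlinarith

lemma SR_sum {ι : Type*} (s : Finset ι) (f : ι → HR) {t : ℝ} (h : ∀ i ∈ s, f i ∈ SR L t) :
    ∑ i ∈ s, f i ∈ SR L t :=
  Finset.sum_induction f (fun g => g ∈ SR L t) (fun _ _ => SR_add hL) (SR_zero t) h

/-- constants -/
lemma SR_cst (r : ℝ) : algebraMap ℝ HR r ∈ SR L 0 := by
  rw [cst_eq, mem_SR]
  intro ε hε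
  have h1 : ∀ᶠ n in (UU : Filter ℕ), Real.log (|r| + 1) / ε ≤ L n :=
    ev_of_atTop (hL.eventually_ge_atTop _)
  filter_upwards [h1] with n hn
  rw [div_le_iff₀ hε] at hn
  calc |r| ≤ |r| + 1 := by linarith
    _ = Real.exp (Real.log (|r| + 1)) := (Real.exp_log (by positivity)).symm
    _ ≤ _ := Real.exp_le_exp.2 (by linarith)

end real

/-- rational germs at the real place -/
lemma SR_rho {L : ℕ → ℝ} {g : GG} {t : ℝ} (h : g ∈ Sv B L none t) : rho g ∈ SR L t := by
  obtain ⟨a, rfl⟩ := gm_surj g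
  unfold Sv at h
  rw [mem_SS] at h
  rw [rho_gm, mem_SR]
  intro ε hε
  filter_upwards [h ε hε] with n hn
  exact hn

lemma SR_rho' {L : ℕ → ℝ} {g : GG} {t : ℝ} (h : rho g ∈ SR L t) : g ∈ Sv B L none t := by
  obtain ⟨a, rfl⟩ := gm_surj g
  unfold Sv
  rw [mem_SS]
  rw [rho_gm, mem_SR] at h
  intro ε hε
  filter_upwards [h ε hε] with n hn
  exact hn

/-- inverses of real germs which are not small -/
lemma SR_inv {L : ℕ → ℝ} (hL : Tendsto L atTop atTop) (t : ℝ) (a : HR) (ha : a ∉ SR L t) :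
    a⁻¹ ∈ SR L (-t) := by
  obtain ⟨a, rfl⟩ := gr_surj a
  rw [mem_SR] at ha
  push Not at ha
  obtain ⟨ε, hε, h⟩ := ha
  rw [gr_inv, mem_SR]
  intro ε' hε'
  filter_upwards [h, L_nonneg hL] with n h1 h2
  rw [abs_inv]
  calc |a n|⁻¹ ≤ (Real.exp (-(t - ε) * L n))⁻¹ := by
        apply inv_anti₀ (Real.exp_pos _) h1.le
    _ = Real.exp ((t - ε) * L n) := by rw [← Real.exp_neg]; ring_nf
    _ ≤ Real.exp (-(-t - ε') * L n) := by
        apply Real.exp_le_exp.2
        nlinarith

section evA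
variable {L : ℕ → ℝ} (hL : Tendsto L atTop atTop) (F : IntermediateField ℚ ℝ)

@[simp] lemma evA_single (g : Fin m → ℝ) (a : KA F hL) :
    evA F B hL (AddMonoidAlgebra.single g a) = (a : HR) * rho (ch B hL g) := by
  unfold evA
  change AddMonoidAlgebra.liftNC _ _ _ = _
  rw [AddMonoidAlgebra.liftNC_single]
  rfl

lemma evA_sum (f : RgA F m hL) :
    evA F B hL f = ∑ g ∈ f.coeff.support, ((f.coeff g : KA F hL) : HR) * rho (ch B hL g) := by
  conv_lhs => rw [sum_single f]
  rw [map_sum]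
  exact Finset.sum_congr rfl fun g _ => evA_single hL F g _

/-- negligible germs are in `KA` -/
lemma rho_mem_KA (c : KK L hL) : rho (c : GG) ∈ KA F hL :=
  Algebra.subset_adjoin ⟨_, c.2, rfl⟩

/-- elements of the number field are in `KA` -/
lemma cst_mem_KA (r : F) : algebraMap ℝ HR (r : ℝ) ∈ KA F hL :=
  (KA F hL).algebraMap_mem r

/-- elements of `KA` are of size `exp (o (L))` -/
lemma SR_KA (c : KA F hL) : (c : HR) ∈ SR L 0 := by
  obtain ⟨c, hc⟩ := c
  change c ∈ SR L 0
  unfold KA at hc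
  induction hc using Algebra.adjoin_induction with
  | mem x hx =>
    obtain ⟨g, hg, rfl⟩ := hx
    have h1 : g ∈ Sv (B := (⟨fun i => i.elim0, fun i => i.elim0, fun i => i.elim0⟩ : Base 0)) L none 0 :=
      (filt_v (B := (⟨fun i => i.elim0, fun i => i.elim0, fun i => i.elim0⟩ : Base 0)) hL none).alg_mem ⟨g, hg⟩
    exact SR_rho h1
  | algebraMap r => exact SR_cst hL _
  | add x y _ _ hx hy => exact SR_add hL hx hy
  | mul x y _ _ hx hy =>
    have := SR_mul hL hx hy
    rwa [add_zero] at this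

end evA

end Pool.Agent.TH796.AL
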