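import Mathlib
import Pool.Agent.TH796.AL.Defs
import Pool.Agent.TH932.S2.Stms2
import Pool.Agent.TH286.GT.Stms

set_option autoImplicit false

/-!
# Project AL: statements

Goal: the field generated by all real numbers whose expansion in some integer base has linear
block complexity contains no irrational algebraic number.

This is the project S2 of helper932 (`Pool.Agent.TH932.S2`) with several coprime integers instead
of two and with linear forms with algebraic coefficients at the real place.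
-/

namespace Pool.Agent.TH796.AL

open Filter Topology Pool.Agent.TH932.Abs Pool.Agent.TH932.Germs Pool.Agent.TH932.Chi
open Pool.Agent.TH932.Words

/-- A1: the subspace theorem for germs, rational forms with fixed coefficients at all places
(port of `Pool.Agent.TH932.S2.FixStmt`) -/
def FixQStmt : Prop :=
  ∀ (m : ℕ) (B : Base m) (L : ℕ → ℝ) (_ : Tendsto L atTop atTop) (ι : Type) (_ : Fintype ι)
    (z : Option (Fin m) → ι → GG) (w : Option (Fin m) → ι → ℝ)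
    (_ : ∀ v, ∀ c : ι → ℤ, ∑ i, (c i : GG) * z v i = 0 → ∀ i, c i = 0)
    (_ : ∀ v i, ∃ N : ℤ, N ≠ 0 ∧ ∃ c : ι → ℤ, (N : GG) * z v i = ∑ j, (c j : GG) * z none j)
    (_ : ∀ v i, z v i ∈ Sv B L v (w v i)) (_ : ∀ i, Sint B L (z none i)),
    ∑ v, ∑ i, w v i ≤ 0

/-- A2: the same with coefficients in the negligible field
(port of `Pool.Agent.TH932.S2.MovStmt`) -/
def MovQStmt : Prop :=
  ∀ (m : ℕ) (B : Base m) (L : ℕ → ℝ) (hL : Tendsto L atTop atTop) (ι : Type) (_ : Fintype ι)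
    (z : Option (Fin m) → ι → GG) (w : Option (Fin m) → ι → ℝ)
    (_ : ∀ v, ∀ c : ι → KK L hL, ∑ i, (c i : GG) * z v i = 0 → ∀ i, c i = 0)
    (_ : ∀ v i, ∃ c : ι → KK L hL, z v i = ∑ j, (c j : GG) * z none j)
    (_ : ∀ v i, z v i ∈ Sv B L v (w v i)) (_ : ∀ i, Sint B L (z none i)),
    ∑ v, ∑ i, w v i ≤ 0

/-- A3: the values of the character are linearly independent over the negligible field
(port of `Pool.Agent.TH932.S2.SUStmt`) -/
def SUStmt : Prop :=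
  ∀ (m : ℕ) (B : Base m) (L : ℕ → ℝ) (hL : Tendsto L atTop atTop) (f : Rg m hL),
    ev B hL f = 0 → f = 0

/-- A4: the subspace theorem for germs: coordinates at the finite places, linear forms with
coefficients in a real number field at the real place -/
def FixAStmt : Prop :=
  ∀ (m : ℕ) (B : Base m) (L : ℕ → ℝ) (_ : Tendsto L atTop atTop) (F : IntermediateField ℚ ℝ)
    (_ : FiniteDimensional ℚ F) (n : ℕ) (x : Fin n → GG) (z : Fin n → HR)
    (w : Fin m → Fin n → ℝ) (wI : Fin n → ℝ)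
    (_ : ∀ c : Fin n → ℤ, ∑ i, (c i : GG) * x i = 0 → ∀ i, c i = 0)
    (_ : LinearIndependent F z)
    (_ : ∀ i, z i ∈ Submodule.span F (Set.range fun j => rho (x j)))
    (_ : ∀ v i, x i ∈ Sv B L (some v) (w v i)) (_ : ∀ i, z i ∈ SR L (wI i))
    (_ : ∀ i, Sint B L (x i)),
    ∑ v, ∑ i, w v i + ∑ i, wI i ≤ 0

/-- A5: the same with coefficients in `KA`, for elements `x i` bounded at the real place -/
def MovAStmt : Prop :=
  ∀ (m : ℕ) (B : Base m) (L : ℕ → ℝ) (hL : Tendsto L atTop atTop) (F : IntermediateField ℚ ℝ)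
    (_ : FiniteDimensional ℚ F) (ι : Type) (_ : Fintype ι) (x : ι → GG) (z : ι → HR)
    (w : Fin m → ι → ℝ) (wI : ι → ℝ)
    (_ : ∀ c : ι → KK L hL, ∑ i, (c i : GG) * x i = 0 → ∀ i, c i = 0)
    (_ : ∀ c : ι → KA F hL, ∑ i, (c i : HR) * z i = 0 → ∀ i, c i = 0)
    (_ : ∀ i, ∃ c : ι → KA F hL, z i = ∑ j, (c j : HR) * rho (x j))
    (_ : ∀ v i, x i ∈ Sv B L (some v) (w v i)) (_ : ∀ i, z i ∈ SR L (wI i))
    (_ : ∀ i, Sint B L (x i)) (C : ℝ) (_ : ∀ i, rho (x i) ∈ SR L (-C)),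
    ∑ v, ∑ i, w v i + ∑ i, wI i ≤ 0

/-- A6: elements of `KA` in terms of a basis of the number field -/
def DecStmt : Prop :=
  ∀ (L : ℕ → ℝ) (hL : Tendsto L atTop atTop) (F : IntermediateField ℚ ℝ)
    (_ : FiniteDimensional ℚ F) (κ : Type) (_ : Fintype κ) (β : Module.Basis κ ℚ F) (g : HR),
    g ∈ KA F hL ↔ ∃ c : κ → KK L hL, g = ∑ k, algebraMap ℝ HR (β k : ℝ) * rho (c k : GG)

/-- A7: rational germs are linearly disjoint from the constants -/
def DisjStmt : Prop :=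
  ∀ (κ : Type) (_ : Fintype κ) (β : κ → ℝ) (_ : LinearIndependent ℚ β) (g : κ → GG),
    ∑ k, algebraMap ℝ HR (β k) * rho (g k) = 0 → ∀ k, g k = 0

/-- A8: extension of scalars for the group ring -/
def ExtStmt : Prop :=
  ∀ (m : ℕ) (B : Base m) (L : ℕ → ℝ) (hL : Tendsto L atTop atTop) (F : IntermediateField ℚ ℝ)
    (_ : FiniteDimensional ℚ F) (J : Type) (_ : Fintype J) (ζ : J → GG)
    (_ : ∀ A : J → Rg m hL, ∑ j, ev B hL (A j) * ζ j = 0 → ∀ j, A j = 0)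
    (A : J → RgA F m hL), ∑ j, evA F B hL (A j) * rho (ζ j) = 0 → ∀ j, A j = 0

/-- A9: the key proposition at the real place, with algebraic coefficients -/
def KPAStmt : Prop :=
  ∀ (m : ℕ) (B : Base m) (L : ℕ → ℝ) (hL : Tendsto L atTop atTop) (F : IntermediateField ℚ ℝ)
    (_ : FiniteDimensional ℚ F) (J : Type) (_ : Fintype J) (ζ : J → GG) (C : ℝ)
    (_ : ∀ A : J → Rg m hL, ∑ j, ev B hL (A j) * ζ j = 0 → ∀ j, A j = 0)
    (_ : ∀ v j, ζ j ∈ Sv B L v (-C)) (_ : ∀ j, Sint B L (ζ j)),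
    ∃ K0 : ℝ, ∀ (A : J → RgA F m hL) (x : ℝ),
      ∑ j, evA F B hL (A j) * rho (ζ j) ∈ SR L x →
      ∀ j g, (A j).coeff g ≠ 0 → x ≤ lv B none g + K0

/-- the real number `x` is approximated to every order by combinations of finitely many bounded
germs -/
def Rep {m : ℕ} (B : Base m) {L : ℕ → ℝ} (hL : Tendsto L atTop atTop) (x : ℝ) : Prop :=
  ∃ (Z : Type) (_ : Fintype Z) (z : Z → GG) (C : ℝ),
    (∀ v j, z j ∈ Sv B L v (-C)) ∧ (∀ j, Sint B L (z j)) ∧
    ∀ E : ℝ, ∃ (P : Z → Rg m hL) (s : ℕ → ℚ),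
      gm s = ∑ j, ev B hL (P j) * z j ∧
      ∀ᶠ n in (UU : Filter ℕ), |x - s n| ≤ Real.exp (-(E * L n))

/-- A10: numbers of linear complexity are represented
(port of `Pool.Agent.TH932.S2.rep_of`) -/
def RepStmt : Prop :=
  ∀ (m : ℕ) (B : Base m) (b : ℕ) (_ : 2 ≤ b) (e : Fin m → ℕ) (_ : b = ∏ i, B.P i ^ e i)
    (x : ℝ) (_ : Irrational x) (N : ℕ → ℕ) (_ : ∀ n, 2 ≤ N n) (C : ℝ)
    (_ : ∀ n, (cx (Pool.Agent.TH932.S2.dw b x) (N n) : ℝ) ≤ C * N n)
    (hL : Tendsto (fun n => (N n : ℝ)) atTop atTop), Rep B hL x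

/-- A11: the represented numbers form a `ℚ`-algebra -/
def RingStmt : Prop :=
  ∀ (m : ℕ) (B : Base m) (L : ℕ → ℝ) (hL : Tendsto L atTop atTop) (σ : Type) (x : σ → ℝ)
    (_ : ∀ i, Rep B hL (x i)) (f : MvPolynomial σ ℚ), Rep B hL (MvPolynomial.aeval x f)

/-- A12: represented numbers are linearly disjoint from real algebraic numbers -/
def LinDisjStmt : Prop :=
  ∀ (m : ℕ) (B : Base m) (L : ℕ → ℝ) (hL : Tendsto L atTop atTop) (k : ℕ) (β : Fin k → ℝ)
    (_ : ∀ l, IsAlgebraic ℚ (β l)) (_ : LinearIndependent ℚ β) (r : Fin k → ℝ)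
    (_ : ∀ l, Rep B hL (r l)), ∑ l, β l * r l = 0 → ∀ l, r l = 0

/-- A13: the theorem -/
def FieldStmt : Prop :=
  ∀ (k : ℕ) (b : Fin k → ℕ) (_ : ∀ i, 2 ≤ b i) (x : Fin k → ℝ) (C : ℝ)
    (_ : ∃ᶠ n : ℕ in atTop, ∀ i, (cx (Pool.Agent.TH932.S2.dw (b i) (x i)) n : ℝ) ≤ C * n)
    (y : ℝ) (_ : y ∈ Subfield.closure (Set.range x)) (_ : IsAlgebraic ℚ y), ∃ r : ℚ, (r : ℝ) = y

end Pool.Agent.TH796.AL
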