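import Mathlib
import Pool.Agent.TH796.AL.Stms

set_option autoImplicit false

/-!
# Project AL: addresses in systems of rational contractions, statements
-/

namespace Pool.Agent.TH796.AL

open Filter Topology Pool.Agent.TH932.Abs Pool.Agent.TH932.Germs Pool.Agent.TH932.Chi
open Pool.Agent.TH932.Words

/-- the real number `x` has the address `w` in the system of the maps `t ↦ γ a * t + c a` -/
def Addr {α : Type} (γ c : α → ℚ) (w : ℕ → α) (x : ℝ) : Prop :=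
  ∃ (y : ℕ → ℝ) (M : ℝ), (∀ n, |y n| ≤ M) ∧ y 0 = x ∧ ∀ n, y n = γ (w n) * y (n + 1) + c (w n)

/-- G1: numbers with addresses of linear complexity are represented -/
def RepGStmt : Prop :=
  ∀ (m : ℕ) (B : Base m) (α : Type) (_ : Finite α) (γ c : α → ℚ)
    (_ : ∀ a, γ a ≠ 0 ∧ |γ a| < 1) (e : α → Fin m → ℤ)
    (_ : ∀ a, |γ a| = ∏ i, (B.P i : ℚ) ^ e a i) (w : ℕ → α) (x : ℝ) (_ : Addr γ c w x)
    (_ : Irrational x) (N : ℕ → ℕ) (_ : ∀ n, 2 ≤ N n) (C : ℝ)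
    (_ : ∀ n, (cx w (N n) : ℝ) ≤ C * N n)
    (hL : Tendsto (fun n => (N n : ℝ)) atTop atTop), Rep B hL x

/-- G2: the theorem for addresses -/
def FieldGStmt : Prop :=
  ∀ (k : ℕ) (α : Fin k → Type) (_ : ∀ i, Finite (α i)) (γ c : ∀ i, α i → ℚ)
    (_ : ∀ i a, γ i a ≠ 0 ∧ |γ i a| < 1) (w : ∀ i, ℕ → α i) (x : Fin k → ℝ)
    (_ : ∀ i, Addr (γ i) (c i) (w i) (x i)) (C : ℝ)
    (_ : ∃ᶠ n : ℕ in atTop, ∀ i, (cx (w i) n : ℝ) ≤ C * n)
    (y : ℝ) (_ : y ∈ Subfield.closure (Set.range x)) (_ : IsAlgebraic ℚ y), ∃ r : ℚ, (r : ℝ) = y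

end Pool.Agent.TH796.AL
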