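import Mathlib
import Pool.Agent.TH796.AL.Stms
import Pool.Agent.TH796.AL.Lem

set_option autoImplicit false
set_option linter.unusedSectionVars false

/-!
# Project AL: the field generated by numbers of linear complexity
-/

namespace Pool.Agent.TH796.AL.Fld

open Filter Topology Pool.Agent.TH932.Abs Pool.Agent.TH932.Germs Pool.Agent.TH932.Chi
open Pool.Agent.TH796.AL Pool.Agent.TH932.Words

/-- the primes dividing the bases -/
lemma exists_base {k : ℕ} (b : Fin k → ℕ) (hb : ∀ i, 2 ≤ b i) :
    ∃ (m : ℕ) (B : Base m), ∀ i, ∃ e : Fin m → ℕ, b i = ∏ j, B.P j ^ e j := by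
  classical
  set S : Finset ℕ := Finset.univ.biUnion fun i => (b i).primeFactors with hS
  set en := S.equivFin with hen
  have hprime : ∀ p ∈ S, p.Prime := by
    intro p hp
    rw [hS, Finset.mem_biUnion] at hp
    obtain ⟨i, -, hi⟩ := hp
    exact Nat.prime_of_mem_primeFactors hi
  refine ⟨S.card, ⟨fun j => (en.symm j : ℕ), fun j => (hprime _ (en.symm j).2).two_le, ?_⟩, ?_⟩
  · intro i j hij
    rw [Nat.isCoprime_iff_coprime, Nat.coprime_primes (hprime _ (en.symm i).2)
      (hprime _ (en.symm j).2)]
    intro h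
    exact hij (en.symm.injective (Subtype.ext h))
  · intro i
    refine ⟨fun j => (b i).factorization (en.symm j), ?_⟩
    have hb0 : b i ≠ 0 := by have := hb i; omega
    have h1 : b i = ∏ p ∈ S, p ^ (b i).factorization p := by
      conv_lhs => rw [← Nat.prod_factorization_pow_eq_self hb0]
      rw [Finsupp.prod_of_support_subset]
      · rw [Nat.support_factorization]
        exact Finset.subset_biUnion_of_mem (fun i => (b i).primeFactors) (Finset.mem_univ i)
      · intro p _
        rw [pow_zero]
    have h2 : ∏ p ∈ S, p ^ (b i).factorization p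
        = ∏ j : Fin S.card, (en.symm j : ℕ) ^ (b i).factorization (en.symm j) := by
      rw [← Finset.prod_coe_sort S]
      exact (Equiv.prod_comp en.symm (fun p : S => (p : ℕ) ^ (b i).factorization p)).symm
    exact h1.trans h2

theorem field (hr : RepStmt) (hg : RingStmt) (hl : LinDisjStmt) : FieldStmt := by
  intro k b hb x C hC y hy halg
  by_contra hirr
  -- the scales
  have h1 : ∀ n : ℕ, ∃ N : ℕ, max n 2 ≤ N ∧
      ∀ i, (cx (Pool.Agent.TH932.S2.dw (b i) (x i)) N : ℝ) ≤ C * N := by
    intro n
    obtain ⟨N, h2, h3⟩ := (hC.and_eventually (eventually_ge_atTop (max n 2))).exists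
    exact ⟨N, h3, h2⟩
  choose N hN1 hN2 using h1
  have hT : Tendsto N atTop atTop :=
    tendsto_atTop_mono (fun n => (le_max_left n 2).trans (hN1 n)) tendsto_id
  have hL : Tendsto (fun n => (N n : ℝ)) atTop atTop := tendsto_natCast_atTop_atTop.comp hT
  obtain ⟨m, B, hB⟩ := exists_base b hb
  have hrat : ∀ q : ℚ, Rep B hL (q : ℝ) := by
    intro q
    have h2 := hg m B _ hL Empty (fun i => i.elim) (fun i => i.elim) (MvPolynomial.C q)
    rw [MvPolynomial.aeval_C] at h2
    exact h2
  have hrep : ∀ i, Rep B hL (x i) := by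
    intro i
    by_cases hx : Irrational (x i)
    · obtain ⟨e, he⟩ := hB i
      exact hr m B (b i) (hb i) e he (x i) hx N (fun n => (le_max_right n 2).trans (hN1 n)) C
        (fun n => hN2 n i) hL
    · unfold Irrational at hx
      rw [not_not] at hx
      obtain ⟨q, hq⟩ := hx
      rw [← hq]
      exact hrat q
  have hpoly : ∀ a ∈ Subring.closure (Set.range x), ∃ f : MvPolynomial (Fin k) ℚ,
      MvPolynomial.aeval x f = a := by
    intro a ha
    induction ha using Subring.closure_induction with
    | mem a ha =>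
      obtain ⟨i, rfl⟩ := ha
      exact ⟨MvPolynomial.X i, by simp⟩
    | zero => exact ⟨0, by simp⟩
    | one => exact ⟨1, by simp⟩
    | add a c _ _ ha hc =>
      obtain ⟨f, hf⟩ := ha
      obtain ⟨g, hg⟩ := hc
      exact ⟨f + g, by rw [map_add, hf, hg]⟩
    | neg a _ ha =>
      obtain ⟨f, hf⟩ := ha
      exact ⟨-f, by rw [map_neg, hf]⟩
    | mul a c _ _ ha hc =>
      obtain ⟨f, hf⟩ := ha
      obtain ⟨g, hg⟩ := hc
      exact ⟨f * g, by rw [map_mul, hf, hg]⟩
  rw [Subfield.mem_closure_iff] at hy
  obtain ⟨a, ha, c, hc, hac⟩ := hy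
  have hc0 : c ≠ 0 := by
    intro h0
    apply hirr
    refine ⟨0, ?_⟩
    rw [← hac, h0, div_zero, Rat.cast_zero]
  obtain ⟨f, hf⟩ := hpoly a ha
  obtain ⟨g, hg'⟩ := hpoly c hc
  have ra : Rep B hL (-a) := by
    have := hg m B _ hL (Fin k) x hrep (-f)
    rwa [map_neg, hf] at this
  have rc : Rep B hL c := by
    have := hg m B _ hL (Fin k) x hrep g
    rwa [hg'] at this
  have h5 := hl m B _ hL 2 ![y, 1] (by
      rw [Fin.forall_fin_two]
      exact ⟨halg, isAlgebraic_one⟩) (by
      rw [LinearIndependent.pair_iff]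
      intro s t hst
      have e1 : (s : ℝ) * y + t = 0 := by
        rw [Rat.smul_def, Rat.smul_def] at hst
        simpa using hst
      by_cases hs : s = 0
      · refine ⟨hs, ?_⟩
        rw [hs, Rat.cast_zero, zero_mul, zero_add] at e1
        exact_mod_cast e1
      · exfalso
        apply hirr
        refine ⟨-t / s, ?_⟩
        have hs' : (s : ℝ) ≠ 0 := by exact_mod_cast hs
        push_cast
        rw [div_eq_iff hs']
        linarith) ![c, -a] (by
      rw [Fin.forall_fin_two]
      exact ⟨rc, ra⟩) (by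
      rw [Fin.sum_univ_two]
      simp only [Matrix.cons_val_zero, Matrix.cons_val_one]
      rw [← hac]
      field_simp
      ring) 0
  simp only [Matrix.cons_val_zero] at h5
  exact hc0 h5

end Pool.Agent.TH796.AL.Fld
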