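import Mathlib
import Pool.Agent.TH796.AL.Stms
import Pool.Agent.TH796.AL.Lem

set_option autoImplicit false
set_option linter.unusedSectionVars false

/-!
# Project AL: represented numbers are linearly disjoint from real algebraic numbers
-/

namespace Pool.Agent.TH796.AL.Lin

open Filter Topology Pool.Agent.TH932.Abs Pool.Agent.TH932.Germs Pool.Agent.TH932.Chi
open Pool.Agent.TH796.AL

variable {m : ℕ} {B : Base m} {L : ℕ → ℝ} (hL : Tendsto L atTop atTop)

/-- a maximal independent subfamily -/
lemma exists_ind {Z : Type} [Fintype Z] (z : Z → GG) :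
    ∃ (J : Type) (_ : Fintype J) (f : J → Z)
      (_ : ∀ A : J → Rg m hL, ∑ j, ev B hL (A j) * z (f j) = 0 → ∀ j, A j = 0)
      (D : Rg m hL) (H : Z → J → Rg m hL), D ≠ 0 ∧
      ∀ i, ev B hL D * z i = ∑ j, ev B hL (H i j) * z (f j) := by
  classical
  let _ : Algebra (Rg m hL) GG := (ev B hL).toAlgebra
  have hsm : ∀ (a : Rg m hL) (g : GG), a • g = ev B hL a * g := fun a g => rfl
  obtain ⟨s, hs, hmax⟩ := exists_maximal_linearIndepOn (Rg m hL) z
  have : Fintype s := Fintype.ofFinite s
  have h1 : ∀ i, ∃ a : Rg m hL, a ≠ 0 ∧ ∃ c : s → Rg m hL, a • z i = ∑ j, c j • z j := by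
    intro i
    by_cases hi : i ∈ s
    · refine ⟨1, one_ne_zero, fun j => if (j : Z) = i then 1 else 0, ?_⟩
      rw [one_smul, Finset.sum_eq_single (⟨i, hi⟩ : s)]
      · simp
      · intro b _ hb
        have hb' : (b : Z) ≠ i := fun h => hb (Subtype.ext h)
        simp only [if_neg hb', zero_smul]
      · intro h
        exact absurd (Finset.mem_univ _) h
    · obtain ⟨a, ha, h2⟩ := hmax i hi
      refine ⟨a, ha, ?_⟩
      rw [Set.image_eq_range] at h2
      obtain ⟨c, hc⟩ := (Submodule.mem_span_range_iff_exists_fun (Rg m hL)).1 h2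
      exact ⟨c, hc.symm⟩
  choose a ha c hc using h1
  refine ⟨s, inferInstance, fun j => (j : Z), ?_, ∏ i, a i,
    fun i j => (∏ i' ∈ Finset.univ.erase i, a i') * c i j, ?_, ?_⟩
  · intro A hA
    have h3 : LinearIndependent (Rg m hL) (fun j : s => z j) := hs
    exact Fintype.linearIndependent_iff.1 h3 A (by
      rw [← hA]
      exact Finset.sum_congr rfl fun j _ => hsm _ _)
  · exact Finset.prod_ne_zero_iff.2 fun i _ => ha i
  · intro i
    have h4 := hc i
    rw [← Finset.mul_prod_erase _ _ (Finset.mem_univ i), map_mul, mul_comm (ev B hL (a i)),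
      mul_assoc, ← hsm (a i), h4, Finset.mul_sum]
    refine Finset.sum_congr rfl fun j _ => ?_
    rw [hsm, map_mul, mul_assoc]

/-- the coefficients -/
noncomputable def inc (F : IntermediateField ℚ ℝ) : KK L hL →+* KA F hL where
  toFun c := ⟨rho (c : GG), rho_mem_KA hL F c⟩
  map_one' := Subtype.ext (by simp)
  map_zero' := Subtype.ext (by simp)
  map_mul' := fun a b => Subtype.ext (by simp)
  map_add' := fun a b => Subtype.ext (by simp)

lemma inc_coe (F : IntermediateField ℚ ℝ) (c : KK L hL) : ((inc hL F c : KA F hL) : HR) = rho (c : GG) :=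
  rfl

/-- the group ring with larger coefficients -/
noncomputable def incR (F : IntermediateField ℚ ℝ) : Rg m hL →+* RgA F m hL :=
  AddMonoidAlgebra.mapRingHom (Fin m → ℝ) (inc hL F)

lemma incR_coeff (F : IntermediateField ℚ ℝ) (f : Rg m hL) (g : Fin m → ℝ) :
    (incR hL F f).coeff g = inc hL F (f.coeff g) :=
  AddMonoidAlgebra.coeff_mapRingHom _ _ _

lemma evA_incR (F : IntermediateField ℚ ℝ) (f : Rg m hL) :
    evA F B hL (incR hL F f) = rho (ev B hL f) := by
  have h : (evA F B hL).comp (incR hL F) = rho.comp (ev B hL) := by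
    refine AddMonoidAlgebra.ringHom_ext ?_ ?_
    · intro r
      simp only [RingHom.coe_comp, Function.comp_apply]
      unfold incR
      rw [AddMonoidAlgebra.mapRingHom_single, evA_single, ev_single, inc_coe, map_mul]
    · intro g
      simp only [RingHom.coe_comp, Function.comp_apply]
      unfold incR
      rw [AddMonoidAlgebra.mapRingHom_single, evA_single, ev_single, inc_coe, map_mul]
  exact congrArg (fun φ => φ f) h

lemma evA_single0 (F : IntermediateField ℚ ℝ) (r : F) :
    evA F B hL (AddMonoidAlgebra.single 0 (algebraMap F (KA F hL) r)) = algebraMap ℝ HR (r : ℝ) := by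
  rw [evA_single, ch_zero, map_one, mul_one]
  rfl

/-- a nonzero value of the group ring is not arbitrarily small -/
lemma ev_low (h : KPAStmt) (hsu : SUStmt) {D : Rg m hL} (hD : D ≠ 0) :
    ∃ t : ℝ, rho (ev B hL D) ∉ SR L t := by
  by_contra hcon
  push Not at hcon
  obtain ⟨K0, hK⟩ := h m B L hL ⊥ inferInstance Unit inferInstance (fun _ => 1) 0 (by
      intro A hA j
      have h1 : ev B hL (A ()) = 0 := by simpa using hA
      exact hsu m B L hL _ h1) (by
      intro v _
      have h1 := (filt_v (B := B) hL v).alg_mem 1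
      rw [map_one] at h1
      rw [neg_zero]
      exact h1) (by
      intro _
      have := Sint.alg (B := B) hL 1
      simpa using this)
  obtain ⟨g, hg⟩ : ∃ g, D.coeff g ≠ 0 := by
    by_contra hc
    push Not at hc
    apply hD
    apply AddMonoidAlgebra.coeff_injective
    ext x
    have := hc x
    simp [this]
  have h2 := hK (fun _ => incR hL ⊥ D) (lv B none g + K0 + 1) (by
    simp only [Finset.univ_unique, Finset.sum_singleton, map_one, mul_one]
    rw [evA_incR]
    exact hcon _) () g (by
    rw [incR_coeff]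
    intro h0
    apply hg
    have h3 := congrArg (fun x : KA ⊥ hL => (x : HR)) h0
    simp only [inc_coe] at h3
    have h4 : rho (D.coeff g : GG) = rho 0 := by rw [h3, map_zero]; rfl
    exact Subtype.ext (rho_injective h4))
  linarith

/-- **Represented numbers are linearly disjoint from real algebraic numbers.** -/
theorem lindisj (h : KPAStmt) (hsu : SUStmt) (hj : DisjStmt) : LinDisjStmt := by
  classical
  intro m B L hL k β halg hβ r hrep hsum
  -- the number field
  set F : IntermediateField ℚ ℝ := IntermediateField.adjoin ℚ (Set.range β) with hF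
  have hfin : FiniteDimensional ℚ F := by
    apply IntermediateField.finiteDimensional_adjoin
    rintro _ ⟨l, rfl⟩
    exact (halg l).isIntegral
  have hβF : ∀ l, β l ∈ F := fun l => IntermediateField.subset_adjoin ℚ _ ⟨l, rfl⟩
  choose Zl fZ z C hz1 hz2 hz3 using hrep
  -- the joint family
  set zz : (Σ l, Zl l) → GG := fun i => z i.1 i.2 with hzz
  set CC : ℝ := ∑ l, |C l| with hCC
  have hCl : ∀ l, C l ≤ CC := fun l => (le_abs_self _).trans
    (Finset.single_le_sum (f := fun l => |C l|) (fun _ _ => abs_nonneg _) (Finset.mem_univ l))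
  obtain ⟨J, fJ, f, hind, D, H, hD, hDH⟩ := exists_ind (B := B) hL zz
  have hb1 : ∀ v j, zz (f j) ∈ Sv B L v (-CC) := fun v j =>
    (filt_v hL v).anti (neg_le_neg (hCl _)) (hz1 _ v _)
  obtain ⟨K0, hK⟩ := h m B L hL F hfin J fJ (fun j => zz (f j)) CC hind hb1 (fun j => hz2 _ _)
  obtain ⟨t0, ht0⟩ := ev_low (B := B) hL h hsu hD
  have hinv := SR_inv hL t0 _ ht0
  -- an upper bound for `D`
  obtain ⟨t1, ht1⟩ : ∃ t1 : ℝ, rho (ev B hL D) ∈ SR L t1 := by
    refine ⟨-∑ g ∈ D.coeff.support, |lv B none g|, ?_⟩
    rw [ev_sum, map_sum]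
    refine SR_sum hL _ _ fun g hg => ?_
    have h1 : ((D.coeff g : KK L hL) : GG) * ch B hL g ∈ Sv B L none (lv B none g) := by
      have := (filt_v (B := B) hL none).mul_mem ((filt_v (B := B) hL none).alg_mem (D.coeff g))
        (ch_mem (B := B) hL none g)
      rw [zero_add] at this
      exact this
    refine SR_anti hL ?_ (SR_rho h1)
    have h2 : |lv B none g| ≤ ∑ g ∈ D.coeff.support, |lv B none g| :=
      Finset.single_le_sum (f := fun g => |lv B none g|) (fun _ _ => abs_nonneg _) hg
    have h3 := neg_abs_le (lv B none g)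
    linarith
  set E : ℝ := 1 + |t0| + |t1| + |K0| + |CC| with hE
  have hE0 : 1 ≤ E := by
    have := abs_nonneg t0
    have := abs_nonneg t1
    have := abs_nonneg K0
    have := abs_nonneg CC
    linarith
  choose P s hs1 hs2 using fun l => hz3 l E
  -- the small combination
  set Gs : HR := ∑ l, algebraMap ℝ HR (β l) * rho (gm (s l)) with hGs
  have hG : Gs ∈ SR L E := by
    have e1 : Gs = ∑ l, algebraMap ℝ HR (β l) * gr (fun n => (s l n : ℝ) - r l) := by
      have e2 : ∑ l, algebraMap ℝ HR (β l) * algebraMap ℝ HR (r l) = 0 := by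
        simp only [← map_mul]
        rw [← map_sum, hsum, map_zero]
      have e3 : ∀ l, gr (fun n => (s l n : ℝ) - r l) = rho (gm (s l)) - algebraMap ℝ HR (r l) := by
        intro l
        rw [rho_gm, cst_eq, gr_sub]
      simp only [e3, mul_sub, Finset.sum_sub_distrib]
      rw [e2, sub_zero]
    rw [e1]
    refine SR_sum hL _ _ fun l _ => ?_
    have h1 : gr (fun n => (s l n : ℝ) - r l) ∈ SR L E := by
      rw [mem_SR]
      intro ε hε
      filter_upwards [hs2 l, L_nonneg hL] with n h1 h2
      rw [abs_sub_comm]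
      refine h1.trans (Real.exp_le_exp.2 ?_)
      nlinarith
    have := SR_mul hL (SR_cst hL (β l)) h1
    rwa [zero_add] at this
  set Q : Fin k → J → Rg m hL := fun l i => ∑ j, P l j * H ⟨l, j⟩ i with hQ
  set A : J → RgA F m hL := fun i => ∑ l,
    AddMonoidAlgebra.single 0 (algebraMap F (KA F hL) ⟨β l, hβF l⟩) * incR hL F (Q l i) with hA
  have hDs : ∀ l, ev B hL D * gm (s l) = ∑ i, ev B hL (Q l i) * zz (f i) := by
    intro l
    rw [hs1 l, Finset.mul_sum]
    have e1 : ∀ j, ev B hL D * (ev B hL (P l j) * z l j)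
        = ∑ i, ev B hL (P l j * H ⟨l, j⟩ i) * zz (f i) := by
      intro j
      have e2 := hDH ⟨l, j⟩
      have e3 : zz ⟨l, j⟩ = z l j := rfl
      rw [e3] at e2
      rw [mul_left_comm, e2, Finset.mul_sum]
      refine Finset.sum_congr rfl fun i _ => ?_
      rw [map_mul, mul_assoc]
    simp only [e1]
    rw [Finset.sum_comm]
    refine Finset.sum_congr rfl fun i _ => ?_
    rw [hQ]
    simp only []
    rw [map_sum, Finset.sum_mul]
  have hAs : ∑ i, evA F B hL (A i) * rho (zz (f i)) ∈ SR L (t1 + E) := by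
    have e1 : ∑ i, evA F B hL (A i) * rho (zz (f i)) = rho (ev B hL D) * Gs := by
      have e2 : ∀ i, evA F B hL (A i) = ∑ l, algebraMap ℝ HR (β l) * rho (ev B hL (Q l i)) := by
        intro i
        rw [hA]
        simp only []
        rw [map_sum]
        refine Finset.sum_congr rfl fun l _ => ?_
        rw [map_mul, evA_single0, evA_incR]
      simp only [e2, Finset.sum_mul]
      rw [Finset.sum_comm, hGs, Finset.mul_sum]
      refine Finset.sum_congr rfl fun l _ => ?_
      rw [mul_left_comm, ← map_mul, hDs l, map_sum, Finset.mul_sum]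
      refine Finset.sum_congr rfl fun i _ => ?_
      rw [map_mul, mul_assoc]
    rw [e1]
    exact SR_mul hL ht1 hG
  have hsupp : ∀ l i g, (Q l i).coeff g ≠ 0 → t1 + E ≤ lv B none g + K0 := by
    intro l i g hg
    refine hK A (t1 + E) hAs i g ?_
    intro h0
    have h1 : ∑ l, algebraMap ℝ HR (β l) * rho ((Q l i).coeff g : GG) = 0 := by
      have h2 := congrArg (fun x : KA F hL => (x : HR)) h0
      rw [hA] at h2
      simp only [] at h2
      rw [AddMonoidAlgebra.coeff_sum, Finsupp.finsetSum_apply] at h2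
      have h3 : ∀ l, (AddMonoidAlgebra.single 0 (algebraMap F (KA F hL) ⟨β l, hβF l⟩)
          * incR hL F (Q l i)).coeff g
          = algebraMap F (KA F hL) ⟨β l, hβF l⟩ * inc hL F ((Q l i).coeff g) := by
        intro l
        rw [AddMonoidAlgebra.coeff_single_zero_mul, incR_coeff]
      simp only [h3] at h2
      have h4 : ((∑ l, algebraMap F (KA F hL) ⟨β l, hβF l⟩ * inc hL F ((Q l i).coeff g) :
          KA F hL) : HR) = ∑ l, algebraMap ℝ HR (β l) * rho ((Q l i).coeff g : GG) := by
        rw [AddSubmonoidClass.coe_finsetSum]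
        rfl
      rw [h4] at h2
      exact h2
    have h5 := hj (Fin k) inferInstance β hβ (fun l => ((Q l i).coeff g : GG)) h1 l
    exact hg (Subtype.ext h5)
  -- all numbers are zero
  intro l
  have h1 : ev B hL D * gm (s l) ∈ Sv B L none (t1 + E - K0 - CC) := by
    rw [hDs l]
    refine Finset.sum_induction _ (fun g => g ∈ Sv B L none (t1 + E - K0 - CC))
      (fun _ _ => (filt_v hL none).add_mem) ((filt_v hL none).zero_mem _) fun i _ => ?_
    have h2 : ev B hL (Q l i) ∈ Sv B L none (t1 + E - K0) := by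
      rw [ev_sum]
      refine Finset.sum_induction _ (fun g => g ∈ Sv B L none (t1 + E - K0))
        (fun _ _ => (filt_v hL none).add_mem) ((filt_v hL none).zero_mem _) fun g hg => ?_
      have h3 := hsupp l i g (Finsupp.mem_support_iff.1 hg)
      have := (filt_v (B := B) hL none).mul_mem
        ((filt_v (B := B) hL none).alg_mem ((Q l i).coeff g)) (ch_mem (B := B) hL none g)
      rw [zero_add] at this
      exact (filt_v hL none).anti (by linarith) this
    have h3 := (filt_v hL none).mul_mem h2 (hb1 none i)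
    rw [← sub_eq_add_neg] at h3
    exact h3
  have h2 : rho (gm (s l)) ∈ SR L 1 := by
    have h3 := SR_mul hL hinv (SR_rho h1)
    have hne : rho (ev B hL D) ≠ 0 := fun h0 => ht0 (by rw [h0]; exact SR_zero _)
    rw [map_mul, inv_mul_cancel_left₀ hne] at h3
    refine SR_anti hL ?_ h3
    have := le_abs_self t0
    have := neg_abs_le t1
    have := le_abs_self K0
    have := le_abs_self CC
    linarith
  rw [rho_gm, mem_SR] at h2
  have h3 : ∀ δ : ℝ, 0 < δ → |r l| ≤ δ := by
    intro δ hδ
    have h4 : ∀ᶠ n in (UU : Filter ℕ), Real.exp (-(1 - 1 / 2) * L n) ≤ δ / 2 := by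
      apply ev_of_atTop
      have h5 : Tendsto (fun n => Real.exp (-(1 - 1 / 2) * L n)) atTop (𝓝 0) := by
        apply Real.tendsto_exp_atBot.comp
        exact Tendsto.const_mul_atTop_of_neg (by norm_num) hL
      filter_upwards [h5.eventually (ge_mem_nhds (half_pos hδ))] with n hn using hn
    obtain ⟨n, g1, g2, g3, g4⟩ := ((h2 (1 / 2) (by norm_num)).and ((hs2 l).and
      (h4.and (L_nonneg hL)))).exists
    have g5 : Real.exp (-(E * L n)) ≤ δ / 2 := by
      refine le_trans (Real.exp_le_exp.2 ?_) g3
      nlinarith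
    calc |r l| = |(r l - s l n) + s l n| := by rw [sub_add_cancel]
      _ ≤ |r l - s l n| + |(s l n : ℝ)| := abs_add_le _ _
      _ ≤ δ / 2 + δ / 2 := add_le_add (g2.trans g5) (g1.trans g3)
      _ = δ := by ring
  have h5 : |r l| ≤ 0 := le_of_forall_pos_le_add fun δ hδ => by simpa using h3 δ hδ
  exact abs_nonpos_iff.1 h5

end Pool.Agent.TH796.AL.Lin
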