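import Mathlib
import Pool.Agent.TH796.AL.Lin
import Pool.Agent.TH796.AL.Fld
import Pool.Agent.TH81.AL_FIXQ
import Pool.Agent.TH928.AL_FIXA
import Pool.Agent.TH656.AL.MOVA
import Pool.Agent.TH416.AL_DEC
import Pool.Agent.TH634.AL_EXT
import Pool.Agent.TH147.AL_KPA
import Pool.Agent.TH113.AL_SU
import Pool.Agent.TH914.AL_REP
import Pool.Agent.TH73.AL_RING
import Pool.Agent.TH286.GT.All
import Pool.Agent.TH932.S2.Sst

set_option autoImplicit false

/-!
# Project AL: the statements without hypotheses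
-/

namespace Pool.Agent.TH796.AL

theorem fixq_thm : FixQStmt := Pool.Agent.TH81.AL.fixq Pool.Agent.TH932.S2.subspace
theorem movq_thm : MovQStmt := Pool.Agent.TH81.AL.movq fixq_thm
theorem su_thm : SUStmt := Pool.Agent.TH113.AL.su movq_thm
theorem fixa_thm : FixAStmt := Pool.Agent.TH928.AL.fixa fun O _ _ _ _ φ =>
  Pool.Agent.TH286.GT.subspaceO O φ
theorem dec_thm : DecStmt := Pool.Agent.TH416.AL.dec
theorem disj_thm : DisjStmt := Pool.Agent.TH416.AL.disj
theorem ext_thm : ExtStmt := Pool.Agent.TH634.AL.ext dec_thm disj_thm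
theorem mova_thm : MovAStmt := Pool.Agent.TH656.AL.mova fixa_thm dec_thm disj_thm
theorem kpa_thm : KPAStmt := Pool.Agent.TH147.AL.kpa mova_thm ext_thm
theorem ring_thm : RingStmt := Pool.Agent.TH73.AL.ring
theorem rep_thm : RepStmt := Pool.Agent.TH914.AL.rep
theorem lin_thm : LinDisjStmt := Lin.lindisj kpa_thm su_thm disj_thm

/-- **The field generated by numbers of linear complexity.** -/
theorem field_thm : FieldStmt := Fld.field rep_thm ring_thm lin_thm

end Pool.Agent.TH796.AL
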