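import Mathlib
import Pool.Agent.TH796.AL.StmsG
import Pool.Agent.TH796.AL.Lem

set_option autoImplicit false
set_option linter.unusedSectionVars false

/-!
# Project AL: the field generated by numbers with addresses of linear complexity
-/

namespace Pool.Agent.TH796.AL.FldG

open Filter Topology Pool.Agent.TH932.Abs Pool.Agent.TH932.Germs Pool.Agent.TH932.Chi
open Pool.Agent.TH796.AL Pool.Agent.TH932.Words

/-- the primes dividing the numerators and denominators -/
lemma exists_base {ι : Type} [Finite ι] (r : ι → ℚ) (hr : ∀ i, r i ≠ 0) :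
    ∃ (m : ℕ) (B : Base m), ∀ i, ∃ e : Fin m → ℤ, |r i| = ∏ j, (B.P j : ℚ) ^ e j := by
  classical
  have := Fintype.ofFinite ι
  set S : Finset ℕ := Finset.univ.biUnion fun i =>
    (r i).num.natAbs.primeFactors ∪ (r i).den.primeFactors with hS
  set en := S.equivFin with hen
  have hprime : ∀ p ∈ S, p.Prime := by
    intro p hp
    rw [hS, Finset.mem_biUnion] at hp
    obtain ⟨i, -, hi⟩ := hp
    rw [Finset.mem_union] at hi
    rcases hi with hi | hi
    · exact Nat.prime_of_mem_primeFactors hi
    · exact Nat.prime_of_mem_primeFactors hi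
  refine ⟨S.card, ⟨fun j => (en.symm j : ℕ), fun j => (hprime _ (en.symm j).2).two_le, ?_⟩, ?_⟩
  · intro i j hij
    rw [Nat.isCoprime_iff_coprime, Nat.coprime_primes (hprime _ (en.symm i).2)
      (hprime _ (en.symm j).2)]
    intro h
    exact hij (en.symm.injective (Subtype.ext h))
  · intro i
    have key : ∀ b : ℕ, b ≠ 0 → b.primeFactors ⊆ S →
        (b : ℚ) = ∏ j : Fin S.card, ((en.symm j : ℕ) : ℚ) ^ (b.factorization (en.symm j)) := by
      intro b hb0 hbS
      have h1 : b = ∏ p ∈ S, p ^ b.factorization p := by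
        conv_lhs => rw [← Nat.prod_factorization_pow_eq_self hb0]
        rw [Finsupp.prod_of_support_subset]
        · rw [Nat.support_factorization]
          exact hbS
        · intro p _
          rw [pow_zero]
      have h2 : ∏ p ∈ S, p ^ b.factorization p
          = ∏ j : Fin S.card, (en.symm j : ℕ) ^ b.factorization (en.symm j) := by
        rw [← Finset.prod_coe_sort S]
        exact (Equiv.prod_comp en.symm (fun p : S => (p : ℕ) ^ b.factorization p)).symm
      have h3 := h1.trans h2
      exact_mod_cast congrArg (fun n : ℕ => (n : ℚ)) h3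
    have hSi : (r i).num.natAbs.primeFactors ∪ (r i).den.primeFactors ⊆ S :=
      Finset.subset_biUnion_of_mem (fun i => (r i).num.natAbs.primeFactors ∪ (r i).den.primeFactors)
        (Finset.mem_univ i)
    have hn0 : (r i).num.natAbs ≠ 0 := by
      rw [Int.natAbs_ne_zero]
      exact Rat.num_ne_zero.2 (hr i)
    have e1 := key _ hn0 (Finset.subset_union_left.trans hSi)
    have e2 := key _ (r i).den_nz (Finset.subset_union_right.trans hSi)
    refine ⟨fun j => ((r i).num.natAbs.factorization (en.symm j) : ℤ)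
      - ((r i).den.factorization (en.symm j) : ℤ), ?_⟩
    have e3 : |r i| = ((r i).num.natAbs : ℚ) / (r i).den := by
      conv_lhs => rw [← Rat.num_div_den (r i)]
      rw [abs_div, Nat.cast_natAbs, Int.cast_abs]
      congr 1
      exact abs_of_nonneg (Nat.cast_nonneg _)
    rw [e3, e1, e2, ← Finset.prod_div_distrib]
    refine Finset.prod_congr rfl fun j _ => ?_
    have hj : ((en.symm j : ℕ) : ℚ) ≠ 0 := by
      exact_mod_cast (hprime _ (en.symm j).2).ne_zero
    change _ = ((en.symm j : ℕ) : ℚ) ^ _
    rw [zpow_sub₀ hj, zpow_natCast, zpow_natCast]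

/-- algebraic numbers in a field generated by represented numbers -/
theorem core (hg : RingStmt) (hl : LinDisjStmt) {m : ℕ} (B : Base m) {L : ℕ → ℝ}
    (hL : Tendsto L atTop atTop) {σ : Type} (x : σ → ℝ) (hrep : ∀ i, Rep B hL (x i)) {y : ℝ}
    (hy : y ∈ Subfield.closure (Set.range x)) (halg : IsAlgebraic ℚ y) : ∃ r : ℚ, (r : ℝ) = y := by
  by_contra hirr
  have hpoly : ∀ a ∈ Subring.closure (Set.range x), ∃ f : MvPolynomial σ ℚ,
      MvPolynomial.aeval x f = a := by
    intro a ha
    induction ha using Subring.closure_induction with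
    | mem a ha =>
      obtain ⟨i, rfl⟩ := ha
      exact ⟨MvPolynomial.X i, by simp⟩
    | zero => exact ⟨0, by simp⟩
    | one => exact ⟨1, by simp⟩
    | add a c _ _ ha hc =>
      obtain ⟨f, hf⟩ := ha
      obtain ⟨g, hg⟩ := hc
      exact ⟨f + g, by rw [map_add, hf, hg]⟩
    | neg a _ ha =>
      obtain ⟨f, hf⟩ := ha
      exact ⟨-f, by rw [map_neg, hf]⟩
    | mul a c _ _ ha hc =>
      obtain ⟨f, hf⟩ := ha
      obtain ⟨g, hg⟩ := hc
      exact ⟨f * g, by rw [map_mul, hf, hg]⟩
  rw [Subfield.mem_closure_iff] at hy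
  obtain ⟨a, ha, c, hc, hac⟩ := hy
  have hc0 : c ≠ 0 := by
    intro h0
    apply hirr
    refine ⟨0, ?_⟩
    rw [← hac, h0, div_zero, Rat.cast_zero]
  obtain ⟨f, hf⟩ := hpoly a ha
  obtain ⟨g, hg'⟩ := hpoly c hc
  have ra : Rep B hL (-a) := by
    have := hg m B _ hL σ x hrep (-f)
    rwa [map_neg, hf] at this
  have rc : Rep B hL c := by
    have := hg m B _ hL σ x hrep g
    rwa [hg'] at this
  have h5 := hl m B _ hL 2 ![y, 1] (by
      rw [Fin.forall_fin_two]
      exact ⟨halg, isAlgebraic_one⟩) (by
      rw [LinearIndependent.pair_iff]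
      intro s t hst
      have e1 : (s : ℝ) * y + t = 0 := by
        rw [Rat.smul_def, Rat.smul_def] at hst
        simpa using hst
      by_cases hs : s = 0
      · refine ⟨hs, ?_⟩
        rw [hs, Rat.cast_zero, zero_mul, zero_add] at e1
        exact_mod_cast e1
      · exfalso
        apply hirr
        refine ⟨-t / s, ?_⟩
        have hs' : (s : ℝ) ≠ 0 := by exact_mod_cast hs
        push_cast
        rw [div_eq_iff hs']
        linarith) ![c, -a] (by
      rw [Fin.forall_fin_two]
      exact ⟨rc, ra⟩) (by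
      rw [Fin.sum_univ_two]
      simp only [Matrix.cons_val_zero, Matrix.cons_val_one]
      rw [← hac]
      field_simp
      ring) 0
  simp only [Matrix.cons_val_zero] at h5
  exact hc0 h5

theorem fieldG (hr : RepGStmt) (hg : RingStmt) (hl : LinDisjStmt) : FieldGStmt := by
  intro k α hα γ c hγ w x hx C hC y hy halg
  -- the scales
  have h1 : ∀ n : ℕ, ∃ N : ℕ, max n 2 ≤ N ∧ ∀ i, (cx (w i) N : ℝ) ≤ C * N := by
    intro n
    obtain ⟨N, h2, h3⟩ := (hC.and_eventually (eventually_ge_atTop (max n 2))).exists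
    exact ⟨N, h3, h2⟩
  choose N hN1 hN2 using h1
  have hT : Tendsto N atTop atTop :=
    tendsto_atTop_mono (fun n => (le_max_left n 2).trans (hN1 n)) tendsto_id
  have hL : Tendsto (fun n => (N n : ℝ)) atTop atTop := tendsto_natCast_atTop_atTop.comp hT
  have : ∀ i, Finite (α i) := hα
  obtain ⟨m, B, hB⟩ := exists_base (ι := Σ i, α i) (fun j => γ j.1 j.2) (fun j => (hγ j.1 j.2).1)
  have hrat : ∀ q : ℚ, Rep B hL (q : ℝ) := by
    intro q
    have h2 := hg m B _ hL Empty (fun i => i.elim) (fun i => i.elim) (MvPolynomial.C q)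
    rw [MvPolynomial.aeval_C] at h2
    exact h2
  refine core hg hl B hL x ?_ hy halg
  intro i
  by_cases hxi : Irrational (x i)
  · choose e he using fun a : α i => hB ⟨i, a⟩
    exact hr m B (α i) (hα i) (γ i) (c i) (hγ i) e he (w i) (x i) (hx i) hxi N
      (fun n => (le_max_right n 2).trans (hN1 n)) C (fun n => hN2 n i) hL
  · unfold Irrational at hxi
    rw [not_not] at hxi
    obtain ⟨q, hq⟩ := hxi
    rw [← hq]
    exact hrat q

end Pool.Agent.TH796.AL.FldG
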