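import Mathlib
import Pool.Agent.TH796.AL.FldG
import Pool.Agent.TH796.AL.All
import Pool.Agent.TH634.AL_REPG3

set_option autoImplicit false
set_option linter.unusedSectionVars false

/-!
# Project AL: algebraic numbers in the field generated over a field of algebraic numbers
-/

namespace Pool.Agent.TH796.AL.Strong

open Filter Topology Pool.Agent.TH932.Abs Pool.Agent.TH932.Germs Pool.Agent.TH932.Chi
open Pool.Agent.TH796.AL Pool.Agent.TH932.Words
open scoped TensorProduct

theorem repg_thm : RepGStmt := Pool.Agent.TH634.AL.repg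
theorem fieldG_thm : FieldGStmt := FldG.fieldG repg_thm ring_thm lin_thm

lemma lin_fintype {m : ℕ} (B : Base m) {L : ℕ → ℝ} (hL : Tendsto L atTop atTop) {κ : Type}
    [Fintype κ] (β : κ → ℝ) (hβ : ∀ l, IsAlgebraic ℚ (β l)) (hind : LinearIndependent ℚ β)
    (r : κ → ℝ) (hr : ∀ l, Rep B hL (r l)) (h : ∑ l, β l * r l = 0) : ∀ l, r l = 0 := by
  intro l
  set e := Fintype.equivFin κ with he
  have h1 := lin_thm m B _ hL (Fintype.card κ) (β ∘ e.symm) (fun l => hβ _)
    (hind.comp _ e.symm.injective) (r ∘ e.symm) (fun l => hr _) (by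
      rw [← h]
      exact Equiv.sum_comp e.symm (fun l => β l * r l)) (e l)
  simpa using h1

/-- algebraic numbers in the field generated by represented numbers over a field of algebraic
numbers -/
theorem coreK {m : ℕ} (B : Base m) {L : ℕ → ℝ} (hL : Tendsto L atTop atTop) {σ : Type}
    (x : σ → ℝ) (hrep : ∀ i, Rep B hL (x i)) (K : Subfield ℝ) (hK : ∀ z ∈ K, IsAlgebraic ℚ z)
    {y : ℝ} (hy : y ∈ Subfield.closure ((K : Set ℝ) ∪ Set.range x)) (halg : IsAlgebraic ℚ y) :
    y ∈ K := by
  classical
  by_contra hyK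
  set R : Subalgebra ℚ ℝ := (MvPolynomial.aeval x : MvPolynomial σ ℚ →ₐ[ℚ] ℝ).range with hR
  have hRrep : ∀ z ∈ R, Rep B hL z := by
    intro z hz
    rw [hR] at hz
    obtain ⟨f, hf⟩ := hz
    have := ring_thm m B _ hL σ x hrep f
    rw [← hf]
    exact this
  set f : K →ₐ[ℚ] ℝ := RingHom.toRatAlgHom K.subtype with hf
  have hfv : ∀ z : K, f z = (z : ℝ) := fun z => rfl
  set T : Subalgebra ℚ ℝ := (Algebra.TensorProduct.productMap f R.val).range with hT
  set e := Module.Basis.ofVectorSpace ℚ K with he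
  have hexp : ∀ a ∈ T, ∃ b : Module.Basis.ofVectorSpaceIndex ℚ K →₀ R,
      a = ∑ i ∈ b.support, (e i : ℝ) * (b i : ℝ) := by
    intro a ha
    rw [hT] at ha
    obtain ⟨t, ht⟩ := ha
    obtain ⟨b, hb⟩ := TensorProduct.eq_repr_basis_left e t
    refine ⟨b, ?_⟩
    rw [← ht, ← hb, Finsupp.sum]
    change (Algebra.TensorProduct.productMap f R.val) _ = _
    rw [map_sum]
    refine Finset.sum_congr rfl fun i _ => ?_
    rw [Algebra.TensorProduct.productMap_apply_tmul]
    rfl
  have hclos : ∀ a ∈ Subring.closure ((K : Set ℝ) ∪ Set.range x), a ∈ T := by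
    intro a ha
    have h1 : Subring.closure ((K : Set ℝ) ∪ Set.range x) ≤ T.toSubring := by
      rw [Subring.closure_le]
      rintro z (hz | ⟨i, rfl⟩)
      · refine ⟨(⟨z, hz⟩ : K) ⊗ₜ 1, ?_⟩
        change (Algebra.TensorProduct.productMap f R.val) _ = _
        rw [Algebra.TensorProduct.productMap_apply_tmul, map_one, mul_one]
        rfl
      · refine ⟨1 ⊗ₜ (⟨x i, ⟨MvPolynomial.X i, by simp⟩⟩ : R), ?_⟩
        change (Algebra.TensorProduct.productMap f R.val) _ = _
        rw [Algebra.TensorProduct.productMap_apply_tmul, map_one, one_mul]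
        rfl
    exact h1 ha
  rw [Subfield.mem_closure_iff] at hy
  obtain ⟨a, ha, c, hc, hac⟩ := hy
  have hc0 : c ≠ 0 := by
    intro h0
    apply hyK
    rw [← hac, h0, div_zero]
    exact K.zero_mem
  obtain ⟨u, hu⟩ := hexp a (hclos a ha)
  obtain ⟨v, hv⟩ := hexp c (hclos c hc)
  set s : Finset (Module.Basis.ofVectorSpaceIndex ℚ K) := u.support ∪ v.support with hs
  have hu' : a = ∑ i : s, (e i : ℝ) * (u i : ℝ) := by
    rw [hu, Finset.sum_coe_sort s (fun i => (e i : ℝ) * (u i : ℝ))]
    refine Finset.sum_subset Finset.subset_union_left fun i _ hi => ?_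
    rw [Finsupp.notMem_support_iff] at hi
    rw [hi]
    simp
  have hv' : c = ∑ i : s, (e i : ℝ) * (v i : ℝ) := by
    rw [hv, Finset.sum_coe_sort s (fun i => (e i : ℝ) * (v i : ℝ))]
    refine Finset.sum_subset Finset.subset_union_right fun i _ hi => ?_
    rw [Finsupp.notMem_support_iff] at hi
    rw [hi]
    simp
  have hes : LinearIndependent ℚ (fun i : s => e i) :=
    e.linearIndependent.comp _ Subtype.val_injective
  have hind : LinearIndependent ℚ (Sum.elim (fun i : s => y * (e i : ℝ))
      (fun i : s => (e i : ℝ))) := by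
    rw [Fintype.linearIndependent_iff]
    intro g hg
    rw [Fintype.sum_sum_type] at hg
    simp only [Sum.elim_inl, Sum.elim_inr] at hg
    have e1 : ((∑ i : s, g (Sum.inl i) • e i : K) : ℝ) = ∑ i : s, g (Sum.inl i) • (e i : ℝ) := by
      push_cast
      refine Finset.sum_congr rfl fun i _ => ?_
      rw [Rat.smul_def]
    have e2 : ((∑ i : s, g (Sum.inr i) • e i : K) : ℝ) = ∑ i : s, g (Sum.inr i) • (e i : ℝ) := by
      push_cast
      refine Finset.sum_congr rfl fun i _ => ?_
      rw [Rat.smul_def]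
    have e3 : ∑ i : s, g (Sum.inl i) • (y * (e i : ℝ))
        = y * ∑ i : s, g (Sum.inl i) • (e i : ℝ) := by
      rw [Finset.mul_sum]
      refine Finset.sum_congr rfl fun i _ => ?_
      rw [Rat.smul_def, Rat.smul_def]
      ring
    rw [e3, ← e1, ← e2] at hg
    have h1 : (∑ i : s, g (Sum.inl i) • e i : K) = 0 := by
      by_contra h0
      apply hyK
      have h0' : ((∑ i : s, g (Sum.inl i) • e i : K) : ℝ) ≠ 0 := by
        intro h2
        exact h0 (by exact_mod_cast h2)
      have : y = ((-(∑ i : s, g (Sum.inr i) • e i) / (∑ i : s, g (Sum.inl i) • e i) : K) : ℝ) := by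
        rw [Subfield.coe_div, eq_div_iff h0', Subfield.coe_neg]
        linarith
      rw [this]
      exact SetLike.coe_mem _
    have h2 : (∑ i : s, g (Sum.inr i) • e i : K) = 0 := by
      rw [h1] at hg
      have : ((∑ i : s, g (Sum.inr i) • e i : K) : ℝ) = 0 := by
        simpa using hg
      exact_mod_cast this
    have h3 := Fintype.linearIndependent_iff.1 hes (fun i => g (Sum.inl i)) h1
    have h4 := Fintype.linearIndependent_iff.1 hes (fun i => g (Sum.inr i)) h2
    rintro (i | i)
    · exact h3 i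
    · exact h4 i
  have hfin := lin_fintype B hL (Sum.elim (fun i : s => y * (e i : ℝ)) (fun i : s => (e i : ℝ)))
    (by
      rintro (i | i)
      · exact halg.mul (hK _ (e i).2)
      · exact hK _ (e i).2) hind (Sum.elim (fun i : s => (v i : ℝ)) (fun i : s => -(u i : ℝ)))
    (by
      rintro (i | i)
      · exact hRrep _ (v i).2
      · exact hRrep _ (R.neg_mem (u i).2)) (by
      rw [Fintype.sum_sum_type]
      simp only [Sum.elim_inl, Sum.elim_inr]
      have e4 : ∑ i : s, y * (e i : ℝ) * (v i : ℝ) = y * c := by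
        rw [hv', Finset.mul_sum]
        refine Finset.sum_congr rfl fun i _ => ?_
        ring
      have e5 : ∑ i : s, (e i : ℝ) * -(u i : ℝ) = -a := by
        rw [hu', ← Finset.sum_neg_distrib]
        refine Finset.sum_congr rfl fun i _ => ?_
        ring
      rw [e4, e5, ← hac]
      field_simp
      ring)
  apply hc0
  rw [hv']
  refine Finset.sum_eq_zero fun i _ => ?_
  have := hfin (Sum.inl i)
  simp only [Sum.elim_inl] at this
  rw [this, mul_zero]

end Pool.Agent.TH796.AL.Strong
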