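import Mathlib
import Pool.Agent.TH796.AL.Strong

set_option autoImplicit false
set_option linter.unusedSectionVars false

/-!
# Project AL: series with rational ratios and algebraic coefficients
-/

namespace Pool.Agent.TH796.AL.Strong

open Filter Topology Pool.Agent.TH932.Abs Pool.Agent.TH932.Germs Pool.Agent.TH932.Chi
open Pool.Agent.TH796.AL Pool.Agent.TH932.Words

/-- the terms of the series with ratios `γ` and coefficients `c` along `w` -/
noncomputable def term {α : Type} (γ : α → ℚ) (c : α → ℝ) (w : ℕ → α) (n : ℕ) : ℝ :=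
  (∏ j ∈ Finset.range n, (γ (w j) : ℝ)) * c (w n)

section series
variable {α : Type} [Finite α] (γ : α → ℚ) (hγ : ∀ a, |γ a| < 1) (c : α → ℝ) (w : ℕ → α)

include hγ w in
lemma exists_q : ∃ (q M : ℝ), 0 ≤ q ∧ q < 1 ∧ 0 ≤ M ∧ (∀ a, |(γ a : ℝ)| ≤ q) ∧ ∀ a, |c a| ≤ M := by
  have := Fintype.ofFinite α
  have hne : Nonempty α := ⟨w 0⟩
  obtain ⟨a0, -, h0⟩ := Finset.exists_max_image Finset.univ (fun a => |(γ a : ℝ)|)
    Finset.univ_nonempty
  obtain ⟨a1, -, h1⟩ := Finset.exists_max_image Finset.univ (fun a => |c a|)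
    Finset.univ_nonempty
  refine ⟨|(γ a0 : ℝ)|, |c a1|, abs_nonneg _, ?_, abs_nonneg _, fun a => h0 a (Finset.mem_univ a),
    fun a => h1 a (Finset.mem_univ a)⟩
  have := hγ a0
  exact_mod_cast this

include hγ w in
lemma term_bound : ∃ (q M : ℝ), 0 ≤ q ∧ q < 1 ∧ 0 ≤ M ∧
    ∀ (w : ℕ → α) (n : ℕ), |term γ c w n| ≤ M * q ^ n := by
  obtain ⟨q, M, hq, hq1, hM, h1, h2⟩ := exists_q γ hγ c w
  refine ⟨q, M, hq, hq1, hM, fun w n => ?_⟩
  rw [term, abs_mul, Finset.abs_prod, mul_comm]
  refine mul_le_mul (h2 _) ?_ (Finset.prod_nonneg fun i _ => abs_nonneg _) hM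
  calc ∏ j ∈ Finset.range n, |(γ (w j) : ℝ)| ≤ ∏ j ∈ Finset.range n, q :=
        Finset.prod_le_prod (fun _ _ => abs_nonneg _) fun _ _ => h1 _
    _ = q ^ n := by rw [Finset.prod_const, Finset.card_range]

include hγ in
lemma summable_term : Summable (term γ c w) := by
  obtain ⟨q, M, hq, hq1, hM, h⟩ := term_bound γ hγ c w
  exact Summable.of_norm_bounded ((summable_geometric_of_lt_one hq hq1).mul_left M)
    fun n => by rw [Real.norm_eq_abs]; exact h w n

lemma term_zero : term γ c w 0 = c (w 0) := by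
  rw [term, Finset.prod_range_zero, one_mul]

lemma term_succ (n : ℕ) : term γ c w (n + 1) = γ (w 0) * term γ c (fun i => w (i + 1)) n := by
  rw [term, term, Finset.prod_range_succ']
  ring

include hγ in
lemma tsum_term : ∑' n, term γ c w n = γ (w 0) * ∑' n, term γ c (fun i => w (i + 1)) n + c (w 0) := by
  rw [(summable_term γ hγ c w).tsum_eq_zero_add, term_zero, ← tsum_mul_left, add_comm]
  congr 1
  exact tsum_congr fun n => term_succ γ c w n

include hγ in
/-- the sum of the series has the address `w` -/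
lemma addr_of_ser (c : α → ℚ) : Addr γ c w (∑' n, term γ (fun a => (c a : ℝ)) w n) := by
  obtain ⟨q, M, hq, hq1, hM, h⟩ := term_bound γ hγ (fun a => (c a : ℝ)) w
  refine ⟨fun k => ∑' n, term γ (fun a => (c a : ℝ)) (fun i => w (i + k)) n, M * (1 - q)⁻¹,
    fun k => ?_, rfl, fun k => ?_⟩
  · rw [← tsum_geometric_of_lt_one hq hq1, ← tsum_mul_left, ← Real.norm_eq_abs]
    exact tsum_of_norm_bounded
      (((summable_geometric_of_lt_one hq hq1).mul_left M).hasSum) fun n => by
        rw [Real.norm_eq_abs]; exact h _ n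
  · have := tsum_term γ hγ (fun a => (c a : ℝ)) (fun i => w (i + k))
    simp only [zero_add] at this
    have e1 : (fun i => w (i + 1 + k)) = fun i => w (i + (k + 1)) := by
      funext i
      rw [add_assoc, add_comm 1 k]
    rw [e1] at this
    exact this

end series

/-- **Algebraic numbers in the field generated by series of linear complexity.** -/
theorem strong {ι : Type} [Finite ι] (α : ι → Type) [∀ i, Finite (α i)] (γ : ∀ i, α i → ℚ)
    (hγ : ∀ i a, γ i a ≠ 0 ∧ |γ i a| < 1) (A : Set ℝ) (hA : ∀ a ∈ A, IsAlgebraic ℚ a)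
    (c : ∀ i, α i → ℝ) (hc : ∀ i a, c i a ∈ Subfield.closure A) (w : ∀ i, ℕ → α i) (x : ι → ℝ)
    (hx : ∀ i, HasSum (term (γ i) (c i) (w i)) (x i)) (C : ℝ)
    (hC : ∃ᶠ n : ℕ in atTop, ∀ i, (cx (w i) n : ℝ) ≤ C * n) (y : ℝ)
    (hy : y ∈ Subfield.closure (A ∪ Set.range x)) (halg : IsAlgebraic ℚ y) :
    y ∈ Subfield.closure A := by
  classical
  -- the scales
  have h1 : ∀ n : ℕ, ∃ N : ℕ, max n 2 ≤ N ∧ ∀ i, (cx (w i) N : ℝ) ≤ C * N := by
    intro n
    obtain ⟨N, h2, h3⟩ := (hC.and_eventually (eventually_ge_atTop (max n 2))).exists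
    exact ⟨N, h3, h2⟩
  choose N hN1 hN2 using h1
  have hT : Tendsto N atTop atTop :=
    tendsto_atTop_mono (fun n => (le_max_left n 2).trans (hN1 n)) tendsto_id
  have hL : Tendsto (fun n => (N n : ℝ)) atTop atTop := tendsto_natCast_atTop_atTop.comp hT
  obtain ⟨m, B, hB⟩ := FldG.exists_base (ι := Σ i, α i) (fun j => γ j.1 j.2)
    (fun j => (hγ j.1 j.2).1)
  have hrat : ∀ q : ℚ, Rep B hL (q : ℝ) := by
    intro q
    have h2 := ring_thm m B _ hL Empty (fun i => i.elim) (fun i => i.elim) (MvPolynomial.C q)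
    rw [MvPolynomial.aeval_C] at h2
    exact h2
  set K : Subfield ℝ := Subfield.closure A with hK
  have hKalg : ∀ z ∈ K, IsAlgebraic ℚ z := by
    intro z hz
    have h2 : K ≤ (algebraicClosure ℚ ℝ).toSubfield := by
      rw [hK, Subfield.closure_le]
      intro a ha
      exact (mem_algebraicClosure_iff).2 (hA a ha)
    exact (mem_algebraicClosure_iff).1 (h2 hz)
  set e := Module.Basis.ofVectorSpace ℚ K with he
  -- the coordinates of the coefficients
  set d : ∀ i, Module.Basis.ofVectorSpaceIndex ℚ K → α i → ℚ :=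
    fun i l a => e.repr ⟨c i a, hc i a⟩ l with hd
  set x' : ι × Module.Basis.ofVectorSpaceIndex ℚ K → ℝ :=
    fun p => ∑' n, term (γ p.1) (fun a => (d p.1 p.2 a : ℝ)) (w p.1) n with hx'
  have hrep : ∀ p, Rep B hL (x' p) := by
    rintro ⟨i, l⟩
    by_cases hxi : Irrational (x' ⟨i, l⟩)
    · choose E hE using fun a : α i => hB ⟨i, a⟩
      exact repg_thm m B (α i) inferInstance (γ i) (d i l) (hγ i) E hE (w i) _
        (addr_of_ser (γ i) (fun a => (hγ i a).2) (w i) (d i l)) hxi N
        (fun n => (le_max_right n 2).trans (hN1 n)) C (fun n => hN2 n i) hL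
    · unfold Irrational at hxi
      rw [not_not] at hxi
      obtain ⟨q, hq⟩ := hxi
      rw [← hq]
      exact hrat q
  have hmem : ∀ i, x i ∈ Subfield.closure ((K : Set ℝ) ∪ Set.range x') := by
    intro i
    have := Fintype.ofFinite (α i)
    set s : Finset (Module.Basis.ofVectorSpaceIndex ℚ K) :=
      Finset.univ.biUnion fun a : α i => (e.repr ⟨c i a, hc i a⟩).support with hs
    have e1 : ∀ a, c i a = ∑ l ∈ s, (e l : ℝ) * (d i l a : ℝ) := by
      intro a
      have h2 := e.linearCombination_repr ⟨c i a, hc i a⟩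
      rw [Finsupp.linearCombination_apply, Finsupp.sum_of_support_subset
        (s := s) _ (Finset.subset_biUnion_of_mem (fun a : α i => (e.repr ⟨c i a, hc i a⟩).support)
          (Finset.mem_univ a)) _ (fun l _ => by rw [zero_smul])] at h2
      have h3 := congrArg (fun z : K => (z : ℝ)) h2
      simp only at h3
      rw [← h3]
      push_cast
      refine Finset.sum_congr rfl fun l _ => ?_
      rw [Rat.smul_def, mul_comm]
    have e2 : x i = ∑ l ∈ s, (e l : ℝ) * x' ⟨i, l⟩ := by
      rw [← (hx i).tsum_eq]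
      have e3 : ∀ n, term (γ i) (c i) (w i) n
          = ∑ l ∈ s, (e l : ℝ) * term (γ i) (fun a => (d i l a : ℝ)) (w i) n := by
        intro n
        rw [term, e1, Finset.mul_sum]
        refine Finset.sum_congr rfl fun l _ => ?_
        rw [term]
        ring
      rw [tsum_congr e3, Summable.tsum_finsetSum fun l _ =>
        (summable_term (γ i) (fun a => (hγ i a).2) _ (w i)).mul_left _]
      refine Finset.sum_congr rfl fun l _ => ?_
      rw [tsum_mul_left]
    rw [e2]
    refine sum_mem fun l _ => mul_mem ?_ ?_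
    · exact Subfield.subset_closure (Or.inl (e l).2)
    · exact Subfield.subset_closure (Or.inr ⟨⟨i, l⟩, rfl⟩)
  refine coreK B hL x' hrep K hKalg ?_ halg
  have h2 : Subfield.closure (A ∪ Set.range x) ≤ Subfield.closure ((K : Set ℝ) ∪ Set.range x') := by
    rw [Subfield.closure_le]
    rintro z (hz | ⟨i, rfl⟩)
    · exact Subfield.subset_closure (Or.inl (Subfield.subset_closure hz))
    · exact hmem i
  exact h2 hy

end Pool.Agent.TH796.AL.Strong
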