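import Mathlib
import Pool.Agent.TH796.AL.Strong2

set_option autoImplicit false
set_option linter.unusedSectionVars false

/-!
# Project AL: the final forms
-/

namespace Pool.Agent.TH796.AL.Final

open Filter Topology
open Pool.Agent.TH796.AL Pool.Agent.TH932.Words Pool.Agent.TH796.AL.Strong

/-- the number of different blocks of length `n` in the sequence `w` -/
noncomputable def complexity {α : Type} (w : ℕ → α) (n : ℕ) : ℕ :=
  (Set.range fun i => fun j : Fin n => w (i + j)).ncard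

/-- the `(n+1)`-st digit after the point of the base `b` expansion of `x` -/
noncomputable def digit (b : ℕ) (x : ℝ) (n : ℕ) : ℤ := ⌊x * (b : ℝ) ^ (n + 1)⌋ % (b : ℤ)

lemma complexity_eq {α : Type} (w : ℕ → α) (n : ℕ) : complexity w n = cx w n := rfl

/-- the digits in the alphabet `ZMod b` -/
noncomputable def dz (b : ℕ) (x : ℝ) (n : ℕ) : ZMod b := ((⌊x * (b : ℝ) ^ (n + 1)⌋ : ℤ) : ZMod b)

lemma digit_eq {b : ℕ} (hb : 2 ≤ b) (x : ℝ) (n : ℕ) : digit b x n = ((dz b x n).val : ℤ) := by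
  have : NeZero b := ⟨by omega⟩
  rw [dz, ZMod.val_intCast]
  rfl

lemma complexity_digit {b : ℕ} (hb : 2 ≤ b) (x : ℝ) (n : ℕ) :
    complexity (digit b x) n = cx (dz b x) n := by
  have : NeZero b := ⟨by omega⟩
  rw [complexity, cx]
  have h1 : (Set.range fun i => fun j : Fin n => digit b x (i + j))
      = (fun (v : Fin n → ZMod b) (j : Fin n) => ((v j).val : ℤ)) '' Set.range (fac (dz b x) n) := by
    rw [← Set.range_comp]
    congr 1
    funext i j
    exact digit_eq hb x _
  rw [h1]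
  refine Set.ncard_image_of_injective _ fun u v huv => ?_
  funext j
  have h2 : ((u j).val : ℤ) = ((v j).val : ℤ) := congrFun huv j
  exact ZMod.val_injective b (by exact_mod_cast h2)

/-- the fractional part as a series of digits -/
lemma hasSum_digits {b : ℕ} (hb : 2 ≤ b) (x : ℝ) :
    HasSum (term (α := ZMod b) (fun _ => (1 / b : ℚ)) (fun a => (a.val : ℝ) / b) (dz b x))
      (x - ⌊x⌋) := by
  have : NeZero b := ⟨by omega⟩
  have hb1 : (1 : ℝ) < b := by exact_mod_cast (by omega : 1 < b)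
  have hb0 : (0 : ℝ) < b := by linarith
  have hs : Summable (term (α := ZMod b) (fun _ => (1 / b : ℚ)) (fun a => (a.val : ℝ) / b)
      (dz b x)) := by
    refine summable_term _ (fun a => ?_) _ _
    rw [abs_of_nonneg (by positivity), div_lt_one (by exact_mod_cast hb0)]
    exact_mod_cast hb1
  rw [hs.hasSum_iff_tendsto_nat]
  have h1 : ∀ N : ℕ, ∑ n ∈ Finset.range N, term (α := ZMod b) (fun _ => (1 / b : ℚ))
      (fun a => (a.val : ℝ) / b) (dz b x) n = (⌊x * (b : ℝ) ^ N⌋ : ℝ) / (b : ℝ) ^ N - ⌊x⌋ := by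
    intro N
    induction N with
    | zero => simp
    | succ N ih =>
      rw [Finset.sum_range_succ, ih, term]
      simp only [Finset.prod_const, Finset.card_range]
      have h2 : (⌊x * (b : ℝ) ^ (N + 1)⌋ : ℝ) = b * ⌊x * (b : ℝ) ^ N⌋ + ((dz b x N).val : ℝ) := by
        have h3 : ((dz b x N).val : ℤ) = ⌊x * (b : ℝ) ^ (N + 1)⌋ % (b : ℤ) := by
          rw [← digit_eq hb]
          rfl
        have h4 : ⌊x * (b : ℝ) ^ (N + 1)⌋ / (b : ℤ) = ⌊x * (b : ℝ) ^ N⌋ := by
          rw [← Int.floor_div_natCast, pow_succ]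
          congr 1
          field_simp
        have h5 := Int.mul_ediv_add_emod ⌊x * (b : ℝ) ^ (N + 1)⌋ (b : ℤ)
        rw [h4, ← h3] at h5
        exact_mod_cast h5.symm
      rw [h2]
      push_cast
      rw [one_div, inv_pow]
      field_simp
      ring
  have h2 : Tendsto (fun N : ℕ => (⌊x * (b : ℝ) ^ N⌋ : ℝ) / (b : ℝ) ^ N) atTop (𝓝 x) := by
    have h3 : Tendsto (fun N : ℕ => x - ((b : ℝ) ^ N)⁻¹) atTop (𝓝 (x - 0)) :=
      tendsto_const_nhds.sub (tendsto_inv_atTop_zero.comp (tendsto_pow_atTop_atTop_of_one_lt hb1))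
    rw [sub_zero] at h3
    refine tendsto_of_tendsto_of_tendsto_of_le_of_le h3 tendsto_const_nhds (fun N => ?_)
      fun N => ?_
    · have hp : (0 : ℝ) < (b : ℝ) ^ N := by positivity
      change x - ((b : ℝ) ^ N)⁻¹ ≤ (⌊x * (b : ℝ) ^ N⌋ : ℝ) / (b : ℝ) ^ N
      rw [le_div_iff₀ hp, sub_mul, inv_mul_cancel₀ hp.ne']
      exact (Int.sub_one_lt_floor _).le
    · have hp : (0 : ℝ) < (b : ℝ) ^ N := by positivity
      change (⌊x * (b : ℝ) ^ N⌋ : ℝ) / (b : ℝ) ^ N ≤ x
      rw [div_le_iff₀ hp]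
      exact Int.floor_le _
  exact (h2.sub_const _).congr fun N => (h1 N).symm

/-- addresses -/
theorem addr_thm (K : Subfield ℝ) (hK : ∀ a ∈ K, IsAlgebraic ℚ a) (y : ℝ) (hy : IsAlgebraic ℚ y)
    (hyK : y ∉ K) {ι : Type} [Finite ι] (α : ι → Type) (γ : ∀ i, α i → ℚ) (c : ∀ i, α i → ℝ)
    (w : ∀ i, ℕ → α i) (x : ι → ℝ) (hα : ∀ i, Finite (α i))
    (hγ : ∀ i a, γ i a ≠ 0 ∧ |γ i a| < 1) (hc : ∀ i a, c i a ∈ K)
    (hx : ∀ i, HasSum (fun n => (∏ j ∈ Finset.range n, (γ i (w i j) : ℝ)) * c i (w i n)) (x i))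
    (hyx : y ∈ Subfield.closure ((K : Set ℝ) ∪ Set.range x)) (C : ℝ) :
    ∃ n₀ : ℕ, ∀ n ≥ n₀, ∃ i, C * n < complexity (w i) n := by
  by_contra hcon
  push Not at hcon
  apply hyK
  have h1 := strong α γ hγ (K : Set ℝ) hK c
    (fun i a => Subfield.subset_closure (hc i a)) w x hx C (by
      rw [frequently_atTop]
      intro n
      obtain ⟨m, hm, h⟩ := hcon n
      exact ⟨m, hm, h⟩) y hyx hy
  rwa [Subfield.closure_eq] at h1

/-- digits -/
theorem digit_thm (K : Subfield ℝ) (hK : ∀ a ∈ K, IsAlgebraic ℚ a) (y : ℝ) (hy : IsAlgebraic ℚ y)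
    (hyK : y ∉ K) {ι : Type} [Finite ι] (b : ι → ℕ) (x : ι → ℝ) (hb : ∀ i, 2 ≤ b i)
    (hyx : y ∈ Subfield.closure ((K : Set ℝ) ∪ Set.range x)) (C : ℝ) :
    ∃ n₀ : ℕ, ∀ n ≥ n₀, ∃ i, C * n < complexity (digit (b i) (x i)) n := by
  have hb0 : ∀ i, (b i : ℚ) ≠ 0 := by
    intro i
    have := hb i
    exact_mod_cast (by omega : b i ≠ 0)
  obtain ⟨n₀, h⟩ := addr_thm K hK y hy hyK (fun i => ZMod (b i)) (fun i _ => (1 / b i : ℚ))
    (fun i a => (a.val : ℝ) / b i) (fun i => dz (b i) (x i)) (fun i => x i - ⌊x i⌋) (fun i => by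
      have : NeZero (b i) := ⟨by have := hb i; omega⟩
      infer_instance) (fun i a => by
      refine ⟨one_div_ne_zero (hb0 i), ?_⟩
      rw [abs_of_nonneg (by positivity), div_lt_one (by have := hb i; positivity)]
      have := hb i
      exact_mod_cast (by omega : 1 < b i)) (fun i a => K.div_mem (natCast_mem K _) (natCast_mem K _))
    (fun i => hasSum_digits (hb i) (x i)) (by
      have h2 : Subfield.closure ((K : Set ℝ) ∪ Set.range x)
          ≤ Subfield.closure ((K : Set ℝ) ∪ Set.range fun i => x i - (⌊x i⌋ : ℝ)) := by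
        rw [Subfield.closure_le]
        rintro z (hz | ⟨i, rfl⟩)
        · exact Subfield.subset_closure (Or.inl hz)
        · have h3 : x i - (⌊x i⌋ : ℝ)
              ∈ Subfield.closure ((K : Set ℝ) ∪ Set.range fun i => x i - (⌊x i⌋ : ℝ)) :=
            Subfield.subset_closure (Or.inr ⟨i, rfl⟩)
          have h4 := add_mem h3 (intCast_mem (Subfield.closure ((K : Set ℝ) ∪
            Set.range fun i => x i - (⌊x i⌋ : ℝ))) ⌊x i⌋)
          rwa [sub_add_cancel] at h4
      exact h2 hyx) C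
  refine ⟨n₀, fun n hn => ?_⟩
  obtain ⟨i, hi⟩ := h n hn
  refine ⟨i, ?_⟩
  rw [complexity_digit (hb i)]
  exact hi

/-- all numbers of linear complexity together -/
theorem all_thm (K : Subfield ℝ) (hK : ∀ a ∈ K, IsAlgebraic ℚ a) (y : ℝ) (hy : IsAlgebraic ℚ y)
    (hyx : y ∈ Subfield.closure ((K : Set ℝ) ∪ {x | ∃ b ≥ 2, ∃ C : ℝ, ∀ n ≥ 1,
      (complexity (digit b x) n : ℝ) ≤ C * n})) : y ∈ K := by
  classical
  by_contra hyK
  set S : Set ℝ := {x | ∃ b ≥ 2, ∃ C : ℝ, ∀ n ≥ 1, (complexity (digit b x) n : ℝ) ≤ C * n} with hS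
  have key : ∀ z ∈ Subfield.closure ((K : Set ℝ) ∪ S), ∃ t : Finset ℝ, (t : Set ℝ) ⊆ S ∧
      z ∈ Subfield.closure ((K : Set ℝ) ∪ t) := by
    intro z hz
    induction hz using Subfield.closure_induction with
    | mem z hz =>
      rcases hz with hz | hz
      · exact ⟨∅, by simp, Subfield.subset_closure (Or.inl hz)⟩
      · exact ⟨{z}, by simpa using hz, Subfield.subset_closure (Or.inr (by simp))⟩
    | one => exact ⟨∅, by simp, one_mem _⟩
    | add a c _ _ ha hc =>
      obtain ⟨t, ht, h1⟩ := ha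
      obtain ⟨t', ht', h2⟩ := hc
      refine ⟨t ∪ t', by rw [Finset.coe_union]; exact Set.union_subset ht ht', add_mem ?_ ?_⟩
      · exact Subfield.closure_mono (Set.union_subset_union_right _
          (by rw [Finset.coe_union]; exact Set.subset_union_left)) h1
      · exact Subfield.closure_mono (Set.union_subset_union_right _
          (by rw [Finset.coe_union]; exact Set.subset_union_right)) h2
    | neg a _ ha =>
      obtain ⟨t, ht, h1⟩ := ha
      exact ⟨t, ht, neg_mem h1⟩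
    | inv a _ ha =>
      obtain ⟨t, ht, h1⟩ := ha
      exact ⟨t, ht, inv_mem h1⟩
    | mul a c _ _ ha hc =>
      obtain ⟨t, ht, h1⟩ := ha
      obtain ⟨t', ht', h2⟩ := hc
      refine ⟨t ∪ t', by rw [Finset.coe_union]; exact Set.union_subset ht ht', mul_mem ?_ ?_⟩
      · exact Subfield.closure_mono (Set.union_subset_union_right _
          (by rw [Finset.coe_union]; exact Set.subset_union_left)) h1
      · exact Subfield.closure_mono (Set.union_subset_union_right _
          (by rw [Finset.coe_union]; exact Set.subset_union_right)) h2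
  obtain ⟨t, htS, hyt⟩ := key y hyx
  choose b hb C hC using fun z : t => htS z.2
  obtain ⟨C0, hC0⟩ : ∃ C0 : ℝ, ∀ z : t, C z ≤ C0 := by
    rcases isEmpty_or_nonempty t with h | h
    · exact ⟨0, fun z => h.elim z⟩
    · obtain ⟨z0, -, h0⟩ := Finset.exists_max_image Finset.univ C Finset.univ_nonempty
      exact ⟨C z0, fun z => h0 z (Finset.mem_univ z)⟩
  obtain ⟨n₀, h⟩ := digit_thm K hK y hy hyK b (fun z : t => (z : ℝ)) hb (by
    have : Set.range (fun z : t => (z : ℝ)) = (t : Set ℝ) := Subtype.range_coe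
    rw [this]
    exact hyt) C0
  obtain ⟨z, hz⟩ := h (max n₀ 1) (le_max_left _ _)
  have h1 := hC z (max n₀ 1) (le_max_right _ _)
  have h2 : C z * (max n₀ 1 : ℕ) ≤ C0 * (max n₀ 1 : ℕ) :=
    mul_le_mul_of_nonneg_right (hC0 z) (Nat.cast_nonneg _)
  linarith

lemma complexity_val {b : ℕ} (hb : 2 ≤ b) (v : ℕ → ZMod b) (n : ℕ) :
    complexity (fun k => ((v k).val : ℤ)) n = cx v n := by
  have : NeZero b := ⟨by omega⟩
  rw [complexity, cx]
  have h1 : (Set.range fun i => fun j : Fin n => ((v (i + j)).val : ℤ))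
      = (fun (u : Fin n → ZMod b) (j : Fin n) => ((u j).val : ℤ)) '' Set.range (fac v n) := by
    rw [← Set.range_comp]
    rfl
  rw [h1]
  refine Set.ncard_image_of_injective _ fun u v huv => ?_
  funext j
  have h2 : ((u j).val : ℤ) = ((v j).val : ℤ) := congrFun huv j
  exact ZMod.val_injective b (by exact_mod_cast h2)

/-- the digits in the residue classes modulo `r` -/
theorem residue_thm (y : ℝ) (hy : IsAlgebraic ℚ y) (hirr : Irrational y) {b : ℕ} (hb : 2 ≤ b)
    {r : ℕ} (hr : 1 ≤ r) (C : ℝ) :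
    ∃ n₀ : ℕ, ∀ n ≥ n₀, ∃ j < r, C * n < complexity (fun k => digit b y (r * k + j)) n := by
  have : NeZero b := ⟨by omega⟩
  have : NeZero r := ⟨by omega⟩
  have hb1 : (1 : ℝ) < b := by exact_mod_cast (by omega : 1 < b)
  have hb0 : (0 : ℝ) < b := by linarith
  have hq0 : (b : ℚ) ≠ 0 := by exact_mod_cast (by omega : b ≠ 0)
  have hg : |((1 : ℚ) / b) ^ r| < 1 := by
    rw [abs_of_nonneg (by positivity)]
    refine pow_lt_one₀ (by positivity) ?_ (by omega)
    rw [div_lt_one (by positivity)]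
    exact_mod_cast (by omega : 1 < b)
  set K : Subfield ℝ := (algebraMap ℚ ℝ).fieldRange with hK
  have hKa : ∀ a ∈ K, IsAlgebraic ℚ a := by
    intro a ha
    obtain ⟨q, rfl⟩ := ha
    exact isAlgebraic_algebraMap q
  have hyK : y ∉ K := by
    rintro ⟨q, hq⟩
    exact hirr ⟨q, hq⟩
  set F : ℕ → ℝ := term (α := ZMod b) (fun _ => (1 / b : ℚ)) (fun a => (a.val : ℝ) / b) (dz b y)
    with hF
  have hsum := hasSum_digits hb y
  set x : ZMod r → ℝ := fun j => ∑' m, F (j.val + r * m) with hx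
  have hterm : ∀ (j : ZMod r) (m : ℕ), F (j.val + r * m)
      = (∏ i ∈ Finset.range m, ((((1 : ℚ) / b) ^ r : ℚ) : ℝ))
        * ((((dz b y (r * m + j.val)).val : ℝ) / (b : ℝ) ^ (j.val + 1))) := by
    intro j m
    rw [hF, term, Finset.prod_const, Finset.card_range, Finset.prod_const, Finset.card_range]
    push_cast
    rw [add_comm j.val (r * m), pow_add, pow_mul, one_div, pow_succ, inv_pow, inv_pow, inv_pow]
    field_simp
  obtain ⟨n₀, h⟩ := addr_thm K hKa y hy hyK (ι := ZMod r) (fun _ => ZMod b)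
    (fun _ _ => ((1 : ℚ) / b) ^ r) (fun j a => (a.val : ℝ) / (b : ℝ) ^ (j.val + 1))
    (fun j m => dz b y (r * m + j.val)) x (fun i => inferInstance)
    (fun i a => ⟨pow_ne_zero _ (one_div_ne_zero hq0), hg⟩)
    (fun i a => K.div_mem (natCast_mem K _) (K.pow_mem (natCast_mem K _) _)) (fun j => by
      have h1 : Summable fun m => F (j.val + r * m) := by
        refine hsum.summable.comp_injective (i := fun m => j.val + r * m) ?_
        intro m m' hm
        have : r * m = r * m' := by simpa using hm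
        exact Nat.eq_of_mul_eq_mul_left (by omega) this
      have h2 := h1.hasSum
      simp only [hterm] at h2
      convert h2 using 1
      rw [hx]
      simp only [hterm]) (by
      have h1 : y = ⌊y⌋ + ∑ j : ZMod r, x j := by
        rw [hx]
        simp only
        rw [← Nat.sumByResidueClasses hsum.summable r, hsum.tsum_eq]
        ring
      rw [h1]
      refine add_mem (intCast_mem _ _) (sum_mem fun j _ => ?_)
      exact Subfield.subset_closure (Or.inr ⟨j, rfl⟩)) C
  refine ⟨n₀, fun n hn => ?_⟩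
  obtain ⟨j, hj⟩ := h n hn
  refine ⟨j.val, ZMod.val_lt j, ?_⟩
  have h3 : (fun k => digit b y (r * k + j.val)) = fun k => ((dz b y (r * k + j.val)).val : ℤ) := by
    funext k
    exact digit_eq hb _ _
  rw [h3, complexity_val hb (fun k => dz b y (r * k + j.val))]
  exact hj

end Pool.Agent.TH796.AL.Final
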