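import Mathlib
import Pool.Agent.TH796.AL.StmsG

set_option autoImplicit false

/-!
# Project AL, part V: representations with characters in a subspace
-/

namespace Pool.Agent.TH796.AL

open Filter Topology Pool.Agent.TH932.Abs Pool.Agent.TH932.Germs Pool.Agent.TH932.Chi
open Pool.Agent.TH932.Words

/-- the real number `x` is approximated to every order by combinations of finitely many bounded
germs, with characters in the subspace `V` -/
def RepV {m : ℕ} (B : Base m) {L : ℕ → ℝ} (hL : Tendsto L atTop atTop)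
    (V : Submodule ℝ (Fin m → ℝ)) (x : ℝ) : Prop :=
  ∃ (Z : Type) (_ : Fintype Z) (z : Z → GG) (C : ℝ),
    (∀ v j, z j ∈ Sv B L v (-C)) ∧ (∀ j, Sint B L (z j)) ∧
    ∀ E : ℝ, ∃ (P : Z → Rg m hL) (s : ℕ → ℚ), (∀ j g, (P j).coeff g ≠ 0 → g ∈ V) ∧
      gm s = ∑ j, ev B hL (P j) * z j ∧
      ∀ᶠ n in (UU : Filter ℕ), |x - s n| ≤ Real.exp (-(E * L n))

/-- V1: numbers with addresses of linear complexity are represented with characters in the span of
the exponents of the ratios (port of `Pool.Agent.TH634.AL.repg`) -/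
def RepVStmt : Prop :=
  ∀ (m : ℕ) (B : Base m) (α : Type) (_ : Finite α) (γ c : α → ℚ)
    (_ : ∀ a, γ a ≠ 0 ∧ |γ a| < 1) (e : α → Fin m → ℤ)
    (_ : ∀ a, |γ a| = ∏ i, (B.P i : ℚ) ^ e a i) (w : ℕ → α) (x : ℝ) (_ : Addr γ c w x)
    (_ : Irrational x) (N : ℕ → ℕ) (_ : ∀ n, 2 ≤ N n) (C : ℝ)
    (_ : ∀ n, (cx w (N n) : ℝ) ≤ C * N n)
    (hL : Tendsto (fun n => (N n : ℝ)) atTop atTop) (V : Submodule ℝ (Fin m → ℝ))
    (_ : ∀ a, (fun i => (e a i : ℝ)) ∈ V), RepV B hL V x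

/-- V2: for fixed `V` these numbers form a `ℚ`-algebra (port of `Pool.Agent.TH73.AL.ring`) -/
def RingVStmt : Prop :=
  ∀ (m : ℕ) (B : Base m) (L : ℕ → ℝ) (hL : Tendsto L atTop atTop)
    (V : Submodule ℝ (Fin m → ℝ)) (σ : Type) (x : σ → ℝ)
    (_ : ∀ i, RepV B hL V (x i)) (f : MvPolynomial σ ℚ), RepV B hL V (MvPolynomial.aeval x f)

/-- V3: independence of subspaces with trivial intersections -/
def DirectStmt : Prop :=
  ∀ (m : ℕ) (B : Base m) (L : ℕ → ℝ) (hL : Tendsto L atTop atTop) (k : ℕ)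
    (V : Fin k → Submodule ℝ (Fin m → ℝ)) (_ : ∀ i j, i ≠ j → Disjoint (V i) (V j))
    (y : Fin k → ℝ) (_ : ∀ i, RepV B hL (V i) (y i)) (_ : ∑ i, y i = 0) (i : Fin k),
    ∃ (H : ℝ) (g : ℕ → ℚ), (∀ᶠ n in (UU : Filter ℕ), ((g n).den : ℝ) ≤ Real.exp (H * L n)) ∧
      ∀ E : ℝ, ∀ᶠ n in (UU : Filter ℕ), |y i - g n| ≤ Real.exp (-(E * L n))

end Pool.Agent.TH796.AL
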