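import Mathlib
import Pool.Agent.TH796.AL.StmsV
import Pool.Agent.TH796.AL.Lin

set_option autoImplicit false
set_option linter.unusedSectionVars false

/-!
# Project AL: independence of subspaces with trivial intersections
-/

namespace Pool.Agent.TH796.AL.Dir

open Filter Topology Pool.Agent.TH932.Abs Pool.Agent.TH932.Germs Pool.Agent.TH932.Chi
open Pool.Agent.TH796.AL Pool.Agent.TH796.AL.Lin

variable {m : ℕ} {B : Base m} {L : ℕ → ℝ} (hL : Tendsto L atTop atTop)

/-- supports of products -/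
lemma supp_mul {P H : Rg m hL} {g : Fin m → ℝ} (h : (P * H).coeff g ≠ 0) :
    ∃ a b, P.coeff a ≠ 0 ∧ H.coeff b ≠ 0 ∧ a + b = g := by
  classical
  rw [AddMonoidAlgebra.coeff_mul, Finsupp.sum] at h
  obtain ⟨a, ha, h1⟩ := Finset.exists_ne_zero_of_sum_ne_zero h
  rw [Finsupp.sum] at h1
  obtain ⟨b, hb, h2⟩ := Finset.exists_ne_zero_of_sum_ne_zero h1
  refine ⟨a, b, Finsupp.mem_support_iff.1 ha, Finsupp.mem_support_iff.1 hb, ?_⟩
  by_contra hne
  exact h2 (if_neg hne)

/-- two tubes meet in a finite set -/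
lemma tubes {V W : Submodule ℝ (Fin m → ℝ)} (h : Disjoint V W) (S : Finset (Fin m → ℝ)) :
    {g : Fin m → ℝ | (∃ v ∈ V, ∃ a ∈ S, v + a = g) ∧ ∃ w ∈ W, ∃ a ∈ S, w + a = g}.Finite := by
  classical
  have h1 : {g : Fin m → ℝ | (∃ v ∈ V, ∃ a ∈ S, v + a = g) ∧ ∃ w ∈ W, ∃ a ∈ S, w + a = g}
      ⊆ ⋃ p ∈ (S ×ˢ S : Finset _), {g : Fin m → ℝ | g - p.1 ∈ V ∧ g - p.2 ∈ W} := by
    rintro g ⟨⟨v, hv, a, ha, h2⟩, w, hw, b, hb, h3⟩
    simp only [Set.mem_iUnion]
    refine ⟨(a, b), Finset.mem_product.2 ⟨ha, hb⟩, ?_, ?_⟩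
    · rw [← h2]; simpa using hv
    · rw [← h3]; simpa using hw
  refine Set.Finite.subset (Set.Finite.biUnion (Finset.finite_toSet _) fun p _ => ?_) h1
  refine Set.Subsingleton.finite ?_
  rintro g ⟨h2, h3⟩ g' ⟨h2', h3'⟩
  have h4 : g - g' ∈ V := by
    have := V.sub_mem h2 h2'
    simpa using this
  have h5 : g - g' ∈ W := by
    have := W.sub_mem h3 h3'
    simpa using this
  have h6 := Submodule.disjoint_def.1 h _ h4 h5
  exact sub_eq_zero.1 h6

/-- bounded denominators -/
def DB (L : ℕ → ℝ) (H : ℝ) (a : ℕ → ℚ) : Prop :=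
  ∀ᶠ n in (UU : Filter ℕ), ((a n).den : ℝ) ≤ Real.exp (H * L n)

include hL in
lemma db_of_RS {t : ℝ} {a : ℕ → ℚ} (h : gm a ∈ SS L (RS B) t) : DB L (1 + m * (|t| + 1)) a := by
  rw [mem_SS] at h
  filter_upwards [h 1 one_pos, L_nonneg hL] with n h1 h2
  obtain ⟨d, c, k, hd, hd1, hda, hk⟩ := h1
  set M : ℤ := d * ∏ i, (B.P i : ℤ) ^ (-(k i)).toNat with hM
  have hP : ∀ i, (B.P i : ℤ) ≠ 0 := fun i => by have := B.pos i; omega
  have hM0 : M ≠ 0 := mul_ne_zero hd (Finset.prod_ne_zero_iff.2 fun i _ => pow_ne_zero _ (hP i))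
  have hMq : (M : ℚ) ≠ 0 := by exact_mod_cast hM0
  have e1 : (M : ℚ) * a n = (((∏ i, (B.P i : ℤ) ^ (k i).toNat) * c : ℤ) : ℚ) := by
    rw [hM]
    push_cast
    rw [mul_right_comm, hda, mul_right_comm, ← Finset.prod_mul_distrib]
    congr 1
    refine Finset.prod_congr rfl fun i _ => ?_
    have hb := B.q0 i
    rw [← zpow_natCast, ← zpow_natCast, ← zpow_add₀ hb]
    congr 1
    omega
  have e2 : a n = (((∏ i, (B.P i : ℤ) ^ (k i).toNat) * c : ℤ) : ℚ) / (M : ℚ) := by
    rw [← e1, mul_div_cancel_left₀ _ hMq]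
  have e3 : ((a n).den : ℤ) ∣ M := by
    rw [e2, ← Rat.divInt_eq_div]
    exact Rat.den_dvd _ _
  have e4 : ((a n).den : ℝ) ≤ |(M : ℝ)| := by
    have h3 := Int.le_of_dvd (abs_pos.2 hM0) ((dvd_abs _ _).2 e3)
    have h4 : (((a n).den : ℤ) : ℝ) ≤ ((|M| : ℤ) : ℝ) := by exact_mod_cast h3
    rw [Int.cast_abs] at h4
    exact_mod_cast h4
  refine e4.trans ?_
  rw [hM]
  push_cast
  rw [abs_mul, Finset.abs_prod]
  have e5 : ∀ i, |(B.P i : ℝ) ^ (-(k i)).toNat| ≤ Real.exp ((|t| + 1) * L n) := by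
    intro i
    have hr := B.r0 i
    have hl := B.log_pos i
    rw [abs_of_pos (by positivity)]
    have h5 : (B.P i : ℝ) ^ (-(k i)).toNat = Real.exp ((-(k i)).toNat * Real.log (B.P i)) := by
      rw [Real.exp_nat_mul, Real.exp_log hr]
    rw [h5]
    refine Real.exp_le_exp.2 ?_
    have h6 := hk i
    have h7 := neg_abs_le t
    rcases le_total (k i) 0 with h8 | h8
    · have h9 : (((-(k i)).toNat : ℕ) : ℝ) = -(k i : ℝ) := by
        have : (((-(k i)).toNat : ℕ) : ℤ) = -(k i) := Int.toNat_of_nonneg (by omega)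
        exact_mod_cast congrArg (fun z : ℤ => (z : ℝ)) this
      rw [h9]
      nlinarith
    · have h9 : (-(k i)).toNat = 0 := by omega
      rw [h9]
      have : 0 ≤ |t| := abs_nonneg t
      simp only [Nat.cast_zero, zero_mul]
      positivity
  calc |(d : ℝ)| * ∏ i, |(B.P i : ℝ) ^ (-(k i)).toNat|
      ≤ Real.exp (1 * L n) * ∏ _i : Fin m, Real.exp ((|t| + 1) * L n) := by
        refine mul_le_mul hd1 (Finset.prod_le_prod (fun _ _ => abs_nonneg _) fun i _ => e5 i)
          (Finset.prod_nonneg fun _ _ => abs_nonneg _) (Real.exp_pos _).le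
    _ = Real.exp ((1 + m * (|t| + 1)) * L n) := by
        rw [Finset.prod_const, Finset.card_univ, Fintype.card_fin, ← Real.exp_nat_mul,
          ← Real.exp_add]
        ring_nf

lemma db_mul {H H' : ℝ} {a b : ℕ → ℚ} (ha : DB L H a) (hb : DB L H' b) :
    DB L (H + H') (fun n => a n * b n) := by
  filter_upwards [ha, hb] with n h1 h2
  have h3 : ((a n * b n).den : ℝ) ≤ (a n).den * (b n).den := by
    exact_mod_cast Nat.le_of_dvd (Nat.mul_pos (a n).den_pos (b n).den_pos) (Rat.mul_den_dvd _ _)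
  calc ((a n * b n).den : ℝ) ≤ (a n).den * (b n).den := h3
    _ ≤ Real.exp (H * L n) * Real.exp (H' * L n) := by gcongr
    _ = Real.exp ((H + H') * L n) := by rw [← Real.exp_add]; ring_nf

lemma db_inv {H x : ℝ} {a : ℕ → ℚ} (ha : DB L H a) (hx : gm a ∈ Sv B L none x)
    (h0 : gm a ≠ 0) : DB L (H + (1 - x)) (fun n => (a n)⁻¹) := by
  have h1 : ∀ᶠ n in (UU : Filter ℕ), a n ≠ 0 := by
    have := gm_ne_zero.1 h0
    exact this
  have hx' := SR_rho hx
  rw [rho_gm, mem_SR] at hx'
  filter_upwards [ha, h1, hx' 1 one_pos] with n g1 g2 g3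
  have e1 : (((a n)⁻¹).den : ℝ) = |(a n : ℝ)| * (a n).den := by
    have h4 : ((a n)⁻¹).den = (a n).num.natAbs := by
      rw [Rat.den_inv_of_ne_zero g2]
    rw [h4]
    have h5 : |(a n : ℝ)| = ((a n).num.natAbs : ℝ) / (a n).den := by
      have : (a n : ℝ) = ((a n).num : ℝ) / (a n).den := by
        exact_mod_cast (Rat.num_div_den (a n)).symm
      rw [this, abs_div, Nat.abs_cast, Nat.cast_natAbs, Int.cast_abs]
    rw [h5, div_mul_cancel₀]
    have := (a n).den_pos
    positivity
  rw [e1]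
  calc |(a n : ℝ)| * (a n).den ≤ Real.exp (-(x - 1) * L n) * Real.exp (H * L n) := by gcongr
    _ = Real.exp ((H + (1 - x)) * L n) := by rw [← Real.exp_add]; ring_nf

/-- two rational numbers with small denominators which are close are equal -/
lemma eq_of_close {a b : ℚ} {X : ℝ} (ha : (a.den : ℝ) ≤ X) (hb : (b.den : ℝ) ≤ X)
    (h : |(a : ℝ) - b| * (X * X) < 1) : a = b := by
  by_contra hne
  have h1 : a - b ≠ 0 := sub_ne_zero.2 hne
  have hap : (0 : ℝ) < a.den := by exact_mod_cast a.den_pos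
  have hbp : (0 : ℝ) < b.den := by exact_mod_cast b.den_pos
  have h2 : (((a - b) * (a.den * b.den) : ℚ) : ℝ) = ((a.num * b.den - b.num * a.den : ℤ) : ℝ) := by
    have e1 : a * a.den = a.num := Rat.mul_den_eq_num a
    have e2 : b * b.den = b.num := Rat.mul_den_eq_num b
    have : (a - b) * (a.den * b.den) = ((a.num * b.den - b.num * a.den : ℤ) : ℚ) := by
      push_cast
      rw [← e1, ← e2]
      ring
    exact_mod_cast this
  have h3 : (a.num * b.den - b.num * a.den : ℤ) ≠ 0 := by
    intro h0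
    rw [h0] at h2
    have h4 : (a - b) * (a.den * b.den) = 0 := by exact_mod_cast h2
    rcases mul_eq_zero.1 h4 with h5 | h5
    · exact h1 h5
    · have : (a.den : ℚ) * b.den ≠ 0 := by
        have := a.den_pos
        have := b.den_pos
        positivity
      exact this h5
  have h4 : (1 : ℝ) ≤ |((a.num * b.den - b.num * a.den : ℤ) : ℝ)| := by
    rw [← Int.cast_abs]
    exact_mod_cast Int.one_le_abs h3
  rw [← h2] at h4
  push_cast at h4
  rw [abs_mul, abs_of_pos (mul_pos hap hbp)] at h4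
  have hX : 0 ≤ X := hap.le.trans ha
  have h5 : |(a : ℝ) - b| * (a.den * b.den) ≤ |(a : ℝ) - b| * (X * X) := by gcongr
  linarith

include hL in
/-- uniform approximations of bounded height are constant -/
lemma finish {y H : ℝ} (h : ∀ E : ℝ, ∃ g : ℕ → ℚ, DB L H g ∧
    gr (fun n => y - (g n : ℝ)) ∈ SR L E) :
    ∃ g : ℕ → ℚ, DB L H g ∧
      ∀ E : ℝ, ∀ᶠ n in (UU : Filter ℕ), |y - g n| ≤ Real.exp (-(E * L n)) := by
  set E0 : ℝ := 2 * |H| + 3 with hE0
  obtain ⟨g, hg, hg2⟩ := h E0
  refine ⟨g, hg, fun E => ?_⟩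
  obtain ⟨g', hg', hg2'⟩ := h (max E E0 + 1)
  rw [mem_SR] at hg2 hg2'
  filter_upwards [hg, hg', hg2 1 one_pos, hg2' 1 one_pos, L_nonneg hL,
    ev_of_atTop (hL.eventually_ge_atTop 1)] with n h1 h2 h3 h4 h5 h6
  have hXX : Real.exp (H * L n) ≤ Real.exp (|H| * L n) := by
    have := le_abs_self H
    gcongr
  have e0 : g n = g' n := by
    refine eq_of_close (h1.trans hXX) (h2.trans hXX) ?_
    have h7 : |(g n : ℝ) - g' n| ≤ 2 * Real.exp (-(E0 - 1) * L n) := by
      have h8 : |y - g' n| ≤ Real.exp (-(E0 - 1) * L n) := by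
        refine h4.trans (Real.exp_le_exp.2 ?_)
        have := le_max_right E E0
        nlinarith
      calc |(g n : ℝ) - g' n| = |(y - g' n) - (y - g n)| := by ring_nf
        _ ≤ |y - g' n| + |y - g n| := abs_sub _ _
        _ ≤ Real.exp (-(E0 - 1) * L n) + Real.exp (-(E0 - 1) * L n) := add_le_add h8 h3
        _ = _ := by ring
    calc |(g n : ℝ) - g' n| * (Real.exp (|H| * L n) * Real.exp (|H| * L n))
        ≤ 2 * Real.exp (-(E0 - 1) * L n) * (Real.exp (|H| * L n) * Real.exp (|H| * L n)) := by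
          gcongr
      _ = 2 * Real.exp (-(2 * L n)) := by
          rw [mul_assoc, ← Real.exp_add, ← Real.exp_add, hE0]
          ring_nf
      _ < 1 := by
          have h9 : Real.exp (-(2 * L n)) ≤ Real.exp (-(1 + 1)) := by
            apply Real.exp_le_exp.2; linarith
          have h10 : Real.exp (-(1 + 1)) = (Real.exp 1 * Real.exp 1)⁻¹ := by
            rw [Real.exp_neg, Real.exp_add]
          have h11 : (2 : ℝ) < Real.exp 1 := by
            have := Real.add_one_lt_exp (x := 1) one_ne_zero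
            linarith
          rw [h10] at h9
          have h12 : (Real.exp 1 * Real.exp 1)⁻¹ < (2 * 2 : ℝ)⁻¹ := by
            apply inv_strictAnti₀ (by norm_num)
            nlinarith
          have h13 : (2 * 2 : ℝ)⁻¹ = 1 / 4 := by norm_num
          rw [h13] at h12
          linarith
  rw [e0]
  refine h4.trans (Real.exp_le_exp.2 ?_)
  have := le_max_left E E0
  nlinarith

/-- **Independence of subspaces with trivial intersections.** -/
theorem direct (h : KPAStmt) (hsu : SUStmt) : DirectStmt := by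
  classical
  intro m B L hL k V hV y hrep hsum i0
  choose Zl fZ z C hz1 hz2 hz3 using hrep
  -- the joint family
  set zz : (Σ l, Zl l) → GG := fun i => z i.1 i.2 with hzz
  set CC : ℝ := ∑ l, |C l| with hCC
  have hCl : ∀ l, C l ≤ CC := fun l => (le_abs_self _).trans
    (Finset.single_le_sum (f := fun l => |C l|) (fun _ _ => abs_nonneg _) (Finset.mem_univ l))
  obtain ⟨J, fJ, f, hind, D, H, hD, hDH⟩ := exists_ind (B := B) hL zz
  have hb1 : ∀ v j, zz (f j) ∈ Sv B L v (-CC) := fun v j =>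
    (filt_v hL v).anti (neg_le_neg (hCl _)) (hz1 _ v _)
  obtain ⟨K0, hK⟩ := h m B L hL ⊥ inferInstance J fJ (fun j => zz (f j)) CC hind hb1
    (fun j => hz2 _ _)
  obtain ⟨t0, ht0⟩ := ev_low (B := B) hL h hsu hD
  have hinv := SR_inv hL t0 _ ht0
  have hDne : ev B hL D ≠ 0 := fun h0 => ht0 (by rw [h0, map_zero]; exact SR_zero _)
  -- an upper bound for `D`
  obtain ⟨t1, ht1⟩ : ∃ t1 : ℝ, ev B hL D ∈ Sv B L none t1 := by
    refine ⟨-∑ g ∈ D.coeff.support, |lv B none g|, ?_⟩
    rw [ev_sum]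
    refine Finset.sum_induction _
      (fun a => a ∈ Sv B L none (-∑ g ∈ D.coeff.support, |lv B none g|))
      (fun _ _ => (filt_v hL none).add_mem) ((filt_v hL none).zero_mem _) fun g hg => ?_
    have h1 : ((D.coeff g : KK L hL) : GG) * ch B hL g ∈ Sv B L none (lv B none g) := by
      have := (filt_v (B := B) hL none).mul_mem ((filt_v (B := B) hL none).alg_mem (D.coeff g))
        (ch_mem (B := B) hL none g)
      rw [zero_add] at this
      exact this
    refine (filt_v hL none).anti ?_ h1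
    have h2 : |lv B none g| ≤ ∑ g ∈ D.coeff.support, |lv B none g| :=
      Finset.single_le_sum (f := fun g => |lv B none g|) (fun _ _ => abs_nonneg _) hg
    have h3 := neg_abs_le (lv B none g)
    linarith
  have ht1' := SR_rho ht1
  -- the finite set where two tubes meet
  set S0 : Finset (Fin m → ℝ) := Finset.univ.biUnion fun p : (Σ l, Zl l) × J =>
    (H p.1 p.2).coeff.support with hS0
  have hfin : (⋃ p : {p : Fin k × Fin k // p.1 ≠ p.2}, {g : Fin m → ℝ |
      (∃ v ∈ V p.1.1, ∃ a ∈ S0, v + a = g) ∧ ∃ w ∈ V p.1.2, ∃ a ∈ S0, w + a = g}).Finite :=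
    Set.finite_iUnion fun p => tubes (hV _ _ p.2) S0
  set S1 : Finset (Fin m → ℝ) := hfin.toFinset with hS1
  -- a uniform level for the `S`-integral germs
  choose tz htz using fun j : J => hz2 (f j).1 (f j).2
  choose tc htc using fun g : Fin m → ℝ => ch_sint (B := B) hL g
  set T0 : ℝ := -(∑ g ∈ S1, |tc g| + ∑ j, |tz j|) with hT0
  obtain ⟨δ, hδ⟩ := gm_surj (ev B hL D)
  obtain ⟨tD, htD⟩ := ev_sint (B := B) hL D
  rw [← hδ] at htD hDne ht1 ht1'
  have hDB1 := db_inv (db_of_RS hL htD) ht1 hDne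
  -- the approximations
  obtain ⟨H1, hH1⟩ : ∃ H1 : ℝ, ∀ E : ℝ, ∃ g : ℕ → ℚ, DB L H1 g ∧
      gr (fun n => y i0 - (g n : ℝ)) ∈ SR L E := by
    refine ⟨(1 + m * (|T0| + 1)) + ((1 + m * (|tD| + 1)) + (1 - t1)), fun E => ?_⟩
    set E' : ℝ := |E| + |t0| + |t1| + |K0| + |CC| + 1 with hE'
    choose P s hs0 hs1 hs2 using fun l => hz3 l E'
    have hsR : ∀ l, gr (fun n => (s l n : ℝ) - y l) ∈ SR L E' := by
      intro l
      rw [mem_SR]
      intro ε hε
      filter_upwards [hs2 l, L_nonneg hL] with n h1 h2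
      rw [abs_sub_comm]
      refine h1.trans (Real.exp_le_exp.2 ?_)
      nlinarith
    set Q : Fin k → J → Rg m hL := fun l i => ∑ j, P l j * H ⟨l, j⟩ i with hQ
    have hDs : ∀ l, ev B hL D * gm (s l) = ∑ i, ev B hL (Q l i) * zz (f i) := by
      intro l
      rw [hs1 l, Finset.mul_sum]
      have e1 : ∀ j, ev B hL D * (ev B hL (P l j) * z l j)
          = ∑ i, ev B hL (P l j * H ⟨l, j⟩ i) * zz (f i) := by
        intro j
        have e2 := hDH ⟨l, j⟩
        have e3 : zz ⟨l, j⟩ = z l j := rfl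
        rw [e3] at e2
        rw [mul_left_comm, e2, Finset.mul_sum]
        refine Finset.sum_congr rfl fun i _ => ?_
        rw [map_mul, mul_assoc]
      simp only [e1]
      rw [Finset.sum_comm]
      refine Finset.sum_congr rfl fun i _ => ?_
      rw [hQ]
      simp only []
      rw [map_sum, Finset.sum_mul]
    -- supports
    have hQs : ∀ l i g, (Q l i).coeff g ≠ 0 → ∃ v ∈ V l, ∃ a ∈ S0, v + a = g := by
      intro l i g hg
      rw [hQ] at hg
      simp only [] at hg
      rw [AddMonoidAlgebra.coeff_sum, Finsupp.finsetSum_apply] at hg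
      obtain ⟨j, -, hj⟩ := Finset.exists_ne_zero_of_sum_ne_zero hg
      obtain ⟨a, b, ha, hb, hab⟩ := supp_mul hL hj
      exact ⟨a, hs0 l j a ha, b, Finset.mem_biUnion.2 ⟨(⟨l, j⟩, i), Finset.mem_univ _,
        Finsupp.mem_support_iff.2 hb⟩, hab⟩
    -- the sum is small
    have hAs : ∑ i, evA ⊥ B hL (incR hL ⊥ (∑ l, Q l i)) * rho (zz (f i)) ∈ SR L (t1 + E') := by
      have e1 : ∑ i, evA ⊥ B hL (incR hL ⊥ (∑ l, Q l i)) * rho (zz (f i))
          = rho (gm δ) * ∑ l, gr (fun n => (s l n : ℝ) - y l) := by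
        have e3 : ∀ l, gr (fun n => (s l n : ℝ) - y l) = rho (gm (s l)) - algebraMap ℝ HR (y l) := by
          intro l
          rw [rho_gm, cst_eq, gr_sub]
        simp only [e3, Finset.sum_sub_distrib]
        rw [← map_sum (algebraMap ℝ HR), hsum, map_zero, sub_zero, ← map_sum, ← map_mul, hδ,
          Finset.mul_sum]
        simp only [hDs, evA_incR]
        rw [Finset.sum_comm, map_sum]
        refine Finset.sum_congr rfl fun i _ => ?_
        rw [map_sum (ev B hL), ← Finset.sum_mul, map_mul]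
      rw [e1]
      exact SR_mul hL ht1' (SR_sum hL _ _ fun l _ => hsR l)
    have hsupp : ∀ i g, (∑ l, Q l i).coeff g ≠ 0 → t1 + E' ≤ lv B none g + K0 := by
      intro i g hg
      refine hK (fun i => incR hL ⊥ (∑ l, Q l i)) (t1 + E') hAs i g ?_
      rw [incR_coeff]
      intro h0
      apply hg
      have h3 := congrArg (fun x : KA ⊥ hL => (x : HR)) h0
      simp only [inc_coe] at h3
      have h4 : rho (((∑ l, Q l i).coeff g : KK L hL) : GG) = rho 0 := by
        rw [h3, map_zero]; rfl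
      exact Subtype.ext (rho_injective h4)
    have hone : ∀ l i g, (Q l i).coeff g ≠ 0 → g ∉ S1 → t1 + E' ≤ lv B none g + K0 := by
      intro l i g hg hgS
      refine hsupp i g ?_
      rw [AddMonoidAlgebra.coeff_sum, Finsupp.finsetSum_apply, Finset.sum_eq_single l]
      · exact hg
      · intro l' _ hl'
        by_contra h0
        apply hgS
        rw [hS1, Set.Finite.mem_toFinset]
        refine Set.mem_iUnion.2 ⟨⟨(l, l'), hl'.symm⟩, hQs l i g hg, hQs l' i g h0⟩
      · intro h0
        exact absurd (Finset.mem_univ _) h0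
    -- the bounded part
    set G : GG := ∑ i, ∑ g ∈ S1, (((Q i0 i).coeff g : KK L hL) : GG) * ch B hL g * zz (f i) with hG
    obtain ⟨a, ha⟩ := gm_surj G
    have hGS : G ∈ SS L (RS B) T0 := by
      have hF := filt_S (B := B) hL
      refine Finset.sum_induction _ (fun x => x ∈ SS L (RS B) T0) (fun _ _ => hF.add_mem)
        (hF.zero_mem _) fun i _ => ?_
      refine Finset.sum_induction _ (fun x => x ∈ SS L (RS B) T0) (fun _ _ => hF.add_mem)
        (hF.zero_mem _) fun g hg => ?_
      have h1 := hF.mul_mem (hF.mul_mem (hF.alg_mem ((Q i0 i).coeff g)) (htc g)) (htz i)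
      refine hF.anti ?_ h1
      have h2 : |tc g| ≤ ∑ g ∈ S1, |tc g| :=
        Finset.single_le_sum (f := fun g => |tc g|) (fun _ _ => abs_nonneg _) hg
      have h3 : |tz i| ≤ ∑ j, |tz j| :=
        Finset.single_le_sum (f := fun g => |tz g|) (fun _ _ => abs_nonneg _) (Finset.mem_univ i)
      have h4 := neg_abs_le (tc g)
      have h5 := neg_abs_le (tz i)
      rw [hT0]
      linarith
    have hdiff : ev B hL D * gm (s i0) - G ∈ Sv B L none (t1 + E' - K0 - CC) := by
      have e1 : ev B hL D * gm (s i0) - G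
          = ∑ i, (ev B hL (Q i0 i) - ∑ g ∈ S1, (((Q i0 i).coeff g : KK L hL) : GG) * ch B hL g)
            * zz (f i) := by
        rw [hDs i0, hG, ← Finset.sum_sub_distrib]
        refine Finset.sum_congr rfl fun i _ => ?_
        rw [sub_mul, Finset.sum_mul]
      rw [e1]
      refine Finset.sum_induction _ (fun g => g ∈ Sv B L none (t1 + E' - K0 - CC))
        (fun _ _ => (filt_v hL none).add_mem) ((filt_v hL none).zero_mem _) fun i _ => ?_
      have h2 : ev B hL (Q i0 i) - ∑ g ∈ S1, (((Q i0 i).coeff g : KK L hL) : GG) * ch B hL g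
          ∈ Sv B L none (t1 + E' - K0) := by
        have e2 : ev B hL (Q i0 i) - ∑ g ∈ S1, (((Q i0 i).coeff g : KK L hL) : GG) * ch B hL g
            = ∑ g ∈ (Q i0 i).coeff.support \ S1,
              (((Q i0 i).coeff g : KK L hL) : GG) * ch B hL g := by
          have e3 : ∑ g ∈ S1, (((Q i0 i).coeff g : KK L hL) : GG) * ch B hL g
              = ∑ g ∈ (Q i0 i).coeff.support ∩ S1,
                (((Q i0 i).coeff g : KK L hL) : GG) * ch B hL g := by
            symm
            refine Finset.sum_subset Finset.inter_subset_right fun g hg hg' => ?_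
            have : (Q i0 i).coeff g = 0 := by
              by_contra hne
              exact hg' (Finset.mem_inter.2 ⟨Finsupp.mem_support_iff.2 hne, hg⟩)
            rw [this]
            simp
          rw [ev_sum, e3, sub_eq_iff_eq_add, add_comm]
          exact (Finset.sum_inter_add_sum_sdiff _ _ _).symm
        rw [e2]
        refine Finset.sum_induction _ (fun g => g ∈ Sv B L none (t1 + E' - K0))
          (fun _ _ => (filt_v hL none).add_mem) ((filt_v hL none).zero_mem _) fun g hg => ?_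
        rw [Finset.mem_sdiff] at hg
        have h3 := hone i0 i g (Finsupp.mem_support_iff.1 hg.1) hg.2
        have := (filt_v (B := B) hL none).mul_mem
          ((filt_v (B := B) hL none).alg_mem ((Q i0 i).coeff g)) (ch_mem (B := B) hL none g)
        rw [zero_add] at this
        exact (filt_v hL none).anti (by linarith) this
      have h3 := (filt_v hL none).mul_mem h2 (hb1 none i)
      rw [← sub_eq_add_neg] at h3
      exact h3
    rw [← ha] at hGS
    refine ⟨fun n => a n * (δ n)⁻¹, db_mul (db_of_RS hL hGS) hDB1, ?_⟩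
    have e1 : gr (fun n => y i0 - ((a n * (δ n)⁻¹ : ℚ) : ℝ))
        = -(gr fun n => (s i0 n : ℝ) - y i0)
          + (rho (ev B hL D))⁻¹ * rho (ev B hL D * gm (s i0) - G) := by
      have hne : rho (ev B hL D) ≠ 0 := by
        rw [← hδ]
        intro h0
        exact hDne (rho_injective (by rw [h0, map_zero]))
      have e2 : (rho (ev B hL D))⁻¹ * rho (ev B hL D * gm (s i0) - G)
          = rho (gm (s i0)) - rho G * (rho (ev B hL D))⁻¹ := by
        rw [map_sub, map_mul, mul_sub, inv_mul_cancel_left₀ hne, mul_comm (rho G)]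
      rw [e2, ← ha, ← hδ, rho_gm, rho_gm, rho_gm, gr_inv, gr_mul, gr_sub, gr_neg, gr_add, gr_eq]
      refine Eventually.of_forall fun n => ?_
      push_cast
      ring
    rw [e1]
    refine SR_add hL ?_ ?_
    · have h1 : -(gr fun n => (s i0 n : ℝ) - y i0) ∈ SR L E' := by
        have h2 := SR_mul hL (SR_cst hL (-1)) (hsR i0)
        rw [zero_add, map_neg, map_one, neg_one_mul] at h2
        exact h2
      refine SR_anti hL ?_ h1
      have := le_abs_self E
      have := abs_nonneg t0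
      have := abs_nonneg t1
      have := abs_nonneg K0
      have := abs_nonneg CC
      linarith
    · refine SR_anti hL ?_ (SR_mul hL hinv (SR_rho hdiff))
      have := le_abs_self E
      have := le_abs_self t0
      have := neg_abs_le t1
      have := le_abs_self K0
      have := le_abs_self CC
      linarith
  obtain ⟨g, h1, h2⟩ := finish hL hH1
  exact ⟨H1, g, h1, h2⟩

end Pool.Agent.TH796.AL.Dir
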