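import Mathlib
import Pool.Agent.TH796.AL.Dir
import Pool.Agent.TH796.AL.Final
import Pool.Agent.TH494.ALV_RINGV
import Pool.Agent.TH570.J3881

set_option autoImplicit false
set_option linter.unusedSectionVars false

/-!
# Project AL, part V: multiplicatively independent bases
-/

namespace Pool.Agent.TH796.AL.TwoB

open Filter Topology Pool.Agent.TH932.Abs Pool.Agent.TH932.Germs Pool.Agent.TH932.Chi
open Pool.Agent.TH796.AL Pool.Agent.TH932.Words Pool.Agent.TH796.AL.Strong
open Pool.Agent.TH796.AL.Final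

theorem repv_thm : RepVStmt := Pool.Agent.TH570.ALV.repv
theorem ringv_thm : RingVStmt := Pool.Agent.TH494.ALV.ringv
theorem direct_thm : DirectStmt := Dir.direct kpa_thm su_thm

lemma RepV.rep {m : ℕ} {B : Base m} {L : ℕ → ℝ} {hL : Tendsto L atTop atTop}
    {V : Submodule ℝ (Fin m → ℝ)} {x : ℝ} (h : RepV B hL V x) : Rep B hL x := by
  obtain ⟨Z, i, z, C, h1, h2, h3⟩ := h
  exact ⟨Z, i, z, C, h1, h2, fun E => by
    obtain ⟨P, s, _, g2, g3⟩ := h3 E
    exact ⟨P, s, g2, g3⟩⟩

lemma repV_const {m : ℕ} (B : Base m) {L : ℕ → ℝ} (hL : Tendsto L atTop atTop)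
    (V : Submodule ℝ (Fin m → ℝ)) (q : ℚ) : RepV B hL V (q : ℝ) := by
  have h2 := ringv_thm m B _ hL V Empty (fun i => i.elim) (fun i => i.elim) (MvPolynomial.C q)
  rw [MvPolynomial.aeval_C] at h2
  exact h2

lemma repV_add {m : ℕ} {B : Base m} {L : ℕ → ℝ} {hL : Tendsto L atTop atTop}
    {V : Submodule ℝ (Fin m → ℝ)} {x y : ℝ} (hx : RepV B hL V x) (hy : RepV B hL V y) :
    RepV B hL V (x + y) := Pool.Agent.TH494.ALV.rep_add hL hx hy

lemma repV_mul {m : ℕ} {B : Base m} {L : ℕ → ℝ} {hL : Tendsto L atTop atTop}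
    {V : Submodule ℝ (Fin m → ℝ)} {x y : ℝ} (hx : RepV B hL V x) (hy : RepV B hL V y) :
    RepV B hL V (x * y) := Pool.Agent.TH494.ALV.rep_mul hL hx hy

/-- numbers of linear complexity in the base `b` -/
lemma repV_digits {m : ℕ} (B : Base m) {b : ℕ} (hb : 2 ≤ b) (e : Fin m → ℕ)
    (hbe : b = ∏ i, B.P i ^ e i) (V : Submodule ℝ (Fin m → ℝ)) (hV : (fun i => (e i : ℝ)) ∈ V)
    (x : ℝ) (N : ℕ → ℕ) (hN : ∀ n, 2 ≤ N n) (C : ℝ)
    (hC : ∀ n, (cx (dz b x) (N n) : ℝ) ≤ C * N n)
    (hL : Tendsto (fun n => (N n : ℝ)) atTop atTop) : RepV B hL V x := by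
  have : NeZero b := ⟨by omega⟩
  have hq0 : (b : ℚ) ≠ 0 := by exact_mod_cast (by omega : b ≠ 0)
  have hγ : |(1 / b : ℚ)| < 1 := by
    rw [abs_of_nonneg (by positivity), div_lt_one (by positivity)]
    exact_mod_cast (by omega : 1 < b)
  by_cases hx : Irrational (x - ⌊x⌋)
  · have h1 : RepV B hL V (x - ⌊x⌋) := by
      have hs := hasSum_digits hb x
      have h2 := addr_of_ser (α := ZMod b) (fun _ => (1 / b : ℚ)) (fun _ => hγ) (dz b x)
        (fun a => (a.val : ℚ) / b)
      have e1 : ∑' n, term (α := ZMod b) (fun _ => (1 / b : ℚ))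
          (fun a => (((a.val : ℚ) / b : ℚ) : ℝ)) (dz b x) n = x - ⌊x⌋ := by
        rw [← hs.tsum_eq]
        refine tsum_congr fun n => ?_
        unfold term
        push_cast
        rfl
      rw [e1] at h2
      refine repv_thm m B (ZMod b) inferInstance (fun _ => (1 / b : ℚ))
        (fun a => (a.val : ℚ) / b) (fun _ => ⟨one_div_ne_zero hq0, hγ⟩)
        (fun _ i => -(e i : ℤ)) (fun _ => ?_) (dz b x) _ h2 hx N hN C hC hL V (fun _ => ?_)
      · rw [abs_of_nonneg (by positivity), one_div]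
        have h3 : (b : ℚ) = ∏ i, (B.P i : ℚ) ^ e i := by
          exact_mod_cast congrArg (fun n : ℕ => (n : ℚ)) hbe
        rw [h3, ← Finset.prod_inv_distrib]
        refine Finset.prod_congr rfl fun i _ => ?_
        rw [zpow_neg, zpow_natCast]
      · have h3 := V.neg_mem hV
        convert h3 using 1
        funext i
        simp
    have h4 := repV_add h1 (repV_const B hL V (⌊x⌋ : ℚ))
    have e2 : x - ⌊x⌋ + (((⌊x⌋ : ℤ) : ℚ) : ℝ) = x := by push_cast; ring
    rwa [e2] at h4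
  · unfold Irrational at hx
    rw [not_not] at hx
    obtain ⟨q, hq⟩ := hx
    have e3 : ((q + ⌊x⌋ : ℚ) : ℝ) = x := by push_cast; rw [hq]; ring
    rw [← e3]
    exact repV_const B hL V _

/-- multiplicatively independent integers -/
def Indep (a b : ℕ) : Prop := ∀ k l : ℕ, a ^ k = b ^ l → k = 0 ∧ l = 0

lemma disjoint_of_indep {m : ℕ} (B : Base m) {a b : ℕ} (h : Indep a b) (e f : Fin m → ℕ)
    (ha : a = ∏ i, B.P i ^ e i) (hb : b = ∏ i, B.P i ^ f i) :
    Disjoint (Submodule.span ℝ {fun i => (e i : ℝ)}) (Submodule.span ℝ {fun i => (f i : ℝ)}) := by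
  rw [Submodule.disjoint_def]
  intro x hx hy
  rw [Submodule.mem_span_singleton] at hx hy
  obtain ⟨s, rfl⟩ := hx
  obtain ⟨t, ht⟩ := hy
  by_contra hne
  have hs : s ≠ 0 := by rintro rfl; exact hne (zero_smul _ _)
  have he : ∀ i, t * f i = s * e i := fun i => congrFun ht i
  obtain ⟨i, hi⟩ : ∃ i, (s • fun i => (e i : ℝ)) i ≠ 0 := by
    by_contra hc
    push Not at hc
    exact hne (funext hc)
  have hi' : s * (e i : ℝ) ≠ 0 := hi
  have hei : (e i : ℝ) ≠ 0 := right_ne_zero_of_mul hi'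
  have hfi : (f i : ℝ) ≠ 0 := by
    intro h0
    have := he i
    rw [h0, mul_zero] at this
    exact hi' this.symm
  -- e i * f j = f i * e j
  have h1 : ∀ j, e i * f j = f i * e j := by
    intro j
    have h2 := he i
    have h3 := he j
    have ht0 : t ≠ 0 := by
      rintro rfl
      rw [zero_mul] at h2
      exact hi' h2.symm
    have h4 : ((e i * f j : ℕ) : ℝ) = ((f i * e j : ℕ) : ℝ) := by
      push_cast
      have h5 : s * t * ((e i : ℝ) * f j) = s * t * ((f i : ℝ) * e j) := by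
        calc s * t * ((e i : ℝ) * f j) = (s * e i) * (t * f j) := by ring
          _ = (t * f i) * (s * e j) := by rw [← h2, h3]
          _ = _ := by ring
      exact mul_left_cancel₀ (mul_ne_zero hs ht0) h5
    exact_mod_cast h4
  have h2 : a ^ f i = b ^ e i := by
    rw [ha, hb, ← Finset.prod_pow, ← Finset.prod_pow]
    refine Finset.prod_congr rfl fun j _ => ?_
    rw [← pow_mul, ← pow_mul, mul_comm (e j), mul_comm (f j), h1 j]
  have h3 := (h _ _ h2).1
  apply hfi
  rw [h3]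
  simp

/-- extremely good approximations with bounded denominators -/
lemma liouville_of {y H : ℝ} {L : ℕ → ℝ} (hL : Tendsto L atTop atTop) {g : ℕ → ℚ}
    (h1 : ∀ᶠ n in (UU : Filter ℕ), ((g n).den : ℝ) ≤ Real.exp (H * L n))
    (h2 : ∀ E : ℝ, ∀ᶠ n in (UU : Filter ℕ), |y - g n| ≤ Real.exp (-(E * L n)))
    (hy : Irrational y) : Liouville y := by
  intro k
  obtain ⟨n, g1, g2, g3⟩ := (h1.and ((h2 (k * (|H| + 1) + 1)).and
    (ev_of_atTop (hL.eventually_ge_atTop 1)))).exists
  have hd := (g n).den_pos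
  have hdr : (0 : ℝ) < (g n).den := by exact_mod_cast hd
  refine ⟨2 * (g n).num, 2 * (g n).den, by omega, ?_, ?_⟩
  · intro h3
    exact hy ⟨(2 * (g n).num : ℤ) / (2 * (g n).den : ℤ), by rw [h3]; push_cast; rfl⟩
  · have e1 : (((2 * (g n).num : ℤ) : ℝ) / ((2 * (g n).den : ℤ) : ℝ)) = (g n : ℝ) := by
      have h4 : (g n : ℝ) = ((g n).num : ℝ) / (g n).den := by
        exact_mod_cast (Rat.num_div_den (g n)).symm
      rw [h4]
      push_cast
      field_simp
    rw [e1]
    have h5 : ((2 * (g n).den : ℤ) : ℝ) ≤ Real.exp ((|H| + 1) * L n) := by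
      push_cast
      have h6 : (2 : ℝ) ≤ Real.exp (L n) := by
        have := Real.add_one_le_exp (L n)
        linarith
      have h7 : Real.exp (H * L n) ≤ Real.exp (|H| * L n) := by
        have := le_abs_self H
        gcongr
      calc (2 : ℝ) * (g n).den ≤ Real.exp (L n) * Real.exp (|H| * L n) := by
            gcongr
            exact g1.trans h7
        _ = Real.exp ((|H| + 1) * L n) := by rw [← Real.exp_add]; ring_nf
    have h6 : (0 : ℝ) < ((2 * (g n).den : ℤ) : ℝ) := by push_cast; linarith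
    refine lt_of_le_of_lt g2 ?_
    rw [lt_div_iff₀ (by positivity)]
    calc Real.exp (-((k * (|H| + 1) + 1) * L n)) * ((2 * (g n).den : ℤ) : ℝ) ^ k
        ≤ Real.exp (-((k * (|H| + 1) + 1) * L n)) * Real.exp ((|H| + 1) * L n) ^ k := by gcongr
      _ = Real.exp (-L n) := by rw [← Real.exp_nat_mul, ← Real.exp_add]; ring_nf
      _ < 1 := by
          rw [Real.exp_lt_one_iff]
          linarith

end Pool.Agent.TH796.AL.TwoB
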