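import Mathlib
import Pool.Agent.TH796.AL.TwoB

set_option autoImplicit false
set_option linter.unusedSectionVars false

/-!
# Project AL, part V: sums over pairwise independent bases
-/

namespace Pool.Agent.TH796.AL.TwoB

open Filter Topology Pool.Agent.TH932.Abs Pool.Agent.TH932.Germs Pool.Agent.TH932.Chi
open Pool.Agent.TH796.AL Pool.Agent.TH932.Words Pool.Agent.TH796.AL.Strong
open Pool.Agent.TH796.AL.Final

lemma liouville_of_rat_mul {q : ℚ} (hq : q ≠ 0) {x : ℝ} (h : Liouville ((q : ℝ) * x)) :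
    Liouville x := by
  rw [← forall_liouvilleWith_iff] at h ⊢
  intro p
  have := h p
  rwa [LiouvilleWith.rat_mul_iff hq] at this

/-- linear relations with algebraic coefficients -/
theorem sums_core {m : ℕ} (B : Base m) {L : ℕ → ℝ} (hL : Tendsto L atTop atTop) (r : ℕ)
    (V : Fin r → Submodule ℝ (Fin m → ℝ)) (hV : ∀ i j, i ≠ j → Disjoint (V i) (V j))
    (y : Fin r → ℝ) (hy : ∀ i, RepV B hL (V i) (y i)) (α : Fin r → ℝ)
    (hα : ∀ i, IsAlgebraic ℚ (α i)) (hsum : ∑ i, α i * y i = 0) (i : Fin r) (hi : α i ≠ 0)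
    (hirr : Irrational (y i)) : Liouville (y i) := by
  classical
  set W : Submodule ℚ ℝ := Submodule.span ℚ (Set.range α) with hW
  have hfin : FiniteDimensional ℚ W := FiniteDimensional.span_of_finite ℚ (Set.finite_range α)
  set β := Module.finBasis ℚ W with hβ
  have hαW : ∀ i, α i ∈ W := fun i => Submodule.subset_span ⟨i, rfl⟩
  have hWalg : ∀ z ∈ W, IsAlgebraic ℚ z := by
    intro z hz
    have h1 : W ≤ Subalgebra.toSubmodule (algebraicClosure ℚ ℝ).toSubalgebra := by
      rw [hW, Submodule.span_le]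
      rintro _ ⟨j, rfl⟩
      exact (mem_algebraicClosure_iff).2 (hα j)
    exact (mem_algebraicClosure_iff).1 (h1 hz)
  have hind : LinearIndependent ℚ (fun l => (β l : ℝ)) :=
    β.linearIndependent.map' W.subtype (Submodule.ker_subtype W)
  set q : Fin r → Fin (Module.finrank ℚ W) → ℚ := fun i l => β.repr ⟨α i, hαW i⟩ l with hq
  have e1 : ∀ i, α i = ∑ l, (β l : ℝ) * q i l := by
    intro i
    have h1 := β.sum_repr ⟨α i, hαW i⟩
    have h2 := congrArg (fun z : W => (z : ℝ)) h1
    simp only at h2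
    rw [← h2, AddSubmonoidClass.coe_finsetSum]
    refine Finset.sum_congr rfl fun l _ => ?_
    rw [Submodule.coe_smul, Rat.smul_def, mul_comm]
  have hrep1 : ∀ i l, RepV B hL (V i) ((q i l : ℝ) * y i) := fun i l =>
    repV_mul (repV_const B hL (V i) (q i l)) (hy i)
  have hrep2 : ∀ l, Rep B hL (∑ i, (q i l : ℝ) * y i) := by
    intro l
    have h1 : ∀ i, Rep B hL (y i) := fun i => RepV.rep (hy i)
    have h2 := ring_thm m B _ hL (Fin r) y h1
      (∑ i, MvPolynomial.C (q i l) * MvPolynomial.X i)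
    rw [map_sum] at h2
    simp only [map_mul, MvPolynomial.aeval_C, MvPolynomial.aeval_X] at h2
    exact h2
  have e2 : ∀ l, ∑ i, (q i l : ℝ) * y i = 0 := by
    refine lin_fintype B hL (fun l => (β l : ℝ)) (fun l => hWalg _ (β l).2) hind _ hrep2 ?_
    rw [← hsum]
    simp only [Finset.mul_sum]
    rw [Finset.sum_comm]
    refine Finset.sum_congr rfl fun i _ => ?_
    rw [e1 i, Finset.sum_mul]
    refine Finset.sum_congr rfl fun l _ => ?_
    ring
  obtain ⟨l, hl⟩ : ∃ l, q i l ≠ 0 := by
    by_contra hc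
    push Not at hc
    apply hi
    rw [e1 i]
    refine Finset.sum_eq_zero fun l _ => ?_
    rw [hc l]
    simp
  obtain ⟨H, g, h1, h2⟩ := direct_thm m B L hL r V hV (fun i => (q i l : ℝ) * y i)
    (fun i => hrep1 i l) (e2 l) i
  exact liouville_of_rat_mul hl (liouville_of hL h1 h2 (hirr.ratCast_mul hl))

/-- sums over pairwise independent bases -/
theorem sums (r : ℕ) (a : Fin r → ℕ) (ha : ∀ i, 2 ≤ a i) (hind : ∀ i j, i ≠ j → Indep (a i) (a j))
    (σ : Fin r → Type) [∀ i, Finite (σ i)] (x : ∀ i, σ i → ℝ) (C : ℝ)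
    (hC : ∃ᶠ n : ℕ in atTop, ∀ i j, (cx (dz (a i) (x i j)) n : ℝ) ≤ C * n)
    (y : Fin r → ℝ) (hy : ∀ i, y i ∈ Algebra.adjoin ℚ (Set.range (x i)))
    (α : Fin r → ℝ) (hα : ∀ i, IsAlgebraic ℚ (α i)) (hsum : IsAlgebraic ℚ (∑ i, α i * y i))
    (i : Fin r) (hi : α i ≠ 0) (hirr : Irrational (y i)) : Liouville (y i) := by
  classical
  -- the scales
  have h1 : ∀ n : ℕ, ∃ N : ℕ, max n 2 ≤ N ∧ ∀ i j, (cx (dz (a i) (x i j)) N : ℝ) ≤ C * N := by
    intro n
    obtain ⟨N, h2, h3⟩ := (hC.and_eventually (eventually_ge_atTop (max n 2))).exists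
    exact ⟨N, h3, h2⟩
  choose N hN1 hN2 using h1
  have hT : Tendsto N atTop atTop :=
    tendsto_atTop_mono (fun n => (le_max_left n 2).trans (hN1 n)) tendsto_id
  have hL : Tendsto (fun n => (N n : ℝ)) atTop atTop := tendsto_natCast_atTop_atTop.comp hT
  obtain ⟨m, B, hB⟩ := Fld.exists_base a ha
  choose e he using hB
  set V : Fin r → Submodule ℝ (Fin m → ℝ) := fun i => Submodule.span ℝ {fun j => (e i j : ℝ)} with hV
  have hVd : ∀ i j, i ≠ j → Disjoint (V i) (V j) := fun i j hij =>
    disjoint_of_indep B (hind i j hij) (e i) (e j) (he i) (he j)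
  have hrep : ∀ i j, RepV B hL (V i) (x i j) := fun i j =>
    repV_digits B (ha i) (e i) (he i) (V i) (Submodule.mem_span_singleton_self _) (x i j) N
      (fun n => (le_max_right n 2).trans (hN1 n)) C (fun n => hN2 n i j) hL
  have hrepy : ∀ i, RepV B hL (V i) (y i) := by
    intro i
    have h2 := hy i
    rw [Algebra.adjoin_range_eq_range_aeval] at h2
    obtain ⟨f, hf⟩ := h2
    have h3 := ringv_thm m B _ hL (V i) (σ i) (x i) (hrep i) f
    rw [← hf]
    exact h3
  -- add the constant
  have h4 := sums_core B hL (r + 1) (Fin.cons ⊥ V) (by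
      intro i
      refine Fin.cases ?_ (fun i => ?_) i
      · intro j hij
        rw [Fin.cons_zero]
        exact disjoint_bot_left
      · intro j
        refine Fin.cases ?_ (fun j => ?_) j
        · intro _
          rw [Fin.cons_zero]
          exact disjoint_bot_right
        · intro hij
          rw [Fin.cons_succ, Fin.cons_succ]
          exact hVd i j fun h => hij (by rw [h])) (Fin.cons 1 y) (by
      intro i
      refine Fin.cases ?_ (fun i => ?_) i
      · rw [Fin.cons_zero, Fin.cons_zero]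
        have := repV_const B hL ⊥ 1
        rwa [Rat.cast_one] at this
      · rw [Fin.cons_succ, Fin.cons_succ]
        exact hrepy i) (Fin.cons (-∑ i, α i * y i) α) (by
      intro i
      refine Fin.cases ?_ (fun i => ?_) i
      · rw [Fin.cons_zero]
        exact hsum.neg
      · rw [Fin.cons_succ]
        exact hα i) (by
      rw [Fin.sum_univ_succ]
      simp only [Fin.cons_zero, Fin.cons_succ]
      ring) i.succ
    (by rw [Fin.cons_succ]; exact hi) (by rw [Fin.cons_succ]; exact hirr)
  rwa [Fin.cons_succ] at h4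

end Pool.Agent.TH796.AL.TwoB
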