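import Mathlib
import Pool.Agent.TH796.AL.Sums

set_option autoImplicit false
set_option linter.unusedSectionVars false

/-!
# Project AL, part N: groups of ratios
-/

namespace Pool.Agent.TH796.AL.Grp

open Filter Topology Pool.Agent.TH932.Abs Pool.Agent.TH932.Germs Pool.Agent.TH932.Chi
open Pool.Agent.TH796.AL Pool.Agent.TH932.Words Pool.Agent.TH796.AL.Strong
open Pool.Agent.TH796.AL.Final Pool.Agent.TH796.AL.TwoB

variable {m : ℕ}

/-- the space spanned by the exponents of the elements of `Γ` -/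
def VS (B : Base m) (Γ : Subgroup ℚˣ) : Submodule ℝ (Fin m → ℝ) :=
  Submodule.span ℝ {v | ∃ e : Fin m → ℤ, v = (fun i => (e i : ℝ)) ∧
    ∃ u ∈ Γ, ((u : ℚˣ) : ℚ) = ∏ i, (B.P i : ℚ) ^ e i}

lemma VS_mono (B : Base m) {Γ Δ : Subgroup ℚˣ} (h : Γ ≤ Δ) : VS B Γ ≤ VS B Δ := by
  refine Submodule.span_mono ?_
  rintro v ⟨e, he, u, hu, hue⟩
  exact ⟨e, he, u, h hu, hue⟩

lemma pos_exp (B : Base m) (e : Fin m → ℤ) (h : ∏ i, (B.P i : ℚ) ^ e i = 1) (i : Fin m) :
    ¬ 0 < e i := by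
  intro hi
  have e1 : ((∏ j, (B.P j : ℤ) ^ (e j).toNat : ℤ) : ℚ)
      = ((∏ j, (B.P j : ℤ) ^ (-(e j)).toNat : ℤ) : ℚ) := by
    push_cast
    have h2 : ∏ j, (B.P j : ℚ) ^ (-(e j)).toNat ≠ 0 :=
      Finset.prod_ne_zero_iff.2 fun j _ => pow_ne_zero _ (B.q0 j)
    rw [← div_eq_one_iff_eq h2, ← Finset.prod_div_distrib, ← h]
    refine Finset.prod_congr rfl fun j _ => ?_
    rw [← zpow_natCast, ← zpow_natCast, ← zpow_sub₀ (B.q0 j)]
    congr 1
    omega
  have e2 : ∏ j, (B.P j : ℤ) ^ (e j).toNat = ∏ j, (B.P j : ℤ) ^ (-(e j)).toNat := by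
    exact_mod_cast e1
  have h3 : (B.P i : ℤ) ∣ ∏ j, (B.P j : ℤ) ^ (e j).toNat :=
    (dvd_pow_self _ (by omega)).trans (Finset.dvd_prod_of_mem _ (Finset.mem_univ i))
  have h4 : IsCoprime (B.P i : ℤ) (∏ j, (B.P j : ℤ) ^ (-(e j)).toNat) := by
    refine IsCoprime.prod_right fun j _ => ?_
    by_cases hj : j = i
    · rw [hj]
      have : (-(e i)).toNat = 0 := by omega
      rw [this, pow_zero]
      exact isCoprime_one_right
    · exact (B.cop i j (Ne.symm hj)).pow_right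
  rw [← e2] at h4
  have h5 := h4.isUnit_of_dvd' dvd_rfl h3
  have h6 := B.two i
  rw [Int.isUnit_iff] at h5
  omega

lemma inj_exp (B : Base m) (e : Fin m → ℤ) (h : ∏ i, (B.P i : ℚ) ^ e i = 1) : e = 0 := by
  funext i
  have h1 := pos_exp B e h i
  have h2 := pos_exp B (fun i => -(e i)) (by
    have : ∏ i, (B.P i : ℚ) ^ (-(e i)) = (∏ i, (B.P i : ℚ) ^ e i)⁻¹ := by
      rw [← Finset.prod_inv_distrib]
      exact Finset.prod_congr rfl fun j _ => zpow_neg _ _
    rw [this, h, inv_one]) i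
  simp only [Pi.zero_apply]
  omega

lemma coords (B : Base m) (Γ : Subgroup ℚˣ) {x : Fin m → ℝ} (hx : x ∈ VS B Γ) :
    ∀ φ : ℝ →ₗ[ℚ] ℚ, ∃ N : ℕ, N ≠ 0 ∧ ∃ e : Fin m → ℤ, (∀ i, (N : ℚ) * φ (x i) = e i) ∧
      ∃ u ∈ Γ, ((u : ℚˣ) : ℚ) = ∏ i, (B.P i : ℚ) ^ e i := by
  unfold VS at hx
  induction hx using Submodule.span_induction with
  | mem v hv =>
    intro φ
    obtain ⟨e, rfl, u, hu, hue⟩ := hv
    refine ⟨(φ 1).den, (φ 1).den_nz, fun i => e i * (φ 1).num, fun i => ?_, u ^ (φ 1).num,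
      Γ.zpow_mem hu _, ?_⟩
    · have h1 : φ (e i : ℝ) = (e i : ℚ) * φ 1 := by
        have : (e i : ℝ) = (e i : ℚ) • (1 : ℝ) := by
          rw [Rat.smul_def, mul_one]
          push_cast
          rfl
        rw [this, map_smul, smul_eq_mul]
      simp only
      rw [h1, mul_left_comm, mul_comm ((φ 1).den : ℚ), Rat.mul_den_eq_num]
      push_cast
      rfl
    · rw [Units.val_zpow_eq_zpow_val, hue, ← Finset.prod_zpow]
      exact Finset.prod_congr rfl fun i _ => (zpow_mul _ _ _).symm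
  | zero =>
    intro φ
    refine ⟨1, one_ne_zero, 0, fun i => by simp, 1, Γ.one_mem, by simp⟩
  | add x y _ _ h1 h2 =>
    intro φ
    obtain ⟨N, hN, e, he, u, hu, hue⟩ := h1 φ
    obtain ⟨N', hN', e', he', u', hu', hue'⟩ := h2 φ
    refine ⟨N * N', mul_ne_zero hN hN', fun i => N' * e i + N * e' i, fun i => ?_,
      u ^ N' * u' ^ N, Γ.mul_mem (Γ.pow_mem hu _) (Γ.pow_mem hu' _), ?_⟩
    · have g1 := he i
      have g2 := he' i
      push_cast
      rw [← g1, ← g2, Pi.add_apply, map_add]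
      ring
    · rw [Units.val_mul, Units.val_pow_eq_pow_val, Units.val_pow_eq_pow_val, hue, hue',
        ← Finset.prod_pow, ← Finset.prod_pow, ← Finset.prod_mul_distrib]
      refine Finset.prod_congr rfl fun i _ => ?_
      rw [zpow_add₀ (B.q0 i), mul_comm (N' : ℤ), mul_comm (N : ℤ), zpow_mul, zpow_mul,
        zpow_natCast, zpow_natCast]
  | smul r x _ h1 =>
    intro φ
    obtain ⟨N, hN, e, he, h2⟩ := h1 (φ.comp (LinearMap.mulLeft ℚ r))
    exact ⟨N, hN, e, fun i => he i, h2⟩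

/-- independent groups give disjoint spaces -/
lemma disj (B : Base m) {Γ Δ : Subgroup ℚˣ} (h : Γ ⊓ Δ = ⊥) : Disjoint (VS B Γ) (VS B Δ) := by
  rw [Submodule.disjoint_def]
  intro x hx hy
  funext i
  rw [Pi.zero_apply, ← Module.forall_dual_apply_eq_zero_iff ℚ]
  intro φ
  obtain ⟨N, hN, e, he, u, hu, hue⟩ := coords B Γ hx φ
  obtain ⟨N', hN', e', he', u', hu', hue'⟩ := coords B Δ hy φ
  have h1 : ∀ j, (N' : ℤ) * e j = N * e' j := by
    intro j
    have g1 := he j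
    have g2 := he' j
    have : ((N' * e j : ℤ) : ℚ) = ((N * e' j : ℤ) : ℚ) := by
      push_cast
      rw [← g1, ← g2]
      ring
    exact_mod_cast this
  have h2 : u ^ N' = u' ^ N := by
    apply Units.ext
    rw [Units.val_pow_eq_pow_val, Units.val_pow_eq_pow_val, hue, hue', ← Finset.prod_pow,
      ← Finset.prod_pow]
    refine Finset.prod_congr rfl fun j _ => ?_
    rw [← zpow_natCast, ← zpow_natCast, ← zpow_mul, ← zpow_mul, mul_comm, h1 j, mul_comm]
  have h3 : u ^ N' ∈ Γ ⊓ Δ := ⟨Γ.pow_mem hu _, by rw [h2]; exact Δ.pow_mem hu' _⟩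
  rw [h, Subgroup.mem_bot] at h3
  have h4 : ∏ j, (B.P j : ℚ) ^ (e j * N') = 1 := by
    have h5 := congrArg (fun v : ℚˣ => (v : ℚ)) h3
    simp only [Units.val_pow_eq_pow_val, Units.val_one] at h5
    rw [hue, ← Finset.prod_pow] at h5
    rw [← h5]
    refine Finset.prod_congr rfl fun j _ => ?_
    rw [zpow_mul, zpow_natCast]
  have h5 := congrFun (inj_exp B _ h4) i
  simp only [Pi.zero_apply, mul_eq_zero] at h5
  have h6 : e i = 0 := h5.resolve_right (by exact_mod_cast hN')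
  have h7 := he i
  rw [h6, Int.cast_zero, mul_eq_zero] at h7
  exact h7.resolve_left (by exact_mod_cast hN)

/-- sums of series with ratios in `Γ` along words of linear complexity -/
def Gen (S : Set ℕ) (Γ : Subgroup ℚˣ) (x : ℝ) : Prop :=
  ∃ (A : Type) (_ : Finite A) (γ c : A → ℚ) (w : ℕ → A) (C : ℝ),
    (∀ a, ∃ u ∈ Γ, |γ a| = ((u : ℚˣ) : ℚ)) ∧ (∀ a, |γ a| < 1) ∧
    HasSum (term γ (fun a => (c a : ℝ)) w) x ∧ ∀ n ∈ S, (complexity w n : ℝ) ≤ C * n

lemma RepV.mono {B : Base m} {L : ℕ → ℝ} {hL : Tendsto L atTop atTop}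
    {V W : Submodule ℝ (Fin m → ℝ)} (h : V ≤ W) {x : ℝ} (hx : RepV B hL V x) : RepV B hL W x := by
  obtain ⟨Z, i, z, C, h1, h2, h3⟩ := hx
  exact ⟨Z, i, z, C, h1, h2, fun E => by
    obtain ⟨P, s, g0, g1, g2⟩ := h3 E
    exact ⟨P, s, fun j g hg => h (g0 j g hg), g1, g2⟩⟩

theorem iface {ι : Type} [Finite ι] (Γ : ι → Subgroup ℚˣ) {S : Set ℕ} (hS : S.Infinite)
    (y : ι → ℝ) (hy : ∀ i, y i ∈ Algebra.adjoin ℚ {x | Gen S (Γ i) x}) :
    ∃ (m : ℕ) (B : Base m) (L : ℕ → ℝ) (hL : Tendsto L atTop atTop),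
      ∀ i, RepV B hL (VS B (Γ i)) (y i) := by
  classical
  have h0 : ∀ i, ∃ (k : ℕ) (f : Fin k → {x | Gen S (Γ i) x}) (q : MvPolynomial (Fin k) ℚ),
      y i = MvPolynomial.aeval (fun j => (f j : ℝ)) q := by
    intro i
    have h1 := hy i
    have e1 : {x | Gen S (Γ i) x} = Set.range (Subtype.val : {x | Gen S (Γ i) x} → ℝ) :=
      Subtype.range_coe.symm
    rw [e1, Algebra.adjoin_range_eq_range_aeval] at h1
    obtain ⟨p, hp⟩ := h1
    obtain ⟨k, f, hf, q, rfl⟩ := MvPolynomial.exists_fin_rename p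
    refine ⟨k, f, q, ?_⟩
    rw [← hp]
    change MvPolynomial.aeval _ _ = _
    rw [MvPolynomial.aeval_rename]
    rfl
  choose k f q hq using h0
  choose A fA γ c w C h1 h2 h3 h4 using fun i (j : Fin (k i)) => (f i j).2
  have hγ0 : ∀ i j a, γ i j a ≠ 0 := by
    intro i j a h0
    obtain ⟨u, -, hu⟩ := h1 i j a
    rw [h0, abs_zero] at hu
    exact u.ne_zero hu.symm
  have hfin : Finite (Σ i, Σ j : Fin (k i), A i j) := by
    have : ∀ i, Finite (Σ j : Fin (k i), A i j) := fun i => by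
      have := fun j => fA i j
      exact inferInstance
    exact inferInstance
  obtain ⟨m, B, hB⟩ := FldG.exists_base (ι := Σ i, Σ j : Fin (k i), A i j)
    (fun p => γ p.1 p.2.1 p.2.2) (fun p => hγ0 _ _ _)
  choose e he using hB
  have hN : ∀ n : ℕ, ∃ N ∈ S, max n 2 ≤ N := by
    intro n
    obtain ⟨N, h5, h6⟩ := hS.exists_gt (max n 2)
    exact ⟨N, h5, h6.le⟩
  choose N hNS hN2 using hN
  have hT : Tendsto N atTop atTop :=
    tendsto_atTop_mono (fun n => (le_max_left n 2).trans (hN2 n)) tendsto_id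
  have hL : Tendsto (fun n => (N n : ℝ)) atTop atTop := tendsto_natCast_atTop_atTop.comp hT
  refine ⟨m, B, _, hL, fun i => ?_⟩
  have hrep : ∀ j, RepV B hL (VS B (Γ i)) (f i j : ℝ) := by
    intro j
    by_cases hirr : Irrational (f i j : ℝ)
    · have h5 := addr_of_ser (γ i j) (h2 i j) (w i j) (c i j)
      rw [(h3 i j).tsum_eq] at h5
      refine repv_thm m B (A i j) (fA i j) (γ i j) (c i j)
        (fun a => ⟨hγ0 i j a, h2 i j a⟩) (fun a => e ⟨i, j, a⟩) (fun a => he ⟨i, j, a⟩) (w i j) _ h5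
        hirr N (fun n => (le_max_right n 2).trans (hN2 n)) (C i j) (fun n => ?_) hL _ (fun a => ?_)
      · exact h4 i j (N n) (hNS n)
      · obtain ⟨u, hu, hu2⟩ := h1 i j a
        refine Submodule.subset_span ⟨e ⟨i, j, a⟩, rfl, u, hu, ?_⟩
        rw [← hu2]
        exact he ⟨i, j, a⟩
    · unfold Irrational at hirr
      rw [not_not] at hirr
      obtain ⟨r, hr⟩ := hirr
      rw [← hr]
      exact repV_const B hL _ r
  rw [hq i]
  exact ringv_thm m B _ hL _ (Fin (k i)) (fun j => (f i j : ℝ)) hrep (q i)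

/-- numbers with digits of linear complexity -/
lemma gen_digits {S : Set ℕ} {Γ : Subgroup ℚˣ} {b : ℕ} (hb : 2 ≤ b)
    (hΓ : ∃ u ∈ Γ, ((u : ℚˣ) : ℚ) = b) {x C : ℝ}
    (hx : ∀ n ∈ S, (complexity (digit b x) n : ℝ) ≤ C * n) :
    x ∈ Algebra.adjoin ℚ {x | Gen S Γ x} := by
  have : NeZero b := ⟨by omega⟩
  have h1 : Gen S Γ (x - ⌊x⌋) := by
    refine ⟨ZMod b, inferInstance, fun _ => (1 / b : ℚ), fun a => (a.val : ℚ) / b, dz b x, C,
      fun a => ?_, fun _ => ?_, ?_, fun n hn => ?_⟩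
    · obtain ⟨u, hu, hub⟩ := hΓ
      refine ⟨u⁻¹, Γ.inv_mem hu, ?_⟩
      rw [abs_of_nonneg (by positivity), Units.val_inv_eq_inv_val, hub, one_div]
    · rw [abs_of_nonneg (by positivity), div_lt_one (by positivity)]
      exact_mod_cast (by omega : 1 < b)
    · have hs := hasSum_digits hb x
      convert hs using 2
      funext a
      push_cast
      rfl
    · have h2 := hx n hn
      rw [complexity_digit hb] at h2
      exact h2
  have e1 : x = (x - ⌊x⌋) + algebraMap ℚ ℝ (⌊x⌋ : ℚ) := by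
    rw [eq_ratCast]
    push_cast
    ring
  rw [e1]
  exact Subalgebra.add_mem _ (Algebra.subset_adjoin h1) (Subalgebra.algebraMap_mem _ _)

end Pool.Agent.TH796.AL.Grp
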