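import Mathlib
import Pool.Agent.TH796.AL.StmsV
import Pool.Agent.TH796.AL.Lin

set_option autoImplicit false
set_option linter.unusedSectionVars false

/-!
# Project AL, part N: formal expansions (definitions and statements)
-/

namespace Pool.Agent.TH796.AL.Nv

open Filter Topology Pool.Agent.TH932.Abs Pool.Agent.TH932.Germs Pool.Agent.TH932.Chi
open Pool.Agent.TH796.AL Pool.Agent.TH796.AL.Lin

section abstract_part

variable {K : Type} [Field K] {Γ : Type} [AddCommGroup Γ]

/-- translations of functions -/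
def trl : Multiplicative Γ →* Module.End K (Γ → K) where
  toFun h := { toFun := fun F g => F (g - Multiplicative.toAdd h)
               map_add' := fun _ _ => rfl
               map_smul' := fun _ _ => rfl }
  map_one' := by
    ext F g
    simp
  map_mul' := by
    intro a b
    apply LinearMap.ext
    intro F
    funext g
    change F (g - (Multiplicative.toAdd a + Multiplicative.toAdd b))
      = F (g - Multiplicative.toAdd a - Multiplicative.toAdd b)
    rw [sub_sub]

/-- the action of the group ring on functions by convolution -/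
noncomputable def act : AddMonoidAlgebra K Γ →ₐ[K] Module.End K (Γ → K) :=
  AddMonoidAlgebra.lift K (Module.End K (Γ → K)) Γ trl

lemma act_apply (ρ : AddMonoidAlgebra K Γ) (F : Γ → K) (g : Γ) :
    act ρ F g = ∑ h ∈ ρ.coeff.support, ρ.coeff h * F (g - h) := by
  unfold act
  rw [AddMonoidAlgebra.lift_apply, Finsupp.sum, LinearMap.sum_apply, Finset.sum_apply]
  rfl

lemma act_single (h : Γ) (a : K) (F : Γ → K) (g : Γ) :
    act (AddMonoidAlgebra.single h a) F g = a * F (g - h) := by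
  unfold act
  rw [AddMonoidAlgebra.lift_single]
  rfl

/-- the action on coefficients of elements of the group ring -/
lemma coeff_mul_eq (ρ f : AddMonoidAlgebra K Γ) (g : Γ) :
    (ρ * f).coeff g = act ρ (fun g => f.coeff g) g := by
  induction ρ using AddMonoidAlgebra.induction_linear with
  | zero => simp
  | add ρ σ h1 h2 =>
    rw [add_mul, map_add, AddMonoidAlgebra.coeff_add, Finsupp.add_apply, h1, h2]
    rfl
  | single h a =>
    rw [act_single]
    rw [AddMonoidAlgebra.coeff_single_mul_apply]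
    congr 2
    abel

/-- N1: products of independent functions with supports in two independent subgroups are
independent -/
def IndepProdStmt : Prop :=
  ∀ (K : Type) (_ : Field K) (Γ : Type) (_ : AddCommGroup Γ) (p : Γ →+ Γ) (V W : AddSubgroup Γ)
    (_ : ∀ v ∈ V, p v = v) (_ : ∀ w ∈ W, p w = 0)
    (A A' : Type) (_ : Fintype A) (_ : Fintype A') (F : A → Γ → K) (G : A' → Γ → K)
    (_ : ∀ a g, F a g ≠ 0 → g ∈ V) (_ : ∀ b g, G b g ≠ 0 → g ∈ W)
    (_ : ∀ ρ : A → AddMonoidAlgebra K Γ, ∑ a, act (ρ a) (F a) = 0 → ∀ a, ρ a = 0)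
    (_ : ∀ ρ : A' → AddMonoidAlgebra K Γ, ∑ b, act (ρ b) (G b) = 0 → ∀ b, ρ b = 0)
    (ρ : A → A' → AddMonoidAlgebra K Γ)
    (_ : ∑ a, ∑ b, act (ρ a b) (fun g => F a (p g) * G b (g - p g)) = 0), ∀ a b, ρ a b = 0

end abstract_part

variable {m : ℕ} (B : Base m) {L : ℕ → ℝ} (hL : Tendsto L atTop atTop)

/-- locally finite functions -/
def LF (F : (Fin m → ℝ) → KK L hL) : Prop :=
  ∀ c : ℝ, {g | F g ≠ 0 ∧ lv B none g < c}.Finite

/-- truncations -/
noncomputable def tc (F : (Fin m → ℝ) → KK L hL) (E : ℝ) : Rg m hL := by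
  classical
  exact if h : {g | F g ≠ 0 ∧ lv B none g < E}.Finite then
    ∑ g ∈ h.toFinset, AddMonoidAlgebra.single g (F g) else 0

/-- `x` is formally the combination of the germs `s i` with the coefficients `F i` -/
def Rel {ι : Type} [Fintype ι] (F : ι → (Fin m → ℝ) → KK L hL) (s : ι → GG) (x : HR) : Prop :=
  ∃ K0 : ℝ, ∀ E : ℝ, x - ∑ i, rho (ev B hL (tc B hL (F i) E) * s i) ∈ SR L (E - K0)

/-- germs which are `S`-integral and bounded at all places -/
def Bd (s : GG) : Prop := Sint B L s ∧ ∀ v, ∃ C : ℝ, s ∈ Sv B L v C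

/-- N2: represented numbers have formal expansions -/
def LimStmt : Prop :=
  ∀ (m : ℕ) (B : Base m) (L : ℕ → ℝ) (hL : Tendsto L atTop atTop)
    (V : Submodule ℝ (Fin m → ℝ)) (s : ℕ) (x : Fin s → ℝ) (_ : ∀ j, RepV B hL V (x j)),
    ∃ (D : Rg m hL) (_ : D ≠ 0) (Λ : Type) (_ : Fintype Λ) (w : Λ → GG)
      (X : Fin s → Λ → (Fin m → ℝ) → KK L hL), (∀ l, Bd B (L := L) (w l)) ∧
      (∀ j l, LF B hL (X j l)) ∧ (∀ j l g, X j l g ≠ 0 → g ∈ V) ∧
      ∀ j, Rel B hL (X j) w (rho (ev B hL D) * algebraMap ℝ HR (x j))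

/-- N3: the tensor theorem -/
def TensorStmt : Prop :=
  ∀ (m : ℕ) (B : Base m) (L : ℕ → ℝ) (hL : Tendsto L atTop atTop)
    (V W : Submodule ℝ (Fin m → ℝ)) (_ : Disjoint V W) (s : ℕ) (x y : Fin s → ℝ)
    (_ : ∀ j, RepV B hL V (x j)) (_ : ∀ j, RepV B hL W (y j)) (_ : ∑ j, x j * y j = 0)
    (_ : ∃ j, y j ≠ 0),
    ∃ (H : ℝ) (c : Fin s → ℕ → ℤ), (∀ᶠ n in (UU : Filter ℕ), ∃ j, c j n ≠ 0) ∧
      (∀ j, ∀ᶠ n in (UU : Filter ℕ), |(c j n : ℝ)| ≤ Real.exp (H * L n)) ∧
      ∀ E : ℝ, ∀ᶠ n in (UU : Filter ℕ), |∑ j, (c j n : ℝ) * x j| ≤ Real.exp (-(E * L n))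

end Pool.Agent.TH796.AL.Nv
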