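import Mathlib
import Pool.Agent.TH796.AL.Nv

set_option autoImplicit false
set_option linter.unusedSectionVars false

/-!
# Project AL, part N: formal expansions (basic lemmas)
-/

namespace Pool.Agent.TH796.AL.Nv

open Filter Topology Pool.Agent.TH932.Abs Pool.Agent.TH932.Germs Pool.Agent.TH932.Chi
open Pool.Agent.TH796.AL Pool.Agent.TH796.AL.Lin

variable {m : ℕ} {B : Base m} {L : ℕ → ℝ} {hL : Tendsto L atTop atTop}

lemma LF.zero : LF B hL (0 : (Fin m → ℝ) → KK L hL) := by
  intro c
  convert Set.finite_empty (α := Fin m → ℝ)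
  ext g
  simp

lemma LF.add {F G : (Fin m → ℝ) → KK L hL} (hF : LF B hL F) (hG : LF B hL G) :
    LF B hL (F + G) := by
  intro c
  refine ((hF c).union (hG c)).subset ?_
  rintro g ⟨h1, h2⟩
  by_cases h3 : F g = 0
  · refine Or.inr ⟨?_, h2⟩
    intro h4
    apply h1
    rw [Pi.add_apply, h3, h4, add_zero]
  · exact Or.inl ⟨h3, h2⟩

lemma LF.sum {ι : Type} (s : Finset ι) (F : ι → (Fin m → ℝ) → KK L hL)
    (h : ∀ i ∈ s, LF B hL (F i)) : LF B hL (∑ i ∈ s, F i) :=
  Finset.sum_induction F (fun F => LF B hL F) (fun _ _ => LF.add) LF.zero h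

lemma LF.act {F : (Fin m → ℝ) → KK L hL} (hF : LF B hL F) (ρ : Rg m hL) :
    LF B hL (Nv.act ρ F) := by
  induction ρ using AddMonoidAlgebra.induction_linear with
  | zero => rw [map_zero]; exact LF.zero
  | add ρ σ h1 h2 => rw [map_add, LinearMap.add_apply]; exact h1.add h2
  | single h a =>
    intro c
    have h1 := (hF (c - lv B none h)).image (fun g => g + h)
    refine h1.subset ?_
    rintro g ⟨h2, h3⟩
    rw [act_single] at h2
    refine ⟨g - h, ⟨right_ne_zero_of_mul h2, ?_⟩, sub_add_cancel g h⟩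
    rw [lv_sub]
    linarith

lemma tc_coeff {F : (Fin m → ℝ) → KK L hL} (hF : LF B hL F) (E : ℝ) (g : Fin m → ℝ) :
    (tc B hL F E).coeff g = if lv B none g < E then F g else 0 := by
  classical
  unfold tc
  rw [dif_pos (hF E), AddMonoidAlgebra.coeff_sum, Finsupp.finsetSum_apply]
  simp only [AddMonoidAlgebra.coeff_single, Finsupp.single_apply]
  rw [Finset.sum_ite_eq']
  by_cases h1 : F g = 0
  · have h2 : g ∉ (hF E).toFinset := by
      rw [Set.Finite.mem_toFinset]
      exact fun h => h.1 h1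
    rw [if_neg h2, h1, ite_self]
  · by_cases h3 : lv B none g < E
    · have h4 : g ∈ (hF E).toFinset := (Set.Finite.mem_toFinset (hF E)).2 ⟨h1, h3⟩
      rw [if_pos h3, if_pos h4]
    · rw [if_neg h3, if_neg]
      rw [Set.Finite.mem_toFinset]
      exact fun h => h3 h.2

/-- combinations of small characters are small -/
lemma small_ev {f : Rg m hL} {c : ℝ} (hf : ∀ g, f.coeff g ≠ 0 → c ≤ lv B none g) :
    ev B hL f ∈ Sv B L none c := by
  rw [ev_sum]
  refine Finset.sum_induction _ (fun g => g ∈ Sv B L none c)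
    (fun _ _ => (filt_v hL none).add_mem) ((filt_v hL none).zero_mem _) fun g hg => ?_
  have := (filt_v (B := B) hL none).mul_mem
    ((filt_v (B := B) hL none).alg_mem (f.coeff g)) (ch_mem (B := B) hL none g)
  rw [zero_add] at this
  exact (filt_v hL none).anti (hf g (Finsupp.mem_support_iff.1 hg)) this

/-- a common bound for the sizes of the exponents -/
lemma exists_bound {κ : Type} [Fintype κ] (H : κ → Rg m hL) :
    ∃ c : ℝ, 0 ≤ c ∧ ∀ k g, (H k).coeff g ≠ 0 → |lv B none g| ≤ c := by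
  refine ⟨∑ k, ∑ g ∈ (H k).coeff.support, |lv B none g|,
    Finset.sum_nonneg fun k _ => Finset.sum_nonneg fun g _ => abs_nonneg _, fun k g hg => ?_⟩
  have h1 : |lv B none g| ≤ ∑ g ∈ (H k).coeff.support, |lv B none g| :=
    Finset.single_le_sum (f := fun g => |lv B none g|) (fun _ _ => abs_nonneg _)
      (Finsupp.mem_support_iff.2 hg)
  exact h1.trans (Finset.single_le_sum (f := fun k => ∑ g ∈ (H k).coeff.support, |lv B none g|)
    (fun k _ => Finset.sum_nonneg fun g _ => abs_nonneg _) (Finset.mem_univ k))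

/-- truncation commutes with the action up to small terms -/
lemma key_tc {κ : Type} [Fintype κ] (H : κ → Rg m hL) (G : κ → (Fin m → ℝ) → KK L hL)
    (hG : ∀ k, LF B hL (G k)) : ∃ c : ℝ, ∀ E : ℝ,
    ev B hL (tc B hL (∑ k, act (H k) (G k)) E) - ∑ k, ev B hL (H k) * ev B hL (tc B hL (G k) E)
      ∈ Sv B L none (E - c) := by
  obtain ⟨c, hc0, hc⟩ := exists_bound (B := B) H
  refine ⟨c, fun E => ?_⟩
  have e1 : ev B hL (tc B hL (∑ k, act (H k) (G k)) E)
      - ∑ k, ev B hL (H k) * ev B hL (tc B hL (G k) E)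
      = ev B hL (tc B hL (∑ k, act (H k) (G k)) E - ∑ k, H k * tc B hL (G k) E) := by
    rw [map_sub, map_sum]
    simp only [map_mul]
  rw [e1]
  refine small_ev fun g hg => ?_
  by_contra hlt
  push Not at hlt
  apply hg
  have hLF : LF B hL (∑ k, act (H k) (G k)) := LF.sum _ _ fun k _ => (hG k).act (H k)
  rw [AddMonoidAlgebra.coeff_sub, Finsupp.sub_apply, tc_coeff hLF, if_pos (by linarith),
    AddMonoidAlgebra.coeff_sum, Finsupp.finsetSum_apply, Finset.sum_apply, sub_eq_zero]
  refine Finset.sum_congr rfl fun k _ => ?_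
  rw [coeff_mul_eq, act_apply, act_apply]
  refine Finset.sum_congr rfl fun h hh => ?_
  have h1 := hc k h (Finsupp.mem_support_iff.1 hh)
  have h2 : lv B none (g - h) < E := by
    rw [lv_sub]
    have := neg_abs_le (lv B none h)
    linarith
  rw [tc_coeff (hG k), if_pos h2]

lemma Bd.inf {s : GG} (h : Bd B (L := L) s) : ∃ C : ℝ, s ∈ Sv B L none C := h.2 none

lemma SR_sub {t : ℝ} {a b : HR} (hL : Tendsto L atTop atTop) (ha : a ∈ SR L t) (hb : b ∈ SR L t) :
    a - b ∈ SR L t := by
  have h2 := SR_mul hL (SR_cst hL (-1)) hb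
  rw [zero_add, map_neg, map_one, neg_one_mul] at h2
  rw [sub_eq_add_neg]
  exact SR_add hL ha h2

/-- a common bound for finitely many germs -/
lemma exists_cb {ι : Type} [Fintype ι] {s : ι → GG} (hs : ∀ i, ∃ C : ℝ, s i ∈ Sv B L none C) (hL : Tendsto L atTop atTop) :
    ∃ C : ℝ, ∀ i, s i ∈ Sv B L none (-C) := by
  choose C hC using hs
  refine ⟨∑ i, |C i|, fun i => (filt_v hL none).anti ?_ (hC i)⟩
  have h1 : |C i| ≤ ∑ i, |C i| :=
    Finset.single_le_sum (f := fun i => |C i|) (fun _ _ => abs_nonneg _) (Finset.mem_univ i)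
  have := neg_abs_le (C i)
  linarith

/-- moving matrices from the coefficients to the germs -/
lemma rel_mat {ι κ : Type} [Fintype ι] [Fintype κ] (H : ι → κ → Rg m hL)
    (G : κ → (Fin m → ℝ) → KK L hL) (hG : ∀ k, LF B hL (G k)) (w : ι → GG)
    (hw : ∀ i, ∃ C : ℝ, w i ∈ Sv B L none C) (x : HR) :
    Rel B hL (fun i => ∑ k, act (H i k) (G k)) w x
      ↔ Rel B hL G (fun k => ∑ i, ev B hL (H i k) * w i) x := by
  obtain ⟨C, hC⟩ := exists_cb hw hL
  choose c hc using fun i => key_tc (H i) G hG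
  have h1 : ∀ E : ℝ, ∑ i, rho (ev B hL (tc B hL (∑ k, act (H i k) (G k)) E) * w i)
      - ∑ k, rho (ev B hL (tc B hL (G k) E) * ∑ i, ev B hL (H i k) * w i)
      ∈ SR L (E - (∑ i, |c i| + C)) := by
    intro E
    have e1 : ∑ i, rho (ev B hL (tc B hL (∑ k, act (H i k) (G k)) E) * w i)
      - ∑ k, rho (ev B hL (tc B hL (G k) E) * ∑ i, ev B hL (H i k) * w i)
      = ∑ i, rho ((ev B hL (tc B hL (∑ k, act (H i k) (G k)) E)
        - ∑ k, ev B hL (H i k) * ev B hL (tc B hL (G k) E)) * w i) := by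
      rw [← map_sum, ← map_sum, ← map_sub, ← map_sum]
      congr 1
      simp only [sub_mul, Finset.sum_sub_distrib, Finset.mul_sum, Finset.sum_mul]
      congr 1
      rw [Finset.sum_comm]
      refine Finset.sum_congr rfl fun i _ => Finset.sum_congr rfl fun k _ => ?_
      ring
    rw [e1]
    refine SR_sum hL _ _ fun i _ => ?_
    have h2 := (filt_v hL none).mul_mem (hc i E) (hC i)
    refine SR_rho ((filt_v hL none).anti ?_ h2)
    have h3 : |c i| ≤ ∑ i, |c i| :=
      Finset.single_le_sum (f := fun i => |c i|) (fun _ _ => abs_nonneg _) (Finset.mem_univ i)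
    have := le_abs_self (c i)
    linarith
  constructor
  · rintro ⟨K0, hK⟩
    refine ⟨|K0| + |∑ i, |c i| + C|, fun E => ?_⟩
    have e2 : x - ∑ k, rho (ev B hL (tc B hL (G k) E) * ∑ i, ev B hL (H i k) * w i)
        = (x - ∑ i, rho (ev B hL (tc B hL (∑ k, act (H i k) (G k)) E) * w i))
          + (∑ i, rho (ev B hL (tc B hL (∑ k, act (H i k) (G k)) E) * w i)
      - ∑ k, rho (ev B hL (tc B hL (G k) E) * ∑ i, ev B hL (H i k) * w i)) := by ring
    rw [e2]
    have g1 := le_abs_self K0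
    have g2 := le_abs_self (∑ i, |c i| + C)
    have g3 := abs_nonneg K0
    have g4 := abs_nonneg (∑ i, |c i| + C)
    exact SR_add hL (SR_anti hL (by linarith) (hK E)) (SR_anti hL (by linarith) (h1 E))
  · rintro ⟨K0, hK⟩
    refine ⟨|K0| + |∑ i, |c i| + C|, fun E => ?_⟩
    have e2 : x - ∑ i, rho (ev B hL (tc B hL (∑ k, act (H i k) (G k)) E) * w i)
        = (x - ∑ k, rho (ev B hL (tc B hL (G k) E) * ∑ i, ev B hL (H i k) * w i))
          - (∑ i, rho (ev B hL (tc B hL (∑ k, act (H i k) (G k)) E) * w i)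
      - ∑ k, rho (ev B hL (tc B hL (G k) E) * ∑ i, ev B hL (H i k) * w i)) := by ring
    rw [e2]
    have g1 := le_abs_self K0
    have g2 := le_abs_self (∑ i, |c i| + C)
    have g3 := abs_nonneg K0
    have g4 := abs_nonneg (∑ i, |c i| + C)
    exact SR_sub hL (SR_anti hL (by linarith) (hK E)) (SR_anti hL (by linarith) (h1 E))

/-- multiplication by an element of the group ring -/
lemma rel_smul {ι : Type} [Fintype ι] {F : ι → (Fin m → ℝ) → KK L hL} (hF : ∀ i, LF B hL (F i))
    {w : ι → GG} (hw : ∀ i, ∃ C : ℝ, w i ∈ Sv B L none C) {x : HR} (h : Rel B hL F w x)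
    (ρ : Rg m hL) : Rel B hL (fun i => act ρ (F i)) w (rho (ev B hL ρ) * x) := by
  classical
  have h1 : Rel B hL F (fun i => ev B hL ρ * w i) (rho (ev B hL ρ) * x) := by
    obtain ⟨K0, hK⟩ := h
    obtain ⟨c, hc0, hc⟩ := exists_bound (B := B) (fun _ : Unit => ρ)
    have hρ : rho (ev B hL ρ) ∈ SR L (-c) := by
      refine SR_rho (small_ev fun g hg => ?_)
      have h2 := hc () g hg
      have := neg_abs_le (lv B none g)
      linarith
    refine ⟨K0 + c, fun E => ?_⟩
    have e1 : rho (ev B hL ρ) * x - ∑ i, rho (ev B hL (tc B hL (F i) E) * (ev B hL ρ * w i))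
        = rho (ev B hL ρ) * (x - ∑ i, rho (ev B hL (tc B hL (F i) E) * w i)) := by
      rw [mul_sub, Finset.mul_sum]
      congr 1
      refine Finset.sum_congr rfl fun i _ => ?_
      rw [← map_mul]
      congr 1
      ring
    rw [e1]
    exact SR_anti hL (by linarith) (SR_mul hL hρ (hK E))
  have h2 := (rel_mat (fun i k => if i = k then ρ else 0) F hF w hw (rho (ev B hL ρ) * x)).2 (by
    convert h1 using 2 with k
    rw [Finset.sum_eq_single k]
    · rw [if_pos rfl]
    · intro i _ hi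
      rw [if_neg hi, map_zero, zero_mul]
    · intro h0; exact absurd (Finset.mem_univ _) h0)
  convert h2 using 2 with i
  rw [Finset.sum_eq_single i]
  · rw [if_pos rfl]
  · intro k _ hk
    rw [if_neg hk.symm, map_zero, LinearMap.zero_apply]
  · intro h0; exact absurd (Finset.mem_univ _) h0

end Pool.Agent.TH796.AL.Nv
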