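import Mathlib
import Pool.Agent.TH796.AL.Nv1
import Pool.Agent.TH796.AL.Dir

set_option autoImplicit false
set_option linter.unusedSectionVars false

/-!
# Project AL, part N: products, independence, the tensor theorem
-/

namespace Pool.Agent.TH796.AL.Nv

open Filter Topology Pool.Agent.TH932.Abs Pool.Agent.TH932.Germs Pool.Agent.TH932.Chi
open Pool.Agent.TH796.AL Pool.Agent.TH796.AL.Lin

variable {m : ℕ} {B : Base m} {L : ℕ → ℝ} {hL : Tendsto L atTop atTop}

/-! ## linearity in the germs -/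

lemma rel_add {ι : Type} [Fintype ι] {F : ι → (Fin m → ℝ) → KK L hL} {s t : ι → GG} {x y : HR}
    (h1 : Rel B hL F s x) (h2 : Rel B hL F t y) :
    Rel B hL F (fun i => s i + t i) (x + y) := by
  obtain ⟨K1, h1⟩ := h1
  obtain ⟨K2, h2⟩ := h2
  refine ⟨|K1| + |K2|, fun E => ?_⟩
  have e1 : x + y - ∑ i, rho (ev B hL (tc B hL (F i) E) * (s i + t i))
      = (x - ∑ i, rho (ev B hL (tc B hL (F i) E) * s i))
        + (y - ∑ i, rho (ev B hL (tc B hL (F i) E) * t i)) := by
    simp only [mul_add, map_add, Finset.sum_add_distrib]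
    ring
  rw [e1]
  have g1 := le_abs_self K1
  have g2 := le_abs_self K2
  have g3 := abs_nonneg K1
  have g4 := abs_nonneg K2
  exact SR_add hL (SR_anti hL (by linarith) (h1 E)) (SR_anti hL (by linarith) (h2 E))

lemma rel_zero {ι : Type} [Fintype ι] (F : ι → (Fin m → ℝ) → KK L hL) :
    Rel B hL F (fun _ => 0) 0 := by
  refine ⟨0, fun E => ?_⟩
  simp only [mul_zero, map_zero, Finset.sum_const_zero, sub_zero]
  exact SR_zero _

lemma rel_sum {ι κ : Type} [Fintype ι] (u : Finset κ) {F : ι → (Fin m → ℝ) → KK L hL}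
    {s : κ → ι → GG} {x : κ → HR} (h : ∀ k ∈ u, Rel B hL F (s k) (x k)) :
    Rel B hL F (fun i => ∑ k ∈ u, s k i) (∑ k ∈ u, x k) := by
  classical
  induction u using Finset.induction_on with
  | empty => simpa using rel_zero F
  | insert a u ha ih =>
    simp only [Finset.sum_insert ha]
    exact rel_add (h a (Finset.mem_insert_self _ _))
      (ih fun k hk => h k (Finset.mem_insert_of_mem hk))

lemma rel_scale {ι : Type} [Fintype ι] {F : ι → (Fin m → ℝ) → KK L hL} {s : ι → GG} {x : HR}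
    (h : Rel B hL F s x) {g : GG} (hg : ∃ C : ℝ, g ∈ Sv B L none C) :
    Rel B hL F (fun i => g * s i) (rho g * x) := by
  obtain ⟨K0, hK⟩ := h
  obtain ⟨C, hC⟩ := hg
  refine ⟨K0 - C, fun E => ?_⟩
  have e1 : rho g * x - ∑ i, rho (ev B hL (tc B hL (F i) E) * (g * s i))
      = rho g * (x - ∑ i, rho (ev B hL (tc B hL (F i) E) * s i)) := by
    rw [mul_sub, Finset.mul_sum]
    congr 1
    refine Finset.sum_congr rfl fun i _ => ?_
    rw [← map_mul]
    congr 1
    ring
  rw [e1]
  exact SR_anti hL (by linarith) (SR_mul hL (SR_rho hC) (hK E))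

/-! ## independence -/

/-- an independent family of bounded germs -/
lemma rel_ind {J : Type} [Fintype J] {G : J → (Fin m → ℝ) → KK L hL} (hG : ∀ j, LF B hL (G j))
    {t : J → GG} (ht : ∀ j, Bd B (L := L) (t j)) (h : KPAStmt)
    (hind : ∀ A : J → Rg m hL, ∑ j, ev B hL (A j) * t j = 0 → ∀ j, A j = 0)
    (hrel : Rel B hL G t 0) : ∀ j, G j = 0 := by
  classical
  -- a common bound at all places
  choose C hC using fun p : J × Option (Fin m) => (ht p.1).2 p.2
  set CC : ℝ := ∑ p, |C p| with hCC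
  have hb : ∀ v j, t j ∈ Sv B L v (-CC) := by
    intro v j
    refine (filt_v hL v).anti ?_ (hC (j, v))
    have h1 : |C (j, v)| ≤ CC :=
      Finset.single_le_sum (f := fun p => |C p|) (fun _ _ => abs_nonneg _) (Finset.mem_univ _)
    have := neg_abs_le (C (j, v))
    linarith
  obtain ⟨K0, hK⟩ := h m B L hL ⊥ inferInstance J inferInstance t CC hind hb (fun j => (ht j).1)
  obtain ⟨K1, hK1⟩ := hrel
  intro j
  funext g
  by_contra hne
  have hne' : G j g ≠ 0 := hne
  set E : ℝ := |lv B none g| + |K0| + |K1| + 1 with hE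
  have g1 := le_abs_self (lv B none g)
  have g2 := le_abs_self K0
  have g3 := le_abs_self K1
  have g4 := abs_nonneg (lv B none g)
  have g5 := abs_nonneg K0
  have g6 := abs_nonneg K1
  have h2 := hK (fun j => incR hL ⊥ (tc B hL (G j) E)) (E - K1) (by
    have h3 := SR_mul hL (SR_cst hL (-1)) (hK1 E)
    rw [zero_add, map_neg, map_one, neg_one_mul, zero_sub, neg_neg] at h3
    convert h3 using 2 with i
    rw [evA_incR, map_mul]) j g (by
    rw [incR_coeff, tc_coeff (hG j), if_pos (by linarith)]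
    intro h0
    have h3 := congrArg (fun x : KA ⊥ hL => (x : HR)) h0
    simp only [inc_coe] at h3
    have h4 : rho (G j g : GG) = rho 0 := by rw [h3, map_zero]; rfl
    exact hne' (Subtype.ext (rho_injective h4)))
  linarith

lemma Bd.mul {s t : GG} (hL : Tendsto L atTop atTop) (hs : Bd B (L := L) s) (ht : Bd B (L := L) t) :
    Bd B (L := L) (s * t) := by
  refine ⟨Sint.mul hL hs.1 ht.1, fun v => ?_⟩
  obtain ⟨C, hC⟩ := hs.2 v
  obtain ⟨D, hD⟩ := ht.2 v
  exact ⟨C + D, (filt_v hL v).mul_mem hC hD⟩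

lemma Bd.sum {ι : Type} (hL : Tendsto L atTop atTop) (u : Finset ι) (s : ι → GG)
    (hs : ∀ i ∈ u, Bd B (L := L) (s i)) : Bd B (L := L) (∑ i ∈ u, s i) := by
  refine ⟨Sint.sum hL _ _ fun i hi => (hs i hi).1, fun v => ?_⟩
  classical
  have h1 : ∀ i : ι, ∃ C : ℝ, i ∈ u → s i ∈ Sv B L v C := by
    intro i
    by_cases hi : i ∈ u
    · obtain ⟨C, hC⟩ := (hs i hi).2 v
      exact ⟨C, fun _ => hC⟩
    · exact ⟨0, fun h => absurd h hi⟩
  choose C hC using h1
  refine ⟨-∑ i ∈ u, |C i|, ?_⟩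
  refine Finset.sum_induction _ (fun x => x ∈ Sv B L v (-∑ i ∈ u, |C i|))
    (fun _ _ => (filt_v hL v).add_mem) ((filt_v hL v).zero_mem _) fun i hi => ?_
  refine (filt_v hL v).anti ?_ (hC i hi)
  have h1 : |C i| ≤ ∑ i ∈ u, |C i| :=
    Finset.single_le_sum (f := fun p => |C p|) (fun _ _ => abs_nonneg _) hi
  have := neg_abs_le (C i)
  linarith

lemma Bd.ev (f : Rg m hL) : Bd B (L := L) (ev B hL f) := by
  rw [ev_sum]
  refine Bd.sum hL _ _ fun g _ => ⟨Sint.mul hL (Sint.alg hL _) (ch_sint hL g), fun v => ?_⟩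
  exact ⟨0 + lv B v g, (filt_v hL v).mul_mem ((filt_v hL v).alg_mem _) (ch_mem hL v g)⟩

lemma ev_ne (hsu : SUStmt) {f : Rg m hL} (hf : f ≠ 0) : ev B hL f ≠ 0 := fun h0 =>
  hf (hsu m B L hL f h0)

/-- independent coefficients -/
lemma rel_indF {ι : Type} [Fintype ι] {F : ι → (Fin m → ℝ) → KK L hL} (hF : ∀ i, LF B hL (F i))
    (hind : ∀ ρ : ι → Rg m hL, ∑ i, act (ρ i) (F i) = 0 → ∀ i, ρ i = 0)
    {s : ι → GG} (hs : ∀ i, Bd B (L := L) (s i)) (h : KPAStmt) (hsu : SUStmt)
    (hrel : Rel B hL F s 0) : ∀ i, s i = 0 := by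
  classical
  obtain ⟨J, fJ, f, hindJ, D, H, hD, hDH⟩ := exists_ind (B := B) hL s
  have h1 : Rel B hL F (fun i => ∑ j, ev B hL (H i j) * s (f j)) 0 := by
    have h2 := rel_scale hrel (Bd.inf (Bd.ev (B := B) D))
    rw [mul_zero] at h2
    convert h2 using 2 with i
    exact (hDH i).symm
  have h3 := (rel_mat (fun (j : J) (i : ι) => H i j) F hF (fun j => s (f j))
    (fun j => Bd.inf (hs _)) 0).2 h1
  have h4 := rel_ind (fun j => LF.sum _ _ fun i _ => (hF i).act (H i j)) (fun j => hs (f j)) h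
    hindJ h3
  intro i
  have h5 : ∀ j, H i j = 0 := fun j => hind (fun i => H i j) (h4 j) i
  have h6 := hDH i
  simp only [h5, map_zero, zero_mul, Finset.sum_const_zero] at h6
  exact (mul_eq_zero.1 h6).resolve_left (ev_ne hsu hD)

/-! ## products -/

/-- the product of functions on two independent subspaces -/
noncomputable def tens (p : (Fin m → ℝ) →ₗ[ℝ] (Fin m → ℝ)) (F G : (Fin m → ℝ) → KK L hL) :
    (Fin m → ℝ) → KK L hL := fun g => F (p g) * G (g - p g)

section prod
variable {V W : Submodule ℝ (Fin m → ℝ)} {p : (Fin m → ℝ) →ₗ[ℝ] (Fin m → ℝ)}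
  (hpV : ∀ v ∈ V, p v = v) (hpW : ∀ w ∈ W, p w = 0)

/-- supports are bounded below -/
lemma LF.below {F : (Fin m → ℝ) → KK L hL} (hF : LF B hL F) :
    ∃ c : ℝ, 0 ≤ c ∧ ∀ g, F g ≠ 0 → -c ≤ lv B none g := by
  classical
  refine ⟨∑ g ∈ (hF 0).toFinset, |lv B none g|, Finset.sum_nonneg fun g _ => abs_nonneg _,
    fun g hg => ?_⟩
  by_cases h1 : lv B none g < 0
  · have h2 : |lv B none g| ≤ ∑ g ∈ (hF 0).toFinset, |lv B none g| :=
      Finset.single_le_sum (f := fun g => |lv B none g|) (fun _ _ => abs_nonneg _)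
        ((Set.Finite.mem_toFinset (hF 0)).2 ⟨hg, h1⟩)
    have := neg_abs_le (lv B none g)
    linarith
  · push Not at h1
    have : 0 ≤ ∑ g ∈ (hF 0).toFinset, |lv B none g| := Finset.sum_nonneg fun g _ => abs_nonneg _
    linarith

include hpV hpW in
lemma tens_supp {F G : (Fin m → ℝ) → KK L hL} {a b : Fin m → ℝ} (ha : a ∈ V) (hb : b ∈ W) :
    tens p F G (a + b) = F a * G b := by
  unfold tens
  rw [map_add, hpV a ha, hpW b hb, add_zero]
  congr 2
  abel

lemma LF.tens {F G : (Fin m → ℝ) → KK L hL} (hF : LF B hL F) (hG : LF B hL G) :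
    LF B hL (Nv.tens p F G) := by
  obtain ⟨c, hc0, hc⟩ := hF.below
  obtain ⟨d, hd0, hd⟩ := hG.below
  intro E
  refine (((hF (E + d)).prod (hG (E + c))).image (fun q => q.1 + q.2)).subset ?_
  rintro g ⟨h1, h2⟩
  have h3 : F (p g) ≠ 0 := left_ne_zero_of_mul h1
  have h4 : G (g - p g) ≠ 0 := right_ne_zero_of_mul h1
  have h5 : lv B none g = lv B none (p g) + lv B none (g - p g) := by
    rw [← lv_add]
    congr 1
    abel
  have h6 := hc _ h3
  have h7 := hd _ h4
  refine ⟨(p g, g - p g), ⟨⟨h3, by linarith⟩, ⟨h4, by linarith⟩⟩, ?_⟩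
  simp

include hpV hpW in
/-- coefficients of products of truncations -/
lemma tc_mul_coeff {F G : (Fin m → ℝ) → KK L hL} (hF : LF B hL F) (hG : LF B hL G)
    (hFV : ∀ g, F g ≠ 0 → g ∈ V) (hGW : ∀ g, G g ≠ 0 → g ∈ W) (E : ℝ) (g : Fin m → ℝ) :
    (tc B hL F E * tc B hL G E).coeff g =
      if lv B none (p g) < E ∧ lv B none (g - p g) < E then tens p F G g else 0 := by
  classical
  have key : ∀ a b, (tc B hL F E).coeff a ≠ 0 → (tc B hL G E).coeff b ≠ 0 → a + b = g →
      a = p g ∧ b = g - p g := by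
    intro a b ha hb hab
    rw [tc_coeff hF] at ha
    rw [tc_coeff hG] at hb
    have h1 : F a ≠ 0 := by
      intro h0
      rw [h0, ite_self] at ha
      exact ha rfl
    have h2 : G b ≠ 0 := by
      intro h0
      rw [h0, ite_self] at hb
      exact hb rfl
    have h3 : p g = a := by
      rw [← hab, map_add, hpV a (hFV a h1), hpW b (hGW b h2), add_zero]
    refine ⟨h3.symm, ?_⟩
    rw [h3, ← hab]
    abel
  rw [AddMonoidAlgebra.coeff_mul, Finsupp.sum]
  have h1 : ∀ a ∈ (tc B hL F E).coeff.support, a ≠ p g →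
      ((tc B hL G E).coeff.sum fun b r => if a + b = g then (tc B hL F E).coeff a * r else 0)
        = 0 := by
    intro a ha hne
    rw [Finsupp.sum]
    refine Finset.sum_eq_zero fun b hb => ?_
    refine if_neg fun hab => hne (key a b (Finsupp.mem_support_iff.1 ha)
      (Finsupp.mem_support_iff.1 hb) hab).1
  rw [Finset.sum_eq_single (p g) h1]
  · rw [Finsupp.sum, Finset.sum_eq_single (g - p g)]
    · rw [if_pos (by abel), tc_coeff hF, tc_coeff hG]
      unfold tens
      by_cases h2 : lv B none (p g) < E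
      · by_cases h3 : lv B none (g - p g) < E
        · rw [if_pos h2, if_pos h3, if_pos ⟨h2, h3⟩]
        · rw [if_neg h3, mul_zero, if_neg fun h => h3 h.2]
      · rw [if_neg h2, zero_mul, if_neg fun h => h2 h.1]
    · intro b hb hne
      refine if_neg fun hab => hne ?_
      rw [eq_sub_iff_add_eq, add_comm]
      exact hab
    · intro hb
      rw [Finsupp.notMem_support_iff] at hb
      rw [hb, mul_zero, ite_self]
  · intro ha
    rw [Finsupp.notMem_support_iff] at ha
    rw [Finsupp.sum]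
    refine Finset.sum_eq_zero fun b _ => ?_
    rw [ha, zero_mul, ite_self]

include hpV hpW in
/-- products -/
lemma rel_mul {ι κ : Type} [Fintype ι] [Fintype κ] {F : ι → (Fin m → ℝ) → KK L hL}
    {G : κ → (Fin m → ℝ) → KK L hL} (hF : ∀ i, LF B hL (F i)) (hG : ∀ k, LF B hL (G k))
    (hFV : ∀ i g, F i g ≠ 0 → g ∈ V) (hGW : ∀ k g, G k g ≠ 0 → g ∈ W) {s : ι → GG} {t : κ → GG}
    (hs : ∀ i, Bd B (L := L) (s i)) (ht : ∀ k, Bd B (L := L) (t k)) {x y : HR}
    (hx : ∃ C : ℝ, x ∈ SR L C) (h1 : Rel B hL F s x) (h2 : Rel B hL G t y) :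
    Rel B hL (fun q : ι × κ => tens p (F q.1) (G q.2)) (fun q => s q.1 * t q.2) (x * y) := by
  classical
  obtain ⟨K1, hK1⟩ := h1
  obtain ⟨K2, hK2⟩ := h2
  obtain ⟨X0, hX0⟩ := hx
  obtain ⟨C1, hC1⟩ := exists_cb (fun i => Bd.inf (hs i)) hL
  obtain ⟨C2, hC2⟩ := exists_cb (fun i => Bd.inf (ht i)) hL
  choose c hc0 hc using fun i => (hF i).below
  choose d hd0 hd using fun k => (hG k).below
  set cc : ℝ := ∑ i, c i with hcc
  set dd : ℝ := ∑ k, d k with hdd
  have hci : ∀ i, c i ≤ cc := fun i => Finset.single_le_sum (f := c) (fun i _ => hc0 i)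
    (Finset.mem_univ i)
  have hdk : ∀ k, d k ≤ dd := fun k => Finset.single_le_sum (f := d) (fun i _ => hd0 i)
    (Finset.mem_univ k)
  have hcc0 : 0 ≤ cc := Finset.sum_nonneg fun i _ => hc0 i
  have hdd0 : 0 ≤ dd := Finset.sum_nonneg fun i _ => hd0 i
  -- the second factor is bounded
  have hb : ∀ E, ∑ k, rho (ev B hL (tc B hL (G k) E) * t k) ∈ SR L (-dd + -C2) := by
    intro E
    refine SR_sum hL _ _ fun k _ => SR_rho ((filt_v hL none).mul_mem ?_ (hC2 k))
    refine small_ev fun g hg => ?_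
    rw [tc_coeff (hG k)] at hg
    have h3 : G k g ≠ 0 := by
      intro h0
      rw [h0, ite_self] at hg
      exact hg rfl
    have := hd k g h3
    have := hdk k
    linarith
  refine ⟨|K2| + |X0| + |K1| + dd + |C2| + cc + |C1|, fun E => ?_⟩
  have e1 : x * y - ∑ q : ι × κ, rho (ev B hL (tc B hL (tens p (F q.1) (G q.2)) E)
        * (s q.1 * t q.2))
      = x * (y - ∑ k, rho (ev B hL (tc B hL (G k) E) * t k))
        + ((x - ∑ i, rho (ev B hL (tc B hL (F i) E) * s i))
          * ∑ k, rho (ev B hL (tc B hL (G k) E) * t k)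
        + ∑ q : ι × κ, rho (ev B hL (tc B hL (F q.1) E * tc B hL (G q.2) E
          - tc B hL (tens p (F q.1) (G q.2)) E) * (s q.1 * t q.2))) := by
    have e2 : ∑ q : ι × κ, rho (ev B hL (tc B hL (F q.1) E * tc B hL (G q.2) E
          - tc B hL (tens p (F q.1) (G q.2)) E) * (s q.1 * t q.2))
        = (∑ i, rho (ev B hL (tc B hL (F i) E) * s i))
          * (∑ k, rho (ev B hL (tc B hL (G k) E) * t k))
        - ∑ q : ι × κ, rho (ev B hL (tc B hL (tens p (F q.1) (G q.2)) E)
        * (s q.1 * t q.2)) := by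
      rw [Finset.sum_mul_sum, ← Finset.sum_product', ← Finset.univ_product_univ,
        ← Finset.sum_sub_distrib]
      refine Finset.sum_congr rfl fun q _ => ?_
      rw [← map_mul rho, ← map_sub rho, map_sub (ev B hL), map_mul (ev B hL)]
      congr 1
      ring
    rw [e2]
    ring
  rw [e1]
  have g1 := le_abs_self K1
  have g2 := le_abs_self K2
  have g3 := neg_abs_le X0
  have g4 := le_abs_self C1
  have g5 := le_abs_self C2
  have g6 := abs_nonneg K1
  have g7 := abs_nonneg K2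
  have g8 := abs_nonneg X0
  have g9 := abs_nonneg C1
  have g10 := abs_nonneg C2
  refine SR_add hL (SR_anti hL (by linarith) (SR_mul hL hX0 (hK2 E)))
    (SR_add hL (SR_anti hL (by linarith) (SR_mul hL (hK1 E) (hb E))) ?_)
  refine SR_sum hL _ _ fun q _ => SR_rho (B := B) ?_
  have h3 : ev B hL (tc B hL (F q.1) E * tc B hL (G q.2) E
      - tc B hL (tens p (F q.1) (G q.2)) E) ∈ Sv B L none (E - cc - dd) := by
    refine small_ev fun g hg => ?_
    by_contra hlt
    push Not at hlt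
    apply hg
    have hgE : lv B none g < E := by linarith
    rw [AddMonoidAlgebra.coeff_sub, Finsupp.sub_apply,
      tc_mul_coeff hpV hpW (hF _) (hG _) (hFV _) (hGW _),
      tc_coeff (LF.tens (hF _) (hG _)), if_pos hgE]
    by_cases h4 : tens p (F q.1) (G q.2) g = 0
    · rw [h4, ite_self, sub_zero]
    · have h5 : F q.1 (p g) ≠ 0 := left_ne_zero_of_mul h4
      have h6 : G q.2 (g - p g) ≠ 0 := right_ne_zero_of_mul h4
      have h7 : lv B none g = lv B none (p g) + lv B none (g - p g) := by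
        rw [← lv_add]
        congr 1
        abel
      have h8 := hc _ _ h5
      have h9 := hd _ _ h6
      have h10 := hci q.1
      have h11 := hdk q.2
      rw [if_pos ⟨by linarith, by linarith⟩, sub_self]
  have h4 := (filt_v hL none).mul_mem h3 ((filt_v hL none).mul_mem (hC1 q.1) (hC2 q.2))
  exact (filt_v hL none).anti (by linarith) h4

end prod

end Pool.Agent.TH796.AL.Nv
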