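import Mathlib
import Pool.Agent.TH796.AL.Nv2

set_option autoImplicit false
set_option linter.unusedSectionVars false

/-!
# Project AL, part N: formal expansions of represented numbers
-/

namespace Pool.Agent.TH796.AL.Nv

open Filter Topology Pool.Agent.TH932.Abs Pool.Agent.TH932.Germs Pool.Agent.TH932.Chi
open Pool.Agent.TH796.AL Pool.Agent.TH796.AL.Lin

theorem lim (h : KPAStmt) : LimStmt := by
  classical
  intro m B L hL V k y hrep
  choose Zl fZ z C hz1 hz2 hz3 using hrep
  -- the joint family
  set zz : (Σ l, Zl l) → GG := fun i => z i.1 i.2 with hzz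
  set CC : ℝ := ∑ l, |C l| with hCC
  have hCl : ∀ l, C l ≤ CC := fun l => (le_abs_self _).trans
    (Finset.single_le_sum (f := fun l => |C l|) (fun _ _ => abs_nonneg _) (Finset.mem_univ l))
  obtain ⟨J, fJ, f, hind, D, H, hD, hDH⟩ := exists_ind (B := B) hL zz
  have hb1 : ∀ v j, zz (f j) ∈ Sv B L v (-CC) := fun v j =>
    (filt_v hL v).anti (neg_le_neg (hCl _)) (hz1 _ v _)
  have hbd : ∀ j, Bd B (L := L) (zz (f j)) := fun j => ⟨hz2 _ _, fun v => ⟨_, hb1 v j⟩⟩
  obtain ⟨K0, hK⟩ := h m B L hL ⊥ inferInstance J fJ (fun j => zz (f j)) CC hind hb1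
    (fun j => hz2 _ _)
  obtain ⟨t1, ht1⟩ := (Bd.ev (B := B) D).2 none
  have ht1' := SR_rho ht1
  set S0 : Finset (Fin m → ℝ) := Finset.univ.biUnion fun p : (Σ l, Zl l) × J =>
    (H p.1 p.2).coeff.support with hS0
  choose P s hs0 hs1 hs2 using hz3
  have hsR : ∀ l E, gr (fun n => (s l E n : ℝ) - y l) ∈ SR L E := by
    intro l E
    rw [mem_SR]
    intro ε hε
    filter_upwards [hs2 l E, L_nonneg hL] with n h1 h2
    rw [abs_sub_comm]
    refine h1.trans (Real.exp_le_exp.2 ?_)
    nlinarith
  set Q : Fin k → ℝ → J → Rg m hL := fun l E i => ∑ j, P l E j * H ⟨l, j⟩ i with hQ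
  have hDs : ∀ l E, ev B hL D * gm (s l E) = ∑ i, ev B hL (Q l E i) * zz (f i) := by
    intro l E
    rw [hs1 l E, Finset.mul_sum]
    have e1 : ∀ j, ev B hL D * (ev B hL (P l E j) * z l j)
        = ∑ i, ev B hL (P l E j * H ⟨l, j⟩ i) * zz (f i) := by
      intro j
      have e2 := hDH ⟨l, j⟩
      have e3 : zz ⟨l, j⟩ = z l j := rfl
      rw [e3] at e2
      rw [mul_left_comm, e2, Finset.mul_sum]
      refine Finset.sum_congr rfl fun i _ => ?_
      rw [map_mul, mul_assoc]
    simp only [e1]
    rw [Finset.sum_comm]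
    refine Finset.sum_congr rfl fun i _ => ?_
    rw [hQ]
    simp only []
    rw [map_sum, Finset.sum_mul]
  -- supports
  have hQs : ∀ l E i g, (Q l E i).coeff g ≠ 0 → ∃ v ∈ V, ∃ a ∈ S0, v + a = g := by
    intro l E i g hg
    rw [hQ] at hg
    simp only [] at hg
    rw [AddMonoidAlgebra.coeff_sum, Finsupp.finsetSum_apply] at hg
    obtain ⟨j, -, hj⟩ := Finset.exists_ne_zero_of_sum_ne_zero hg
    obtain ⟨a, b, ha, hb, hab⟩ := Dir.supp_mul hL hj
    exact ⟨a, hs0 l E j a ha, b, Finset.mem_biUnion.2 ⟨(⟨l, j⟩, i), Finset.mem_univ _,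
      Finsupp.mem_support_iff.2 hb⟩, hab⟩
  -- stability
  have hst : ∀ l E E' i g, E ≤ E' → lv B none g < t1 + E - K0 →
      (Q l E i).coeff g = (Q l E' i).coeff g := by
    intro l E E' i g hE hg
    by_contra hne
    have h1 : ∑ i, evA ⊥ B hL (incR hL ⊥ (Q l E' i - Q l E i)) * rho (zz (f i))
        ∈ SR L (t1 + E) := by
      have e1 : ∑ i, evA ⊥ B hL (incR hL ⊥ (Q l E' i - Q l E i)) * rho (zz (f i))
          = rho (ev B hL D) * (gr (fun n => (s l E' n : ℝ) - y l)
            - gr (fun n => (s l E n : ℝ) - y l)) := by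
        have e3 : ∀ E, gr (fun n => (s l E n : ℝ) - y l)
            = rho (gm (s l E)) - algebraMap ℝ HR (y l) := by
          intro E
          rw [rho_gm, cst_eq, gr_sub]
        rw [e3, e3, sub_sub_sub_cancel_right, ← map_sub, ← map_mul, mul_sub, hDs, hDs,
          ← Finset.sum_sub_distrib, map_sum]
        refine Finset.sum_congr rfl fun i _ => ?_
        rw [evA_incR, ← map_mul, map_sub, sub_mul]
      rw [e1]
      exact SR_mul hL ht1' (SR_sub hL (SR_anti hL hE (hsR l E')) (hsR l E))
    have h2 := hK (fun i => incR hL ⊥ (Q l E' i - Q l E i)) (t1 + E) h1 i g (by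
      rw [incR_coeff]
      intro h0
      have h3 := congrArg (fun x : KA ⊥ hL => (x : HR)) h0
      simp only [inc_coe] at h3
      have h4 : rho (((Q l E' i - Q l E i).coeff g : KK L hL) : GG) = rho 0 := by
        rw [h3, map_zero]; rfl
      have h5 : (Q l E' i - Q l E i).coeff g = 0 := Subtype.ext (rho_injective h4)
      rw [AddMonoidAlgebra.coeff_sub, Finsupp.sub_apply, sub_eq_zero] at h5
      exact hne h5.symm)
    linarith
  -- the limit functions
  set e : (Fin m → ℝ) → ℝ := fun g => |lv B none g| + |t1| + |K0| + 1 with he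
  set X0 : Fin k → J → (Fin m → ℝ) → KK L hL := fun l i g => (Q l (e g) i).coeff g with hX0
  have hX : ∀ l i g E, lv B none g < t1 + E - K0 → X0 l i g = (Q l E i).coeff g := by
    intro l i g E hE
    have h1 : lv B none g < t1 + e g - K0 := by
      have := le_abs_self (lv B none g)
      have := neg_abs_le t1
      have := le_abs_self K0
      simp only [he]
      linarith
    rcases le_total E (e g) with h2 | h2
    · exact (hst l E (e g) i g h2 hE).symm
    · exact hst l (e g) E i g h2 h1
  have hLF : ∀ l i, LF B hL (X0 l i) := by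
    intro l i c
    refine (Finset.finite_toSet (Q l (c - t1 + K0) i).coeff.support).subset ?_
    rintro g ⟨h1, h2⟩
    rw [hX l i g (c - t1 + K0) (by linarith)] at h1
    exact Finsupp.mem_support_iff.2 h1
  have hXs : ∀ l i g, X0 l i g ≠ 0 → ∃ v ∈ V, ∃ a ∈ S0, v + a = g := fun l i g hg =>
    hQs l (e g) i g hg
  have hrel : ∀ l, Rel B hL (X0 l) (fun i => zz (f i)) (rho (ev B hL D) * algebraMap ℝ HR (y l)) := by
    intro l
    refine ⟨|CC| + |K0|, fun E => ?_⟩
    set E' : ℝ := E - t1 + K0 with hE'
    have e1 : rho (ev B hL D) * algebraMap ℝ HR (y l)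
        - ∑ i, rho (ev B hL (tc B hL (X0 l i) E) * zz (f i))
        = -(rho (ev B hL D) * gr (fun n => (s l E' n : ℝ) - y l))
          - ∑ i, rho (ev B hL (tc B hL (X0 l i) E - Q l E' i) * zz (f i)) := by
      have e3 : gr (fun n => (s l E' n : ℝ) - y l)
          = rho (gm (s l E')) - algebraMap ℝ HR (y l) := by
        rw [rho_gm, cst_eq, gr_sub]
      have e4 : ∑ i, rho (ev B hL (tc B hL (X0 l i) E - Q l E' i) * zz (f i))
          = ∑ i, rho (ev B hL (tc B hL (X0 l i) E) * zz (f i))
            - rho (ev B hL D) * rho (gm (s l E')) := by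
        rw [← map_mul rho, hDs, map_sum, ← Finset.sum_sub_distrib]
        refine Finset.sum_congr rfl fun i _ => ?_
        rw [map_sub, sub_mul, map_sub]
      rw [e3, e4]
      ring
    rw [e1]
    have g1 := abs_nonneg CC
    have g2 := abs_nonneg K0
    have g3 := le_abs_self CC
    have g4 := neg_abs_le K0
    refine SR_sub hL ?_ ?_
    · have h1 := SR_mul hL ht1' (hsR l E')
      have h2 := SR_mul hL (SR_cst hL (-1)) h1
      rw [zero_add, map_neg, map_one, neg_one_mul] at h2
      exact SR_anti hL (by linarith) h2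
    · refine SR_sum hL _ _ fun i _ => SR_rho (B := B) ?_
      have h1 : ev B hL (tc B hL (X0 l i) E - Q l E' i) ∈ Sv B L none E := by
        refine small_ev fun g hg => ?_
        by_contra hlt
        push Not at hlt
        apply hg
        rw [AddMonoidAlgebra.coeff_sub, Finsupp.sub_apply, tc_coeff (hLF l i), if_pos hlt,
          hX l i g E' (by rw [hE']; linarith), sub_self]
      exact (filt_v hL none).anti (by linarith) ((filt_v hL none).mul_mem h1 (hb1 none i))
  -- cosets
  set mk := Submodule.mkQ V with hmk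
  set S1 : Finset ((Fin m → ℝ) ⧸ V) := S0.image mk with hS1
  have hsurj : Function.Surjective mk := Submodule.mkQ_surjective V
  set c : (Fin m → ℝ) ⧸ V → (Fin m → ℝ) := Function.surjInv hsurj with hc
  have hcm : ∀ q, mk (c q) = q := Function.surjInv_eq hsurj
  have hmem : ∀ (g : Fin m → ℝ) q, g - c q ∈ V ↔ mk g = q := by
    intro g q
    have h0 : g - c q ∈ V ↔ mk (g - c q) = 0 := (Submodule.Quotient.mk_eq_zero V).symm
    rw [h0, map_sub, hcm, sub_eq_zero]
  set X : Fin k → J × S1 → (Fin m → ℝ) → KK L hL :=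
    fun l q g => if g ∈ V then X0 l q.1 (g + c q.2) else 0 with hXd
  set M : J → J × S1 → Rg m hL := fun i q =>
    if i = q.1 then AddMonoidAlgebra.single (c q.2) 1 else 0 with hM
  have hXL : ∀ l q, LF B hL (X l q) := by
    intro l q a
    refine ((hLF l q.1 (a + lv B none (c q.2))).image (fun g => g - c q.2)).subset ?_
    rintro g ⟨h1, h2⟩
    have h3 : X0 l q.1 (g + c q.2) ≠ 0 := by
      intro h0
      apply h1
      rw [hXd]
      simp only [h0, ite_self]
    refine ⟨g + c q.2, ⟨h3, ?_⟩, by simp⟩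
    rw [lv_add]
    linarith
  have hMX : ∀ l i, ∑ q, act (M i q) (X l q) = X0 l i := by
    intro l i
    funext g
    rw [Fintype.sum_prod_type, Finset.sum_apply, Finset.sum_eq_single i]
    · rw [Finset.sum_apply]
      have h1 : ∀ q : S1, act (M i (i, q)) (X l (i, q)) g
          = if mk g = q then X0 l i g else 0 := by
        intro q
        rw [hM]
        simp only [if_true]
        rw [act_single, one_mul, hXd]
        simp only [sub_add_cancel, hmem]
      simp only [h1]
      by_cases h2 : X0 l i g = 0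
      · rw [h2]
        simp
      · obtain ⟨v, hv, a, ha, hva⟩ := hXs l i g h2
        have h3 : mk g ∈ S1 := by
          rw [hS1]
          refine Finset.mem_image.2 ⟨a, ha, ?_⟩
          rw [← hva, map_add]
          have : mk v = 0 := by
            rw [← LinearMap.mem_ker, hmk, Submodule.ker_mkQ]
            exact hv
          rw [this, zero_add]
        rw [Finset.sum_eq_single (⟨mk g, h3⟩ : S1)]
        · rw [if_pos rfl]
        · intro q _ hq
          refine if_neg fun h4 => hq (Subtype.ext h4.symm)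
        · intro h4; exact absurd (Finset.mem_univ _) h4
    · intro j _ hj
      rw [Finset.sum_apply]
      refine Finset.sum_eq_zero fun q _ => ?_
      rw [hM]
      simp only [if_neg hj.symm]
      rw [map_zero]
      rfl
    · intro h4; exact absurd (Finset.mem_univ _) h4
  refine ⟨D, hD, J × S1, inferInstance, fun q => ∑ i, ev B hL (M i q) * zz (f i), X, ?_, hXL, ?_, ?_⟩
  · intro q
    exact Bd.sum hL _ _ fun i _ => Bd.mul hL (Bd.ev _) (hbd i)
  · intro l q g hg
    by_contra hV
    apply hg
    rw [hXd]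
    simp only [if_neg hV]
  · intro l
    refine (rel_mat M (X l) (hXL l) (fun i => zz (f i)) (fun i => Bd.inf (hbd i)) _).1 ?_
    simp only [hMX]
    exact hrel l

end Pool.Agent.TH796.AL.Nv
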