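import Mathlib
import Pool.Agent.TH796.AL.Nv3

set_option autoImplicit false
set_option linter.unusedSectionVars false

/-!
# Project AL, part N: the tensor theorem
-/

namespace Pool.Agent.TH796.AL.Nv

open Filter Topology Pool.Agent.TH932.Abs Pool.Agent.TH932.Germs Pool.Agent.TH932.Chi
open Pool.Agent.TH796.AL Pool.Agent.TH796.AL.Lin

variable {m : ℕ} {B : Base m} {L : ℕ → ℝ} {hL : Tendsto L atTop atTop}

/-- a maximal independent subfamily of a family of functions -/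
lemma exists_indF {Z : Type} [Fintype Z] (Φ : Z → (Fin m → ℝ) → KK L hL) :
    ∃ (J : Type) (_ : Fintype J) (f : J → Z)
      (_ : ∀ A : J → Rg m hL, ∑ j, act (A j) (Φ (f j)) = 0 → ∀ j, A j = 0)
      (D : Rg m hL) (H : Z → J → Rg m hL), D ≠ 0 ∧
      ∀ i, act D (Φ i) = ∑ j, act (H i j) (Φ (f j)) := by
  classical
  let _ : Module (Rg m hL) ((Fin m → ℝ) → KK L hL) :=
    Module.compHom _ (act (K := KK L hL) (Γ := Fin m → ℝ)).toRingHom
  have hsm : ∀ (a : Rg m hL) (g : (Fin m → ℝ) → KK L hL), a • g = act a g := fun a g => rfl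
  obtain ⟨s, hs, hmax⟩ := exists_maximal_linearIndepOn (Rg m hL) Φ
  have : Fintype s := Fintype.ofFinite s
  have h1 : ∀ i, ∃ a : Rg m hL, a ≠ 0 ∧ ∃ c : s → Rg m hL, a • Φ i = ∑ j, c j • Φ j := by
    intro i
    by_cases hi : i ∈ s
    · refine ⟨1, one_ne_zero, fun j => if (j : Z) = i then 1 else 0, ?_⟩
      rw [one_smul, Finset.sum_eq_single (⟨i, hi⟩ : s)]
      · simp
      · intro b _ hb
        have hb' : (b : Z) ≠ i := fun h => hb (Subtype.ext h)
        simp only [if_neg hb', zero_smul]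
      · intro h
        exact absurd (Finset.mem_univ _) h
    · obtain ⟨a, ha, h2⟩ := hmax i hi
      refine ⟨a, ha, ?_⟩
      rw [Set.image_eq_range] at h2
      obtain ⟨c, hc⟩ := (Submodule.mem_span_range_iff_exists_fun (Rg m hL)).1 h2
      exact ⟨c, hc.symm⟩
  choose a ha c hc using h1
  refine ⟨s, inferInstance, fun j => (j : Z), ?_, ∏ i, a i,
    fun i j => (∏ i' ∈ Finset.univ.erase i, a i') * c i j, ?_, ?_⟩
  · intro A hA
    have h3 : LinearIndependent (Rg m hL) (fun j : s => Φ j) := hs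
    exact Fintype.linearIndependent_iff.1 h3 A (by
      rw [← hA]
      exact Finset.sum_congr rfl fun j _ => hsm _ _)
  · exact Finset.prod_ne_zero_iff.2 fun i _ => ha i
  · intro i
    have h4 : act (a i) (Φ i) = ∑ j : s, act (c i j) (Φ j) := hc i
    rw [← Finset.mul_prod_erase _ _ (Finset.mem_univ i), mul_comm (a i), map_mul,
      Module.End.mul_apply, h4, map_sum]
    refine Finset.sum_congr rfl fun j _ => ?_
    rw [map_mul, Module.End.mul_apply]

/-- a projection -/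
lemma exists_proj {V W : Submodule ℝ (Fin m → ℝ)} (h : Disjoint V W) :
    ∃ p : (Fin m → ℝ) →ₗ[ℝ] (Fin m → ℝ), (∀ v ∈ V, p v = v) ∧ ∀ w ∈ W, p w = 0 := by
  have hker : LinearMap.ker ((Submodule.mkQ W).comp V.subtype) = ⊥ := by
    rw [LinearMap.ker_eq_bot']
    intro v hv
    have h1 : (v : Fin m → ℝ) ∈ W := (Submodule.Quotient.mk_eq_zero W).1 hv
    exact Subtype.ext (Submodule.disjoint_def.1 h _ v.2 h1)
  obtain ⟨g, hg⟩ := LinearMap.exists_leftInverse_of_injective _ hker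
  refine ⟨V.subtype.comp (g.comp (Submodule.mkQ W)), fun v hv => ?_, fun w hw => ?_⟩
  · have h1 := LinearMap.congr_fun hg ⟨v, hv⟩
    have h2 := congrArg (fun x : V => (x : Fin m → ℝ)) h1
    exact h2
  · have h1 : Submodule.mkQ W w = 0 := (Submodule.Quotient.mk_eq_zero W).2 hw
    rw [LinearMap.comp_apply, LinearMap.comp_apply, h1, map_zero, map_zero]

/-- expansions in an independent family of functions -/
lemma expand (h : KPAStmt) {V : Submodule ℝ (Fin m → ℝ)} {s : ℕ} {x : Fin s → ℝ}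
    (hx : ∀ j, RepV B hL V (x j)) :
    ∃ (D : Rg m hL) (_ : D ≠ 0) (A : Type) (_ : Fintype A) (F : A → (Fin m → ℝ) → KK L hL)
      (u : Fin s → A → GG), (∀ a, LF B hL (F a)) ∧ (∀ a g, F a g ≠ 0 → g ∈ V) ∧
      (∀ ρ : A → Rg m hL, ∑ a, act (ρ a) (F a) = 0 → ∀ a, ρ a = 0) ∧
      (∀ j a, Bd B (L := L) (u j a)) ∧
      ∀ j, Rel B hL F (u j) (rho (ev B hL D) * algebraMap ℝ HR (x j)) := by
  classical
  obtain ⟨D, hD, Λ, fΛ, w, X, hw, hLF, hV, hrel⟩ := lim h m B L hL V s x hx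
  obtain ⟨J, fJ, f, hind, D1, H, hD1, hH⟩ := exists_indF (fun q : Fin s × Λ => X q.1 q.2)
  refine ⟨D1 * D, mul_ne_zero hD1 hD, J, fJ, fun a => X (f a).1 (f a).2,
    fun j a => ∑ l, ev B hL (H (j, l) a) * w l, fun a => hLF _ _, fun a g => hV _ _ g, hind,
    fun j a => Bd.sum hL _ _ fun l _ => Bd.mul hL (Bd.ev _) (hw l), fun j => ?_⟩
  have h1 := rel_smul (hLF j) (fun l => Bd.inf (hw l)) (hrel j) D1
  have h2 := (rel_mat (fun l a => H (j, l) a) (fun a => X (f a).1 (f a).2)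
    (fun a => hLF _ _) w (fun l => Bd.inf (hw l))
    (rho (ev B hL D1) * (rho (ev B hL D) * algebraMap ℝ HR (x j)))).1 (by
      convert h1 using 2 with l
      exact (hH (j, l)).symm)
  rw [map_mul, map_mul, mul_assoc]
  exact h2

/-- the tensor theorem, general form -/
def Tensor2Stmt : Prop :=
  ∀ (m : ℕ) (B : Base m) (L : ℕ → ℝ) (hL : Tendsto L atTop atTop)
    (V W : Submodule ℝ (Fin m → ℝ)) (_ : Disjoint V W) (r s : ℕ) (x : Fin r → Fin s → ℝ)
    (y : Fin s → ℝ) (_ : ∀ k j, RepV B hL V (x k j)) (_ : ∀ j, RepV B hL W (y j))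
    (_ : ∀ k, ∑ j, x k j * y j = 0) (j0 : Fin s) (_ : y j0 ≠ 0),
    ∃ (H : ℝ) (c : Fin s → ℕ → ℤ), (∀ᶠ n in (UU : Filter ℕ), c j0 n ≠ 0) ∧
      (∀ j, ∀ᶠ n in (UU : Filter ℕ), |(c j n : ℝ)| ≤ Real.exp (H * L n)) ∧
      ∀ (E : ℝ) k, ∀ᶠ n in (UU : Filter ℕ), |∑ j, (c j n : ℝ) * x k j| ≤ Real.exp (-(E * L n))

/-- products of independent families are independent -/
lemma tens_ind (hip : IndepProdStmt) {V W : Submodule ℝ (Fin m → ℝ)}
    {p : (Fin m → ℝ) →ₗ[ℝ] (Fin m → ℝ)} (hpV : ∀ v ∈ V, p v = v) (hpW : ∀ w ∈ W, p w = 0)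
    {A A' : Type} [Fintype A] [Fintype A'] {F : A → (Fin m → ℝ) → KK L hL}
    {G : A' → (Fin m → ℝ) → KK L hL} (hFV : ∀ a g, F a g ≠ 0 → g ∈ V)
    (hGW : ∀ b g, G b g ≠ 0 → g ∈ W)
    (hF : ∀ ρ : A → Rg m hL, ∑ a, act (ρ a) (F a) = 0 → ∀ a, ρ a = 0)
    (hG : ∀ ρ : A' → Rg m hL, ∑ a, act (ρ a) (G a) = 0 → ∀ a, ρ a = 0)
    (ρ : A × A' → Rg m hL) (h : ∑ q, act (ρ q) (tens p (F q.1) (G q.2)) = 0) :
    ∀ q, ρ q = 0 := by
  rintro ⟨a, b⟩
  refine hip (KK L hL) inferInstance (Fin m → ℝ) inferInstance p.toAddMonoidHom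
    V.toAddSubgroup W.toAddSubgroup hpV hpW A A' inferInstance inferInstance F G hFV hGW hF hG
    (fun a b => ρ (a, b)) ?_ a b
  rw [Fintype.sum_prod_type] at h
  exact h

theorem tensor2 (h : KPAStmt) (hsu : SUStmt) (hip : IndepProdStmt) : Tensor2Stmt := by
  classical
  intro m B L hL V W hVW r s x y hx hy hsum j0 hj0
  obtain ⟨p, hpV, hpW⟩ := exists_proj hVW
  obtain ⟨D, hD, A, fA, F, u, hFL, hFV, hFi, hu, hFr⟩ :=
    expand (B := B) (hL := hL) h (x := fun i => x (finProdFinEquiv.symm i).1 (finProdFinEquiv.symm i).2)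
      (fun i => hx _ _)
  obtain ⟨D', hD', A', fA', G, v, hGL, hGW, hGi, hv, hGr⟩ := expand (B := B) (hL := hL) h hy
  set u' : Fin r → Fin s → A → GG := fun k j => u (finProdFinEquiv (k, j)) with hu'
  have hFr' : ∀ k j, Rel B hL F (u' k j) (rho (ev B hL D) * algebraMap ℝ HR (x k j)) := by
    intro k j
    have h1 := hFr (finProdFinEquiv (k, j))
    simp only [Equiv.symm_apply_apply] at h1
    exact h1
  set δ : HR := rho (ev B hL D) with hδ
  set δ' : HR := rho (ev B hL D') with hδ'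
  have hδS : ∃ C : ℝ, δ ∈ SR L C := by
    obtain ⟨C, hC⟩ := (Bd.ev (B := B) D).2 none
    exact ⟨C, SR_rho hC⟩
  have hxS : ∀ k j, ∃ C : ℝ, δ * algebraMap ℝ HR (x k j) ∈ SR L C := by
    intro k j
    obtain ⟨C, hC⟩ := hδS
    exact ⟨_, SR_mul hL hC (SR_cst hL (x k j))⟩
  -- the relations
  have h0 : ∀ k, ∀ q : A × A', ∑ j, u' k j q.1 * v j q.2 = 0 := by
    intro k
    have h1 : ∀ j ∈ (Finset.univ : Finset (Fin s)),
        Rel B hL (fun q : A × A' => tens p (F q.1) (G q.2)) (fun q => u' k j q.1 * v j q.2)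
        ((δ * algebraMap ℝ HR (x k j)) * (δ' * algebraMap ℝ HR (y j))) := fun j _ =>
      rel_mul hpV hpW hFL hGL hFV hGW (fun a => hu _ a) (fun b => hv j b) (hxS k j) (hFr' k j)
        (hGr j)
    have h2 := rel_sum Finset.univ h1
    have h3 : ∑ j, (δ * algebraMap ℝ HR (x k j)) * (δ' * algebraMap ℝ HR (y j)) = 0 := by
      have e1 : ∀ j, (δ * algebraMap ℝ HR (x k j)) * (δ' * algebraMap ℝ HR (y j))
          = δ * δ' * algebraMap ℝ HR (x k j * y j) := by
        intro j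
        rw [map_mul]
        ring
      simp only [e1]
      rw [← Finset.mul_sum, ← map_sum, hsum k, map_zero, mul_zero]
    rw [h3] at h2
    exact rel_indF (fun q => LF.tens (hFL _) (hGL _))
      (fun ρ hρ => tens_ind hip hpV hpW hFV hGW hFi hGi ρ hρ)
      (fun q => Bd.sum hL _ _ fun j _ => Bd.mul hL (hu _ _) (hv _ _)) h hsu h2
  -- a nonzero coefficient
  obtain ⟨b0, hb0⟩ : ∃ b, v j0 b ≠ 0 := by
    by_contra hcon
    push Not at hcon
    obtain ⟨t0, ht0⟩ := ev_low (B := B) hL h hsu hD'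
    obtain ⟨K0, hK⟩ := hGr j0
    apply ht0
    have h1 := hK (t0 + K0)
    simp only [hcon, mul_zero, map_zero, Finset.sum_const_zero, sub_zero, add_sub_cancel_right] at h1
    have h2 := SR_mul hL h1 (SR_cst hL (y j0)⁻¹)
    rw [add_zero, mul_assoc, ← map_mul, mul_inv_cancel₀ hj0, map_one, mul_one] at h2
    exact h2
  -- the small combinations
  have hsmall : ∀ k (E : ℝ), ∑ j, rho (v j b0) * algebraMap ℝ HR (x k j) ∈ SR L E := by
    intro k
    have h1 : ∀ j ∈ (Finset.univ : Finset (Fin s)), Rel B hL F (fun a => v j b0 * u' k j a)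
        (rho (v j b0) * (δ * algebraMap ℝ HR (x k j))) := fun j _ =>
      rel_scale (hFr' k j) (Bd.inf (hv j b0))
    have h2 := rel_sum Finset.univ h1
    obtain ⟨K0, hK⟩ := h2
    obtain ⟨t0, ht0⟩ := ev_low (B := B) hL h hsu hD
    have hinv := SR_inv hL t0 _ ht0
    have hne : δ ≠ 0 := fun h0 => ht0 (by rw [← hδ, h0]; exact SR_zero _)
    have e0 : ∀ a, ∑ j, v j b0 * u' k j a = 0 := by
      intro a
      have h3 := h0 k (a, b0)
      rw [← h3]
      exact Finset.sum_congr rfl fun j _ => mul_comm _ _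
    intro E
    have h3 := hK (E + t0 + K0)
    simp only [e0, mul_zero, map_zero, Finset.sum_const_zero, sub_zero, add_sub_cancel_right] at h3
    have e1 : ∑ j, rho (v j b0) * algebraMap ℝ HR (x k j)
        = δ⁻¹ * ∑ j, rho (v j b0) * (δ * algebraMap ℝ HR (x k j)) := by
      rw [Finset.mul_sum]
      refine Finset.sum_congr rfl fun j _ => ?_
      rw [mul_left_comm, inv_mul_cancel_left₀ hne]
    rw [e1]
    refine SR_anti hL ?_ (SR_mul hL hinv h3)
    linarith
  -- denominators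
  choose a ha using fun j => gm_surj (v j b0)
  have hDBa : ∀ j, ∃ Hj : ℝ, Dir.DB L Hj (a j) := by
    intro j
    obtain ⟨t, ht⟩ := (hv j b0).1
    rw [← ha j] at ht
    exact ⟨_, Dir.db_of_RS hL ht⟩
  choose Hj hHj using hDBa
  have hAa : ∀ j, ∃ Cj : ℝ, ∀ᶠ n in (UU : Filter ℕ), |(a j n : ℝ)| ≤ Real.exp (Cj * L n) := by
    intro j
    obtain ⟨t, ht⟩ := (hv j b0).2 none
    have h1 := SR_rho ht
    rw [← ha j, rho_gm, mem_SR] at h1
    refine ⟨-(t - 1), ?_⟩
    filter_upwards [h1 1 one_pos] with n hn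
    exact hn
  choose Cj hCj using hAa
  have hdc : ∀ j n, (a j n) * (∏ i, ((a i n).den : ℚ)) = (((a j n).num * ∏ i ∈ Finset.univ.erase j, ((a i n).den : ℤ) : ℤ) : ℚ) := by
    intro j n
    rw [← Finset.mul_prod_erase _ _ (Finset.mem_univ j), ← mul_assoc, Rat.mul_den_eq_num]
    push_cast
    rfl
  refine ⟨∑ j, |Hj j| + ∑ j, |Cj j|, fun j n => (a j n).num * ∏ i ∈ Finset.univ.erase j, ((a i n).den : ℤ), ?_, ?_, ?_⟩
  · have h1 : gm (a j0) ≠ 0 := by rw [ha]; exact hb0
    filter_upwards [gm_ne_zero.1 h1] with n hn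
    refine mul_ne_zero (Rat.num_ne_zero.2 hn) (Finset.prod_ne_zero_iff.2 fun i _ => ?_)
    have := (a i n).den_pos
    omega
  · intro j
    have h1 : ∀ᶠ n in (UU : Filter ℕ), ∀ i, ((a i n).den : ℝ) ≤ Real.exp (Hj i * L n) := by
      rw [Filter.eventually_all]
      exact hHj
    filter_upwards [h1, hCj j, L_nonneg hL] with n h1 h2 h3
    have e1 : (((a j n).num * ∏ i ∈ Finset.univ.erase j, ((a i n).den : ℤ) : ℤ) : ℝ)
        = (a j n : ℝ) * ∏ i, ((a i n).den : ℝ) := by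
      have := congrArg (fun q : ℚ => (q : ℝ)) (hdc j n)
      simp only [Rat.cast_mul, Rat.cast_prod, Rat.cast_natCast, Rat.cast_intCast] at this
      exact this.symm
    have hp : |∏ i, ((a i n).den : ℝ)| = ∏ i, ((a i n).den : ℝ) :=
      abs_of_nonneg (Finset.prod_nonneg fun i _ => Nat.cast_nonneg _)
    rw [e1, abs_mul, hp]
    calc |(a j n : ℝ)| * ∏ i, ((a i n).den : ℝ)
        ≤ Real.exp (Cj j * L n) * ∏ i, Real.exp (Hj i * L n) := by
          refine mul_le_mul h2 (Finset.prod_le_prod (fun _ _ => Nat.cast_nonneg _)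
            fun i _ => h1 i) (Finset.prod_nonneg fun _ _ => Nat.cast_nonneg _) (Real.exp_pos _).le
      _ = Real.exp ((Cj j + ∑ i, Hj i) * L n) := by
          rw [← Real.exp_sum, ← Real.exp_add, ← Finset.sum_mul, add_mul]
      _ ≤ _ := by
          refine Real.exp_le_exp.2 (mul_le_mul_of_nonneg_right ?_ h3)
          have h4 : ∑ i, Hj i ≤ ∑ i, |Hj i| := Finset.sum_le_sum fun i _ => le_abs_self _
          have h5 : |Cj j| ≤ ∑ i, |Cj i| :=
            Finset.single_le_sum (f := fun i => |Cj i|) (fun _ _ => abs_nonneg _)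
              (Finset.mem_univ j)
          have h6 := le_abs_self (Cj j)
          linarith
  · intro E k
    have h1 : ∀ᶠ n in (UU : Filter ℕ), ∀ i, ((a i n).den : ℝ) ≤ Real.exp (Hj i * L n) := by
      rw [Filter.eventually_all]
      exact hHj
    have h2 := hsmall k (E + 1 + ∑ i, |Hj i|)
    have e2 : ∑ j, rho (v j b0) * algebraMap ℝ HR (x k j)
        = gr (fun n => ∑ j, (a j n : ℝ) * x k j) := by
      have e3 : ∀ t : Finset (Fin s), ∑ j ∈ t, rho (v j b0) * algebraMap ℝ HR (x k j)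
        = gr (fun n => ∑ j ∈ t, (a j n : ℝ) * x k j) := by
        intro t
        induction t using Finset.induction_on with
        | empty => simp only [Finset.sum_empty]; exact gr_zero.symm
        | insert j t hj ih =>
          rw [Finset.sum_insert hj, ih, ← ha j, rho_gm, cst_eq, gr_mul, gr_add]
          simp only [Finset.sum_insert hj]
      exact e3 _
    rw [e2, mem_SR] at h2
    filter_upwards [h1, h2 1 one_pos, L_nonneg hL] with n h1 h2 h3
    have e1 : ∑ j, ((((a j n).num * ∏ i ∈ Finset.univ.erase j, ((a i n).den : ℤ) : ℤ) : ℝ)) * x k j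
        = (∏ i, ((a i n).den : ℝ)) * ∑ j, (a j n : ℝ) * x k j := by
      rw [Finset.mul_sum]
      refine Finset.sum_congr rfl fun j _ => ?_
      have := congrArg (fun q : ℚ => (q : ℝ)) (hdc j n)
      simp only [Rat.cast_mul, Rat.cast_prod, Rat.cast_natCast, Rat.cast_intCast] at this
      rw [← this]
      ring
    rw [e1, abs_mul, abs_of_nonneg (Finset.prod_nonneg fun i _ => Nat.cast_nonneg _)]
    calc (∏ i, ((a i n).den : ℝ)) * |∑ j, (a j n : ℝ) * x k j|
        ≤ (∏ i, Real.exp (Hj i * L n)) * Real.exp (-(E + 1 + ∑ i, |Hj i| - 1) * L n) := by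
          refine mul_le_mul (Finset.prod_le_prod (fun _ _ => Nat.cast_nonneg _)
            fun i _ => h1 i) h2 (abs_nonneg _) (Finset.prod_nonneg fun _ _ => (Real.exp_pos _).le)
      _ = Real.exp ((∑ i, Hj i - (E + ∑ i, |Hj i|)) * L n) := by
          rw [← Real.exp_sum, ← Real.exp_add, ← Finset.sum_mul]
          ring_nf
      _ ≤ _ := by
          refine Real.exp_le_exp.2 ?_
          have h4 : ∑ i, Hj i ≤ ∑ i, |Hj i| := Finset.sum_le_sum fun i _ => le_abs_self _
          nlinarith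

end Pool.Agent.TH796.AL.Nv
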