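import Mathlib
import Pool.Agent.TH796.AL.Grp
import Pool.Agent.TH796.AL.Nv4

set_option autoImplicit false
set_option linter.unusedSectionVars false

/-!
# Project AL, part N: algebraic independence
-/

namespace Pool.Agent.TH796.AL.Ai

open Filter Topology Pool.Agent.TH932.Abs Pool.Agent.TH932.Germs Pool.Agent.TH932.Chi
open Pool.Agent.TH796.AL Pool.Agent.TH932.Words Pool.Agent.TH796.AL.Strong
open Pool.Agent.TH796.AL.Final Pool.Agent.TH796.AL.TwoB Pool.Agent.TH796.AL.Grp
open Pool.Agent.TH796.AL.Nv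

variable {m : ℕ} (B : Base m) {L : ℕ → ℝ} (hL : Tendsto L atTop atTop)

/-- the ring of represented numbers -/
def RV (V : Submodule ℝ (Fin m → ℝ)) : Subalgebra ℚ ℝ where
  carrier := {x | RepV B hL V x}
  mul_mem' := fun h1 h2 => repV_mul h1 h2
  add_mem' := fun h1 h2 => repV_add h1 h2
  algebraMap_mem' := fun q => by
    rw [eq_ratCast]
    exact repV_const B hL V q

/-- its field of fractions -/
noncomputable def FV (V : Submodule ℝ (Fin m → ℝ)) : Subfield ℝ := Subfield.closure (RV B hL V : Set ℝ)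

variable {B hL}

lemma mem_FV {V : Submodule ℝ (Fin m → ℝ)} {x : ℝ} (h : x ∈ FV B hL V) :
    ∃ p ∈ RV B hL V, ∃ q ∈ RV B hL V, q ≠ 0 ∧ q * x = p := by
  unfold FV at h
  rw [Subfield.mem_closure_iff] at h
  obtain ⟨y, hy, z, hz, h⟩ := h
  have e1 : Subring.closure (RV B hL V : Set ℝ) = (RV B hL V).toSubring :=
    Subring.closure_eq (RV B hL V).toSubring
  rw [e1] at hy hz
  by_cases hz0 : z = 0
  · refine ⟨0, Subalgebra.zero_mem _, 1, Subalgebra.one_mem _, one_ne_zero, ?_⟩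
    rw [← h, hz0, div_zero, mul_zero]
  · exact ⟨y, hy, z, hz, hz0, by rw [← h]; field_simp⟩

lemma FV_mono {V W : Submodule ℝ (Fin m → ℝ)} (h : V ≤ W) : FV B hL V ≤ FV B hL W :=
  Subfield.closure_mono fun _ hx => RepV.mono h hx

/-- common denominators -/
lemma common {V : Submodule ℝ (Fin m → ℝ)} {s : ℕ} {x : Fin s → ℝ} (hx : ∀ j, x j ∈ FV B hL V) :
    ∃ q : ℝ, q ≠ 0 ∧ ∀ j, RepV B hL V (q * x j) := by
  classical
  choose p hp q hq hq0 hqx using fun j => mem_FV (hx j)
  refine ⟨∏ j, q j, Finset.prod_ne_zero_iff.2 fun j _ => hq0 j, fun j => ?_⟩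
  have e1 : (∏ j, q j) * x j = p j * ∏ i ∈ Finset.univ.erase j, q i := by
    rw [← Finset.mul_prod_erase _ _ (Finset.mem_univ j), ← hqx j]
    ring
  rw [e1]
  exact (RV B hL V).mul_mem (hp j) ((RV B hL V).prod_mem fun i _ => hq i)

/-- the tensor theorem for the fields -/
theorem tf (ht : Tensor2Stmt) {V W : Submodule ℝ (Fin m → ℝ)} (hVW : Disjoint V W) {s : ℕ}
    (x y : Fin s → ℝ) (hx : ∀ j, x j ∈ FV B hL V) (hy : ∀ j, y j ∈ FV B hL W)
    (hsum : ∑ j, x j * y j = 0) (j0 : Fin s) (hj0 : y j0 ≠ 0) :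
    ∃ (H : ℝ) (c : Fin s → ℕ → ℤ), (∀ᶠ n in (UU : Filter ℕ), c j0 n ≠ 0) ∧
      (∀ j, ∀ᶠ n in (UU : Filter ℕ), |(c j n : ℝ)| ≤ Real.exp (H * L n)) ∧
      ∀ E : ℝ, ∀ᶠ n in (UU : Filter ℕ), |∑ j, (c j n : ℝ) * x j| ≤ Real.exp (-(E * L n)) := by
  obtain ⟨q, hq0, hq⟩ := common hx
  obtain ⟨q', hq0', hq'⟩ := common hy
  obtain ⟨H, c, h1, h2, h3⟩ := ht m B L hL V W hVW 1 s (fun _ j => q * x j) (fun j => q' * y j)
    (fun _ => hq) hq' (fun _ => by
      have e1 : ∀ j, q * x j * (q' * y j) = q * q' * (x j * y j) := fun j => by ring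
      simp only [e1]
      rw [← Finset.mul_sum, hsum, mul_zero]) j0 (mul_ne_zero hq0' hj0)
  refine ⟨H, c, h1, h2, fun E => ?_⟩
  have hqa : 0 < |q| := abs_pos.2 hq0
  filter_upwards [h3 (E + 1) 0, ev_of_atTop (hL.eventually_ge_atTop (-Real.log |q|))] with n h4 h5
  have e1 : ∑ j, (c j n : ℝ) * (q * x j) = q * ∑ j, (c j n : ℝ) * x j := by
    rw [Finset.mul_sum]
    exact Finset.sum_congr rfl fun j _ => by ring
  rw [e1, abs_mul] at h4
  have h6 : Real.exp (-L n) ≤ |q| := by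
    rw [← Real.exp_log hqa]
    exact Real.exp_le_exp.2 (by linarith)
  have h7 : Real.exp (-((E + 1) * L n)) = Real.exp (-L n) * Real.exp (-(E * L n)) := by
    rw [← Real.exp_add]
    ring_nf
  rw [h7] at h4
  have h8 : |q| * |∑ j, (c j n : ℝ) * x j| ≤ |q| * Real.exp (-(E * L n)) :=
    h4.trans (mul_le_mul_of_nonneg_right h6 (Real.exp_pos _).le)
  exact le_of_mul_le_mul_left h8 hqa

/-- one number in two fields -/
theorem two (ht : Tensor2Stmt) {V W : Submodule ℝ (Fin m → ℝ)} (hVW : Disjoint V W) {x : ℝ}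
    (hx : x ∈ FV B hL V) (hy : x ∈ FV B hL W) (hirr : Irrational x) : Liouville x := by
  obtain ⟨H, c, h1, h2, h3⟩ := tf ht hVW ![x, 1] ![1, -x] (by
      intro j
      fin_cases j
      · exact hx
      · exact (FV B hL V).one_mem) (by
      intro j
      fin_cases j
      · exact (FV B hL W).one_mem
      · exact (FV B hL W).neg_mem hy) (by simp [Fin.sum_univ_two]) 0 (by simp)
  refine liouville_of (H := H) hL (g := fun n => -(c 1 n : ℚ) / c 0 n) ?_ ?_ hirr
  · filter_upwards [h1, h2 0] with n h4 h5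
    refine le_trans ?_ h5
    have h6 : ((-(c 1 n : ℚ) / c 0 n).den : ℤ) ∣ c 0 n := by
      have : (-(c 1 n : ℚ) / c 0 n) = Rat.divInt (-c 1 n) (c 0 n) := by
        rw [Rat.divInt_eq_div]
        push_cast
        rfl
      rw [this]
      exact Rat.den_dvd _ _
    have h7 := Int.le_of_dvd (abs_pos.2 h4) ((dvd_abs _ _).2 h6)
    have h8 : (((-(c 1 n : ℚ) / c 0 n).den : ℤ) : ℝ) ≤ ((|c 0 n| : ℤ) : ℝ) := by exact_mod_cast h7
    rw [Int.cast_abs] at h8
    exact_mod_cast h8
  · intro E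
    filter_upwards [h1, h3 E] with n h4 h5
    have h6 : (1 : ℝ) ≤ |(c 0 n : ℝ)| := by
      rw [← Int.cast_abs]
      exact_mod_cast Int.one_le_abs h4
    have h4' : (c 0 n : ℝ) ≠ 0 := by exact_mod_cast h4
    have e1 : x - ((-(c 1 n : ℚ) / c 0 n : ℚ) : ℝ) = (c 0 n * x + c 1 n) / c 0 n := by
      push_cast
      field_simp
      ring
    rw [e1, abs_div]
    simp only [Fin.sum_univ_two, Matrix.cons_val_zero, Matrix.cons_val_one, mul_one] at h5
    exact (div_le_self (abs_nonneg _) h6).trans h5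

/-- irrational elements of the fields are transcendental -/
lemma transc {V : Submodule ℝ (Fin m → ℝ)} {x : ℝ} (hx : x ∈ FV B hL V) (hirr : Irrational x) :
    Transcendental ℚ x := by
  intro halg
  have h1 : x ∈ (algebraMap ℚ ℝ).fieldRange := by
    refine coreK B hL (σ := RV B hL V) (fun z => (z : ℝ)) (fun z => RepV.rep z.2) _ ?_ (y := x) ?_
      halg
    · rintro z ⟨q, rfl⟩
      exact isAlgebraic_algebraMap q
    · refine Subfield.closure_mono ?_ hx
      intro z hz
      exact Or.inr ⟨⟨z, hz⟩, rfl⟩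
  obtain ⟨q, hq⟩ := h1
  exact hirr ⟨q, by rw [← hq]; rfl⟩

/-! ## U-numbers -/

/-- the height of an integer polynomial -/
def height (P : Polynomial ℤ) : ℕ := P.support.sup fun i => (P.coeff i).natAbs

/-- U-numbers -/
def UNumber (x : ℝ) : Prop :=
  ∃ d : ℕ, ∀ w : ℕ, {P : Polynomial ℤ | P.natDegree ≤ d ∧ 0 < |Polynomial.aeval x P| ∧
    |Polynomial.aeval x P| * (height P : ℝ) ^ w ≤ 1}.Infinite

lemma unumber_of {x : ℝ} (hx : Transcendental ℚ x) {L : ℕ → ℝ} (hL : Tendsto L atTop atTop) {d : ℕ}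
    {H : ℝ} {c : Fin (d + 1) → ℕ → ℤ} (j0 : Fin (d + 1))
    (h1 : ∀ᶠ n in (UU : Filter ℕ), c j0 n ≠ 0)
    (h2 : ∀ j, ∀ᶠ n in (UU : Filter ℕ), |(c j n : ℝ)| ≤ Real.exp (H * L n))
    (h3 : ∀ E : ℝ, ∀ᶠ n in (UU : Filter ℕ),
      |∑ j, (c j n : ℝ) * x ^ (j : ℕ)| ≤ Real.exp (-(E * L n))) : UNumber x := by
  classical
  refine ⟨d, fun w hfin => ?_⟩
  set P : ℕ → Polynomial ℤ := fun n => ∑ j : Fin (d + 1), Polynomial.C (c j n) * Polynomial.X ^ (j : ℕ)
    with hP
  have hcoef : ∀ n i, (P n).coeff i = if h : i < d + 1 then c ⟨i, h⟩ n else 0 := by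
    intro n i
    rw [hP]
    simp only [Polynomial.finsetSum_coeff, Polynomial.coeff_C_mul, Polynomial.coeff_X_pow]
    by_cases h : i < d + 1
    · rw [dif_pos h, Finset.sum_eq_single ⟨i, h⟩]
      · simp
      · intro j _ hj
        have : i ≠ (j : ℕ) := fun h' => hj (Fin.ext h'.symm)
        simp [this]
      · intro h'; exact absurd (Finset.mem_univ _) h'
    · rw [dif_neg h]
      refine Finset.sum_eq_zero fun j _ => ?_
      have : i ≠ (j : ℕ) := by have := j.2; omega
      simp [this]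
  have hev : ∀ n, Polynomial.aeval x (P n) = ∑ j, (c j n : ℝ) * x ^ (j : ℕ) := by
    intro n
    rw [hP]
    simp only [map_sum, map_mul, map_pow, Polynomial.aeval_X, Polynomial.aeval_C]
    rfl
  -- small values
  have h4 : ∀ᶠ n in (UU : Filter ℕ), ∀ Q ∈ {P : Polynomial ℤ | P.natDegree ≤ d ∧
      0 < |Polynomial.aeval x P| ∧ |Polynomial.aeval x P| * (height P : ℝ) ^ w ≤ 1},
      Real.exp (-L n) < |Polynomial.aeval x Q| := by
    rw [Filter.eventually_all_finite hfin]
    rintro Q ⟨-, hQ, -⟩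
    apply ev_of_atTop
    have h5 : Tendsto (fun n => Real.exp (-L n)) atTop (𝓝 0) :=
      Real.tendsto_exp_atBot.comp (tendsto_neg_atTop_atBot.comp hL)
    exact h5.eventually (gt_mem_nhds hQ)
  have h2' : ∀ᶠ n in (UU : Filter ℕ), ∀ j, |(c j n : ℝ)| ≤ Real.exp (H * L n) := by
    rw [Filter.eventually_all]
    exact h2
  obtain ⟨n, g1, g2, g3, g4, g5⟩ := (h1.and (h2'.and ((h3 (w * |H| + 1)).and (h4.and
    (ev_of_atTop (hL.eventually_ge_atTop 0)))))).exists
  have hPne : P n ≠ 0 := by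
    intro h0
    have h5 := hcoef n j0
    rw [h0, Polynomial.coeff_zero, dif_pos j0.2] at h5
    exact g1 h5.symm
  have hne : Polynomial.aeval x (P n) ≠ 0 := by
    intro h0
    apply hx
    refine ⟨(P n).map (Int.castRingHom ℚ), ?_, ?_⟩
    · rw [Ne, Polynomial.map_eq_zero_iff (RingHom.injective_int _)]
      exact hPne
    · rw [Polynomial.aeval_def, Polynomial.eval₂_map]
      rw [Polynomial.aeval_def] at h0
      rw [← h0]
      congr 1
  have hH : (height (P n) : ℝ) ≤ Real.exp (|H| * L n) := by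
    have h5 : ∀ i ∈ (P n).support, (((P n).coeff i).natAbs : ℝ) ≤ Real.exp (|H| * L n) := by
      intro i hi
      rw [Nat.cast_natAbs, Int.cast_abs, hcoef]
      have h8 : Real.exp (H * L n) ≤ Real.exp (|H| * L n) := by
        have := le_abs_self H
        gcongr
      by_cases h6 : i < d + 1
      · rw [dif_pos h6]
        exact (g2 _).trans h8
      · rw [dif_neg h6]
        simp only [Int.cast_zero, abs_zero]
        positivity
    by_cases hs : (P n).support.Nonempty
    · obtain ⟨i, hi, h6⟩ := Finset.exists_mem_eq_sup _ hs (fun i => ((P n).coeff i).natAbs)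
      unfold height
      rw [h6]
      exact h5 i hi
    · rw [Finset.not_nonempty_iff_eq_empty] at hs
      unfold height
      rw [hs, Finset.sup_empty]
      simp only [Nat.bot_eq_zero, Nat.cast_zero]
      positivity
  rw [← hev] at g3
  have g6 := g4 (P n) ⟨?_, abs_pos.2 hne, ?_⟩
  · have h5 : Real.exp (-((w * |H| + 1) * L n)) ≤ Real.exp (-L n) := by
      refine Real.exp_le_exp.2 ?_
      have : 0 ≤ (w : ℝ) * |H| * L n := by positivity
      linarith
    exact absurd (g3.trans h5) (not_le.2 g6)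
  · rw [Polynomial.natDegree_le_iff_coeff_eq_zero]
    intro i hi
    rw [hcoef, dif_neg (by omega)]
  · calc |Polynomial.aeval x (P n)| * (height (P n) : ℝ) ^ w
        ≤ Real.exp (-((w * |H| + 1) * L n)) * Real.exp (|H| * L n) ^ w := by gcongr
      _ = Real.exp (-L n) := by
          rw [← Real.exp_nat_mul, ← Real.exp_add]
          ring_nf
      _ ≤ 1 := by
          rw [Real.exp_le_one_iff]
          linarith

/-! ## algebraic independence -/

lemma aeval_succ {r : ℕ} (x : Fin (r + 1) → ℝ) (P : MvPolynomial (Fin (r + 1)) ℚ) :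
    MvPolynomial.aeval x P = Polynomial.eval₂
      ((MvPolynomial.aeval fun i => x (Fin.succ i) : MvPolynomial (Fin r) ℚ →ₐ[ℚ] ℝ) :
        MvPolynomial (Fin r) ℚ →+* ℝ) (x 0) (MvPolynomial.finSuccEquiv ℚ r P) := by
  induction P using MvPolynomial.induction_on with
  | C a =>
    rw [MvPolynomial.finSuccEquiv_apply]
    simp
  | add p q hp hq => rw [map_add, map_add, Polynomial.eval₂_add, hp, hq]
  | mul_X p i hp =>
    rw [map_mul, map_mul, Polynomial.eval₂_mul, hp, MvPolynomial.aeval_X]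
    congr 1
    refine Fin.cases ?_ (fun j => ?_) i
    · rw [MvPolynomial.finSuccEquiv_X_zero, Polynomial.eval₂_X]
    · rw [MvPolynomial.finSuccEquiv_X_succ, Polynomial.eval₂_C]
      simp

lemma aeval_mem (F : Subfield ℝ) {r : ℕ} {x : Fin r → ℝ} (hx : ∀ i, x i ∈ F)
    (P : MvPolynomial (Fin r) ℚ) : MvPolynomial.aeval x P ∈ F := by
  induction P using MvPolynomial.induction_on with
  | C a =>
    rw [MvPolynomial.aeval_C, eq_ratCast]
    exact SubfieldClass.ratCast_mem F a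
  | add p q hp hq => rw [map_add]; exact F.add_mem hp hq
  | mul_X p i hp =>
    rw [map_mul, MvPolynomial.aeval_X]
    exact F.mul_mem hp (hx i)

theorem ai (ht : Tensor2Stmt) : ∀ (r : ℕ) (V : Fin r → Submodule ℝ (Fin m → ℝ)) (_ : iSupIndep V)
    (x : Fin r → ℝ) (_ : ∀ i, x i ∈ FV B hL (V i)) (_ : ∀ i, Irrational (x i))
    (P : MvPolynomial (Fin r) ℚ) (_ : P ≠ 0) (_ : MvPolynomial.aeval x P = 0),
    ∃ i, UNumber (x i) := by
  intro r
  induction r with
  | zero =>
    intro V _ x _ _ P hP h0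
    exfalso
    apply hP
    rw [MvPolynomial.eq_C_of_isEmpty P] at h0 ⊢
    rw [MvPolynomial.aeval_C, eq_ratCast, Rat.cast_eq_zero] at h0
    rw [h0, map_zero]
  | succ r ih =>
    intro V hV x hx hirr P hP h0
    set Q := MvPolynomial.finSuccEquiv ℚ r P with hQ
    have hQ0 : Q ≠ 0 := by
      rw [hQ]
      exact (map_ne_zero_iff _ (MvPolynomial.finSuccEquiv ℚ r).injective).2 hP
    by_cases hall : ∃ j : Fin (Q.natDegree + 1),
        MvPolynomial.aeval (fun i : Fin r => x (Fin.succ i)) (Q.coeff j) ≠ 0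
    · obtain ⟨j0, hj0⟩ := hall
      have hdis : Disjoint (V 0) (⨆ i : Fin r, V (Fin.succ i)) :=
        (hV 0).mono_right (iSup_le fun j => le_iSup₂_of_le (Fin.succ j) (Fin.succ_ne_zero j) le_rfl)
      obtain ⟨H, c, h1, h2, h3⟩ := tf (B := B) (hL := hL) ht hdis
        (fun j : Fin (Q.natDegree + 1) => x 0 ^ (j : ℕ))
        (fun j => MvPolynomial.aeval (fun i : Fin r => x (Fin.succ i)) (Q.coeff j))
        (fun j => (FV B hL (V 0)).pow_mem (hx 0) _)
        (fun j => aeval_mem _ (fun i => FV_mono (le_iSup (fun i : Fin r => V (Fin.succ i)) i)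
          (hx (Fin.succ i))) _)
        (by
          rw [aeval_succ, ← hQ, Polynomial.eval₂_eq_sum_range, Finset.sum_range] at h0
          rw [← h0]
          exact Finset.sum_congr rfl fun j _ => mul_comm _ _) j0 hj0
      exact ⟨0, unumber_of (transc (hx 0) (hirr 0)) hL j0 h1 h2 h3⟩
    · push Not at hall
      obtain ⟨i, hi⟩ := ih (fun i => V (Fin.succ i)) (hV.comp (Fin.succ_injective r))
        (fun i => x (Fin.succ i)) (fun i => hx _) (fun i => hirr _) Q.leadingCoeff
        (Polynomial.leadingCoeff_ne_zero.2 hQ0) (hall (Fin.last _))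
      exact ⟨Fin.succ i, hi⟩

end Pool.Agent.TH796.AL.Ai
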