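import Mathlib
import Pool.Agent.TH796.AL.Ai
import Pool.Agent.TH979.ALN_INDEP
import Pool.Agent.TH456.TM.E

set_option autoImplicit false
set_option linter.unusedSectionVars false

/-!
# Project AL, part N: the final forms
-/

namespace Pool.Agent.TH796.AL.Ai

open Filter Topology Pool.Agent.TH932.Abs Pool.Agent.TH932.Germs Pool.Agent.TH932.Chi
open Pool.Agent.TH796.AL Pool.Agent.TH932.Words Pool.Agent.TH796.AL.Strong
open Pool.Agent.TH796.AL.Final Pool.Agent.TH796.AL.TwoB Pool.Agent.TH796.AL.Grp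
open Pool.Agent.TH796.AL.Nv

theorem tensor2_thm : Tensor2Stmt := tensor2 kpa_thm su_thm Pool.Agent.TH979.ALN.indep

/-- the field generated by the series with ratios in `Γ` and linear complexity along `S` -/
noncomputable def Fl (S : Set ℕ) (Γ : Subgroup ℚˣ) : Subfield ℝ :=
  Subfield.closure {x | Gen S Γ x}

/-- elements of the fields as quotients -/
lemma mem_Fl {S : Set ℕ} {Γ : Subgroup ℚˣ} {x : ℝ} (h : x ∈ Fl S Γ) :
    ∃ p ∈ Algebra.adjoin ℚ {x | Gen S Γ x}, ∃ q ∈ Algebra.adjoin ℚ {x | Gen S Γ x},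
      q ≠ 0 ∧ q * x = p := by
  unfold Fl at h
  rw [Subfield.mem_closure_iff] at h
  obtain ⟨y, hy, z, hz, h⟩ := h
  have hle : Subring.closure {x | Gen S Γ x} ≤ (Algebra.adjoin ℚ {x | Gen S Γ x}).toSubring :=
    Subring.closure_le.2 Algebra.subset_adjoin
  by_cases hz0 : z = 0
  · refine ⟨0, Subalgebra.zero_mem _, 1, Subalgebra.one_mem _, one_ne_zero, ?_⟩
    rw [← h, hz0, div_zero, mul_zero]
  · exact ⟨y, hle hy, z, hle hz, hz0, by rw [← h]; field_simp⟩

/-- simultaneous representation -/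
theorem ifield {ι : Type} [Finite ι] (Γ : ι → Subgroup ℚˣ) {S : Set ℕ} (hS : S.Infinite)
    (x : ι → ℝ) (hx : ∀ i, x i ∈ Fl S (Γ i)) :
    ∃ (m : ℕ) (B : Base m) (L : ℕ → ℝ) (hL : Tendsto L atTop atTop),
      ∀ i, x i ∈ FV B hL (VS B (Γ i)) := by
  choose p hp q hq hq0 hqx using fun i => mem_Fl (hx i)
  obtain ⟨m, B, L, hL, h⟩ := iface (ι := ι ⊕ ι) (Sum.elim Γ Γ) hS (Sum.elim p q) (by
    rintro (i | i)
    · exact hp i
    · exact hq i)
  refine ⟨m, B, L, hL, fun i => ?_⟩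
  have h1 : p i ∈ FV B hL (VS B (Γ i)) := Subfield.subset_closure (h (Sum.inl i))
  have h2 : q i ∈ FV B hL (VS B (Γ i)) := Subfield.subset_closure (h (Sum.inr i))
  have e1 : x i = p i / q i := by
    rw [← hqx i, mul_div_cancel_left₀ _ (hq0 i)]
  rw [e1]
  exact (FV B hL _).div_mem h1 h2

/-- independent groups -/
def GIndep {ι : Type} [Fintype ι] (Γ : ι → Subgroup ℚˣ) : Prop :=
  ∀ g : ι → ℚˣ, (∀ i, g i ∈ Γ i) → ∏ i, g i = 1 → ∀ i, g i = 1

lemma gindep {ι : Type} [Fintype ι] {Γ : ι → Subgroup ℚˣ} (h : GIndep Γ) (i : ι) :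
    Γ i ⊓ (⨆ j : ι, ⨆ (_ : j ≠ i), Γ j) = ⊥ := by
  classical
  rw [eq_bot_iff]
  rintro u ⟨hu, hu'⟩
  -- products
  let K : Subgroup ℚˣ :=
    { carrier := {u | ∃ g : ι → ℚˣ, (∀ j, g j ∈ Γ j) ∧ g i = 1 ∧ ∏ j, g j = u}
      mul_mem' := by
        rintro a b ⟨g, h1, h2, h3⟩ ⟨g', h1', h2', h3'⟩
        refine ⟨g * g', fun j => (Γ j).mul_mem (h1 j) (h1' j), ?_, ?_⟩
        · rw [Pi.mul_apply, h2, h2', one_mul]
        · simp only [Pi.mul_apply, Finset.prod_mul_distrib]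
          rw [h3, h3']
      one_mem' := ⟨1, fun j => (Γ j).one_mem, rfl, by simp⟩
      inv_mem' := by
        rintro a ⟨g, h1, h2, h3⟩
        refine ⟨g⁻¹, fun j => (Γ j).inv_mem (h1 j), ?_, ?_⟩
        · rw [Pi.inv_apply, h2, inv_one]
        · simp only [Pi.inv_apply, Finset.prod_inv_distrib]
          rw [h3] }
  have hle : (⨆ j : ι, ⨆ (_ : j ≠ i), Γ j) ≤ K := by
    refine iSup₂_le fun j hj u hu => ⟨fun l => if l = j then u else 1, fun l => ?_, ?_, ?_⟩
    · simp only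
      by_cases hl : l = j
      · rw [if_pos hl, hl]; exact hu
      · rw [if_neg hl]; exact (Γ l).one_mem
    · simp only
      rw [if_neg hj.symm]
    · rw [Finset.prod_ite_eq' Finset.univ j (fun _ => u), if_pos (Finset.mem_univ _)]
  obtain ⟨g, h1, h2, h3⟩ := hle hu'
  have h4 := h (fun j => if j = i then u⁻¹ else g j) (fun j => by
    by_cases hj : j = i
    · simp only [hj, if_true]; exact (Γ i).inv_mem hu
    · simp only [if_neg hj]; exact h1 j) (by
    rw [← Finset.mul_prod_erase _ _ (Finset.mem_univ i)] at h3 ⊢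
    rw [if_pos rfl]
    rw [h2, one_mul] at h3
    have e1 : ∏ x ∈ Finset.univ.erase i, (if x = i then u⁻¹ else g x)
        = ∏ x ∈ Finset.univ.erase i, g x :=
      Finset.prod_congr rfl fun x hx => if_neg (Finset.ne_of_mem_erase hx)
    rw [e1, h3, inv_mul_cancel]) i
  simp only [if_true] at h4
  rw [Subgroup.mem_bot]
  exact inv_eq_one.1 h4

lemma vindep {m : ℕ} (B : Base m) {ι : Type} [Fintype ι] {Γ : ι → Subgroup ℚˣ} (h : GIndep Γ) :
    iSupIndep fun i => VS B (Γ i) := by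
  intro i
  refine (disj B (gindep h i)).mono_right ?_
  exact iSup₂_le fun j hj => VS_mono B (le_iSup₂_of_le j hj le_rfl)

/-- **Algebraic independence.** -/
theorem indep_thm {r : ℕ} {Γ : Fin r → Subgroup ℚˣ} (hΓ : GIndep Γ) {S : Set ℕ} (hS : S.Infinite)
    (x : Fin r → ℝ) (hx : ∀ i, x i ∈ Fl S (Γ i)) (hirr : ∀ i, Irrational (x i))
    (hdep : ¬ AlgebraicIndependent ℚ x) : ∃ i, UNumber (x i) := by
  obtain ⟨m, B, L, hL, h⟩ := ifield Γ hS x hx
  rw [algebraicIndependent_iff] at hdep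
  push Not at hdep
  obtain ⟨P, hP0, hP⟩ := hdep
  exact ai (B := B) (hL := hL) tensor2_thm r _ (vindep B hΓ) x h hirr P hP hP0

/-- **One number, two independent groups.** -/
theorem two_thm {Γ Δ : Subgroup ℚˣ} (h : Γ ⊓ Δ = ⊥) {S : Set ℕ} (hS : S.Infinite) {x : ℝ}
    (hx : x ∈ Fl S Γ) (hy : x ∈ Fl S Δ) (hirr : Irrational x) : Liouville x := by
  obtain ⟨m, B, L, hL, h1⟩ := ifield ![Γ, Δ] hS ![x, x] (by
    intro i
    fin_cases i
    · exact hx
    · exact hy)
  exact two (B := B) (hL := hL) tensor2_thm (disj B h) (h1 0) (h1 1) hirr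

/-- elements of the fields are transcendental -/
theorem transc_thm {Γ : Subgroup ℚˣ} {S : Set ℕ} (hS : S.Infinite) {x : ℝ} (hx : x ∈ Fl S Γ)
    (hirr : Irrational x) : Transcendental ℚ x := by
  obtain ⟨m, B, L, hL, h1⟩ := ifield (fun _ : Unit => Γ) hS (fun _ => x) (fun _ => hx)
  exact transc (h1 ()) hirr

/-! ## numbers with a transcendence measure -/

open Polynomial in
lemma finite_polys (d M : ℕ) : {P : ℤ[X] | P.natDegree ≤ d ∧ height P ≤ M}.Finite := by
  classical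
  have h1 : (Set.pi Set.univ fun _ : Fin (d + 1) => Set.Icc (-(M : ℤ)) M).Finite :=
    Set.Finite.pi fun _ => Set.finite_Icc _ _
  refine (h1.image fun c : Fin (d + 1) → ℤ => ∑ j : Fin (d + 1), C (c j) * X ^ (j : ℕ)).subset ?_
  rintro P ⟨hP, hM⟩
  refine ⟨fun j => P.coeff j, fun j _ => ?_, ?_⟩
  · have h2 : (P.coeff j).natAbs ≤ M := by
      by_cases h0 : P.coeff j = 0
      · rw [h0]; simp
      · exact (Finset.le_sup (f := fun i => (P.coeff i).natAbs) (Polynomial.mem_support_iff.2 h0)).trans hM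
    change -(M : ℤ) ≤ P.coeff j ∧ P.coeff j ≤ M
    omega
  · simp only
    rw [Finset.sum_range (fun j => C (P.coeff j) * X ^ j) |>.symm]
    exact (P.as_sum_range_C_mul_X_pow' (by omega)).symm

open Polynomial in
lemma not_unumber {x : ℝ} (hx : Pool.Agent.TH456.TM.MeasT (x : ℂ)) : ¬ UNumber x := by
  rintro ⟨d, hd⟩
  obtain ⟨κ, c, hκ, hc, h⟩ := hx d
  obtain ⟨w, hw⟩ := exists_nat_ge (κ + 1)
  obtain ⟨M, hM⟩ := exists_nat_ge (1 / c)
  refine hd w ((finite_polys d M).subset ?_)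
  rintro P ⟨hP1, hP2, hP3⟩
  refine ⟨hP1, ?_⟩
  have hP0 : P ≠ 0 := by
    rintro rfl
    simp at hP2
  have hH : ∀ j, |(P.coeff j : ℝ)| ≤ height P := by
    intro j
    by_cases h0 : P.coeff j = 0
    · rw [h0]; simp
    · have h2 := Finset.le_sup (f := fun i => (P.coeff i).natAbs)
        (Polynomial.mem_support_iff.2 h0)
      have h3 : ((P.coeff j).natAbs : ℝ) ≤ height P := by exact_mod_cast h2
      rwa [Nat.cast_natAbs, Int.cast_abs] at h3
  have hH1 : (1 : ℝ) ≤ height P := by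
    have h2 := hH P.natDegree
    have h3 : P.coeff P.natDegree ≠ 0 := Polynomial.leadingCoeff_ne_zero.2 hP0
    have h4 : (1 : ℝ) ≤ |(P.coeff P.natDegree : ℝ)| := by
      rw [← Int.cast_abs]
      exact_mod_cast Int.one_le_abs h3
    linarith
  have h2 := h P hP0 hP1 (height P) hH1 hH
  rw [← Pool.Agent.TH456.TM.abs_aeval] at h2
  have h3 : (height P : ℝ) ^ κ * (height P : ℝ) ≤ (height P : ℝ) ^ w := by
    rw [← Real.rpow_natCast (height P : ℝ) w, ← Real.rpow_add_one (by linarith)]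
    exact Real.rpow_le_rpow_of_exponent_le hH1 hw
  have h4 : c * height P ≤ 1 := by
    calc c * height P ≤ ((height P : ℝ) ^ κ * |aeval x P|) * height P := by gcongr
      _ = |aeval x P| * ((height P : ℝ) ^ κ * height P) := by ring
      _ ≤ |aeval x P| * (height P : ℝ) ^ w := by gcongr
      _ ≤ 1 := hP3
  have h5 : (height P : ℝ) ≤ M := by
    refine le_trans ?_ hM
    rw [le_div_iff₀ hc]
    linarith
  exact_mod_cast h5

/-- `t` is algebraic over `ℤ[z]`, or equivalently over `ℚ(z)` -/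
def AlgOver (z t : ℝ) : Prop := IsAlgebraic (Algebra.adjoin ℤ ({z} : Set ℝ)) t

/-- two numbers algebraic over `ℚ(z)` are algebraically dependent -/
lemma dep_of_alg {z x y : ℝ} (hx : AlgOver z x) (hy : AlgOver z y) :
    ¬ AlgebraicIndependent ℚ ![x, y] := by
  intro h0
  have h : AlgebraicIndependent ℤ ![x, y] :=
    h0.restrictScalars (FaithfulSMul.algebraMap_injective ℤ ℚ)
  have h1 := h.coe_range
  have h2 : (AlgebraicIndependent.matroid ℤ ℝ).Indep (Set.range ![x, y]) :=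
    AlgebraicIndependent.matroid_indep_iff.2 h1
  have h3 : Set.range ![x, y] ⊆ (AlgebraicIndependent.matroid ℤ ℝ).closure {z} := by
    rw [AlgebraicIndependent.matroid_closure_eq]
    rintro _ ⟨i, rfl⟩
    fin_cases i
    · exact hx
    · exact hy
  have h4 : (Set.range ![x, y]).encard ≤ 1 := by
    rw [← h2.eRk_eq_encard]
    calc (AlgebraicIndependent.matroid ℤ ℝ).eRk (Set.range ![x, y])
        ≤ (AlgebraicIndependent.matroid ℤ ℝ).eRk ((AlgebraicIndependent.matroid ℤ ℝ).closure {z}) :=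
          (AlgebraicIndependent.matroid ℤ ℝ).eRk_mono h3
      _ = (AlgebraicIndependent.matroid ℤ ℝ).eRk {z} := Matroid.eRk_closure_eq _ _
      _ ≤ ({z} : Set ℝ).encard := Matroid.eRk_le_encard _ _
      _ = 1 := Set.encard_singleton z
  have h5 := Set.encard_le_one_iff.1 h4 x y ⟨0, rfl⟩ ⟨1, rfl⟩
  have h6 := h.injective (a₁ := 0) (a₂ := 1) h5
  exact absurd h6 (by decide)

lemma to_complex {z t : ℝ} (h : AlgOver z t) :
    IsAlgebraic (Algebra.adjoin ℤ ({(z : ℂ)} : Set ℂ)) (t : ℂ) := by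
  set φ : ℝ →ₐ[ℤ] ℂ := Complex.ofRealHom.toIntAlgHom with hφ
  have hφv : ∀ a : ℝ, φ a = (a : ℂ) := fun a => rfl
  have hmem : ∀ a : Algebra.adjoin ℤ ({z} : Set ℝ),
      (φ.comp (Algebra.adjoin ℤ ({z} : Set ℝ)).val) a ∈ Algebra.adjoin ℤ ({(z : ℂ)} : Set ℂ) := by
    intro a
    have h1 := AlgHom.map_adjoin φ ({z} : Set ℝ)
    rw [Set.image_singleton, hφv] at h1
    rw [← h1]
    exact ⟨a, a.2, rfl⟩
  refine IsAlgebraic.ringHom_of_comp_eq (R := Algebra.adjoin ℤ ({z} : Set ℝ))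
    (((φ.comp (Algebra.adjoin ℤ ({z} : Set ℝ)).val).codRestrict _ hmem) :
      Algebra.adjoin ℤ ({z} : Set ℝ) →+* Algebra.adjoin ℤ ({(z : ℂ)} : Set ℂ))
    (Complex.ofRealHom : ℝ →+* ℂ) h ?_ ?_
  · intro a b hab
    have h1 := congrArg (fun v : Algebra.adjoin ℤ ({(z : ℂ)} : Set ℂ) => (v : ℂ)) hab
    exact Subtype.ext (Complex.ofReal_injective h1)
  · ext a
    rfl

lemma transc_complex {t : ℝ} (h : Transcendental ℚ t) : Transcendental ℤ (t : ℂ) := by
  intro h1
  apply h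
  have h2 : IsAlgebraic ℚ (t : ℂ) := (IsFractionRing.isAlgebraic_iff ℤ ℚ ℂ).1 h1
  exact (isAlgebraic_algebraMap_iff (R := ℚ) (S := ℝ) (A := ℂ) Complex.ofReal_injective).1 h2

lemma gindep_pair {Γ Δ : Subgroup ℚˣ} (h : Γ ⊓ Δ = ⊥) : GIndep ![Γ, Δ] := by
  intro g hg hprod
  have h0 : g 0 ∈ Γ := hg 0
  have h1 : g 1 ∈ Δ := hg 1
  rw [Fin.prod_univ_two] at hprod
  have e1 : g 0 = (g 1)⁻¹ := eq_inv_of_mul_eq_one_left hprod
  have h2 : g 0 ∈ Γ ⊓ Δ := ⟨h0, by rw [e1]; exact Δ.inv_mem h1⟩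
  rw [h, Subgroup.mem_bot] at h2
  have h3 : g 1 = 1 := by
    rw [h2] at e1
    exact inv_eq_one.1 e1.symm
  intro i
  fin_cases i
  · exact h2
  · exact h3

/-- **Numbers with a transcendence measure.** -/
theorem meas_thm {Γ Δ : Subgroup ℚˣ} (h : Γ ⊓ Δ = ⊥) {S : Set ℕ} (hS : S.Infinite) {z : ℝ}
    (hz : Pool.Agent.TH456.TM.MeasT (z : ℂ)) {x y : ℝ} (hxz : AlgOver z x) (hyz : AlgOver z y)
    (hx : x ∈ Fl S Γ) (hy : y ∈ Fl S Δ) (hxi : Irrational x) (hyi : Irrational y) : False := by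
  obtain ⟨i, hi⟩ := indep_thm (gindep_pair h) hS ![x, y] (by
      intro i
      fin_cases i
      · exact hx
      · exact hy) (by
      intro i
      fin_cases i
      · exact hxi
      · exact hyi) (dep_of_alg hxz hyz)
  have key : ∀ t : ℝ, AlgOver z t → Transcendental ℚ t → UNumber t → False := by
    intro t ht htr hU
    exact not_unumber (Pool.Agent.TH456.TM.measT_of_isAlgebraic hz (t : ℂ) (to_complex ht)
      (transc_complex htr)) hU
  revert hi
  fin_cases i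
  · exact key x hxz (transc_thm hS hx hxi)
  · exact key y hyz (transc_thm hS hy hyi)

end Pool.Agent.TH796.AL.Ai
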