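import Mathlib
import Pool.Agent.TH796.AL.Ai2

set_option autoImplicit false
set_option linter.unusedSectionVars false

/-!
# Project AL, part N: digits
-/

namespace Pool.Agent.TH796.AL.Ai

open Filter Topology
open Pool.Agent.TH796.AL Pool.Agent.TH932.Words Pool.Agent.TH796.AL.Strong
open Pool.Agent.TH796.AL.Final Pool.Agent.TH796.AL.TwoB Pool.Agent.TH796.AL.Grp

/-- the group generated by a set of bases -/
def GA (A : Set ℕ) : Subgroup ℚˣ := Subgroup.closure {u | ∃ b ∈ A, ((u : ℚˣ) : ℚ) = b}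

lemma mem_GA {A : Set ℕ} {b : ℕ} (hb : 2 ≤ b) (hbA : b ∈ A) : ∃ u ∈ GA A, ((u : ℚˣ) : ℚ) = b := by
  have h0 : (b : ℚ) ≠ 0 := by exact_mod_cast (by omega : b ≠ 0)
  exact ⟨Units.mk0 (b : ℚ) h0, Subgroup.subset_closure ⟨b, hbA, rfl⟩, rfl⟩

/-- numbers with linear complexity along `S` in some base in `A` -/
def SA (S A : Set ℕ) : Set ℝ :=
  {x | ∃ b ∈ A, ∃ C : ℝ, ∀ n ∈ S, (complexity (digit b x) n : ℝ) ≤ C * n}

lemma SA_sub {S A : Set ℕ} (hA : ∀ b ∈ A, 2 ≤ b) :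
    SA S A ⊆ (Algebra.adjoin ℚ {x | Gen S (GA A) x} : Set ℝ) := by
  rintro x ⟨b, hb, C, hC⟩
  exact gen_digits (hA b hb) (mem_GA (hA b hb) hb) hC

lemma adjoin_sub_Fl (S : Set ℕ) (Γ : Subgroup ℚˣ) :
    (Algebra.adjoin ℚ {x | Gen S Γ x} : Set ℝ) ⊆ Fl S Γ := by
  intro x hx
  induction hx using Algebra.adjoin_induction with
  | mem x hx => exact Subfield.subset_closure hx
  | algebraMap r =>
    rw [eq_ratCast]
    exact SubfieldClass.ratCast_mem _ r
  | add x y _ _ h1 h2 => exact (Fl S Γ).add_mem h1 h2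
  | mul x y _ _ h1 h2 => exact (Fl S Γ).mul_mem h1 h2

lemma SF_le {S A : Set ℕ} (hA : ∀ b ∈ A, 2 ≤ b) : Subfield.closure (SA S A) ≤ Fl S (GA A) :=
  Subfield.closure_le.2 ((SA_sub hA).trans (adjoin_sub_Fl S (GA A)))

lemma pow_cases {a b : ℕ} (ha : 2 ≤ a) (hb : 2 ≤ b) (h : Indep a b) {k l : ℤ}
    (hkl : (a : ℚ) ^ k = (b : ℚ) ^ l) (hk : 0 ≤ k) : k = 0 := by
  have ha1 : (1 : ℚ) < a := by exact_mod_cast (by omega : 1 < a)
  have hb1 : (1 : ℚ) < b := by exact_mod_cast (by omega : 1 < b)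
  obtain ⟨k, rfl⟩ := Int.eq_ofNat_of_zero_le hk
  rcases le_total 0 l with hl | hl
  · obtain ⟨l, rfl⟩ := Int.eq_ofNat_of_zero_le hl
    have h1 : a ^ k = b ^ l := by
      have : (a : ℚ) ^ k = (b : ℚ) ^ l := by
        rw [← zpow_natCast, ← zpow_natCast]
        exact hkl
      exact_mod_cast this
    exact_mod_cast (h k l h1).1
  · have h1 : (b : ℚ) ^ l ≤ 1 := zpow_le_one_of_nonpos₀ hb1.le hl
    by_contra hk0
    have h2 : (1 : ℚ) < (a : ℚ) ^ (k : ℤ) := one_lt_zpow₀ ha1 (by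
      have : (k : ℤ) ≠ 0 := by exact_mod_cast hk0
      omega)
    linarith

lemma group_inf {a b : ℕ} (ha : 2 ≤ a) (hb : 2 ≤ b) (h : Indep a b) : GA {a} ⊓ GA {b} = ⊥ := by
  have key : ∀ c : ℕ, 2 ≤ c → ∀ u ∈ GA {c}, ∃ k : ℤ, ((u : ℚˣ) : ℚ) = (c : ℚ) ^ k := by
    intro c hc u hu
    have h0 : (c : ℚ) ≠ 0 := by exact_mod_cast (by omega : c ≠ 0)
    have e1 : {u : ℚˣ | ∃ b ∈ ({c} : Set ℕ), ((u : ℚˣ) : ℚ) = b} = {Units.mk0 (c : ℚ) h0} := by
      ext v
      simp only [Set.mem_singleton_iff, exists_eq_left]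
      constructor
      · intro hv
        exact Units.ext hv
      · rintro rfl
        rfl
    unfold GA at hu
    rw [e1, Subgroup.mem_closure_singleton] at hu
    obtain ⟨k, hk⟩ := hu
    refine ⟨k, ?_⟩
    rw [← hk, Units.val_zpow_eq_zpow_val, Units.val_mk0]
  rw [eq_bot_iff]
  rintro u ⟨hu, hu'⟩
  obtain ⟨k, hk⟩ := key a ha u hu
  obtain ⟨l, hl⟩ := key b hb u hu'
  have h1 : (a : ℚ) ^ k = (b : ℚ) ^ l := by rw [← hk, hl]
  have h2 : k = 0 := by
    rcases le_total 0 k with h3 | h3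
    · exact pow_cases ha hb h h1 h3
    · have h4 : (a : ℚ) ^ (-k) = (b : ℚ) ^ (-l) := by rw [zpow_neg, zpow_neg, h1]
      have := pow_cases ha hb h h4 (by omega)
      omega
  rw [Subgroup.mem_bot]
  apply Units.ext
  rw [hk, h2, zpow_zero, Units.val_one]

/-- digits of one number in two bases -/
theorem digits_two {a b : ℕ} (ha : 2 ≤ a) (hb : 2 ≤ b) (h : Indep a b) {x : ℝ}
    (hx : Irrational x) (hL : ¬ Liouville x) (C : ℝ) : ∃ n₀ : ℕ, ∀ n ≥ n₀,
      C * n < complexity (digit a x) n ∨ C * n < complexity (digit b x) n := by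
  by_contra hcon
  push Not at hcon
  set S : Set ℕ := {n | (complexity (digit a x) n : ℝ) ≤ C * n ∧
    (complexity (digit b x) n : ℝ) ≤ C * n} with hS
  have hinf : S.Infinite := by
    rw [Set.infinite_iff_exists_gt]
    intro n₀
    obtain ⟨n, h1, h2⟩ := hcon (n₀ + 1)
    exact ⟨n, h2, by omega⟩
  refine hL (two_thm (group_inf ha hb h) hinf ?_ ?_ hx)
  · exact SF_le (by simpa using ha) (Subfield.subset_closure ⟨a, rfl, C, fun n hn => hn.1⟩)
  · exact SF_le (by simpa using hb) (Subfield.subset_closure ⟨b, rfl, C, fun n hn => hn.2⟩)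

/-- digits of two numbers algebraic over `ℚ(z)` -/
theorem digits_meas {z : ℝ} (hz : Pool.Agent.TH456.TM.MeasT (z : ℂ)) {a b : ℕ} (ha : 2 ≤ a)
    (hb : 2 ≤ b) (h : Indep a b) {x y : ℝ} (hxz : AlgOver z x) (hyz : AlgOver z y)
    (hx : Irrational x) (hy : Irrational y) (C : ℝ) : ∃ n₀ : ℕ, ∀ n ≥ n₀,
      C * n < complexity (digit a x) n ∨ C * n < complexity (digit b y) n := by
  by_contra hcon
  push Not at hcon
  set S : Set ℕ := {n | (complexity (digit a x) n : ℝ) ≤ C * n ∧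
    (complexity (digit b y) n : ℝ) ≤ C * n} with hS
  have hinf : S.Infinite := by
    rw [Set.infinite_iff_exists_gt]
    intro n₀
    obtain ⟨n, h1, h2⟩ := hcon (n₀ + 1)
    exact ⟨n, h2, by omega⟩
  refine meas_thm (group_inf ha hb h) hinf hz hxz hyz ?_ ?_ hx hy
  · exact SF_le (by simpa using ha) (Subfield.subset_closure ⟨a, rfl, C, fun n hn => hn.1⟩)
  · exact SF_le (by simpa using hb) (Subfield.subset_closure ⟨b, rfl, C, fun n hn => hn.2⟩)

/-- fields for two sets of bases -/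
theorem fields_meas {z : ℝ} (hz : Pool.Agent.TH456.TM.MeasT (z : ℂ)) {A B : Set ℕ}
    (hA : ∀ b ∈ A, 2 ≤ b) (hB : ∀ b ∈ B, 2 ≤ b) (h : GA A ⊓ GA B = ⊥) {S : Set ℕ}
    (hS : S.Infinite) {x y : ℝ} (hxz : AlgOver z x) (hyz : AlgOver z y)
    (hx : Irrational x) (hy : Irrational y) (h1 : x ∈ Subfield.closure (SA S A)) :
    y ∉ Subfield.closure (SA S B) := fun h2 =>
  meas_thm h hS hz hxz hyz (SF_le hA h1) (SF_le hB h2) hx hy

lemma GA_singleton_comm {a b : ℕ} (h : Indep a b) : Indep b a := fun k l hkl => by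
  have := h l k hkl.symm
  exact ⟨this.2, this.1⟩

/-- at most one exceptional class of bases -/
theorem exceptional {z : ℝ} (hz : Pool.Agent.TH456.TM.MeasT (z : ℂ)) {S : Set ℕ}
    (hS : S.Infinite) : ∃ c : ℕ, 2 ≤ c ∧ ∀ b : ℕ, 2 ≤ b → Indep b c → ∀ x : ℝ, Irrational x →
      AlgOver z x → x ∉ Subfield.closure (SA S {b}) := by
  by_cases hex : ∃ c : ℕ, 2 ≤ c ∧ ∃ x : ℝ, Irrational x ∧ AlgOver z x ∧
      x ∈ Subfield.closure (SA S {c})
  · obtain ⟨c, hc, y, hy, hyz, hyc⟩ := hex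
    refine ⟨c, hc, fun b hb hbc x hx hxz hxb => ?_⟩
    exact fields_meas hz (A := {b}) (B := {c}) (by simpa using hb) (by simpa using hc)
      (group_inf hb hc hbc) hS hxz hyz hx hy hxb hyc
  · push Not at hex
    exact ⟨2, le_rfl, fun b hb _ x hx hxz => hex b hb x hx hxz⟩

theorem measT_of {z : ℝ} (h : z = Real.exp 1 ∨ z = Real.pi ∨ ∃ q : ℚ, 0 < q ∧ q ≠ 1 ∧ z = Real.log q) :
    Pool.Agent.TH456.TM.MeasT (z : ℂ) := by
  rcases h with rfl | rfl | ⟨q, hq, hq1, rfl⟩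
  · exact Pool.Agent.TH456.TM.measT_e
  · exact Pool.Agent.TH456.TM.measT_pi
  · exact Pool.Agent.TH456.TM.measT_real_log q hq hq1

end Pool.Agent.TH796.AL.Ai
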