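import Mathlib
import Pool.Agent.TH796.AL.Ai3

set_option autoImplicit false
set_option linter.unusedSectionVars false

/-!
# Project AL, part N: U-numbers, sums
-/

namespace Pool.Agent.TH796.AL.Ai

open Filter Topology
open Pool.Agent.TH796.AL Pool.Agent.TH932.Words Pool.Agent.TH796.AL.Strong
open Pool.Agent.TH796.AL.Final Pool.Agent.TH796.AL.TwoB Pool.Agent.TH796.AL.Grp

lemma coeff_le_height (P : Polynomial ℤ) (j : ℕ) : |(P.coeff j : ℝ)| ≤ height P := by
  by_cases h0 : P.coeff j = 0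
  · rw [h0]; simp
  · have h2 := Finset.le_sup (f := fun i => (P.coeff i).natAbs)
      (Polynomial.mem_support_iff.2 h0)
    have h3 : ((P.coeff j).natAbs : ℝ) ≤ height P := by exact_mod_cast h2
    rwa [Nat.cast_natAbs, Int.cast_abs] at h3

lemma height_le {P : Polynomial ℤ} {H : ℝ} (hH : 0 ≤ H) (h : ∀ j, |(P.coeff j : ℝ)| ≤ H) :
    (height P : ℝ) ≤ H := by
  by_cases hs : P.support.Nonempty
  · obtain ⟨i, -, h6⟩ := Finset.exists_mem_eq_sup _ hs (fun i => (P.coeff i).natAbs)
    unfold height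
    rw [h6, Nat.cast_natAbs, Int.cast_abs]
    exact h i
  · rw [Finset.not_nonempty_iff_eq_empty] at hs
    unfold height
    rw [hs, Finset.sup_empty]
    simpa using hH

lemma aeval_ne {z : ℝ} (hz : Transcendental ℚ z) {P : Polynomial ℤ} (hP : P ≠ 0) :
    Polynomial.aeval z P ≠ 0 := by
  intro h0
  apply hz
  refine ⟨P.map (Int.castRingHom ℚ), ?_, ?_⟩
  · rw [Ne, Polynomial.map_eq_zero_iff (RingHom.injective_int _)]
    exact hP
  · rw [Polynomial.aeval_def, Polynomial.eval₂_map]
    rw [Polynomial.aeval_def] at h0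
    rw [← h0]
    congr 1

open Polynomial in
/-- transcendental numbers which are not U-numbers -/
theorem meas_of_not_unumber {z : ℝ} (hz : Transcendental ℚ z) (hU : ¬ UNumber z) :
    Pool.Agent.TH456.TM.MeasT (z : ℂ) := by
  intro D
  unfold UNumber at hU
  push Not at hU
  obtain ⟨w, hw⟩ := hU D
  set T := {P : ℤ[X] | P.natDegree ≤ D ∧ 0 < |aeval z P| ∧
    |aeval z P| * (height P : ℝ) ^ w ≤ 1} with hT
  have hTf : T.Finite := hw
  obtain ⟨c, hc, hcT⟩ : ∃ c : ℝ, 0 < c ∧ ∀ P ∈ T, c ≤ |aeval z P| := by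
    by_cases hne : T.Nonempty
    · obtain ⟨Q, hQ, hmin⟩ := Set.exists_min_image T (fun P => |aeval z P|) hTf hne
      exact ⟨|aeval z Q|, hQ.2.1, hmin⟩
    · exact ⟨1, one_pos, fun P hP => absurd ⟨P, hP⟩ hne⟩
  refine ⟨w, min 1 c, Nat.cast_nonneg _, lt_min one_pos hc, fun P hP hPD H hH hPH => ?_⟩
  rw [← Pool.Agent.TH456.TM.abs_aeval, Real.rpow_natCast]
  have h1 := height_le (by linarith) hPH
  have hpos : 0 < |aeval z P| := abs_pos.2 (aeval_ne hz hP)
  by_cases hPT : P ∈ T
  · calc min 1 c ≤ c := min_le_right _ _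
      _ ≤ |aeval z P| := hcT P hPT
      _ = 1 * |aeval z P| := (one_mul _).symm
      _ ≤ H ^ w * |aeval z P| := by
          gcongr
          exact one_le_pow₀ hH
  · have h2 : 1 < |aeval z P| * (height P : ℝ) ^ w := by
      by_contra hcon
      push Not at hcon
      exact hPT ⟨hPD, hpos, hcon⟩
    calc min 1 c ≤ 1 := min_le_left _ _
      _ ≤ |aeval z P| * (height P : ℝ) ^ w := h2.le
      _ ≤ |aeval z P| * H ^ w := by gcongr
      _ = H ^ w * |aeval z P| := mul_comm _ _

/-- sums over groups with trivial intersections -/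
theorem sums_groups {r : ℕ} {Γ : Fin r → Subgroup ℚˣ} (hΓ : ∀ i j, i ≠ j → Γ i ⊓ Γ j = ⊥)
    {S : Set ℕ} (hS : S.Infinite) (y : Fin r → ℝ)
    (hy : ∀ i, y i ∈ Algebra.adjoin ℚ {x | Gen S (Γ i) x})
    (α : Fin r → ℝ) (hα : ∀ i, IsAlgebraic ℚ (α i)) (hsum : IsAlgebraic ℚ (∑ i, α i * y i))
    (i : Fin r) (hi : α i ≠ 0) (hirr : Irrational (y i)) : Liouville (y i) := by
  obtain ⟨m, B, L, hL, hrep⟩ := iface Γ hS y hy
  have h4 := sums_core B hL (r + 1) (Fin.cons ⊥ fun i => VS B (Γ i)) (by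
      intro i
      refine Fin.cases ?_ (fun i => ?_) i
      · intro j hij
        rw [Fin.cons_zero]
        exact disjoint_bot_left
      · intro j
        refine Fin.cases ?_ (fun j => ?_) j
        · intro _
          rw [Fin.cons_zero]
          exact disjoint_bot_right
        · intro hij
          rw [Fin.cons_succ, Fin.cons_succ]
          exact disj B (hΓ i j fun h => hij (by rw [h]))) (Fin.cons 1 y) (by
      intro i
      refine Fin.cases ?_ (fun i => ?_) i
      · rw [Fin.cons_zero, Fin.cons_zero]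
        have := repV_const B hL ⊥ 1
        rwa [Rat.cast_one] at this
      · rw [Fin.cons_succ, Fin.cons_succ]
        exact hrep i) (Fin.cons (-∑ i, α i * y i) α) (by
      intro i
      refine Fin.cases ?_ (fun i => ?_) i
      · rw [Fin.cons_zero]
        exact hsum.neg
      · rw [Fin.cons_succ]
        exact hα i) (by
      rw [Fin.sum_univ_succ]
      simp only [Fin.cons_zero, Fin.cons_succ]
      ring) i.succ
    (by rw [Fin.cons_succ]; exact hi) (by rw [Fin.cons_succ]; exact hirr)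
  rwa [Fin.cons_succ] at h4

end Pool.Agent.TH796.AL.Ai
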