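import Mathlib
import Pool.Agent.TH796.AL.Ai4

set_option autoImplicit false
set_option linter.unusedSectionVars false

/-!
# Project AL, part N: several bases
-/

namespace Pool.Agent.TH796.AL.Ai

open Filter Topology
open Pool.Agent.TH796.AL Pool.Agent.TH932.Words Pool.Agent.TH796.AL.Strong
open Pool.Agent.TH796.AL.Final Pool.Agent.TH796.AL.TwoB Pool.Agent.TH796.AL.Grp

lemma mem_GA_singleton {c : ℕ} (hc : 2 ≤ c) {u : ℚˣ} (hu : u ∈ GA {c}) :
    ∃ k : ℤ, ((u : ℚˣ) : ℚ) = (c : ℚ) ^ k := by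
  have h0 : (c : ℚ) ≠ 0 := by exact_mod_cast (by omega : c ≠ 0)
  have e1 : {u : ℚˣ | ∃ b ∈ ({c} : Set ℕ), ((u : ℚˣ) : ℚ) = b} = {Units.mk0 (c : ℚ) h0} := by
    ext v
    simp only [Set.mem_singleton_iff, exists_eq_left]
    constructor
    · intro hv
      exact Units.ext hv
    · rintro rfl
      rfl
  unfold GA at hu
  rw [e1, Subgroup.mem_closure_singleton] at hu
  obtain ⟨k, hk⟩ := hu
  exact ⟨k, by rw [← hk, Units.val_zpow_eq_zpow_val, Units.val_mk0]⟩

lemma gindep_bases {r : ℕ} {b : Fin r → ℕ} (hb : ∀ i, 2 ≤ b i)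
    (h : ∀ k : Fin r → ℤ, ∏ i, (b i : ℚ) ^ k i = 1 → k = 0) : GIndep fun i => GA {b i} := by
  intro g hg hprod
  choose k hk using fun i => mem_GA_singleton (hb i) (hg i)
  have h1 : ∏ i, (b i : ℚ) ^ k i = 1 := by
    have h2 := congrArg (fun u : ℚˣ => (u : ℚ)) hprod
    simp only [Units.coe_prod, Units.val_one] at h2
    rw [← h2]
    exact Finset.prod_congr rfl fun i _ => (hk i).symm
  have h2 := h k h1
  intro i
  apply Units.ext
  rw [hk i, h2, Pi.zero_apply, zpow_zero, Units.val_one]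

/-- several numbers in several bases -/
theorem digits_several {r : ℕ} {b : Fin r → ℕ} (hb : ∀ i, 2 ≤ b i)
    (h : ∀ k : Fin r → ℤ, ∏ i, (b i : ℚ) ^ k i = 1 → k = 0) {x : Fin r → ℝ}
    (hx : ∀ i, Irrational (x i)) (hU : ∀ i, ¬ UNumber (x i)) (hdep : ¬ AlgebraicIndependent ℚ x)
    (C : ℝ) : ∃ n₀ : ℕ, ∀ n ≥ n₀, ∃ i, C * n < complexity (digit (b i) (x i)) n := by
  by_contra hcon
  push Not at hcon
  set S : Set ℕ := {n | ∀ i, (complexity (digit (b i) (x i)) n : ℝ) ≤ C * n} with hS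
  have hinf : S.Infinite := by
    rw [Set.infinite_iff_exists_gt]
    intro n₀
    obtain ⟨n, h1, h2⟩ := hcon (n₀ + 1)
    exact ⟨n, h2, by omega⟩
  obtain ⟨i, hi⟩ := indep_thm (gindep_bases hb h) hinf x (fun i =>
    SF_le (by simpa using hb i) (Subfield.subset_closure ⟨b i, rfl, C, fun n hn => hn i⟩)) hx hdep
  exact hU i hi

end Pool.Agent.TH796.AL.Ai
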