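import Mathlib
import Pool.Agent.TH796.AL.Ai2

set_option autoImplicit false
set_option linter.unusedSectionVars false

/-!
# Project AL, part C: bounded real germs modulo negligible ones, linear disjointness over the
bounded rational germs
-/

namespace Pool.Agent.TH796.AL.Alg

open Filter Topology Pool.Agent.TH932.Abs Pool.Agent.TH932.Germs Pool.Agent.TH932.Chi
open Pool.Agent.TH796.AL Pool.Agent.TH932.Words Pool.Agent.TH796.AL.Strong
open Pool.Agent.TH796.AL.Final Pool.Agent.TH796.AL.TwoB Pool.Agent.TH796.AL.Grp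
open Pool.Agent.TH796.AL.Nv Pool.Agent.TH796.AL.Ai Pool.Agent.TH796.AL.Lin

/-! ## the residue field -/

section field
variable {L : ℕ → ℝ} (hL : Tendsto L atTop atTop)

include hL in
lemma SR_neg {t : ℝ} {a : HR} (ha : a ∈ SR L t) : -a ∈ SR L t := by
  have h2 := SR_mul hL (SR_cst hL (-1)) ha
  rwa [zero_add, map_neg, map_one, neg_one_mul] at h2

/-- bounded real germs -/
def OO : Subring HR where
  carrier := {h | ∃ C : ℝ, h ∈ SR L C}
  mul_mem' := by
    rintro a b ⟨C, hC⟩ ⟨D, hD⟩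
    exact ⟨_, SR_mul hL hC hD⟩
  one_mem' := ⟨0, by have := SR_cst hL 1; rwa [map_one] at this⟩
  add_mem' := by
    rintro a b ⟨C, hC⟩ ⟨D, hD⟩
    exact ⟨min C D, SR_add hL (SR_anti hL (min_le_left _ _) hC) (SR_anti hL (min_le_right _ _) hD)⟩
  zero_mem' := ⟨0, SR_zero 0⟩
  neg_mem' := by
    rintro a ⟨C, hC⟩
    exact ⟨C, SR_neg hL hC⟩

/-- negligible real germs -/
def mm : Ideal (OO hL) where
  carrier := {h | ∀ E : ℝ, (h : HR) ∈ SR L E}
  add_mem' := fun ha hb E => SR_add hL (ha E) (hb E)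
  zero_mem' := fun E => SR_zero E
  smul_mem' := by
    rintro ⟨c, C, hC⟩ h hh E
    have h1 := SR_mul hL hC (hh (E - C))
    rw [add_sub_cancel] at h1
    exact h1

lemma mem_mm {h : OO hL} : h ∈ mm hL ↔ ∀ E : ℝ, (h : HR) ∈ SR L E := Iff.rfl

include hL in
lemma one_not_SR : (1 : HR) ∉ SR L 1 := by
  intro h
  rw [← gr_one, mem_SR] at h
  obtain ⟨n, h1, h2⟩ := ((h (1 / 2) (by norm_num)).and
    (ev_of_atTop (hL.eventually_ge_atTop 1))).exists
  rw [abs_one] at h1
  have h3 : Real.exp (-(1 - 1 / 2) * L n) < 1 := by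
    rw [Real.exp_lt_one_iff]
    linarith
  linarith

instance : (mm hL).IsMaximal := by
  rw [Ideal.isMaximal_iff]
  refine ⟨fun h => one_not_SR hL (h 1), ?_⟩
  rintro J x hJ hx hxJ
  rw [mem_mm] at hx
  push Not at hx
  obtain ⟨E, hE⟩ := hx
  have h1 := SR_inv hL E _ hE
  have hne : (x : HR) ≠ 0 := fun h0 => hE (by rw [h0]; exact SR_zero E)
  have h2 : (⟨(x : HR)⁻¹, -E, h1⟩ : OO hL) * x ∈ J := J.mul_mem_left _ hxJ
  have h3 : (⟨(x : HR)⁻¹, -E, h1⟩ : OO hL) * x = 1 := Subtype.ext (inv_mul_cancel₀ hne)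
  rwa [h3] at h2

/-- the residue field -/
def FF : Type := OO hL ⧸ mm hL

noncomputable instance : Field (FF hL) := Ideal.Quotient.field (mm hL)

/-- the residue map -/
noncomputable def res : OO hL →+* FF hL := Ideal.Quotient.mk (mm hL)

lemma res_eq_zero {h : OO hL} : res hL h = 0 ↔ ∀ E : ℝ, (h : HR) ∈ SR L E := by
  rw [← mem_mm]
  exact Ideal.Quotient.eq_zero_iff_mem

/-- constants -/
noncomputable def kst0 : ℝ →+* OO hL :=
  (algebraMap ℝ HR).codRestrict (OO hL) fun r => ⟨0, SR_cst hL r⟩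

/-- constants -/
noncomputable def kst : ℝ →+* FF hL := (res hL).comp (kst0 hL)

variable {m : ℕ} (B : Base m)

/-- bounded `S`-integral germs -/
def RG : Subring GG where
  carrier := {s | Bd B (L := L) s}
  mul_mem' := fun ha hb => Bd.mul hL ha hb
  one_mem' := by
    have := Bd.ev (B := B) (hL := hL) 1
    rwa [map_one] at this
  add_mem' := by
    intro a b ha hb
    have h1 := Bd.sum hL (B := B) Finset.univ ![a, b] (by
      intro i _
      fin_cases i
      · exact ha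
      · exact hb)
    rw [Fin.sum_univ_two] at h1
    exact h1
  zero_mem' := by
    have := Bd.ev (B := B) (hL := hL) 0
    rwa [map_zero] at this
  neg_mem' := by
    intro a ha
    have h1 := Bd.mul hL (Bd.ev (B := B) (hL := hL) (-1)) ha
    rw [map_neg, map_one, neg_one_mul] at h1
    exact h1

/-- the map to the bounded real germs -/
noncomputable def phi0 : RG hL B →+* OO hL :=
  (rho.comp (RG hL B).subtype).codRestrict (OO hL) fun s => by
    obtain ⟨C, hC⟩ := s.2.2 none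
    exact ⟨C, SR_rho hC⟩

/-- the map to the residue field -/
noncomputable def phi : RG hL B →+* FF hL := (res hL).comp (phi0 hL B)

lemma phi_injective : Function.Injective (phi hL B) := by
  rw [injective_iff_map_eq_zero]
  intro s hs
  by_contra hne
  have hs' : ∀ E : ℝ, rho (s : GG) ∈ SR L E := (res_eq_zero hL).1 hs
  have hne' : (s : GG) ≠ 0 := fun h0 => hne (Subtype.ext h0)
  obtain ⟨a, ha⟩ := gm_surj (s : GG)
  obtain ⟨t, ht⟩ := s.2.1
  rw [← ha] at ht hs' hne'
  have h1 := Dir.db_of_RS hL ht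
  set H : ℝ := 1 + m * (|t| + 1) with hH
  have h2 := hs' (H + 2)
  rw [rho_gm, mem_SR] at h2
  obtain ⟨n, g1, g2, g3, g4⟩ := (h1.and ((h2 1 one_pos).and ((gm_ne_zero.1 hne').and
    (ev_of_atTop (hL.eventually_ge_atTop 1))))).exists
  have hd : (0 : ℝ) < (a n).den := by exact_mod_cast (a n).den_pos
  have h3 : (1 : ℝ) ≤ |(a n : ℝ)| * (a n).den := by
    have h4 : (a n : ℝ) * (a n).den = (a n).num := by
      exact_mod_cast Rat.mul_den_eq_num (a n)
    rw [← abs_of_pos hd, ← abs_mul, h4, ← Int.cast_abs]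
    exact_mod_cast Int.one_le_abs (Rat.num_ne_zero.2 g3)
  have h5 : |(a n : ℝ)| * (a n).den ≤ Real.exp (-(H + 2 - 1) * L n) * Real.exp (H * L n) := by
    gcongr
  rw [← Real.exp_add] at h5
  have h6 : Real.exp (-(H + 2 - 1) * L n + H * L n) < 1 := by
    rw [Real.exp_lt_one_iff]
    linarith
  linarith

noncomputable instance : Algebra (RG hL B) (FF hL) := (phi hL B).toAlgebra

lemma algebraMap_eq : algebraMap (RG hL B) (FF hL) = phi hL B := rfl

instance : FaithfulSMul (RG hL B) (FF hL) :=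
  (faithfulSMul_iff_algebraMap_injective _ _).2 (phi_injective hL B)

/-- relations in the residue field -/
lemma rel_zero_iff {s : ℕ} (c : Fin s → RG hL B) (x : Fin s → ℝ) :
    ∑ j, phi hL B (c j) * kst hL (x j) = 0 ↔
      ∀ E : ℝ, ∑ j, rho (c j : GG) * algebraMap ℝ HR (x j) ∈ SR L E := by
  have h1 : ∑ j, phi hL B (c j) * kst hL (x j) = res hL (∑ j, phi0 hL B (c j) * kst0 hL (x j)) := by
    rw [map_sum]
    exact Finset.sum_congr rfl fun j _ => by rw [map_mul]; rfl
  rw [h1, res_eq_zero, AddSubmonoidClass.coe_finsetSum]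
  rfl

end field

/-! ## linear disjointness -/

variable {m : ℕ} {B : Base m} {L : ℕ → ℝ} {hL : Tendsto L atTop atTop}

lemma rel_mod {ι : Type} [Fintype ι] {F : ι → (Fin m → ℝ) → KK L hL} {s : ι → GG} {x y : HR}
    (h : Rel B hL F s x) (hxy : ∀ E : ℝ, y - x ∈ SR L E) : Rel B hL F s y := by
  obtain ⟨K0, hK⟩ := h
  refine ⟨K0, fun E => ?_⟩
  have e1 : y - ∑ i, rho (ev B hL (tc B hL (F i) E) * s i)
      = (y - x) + (x - ∑ i, rho (ev B hL (tc B hL (F i) E) * s i)) := by ring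
  rw [e1]
  exact SR_add hL (hxy _) (hK E)

lemma small_of_rel {ι : Type} [Fintype ι] {F : ι → (Fin m → ℝ) → KK L hL} {x : HR}
    (h : Rel B hL F (fun _ => 0) x) : ∀ E : ℝ, x ∈ SR L E := by
  obtain ⟨K0, hK⟩ := h
  intro E
  have h1 := hK (E + K0)
  simp only [mul_zero, map_zero, Finset.sum_const_zero, sub_zero, add_sub_cancel_right] at h1
  exact h1

/-- division by the value of a nonzero element -/
lemma small_div {D : Rg m hL} (hD : D ≠ 0) {x : HR}
    (h : ∀ E : ℝ, rho (ev B hL D) * x ∈ SR L E) : ∀ E : ℝ, x ∈ SR L E := by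
  obtain ⟨t0, ht0⟩ := ev_low (B := B) hL kpa_thm su_thm hD
  have hinv := SR_inv hL t0 _ ht0
  have hne : rho (ev B hL D) ≠ 0 := fun h0 => ht0 (by rw [h0]; exact SR_zero _)
  intro E
  have h1 := SR_mul hL hinv (h (E + t0))
  rw [inv_mul_cancel_left₀ hne] at h1
  exact SR_anti hL (by linarith) h1

/-- small combinations from relations between the coefficients -/
lemma comb {A : Type} [Fintype A] {F : A → (Fin m → ℝ) → KK L hL} {s : ℕ} {x : Fin s → ℝ}
    {D : Rg m hL} (hD : D ≠ 0) {u : Fin s → A → GG}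
    (hrel : ∀ j, Rel B hL F (u j) (rho (ev B hL D) * algebraMap ℝ HR (x j)))
    (c : Fin s → GG) (hc : ∀ j, Bd B (L := L) (c j)) (h0 : ∀ a, ∑ j, c j * u j a = 0) :
    ∀ E : ℝ, ∑ j, rho (c j) * algebraMap ℝ HR (x j) ∈ SR L E := by
  have h1 : ∀ j ∈ (Finset.univ : Finset (Fin s)), Rel B hL F (fun a => c j * u j a)
      (rho (c j) * (rho (ev B hL D) * algebraMap ℝ HR (x j))) := fun j _ =>
    rel_scale (hrel j) (Bd.inf (hc j))
  have h2 := rel_sum Finset.univ h1
  simp only [h0] at h2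
  refine small_div hD (B := B) fun E => ?_
  have h3 := small_of_rel h2 E
  have e1 : rho (ev B hL D) * ∑ j, rho (c j) * algebraMap ℝ HR (x j)
      = ∑ j, rho (c j) * (rho (ev B hL D) * algebraMap ℝ HR (x j)) := by
    rw [Finset.mul_sum]
    exact Finset.sum_congr rfl fun j _ => by ring
  rw [e1]
  exact h3

/-- **Linear disjointness over the bounded germs.** -/
theorem lin_disj {V W : Submodule ℝ (Fin m → ℝ)} (hVW : Disjoint V W) {s t : ℕ}
    (x : Fin s → ℝ) (y : Fin t → ℝ) (hx : ∀ j, RepV B hL V (x j)) (hy : ∀ k, RepV B hL W (y k))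
    (hxi : ∀ c : Fin s → RG hL B, ∑ j, phi hL B (c j) * kst hL (x j) = 0 → ∀ j, c j = 0)
    (hyi : ∀ c : Fin t → RG hL B, ∑ j, phi hL B (c j) * kst hL (y j) = 0 → ∀ j, c j = 0)
    (γ : Fin s → Fin t → RG hL B)
    (h0 : ∀ E : ℝ, ∑ j, ∑ k, rho (γ j k : GG) * (algebraMap ℝ HR (x j) * algebraMap ℝ HR (y k))
      ∈ SR L E) : ∀ j k, γ j k = 0 := by
  classical
  obtain ⟨p, hpV, hpW⟩ := exists_proj hVW
  obtain ⟨D, hD, A, fA, F, u, hFL, hFV, hFi, hu, hFr⟩ := expand (B := B) (hL := hL) kpa_thm hx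
  obtain ⟨D', hD', A', fA', G, v, hGL, hGW, hGi, hv, hGr⟩ := expand (B := B) (hL := hL) kpa_thm hy
  set δ : HR := rho (ev B hL D) with hδ
  set δ' : HR := rho (ev B hL D') with hδ'
  have hδb : ∃ C : ℝ, δ ∈ SR L C := by
    obtain ⟨C, hC⟩ := (Bd.ev (B := B) D).2 none
    exact ⟨C, SR_rho hC⟩
  have hδb' : ∃ C : ℝ, δ' ∈ SR L C := by
    obtain ⟨C, hC⟩ := (Bd.ev (B := B) D').2 none
    exact ⟨C, SR_rho hC⟩
  have hxS : ∀ j, ∃ C : ℝ, δ * algebraMap ℝ HR (x j) ∈ SR L C := by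
    intro j
    obtain ⟨C, hC⟩ := hδb
    exact ⟨_, SR_mul hL hC (SR_cst hL (x j))⟩
  have h1 : ∀ q : A × A', ∑ j, ∑ k, (γ j k : GG) * (u j q.1 * v k q.2) = 0 := by
    have h2 : ∀ j ∈ (Finset.univ : Finset (Fin s)),
        Rel B hL (fun q : A × A' => tens p (F q.1) (G q.2))
        (fun q => ∑ k, (γ j k : GG) * (u j q.1 * v k q.2))
        (∑ k, rho (γ j k : GG) * ((δ * algebraMap ℝ HR (x j)) * (δ' * algebraMap ℝ HR (y k)))) :=
      fun j _ => rel_sum Finset.univ fun k _ =>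
        rel_scale (rel_mul hpV hpW hFL hGL hFV hGW (fun a => hu j a) (fun b => hv k b) (hxS j)
          (hFr j) (hGr k)) (Bd.inf (γ j k).2)
    have h3 := rel_sum Finset.univ h2
    refine rel_indF (fun q => LF.tens (hFL _) (hGL _))
      (fun ρ hρ => tens_ind Pool.Agent.TH979.ALN.indep hpV hpW hFV hGW hFi hGi ρ hρ)
      (fun q => Bd.sum hL _ _ fun j _ => Bd.sum hL _ _ fun k _ =>
        Bd.mul hL (γ j k).2 (Bd.mul hL (hu _ _) (hv _ _))) kpa_thm su_thm
      (rel_mod h3 fun E => ?_)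
    obtain ⟨C, hC⟩ := hδb
    obtain ⟨C', hC'⟩ := hδb'
    have h4 := SR_mul hL (SR_mul hL hC hC') (SR_neg hL (h0 (E - (C + C'))))
    rw [add_sub_cancel] at h4
    have e1 : 0 - ∑ j, ∑ k, rho (γ j k : GG) * ((δ * algebraMap ℝ HR (x j))
        * (δ' * algebraMap ℝ HR (y k)))
        = δ * δ' * -∑ j, ∑ k, rho (γ j k : GG) * (algebraMap ℝ HR (x j) * algebraMap ℝ HR (y k)) := by
      rw [zero_sub, mul_neg, Finset.mul_sum]
      congr 1
      refine Finset.sum_congr rfl fun j _ => ?_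
      rw [Finset.mul_sum]
      exact Finset.sum_congr rfl fun k _ => by ring
    rw [e1]
    exact h4
  -- first step
  have h2 : ∀ b j, ∑ k, (γ j k : GG) * v k b = 0 := by
    intro b
    set c : Fin s → RG hL B := fun j => ⟨∑ k, (γ j k : GG) * v k b,
      Bd.sum hL _ _ fun k _ => Bd.mul hL (γ j k).2 (hv k b)⟩ with hc
    have h3 := comb (B := B) hD hFr (fun j => (c j : GG)) (fun j => (c j).2) (by
      intro a
      rw [← h1 (a, b)]
      refine Finset.sum_congr rfl fun j _ => ?_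
      rw [hc]
      simp only [Finset.sum_mul]
      exact Finset.sum_congr rfl fun k _ => by ring)
    have h4 := hxi c ((rel_zero_iff hL B c x).2 h3)
    intro j
    exact congrArg (fun s : RG hL B => (s : GG)) (h4 j)
  intro j k
  have h3 := comb (B := B) hD' hGr (fun k => (γ j k : GG)) (fun k => (γ j k).2) (fun b => h2 b j)
  exact hyi (fun k => γ j k) ((rel_zero_iff hL B _ y).2 h3) k

end Pool.Agent.TH796.AL.Alg
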