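import Mathlib

set_option autoImplicit false
set_option linter.unusedSectionVars false

/-!
# Project AL, part C: abstract criterion for unions of algebraically independent families
-/

namespace Pool.Agent.TH796.AL.AlgA

/-- linear independence, spelled out -/
def LI {R A : Type} [CommRing R] [CommRing A] [Algebra R A] {ι : Type} [Fintype ι] (x : ι → A) :
    Prop := ∀ c : ι → R, ∑ i, algebraMap R A (c i) * x i = 0 → ∀ i, c i = 0

/-- linear disjointness of two submonoids -/
def LD (R : Type) {A : Type} [CommRing R] [CommRing A] [Algebra R A] (U W : Submonoid A) : Prop :=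
  ∀ (ι κ : Type) [Fintype ι] [Fintype κ] (x : ι → A) (y : κ → A), (∀ i, x i ∈ U) →
    (∀ k, y k ∈ W) → LI (R := R) x → LI (R := R) y → ∀ γ : ι → κ → R,
    ∑ i, ∑ k, algebraMap R A (γ i k) * (x i * y k) = 0 → ∀ i k, γ i k = 0

variable {R A : Type} [CommRing R] [CommRing A] [Algebra R A]

/-- monomials in algebraically independent elements -/
lemma mono_indep {α : Type} {v : α → A}
    (hv : AlgebraicIndependent R v) (T : Finset (α →₀ ℕ)) :
    LI (R := R) fun μ : T => (μ : α →₀ ℕ).prod fun i k => v i ^ k := by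
  classical
  intro c hc
  rw [algebraicIndependent_iff] at hv
  have h1 := hv (∑ μ : T, MvPolynomial.monomial (μ : α →₀ ℕ) (c μ)) (by
    rw [map_sum, ← hc]
    exact Finset.sum_congr rfl fun μ _ => MvPolynomial.aeval_monomial _ _ _)
  intro μ
  have h2 := congrArg (MvPolynomial.coeff (μ : α →₀ ℕ)) h1
  rw [MvPolynomial.coeff_sum, MvPolynomial.coeff_zero] at h2
  rw [← h2, Finset.sum_eq_single μ]
  · rw [MvPolynomial.coeff_monomial, if_pos rfl]
  · intro ν _ hν
    rw [MvPolynomial.coeff_monomial, if_neg fun h => hν (Subtype.ext h)]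
  · intro h
    exact absurd (Finset.mem_univ _) h

/-- **Unions of algebraically independent families are algebraically independent.** -/
theorem union_indep {U W : Submonoid A} (hUW : LD R U W) {α β : Type}
    (f : α → A) (g : β → A) (hf : ∀ i, f i ∈ U) (hg : ∀ i, g i ∈ W)
    (hfi : AlgebraicIndependent R f)
    (hgi : AlgebraicIndependent R g) :
    AlgebraicIndependent R (Sum.elim f g) := by
  classical
  refine hgi.sumElim ?_
  rw [algebraicIndependent_iff]
  intro P hP
  have hQ : ∀ μ : α →₀ ℕ, ∃ Q : MvPolynomial β R,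
      MvPolynomial.aeval g Q = ((P.coeff μ : Algebra.adjoin R (Set.range g)) : A) := by
    intro μ
    have key : ∀ a : A, a ∈ Algebra.adjoin R (Set.range g) → ∃ Q : MvPolynomial β R,
        MvPolynomial.aeval g Q = a := by
      intro a ha
      rw [Algebra.adjoin_range_eq_range_aeval] at ha
      exact ha
    exact key _ (P.coeff μ).2
  choose Q hQ using hQ
  set N : Finset (β →₀ ℕ) := P.support.biUnion fun μ => (Q μ).support with hN
  have hQN : ∀ μ ∈ P.support, ((P.coeff μ : Algebra.adjoin R (Set.range g)) : A) = ∑ ν : N,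
      algebraMap R A ((Q μ).coeff ν) * (ν : β →₀ ℕ).prod fun i k => g i ^ k := by
    intro μ hμ
    rw [← hQ μ]
    conv_lhs => rw [(Q μ).as_sum]
    rw [map_sum]
    simp only [MvPolynomial.aeval_monomial]
    rw [Finset.sum_coe_sort N (fun ν => algebraMap R A ((Q μ).coeff ν)
      * ν.prod fun i k => g i ^ k)]
    refine Finset.sum_subset (Finset.subset_biUnion_of_mem (fun μ => (Q μ).support) hμ)
      fun ν _ hν => ?_
    rw [MvPolynomial.notMem_support_iff] at hν
    rw [hν]
    simp
  have h1 : ∑ μ : P.support, ∑ ν : N, algebraMap R A ((Q μ).coeff ν) *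
      (((μ : α →₀ ℕ).prod fun i k => f i ^ k) *
        ((ν : β →₀ ℕ).prod fun i k => g i ^ k)) = 0 := by
    rw [← hP]
    conv_rhs => rw [P.as_sum]
    rw [map_sum]
    simp only [MvPolynomial.aeval_monomial]
    rw [← Finset.sum_coe_sort P.support (fun μ => algebraMap (Algebra.adjoin R (Set.range g)) A
      (P.coeff μ) * μ.prod fun i k => f i ^ k)]
    refine Finset.sum_congr rfl fun μ _ => ?_
    have h2 : algebraMap (Algebra.adjoin R (Set.range g)) A
        (P.coeff μ) = ((P.coeff μ : Algebra.adjoin R (Set.range g)) : A) := rfl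
    rw [h2, hQN μ μ.2, Finset.sum_mul]
    refine Finset.sum_congr rfl fun ν _ => ?_
    ring
  have h2 := hUW P.support N
    (fun μ : P.support => (μ : α →₀ ℕ).prod fun i k => f i ^ k)
    (fun ν : N => (ν : β →₀ ℕ).prod fun i k => g i ^ k)
    (fun μ => U.prod_mem fun i _ => U.pow_mem (hf i) _)
    (fun ν => W.prod_mem fun i _ => W.pow_mem (hg i) _)
    (mono_indep hfi P.support) (mono_indep hgi N) (fun μ ν => (Q μ).coeff ν) h1
  ext1 μ
  rw [MvPolynomial.coeff_zero]
  by_contra hne
  have hμ : μ ∈ P.support := MvPolynomial.mem_support_iff.2 hne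
  apply hne
  apply Subtype.ext
  rw [hQN μ hμ]
  have h3 : ∀ ν : N, (Q μ).coeff ν = 0 := fun ν => h2 ⟨μ, hμ⟩ ν
  simp [h3]

open AlgebraicIndependent in
lemma indep_union [IsDomain A] [FaithfulSMul R A] {U W : Submonoid A} (hUW : LD R U W)
    {I J : Set A} (hI : I ⊆ U) (hJ : J ⊆ W)
    (hIi : (matroid R A).Indep I) (hJi : (matroid R A).Indep J) :
    (matroid R A).Indep (I ∪ J) ∧ I ∩ J = ∅ := by
  rw [AlgebraicIndependent.matroid_indep_iff] at hIi hJi
  have h1 := union_indep hUW ((↑) : I → A) ((↑) : J → A) (fun i => hI i.2) (fun i => hJ i.2)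
    hIi hJi
  have : Nontrivial R := by
    by_contra h
    rw [not_nontrivial_iff_subsingleton] at h
    have : (1 : A) = 0 := by
      rw [← map_one (algebraMap R A), Subsingleton.elim (1 : R) 0, map_zero]
    exact one_ne_zero this
  constructor
  · have h2 := h1.coe_range
    rw [Set.Sum.elim_range, Subtype.range_coe, Subtype.range_coe] at h2
    exact AlgebraicIndependent.matroid_indep_iff.2 h2
  · rw [Set.eq_empty_iff_forall_notMem]
    rintro x ⟨hx1, hx2⟩
    have h2 := h1.injective (a₁ := Sum.inl ⟨x, hx1⟩) (a₂ := Sum.inr ⟨x, hx2⟩) rfl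
    cases h2

open AlgebraicIndependent in
/-- **The algebraic closures meet in the algebraic closure of the base.** -/
theorem closure_inter [IsDomain A] [FaithfulSMul R A] {U W : Submonoid A}
    (hUW : LD R U W) {z : A} (h1 : z ∈ (matroid R A).closure (U : Set A))
    (h2 : z ∈ (matroid R A).closure (W : Set A)) :
    z ∈ (matroid R A).closure ∅ := by
  obtain ⟨I, hI⟩ := (matroid R A).exists_isBasis (U : Set A) (Set.subset_univ _)
  obtain ⟨J, hJ⟩ := (matroid R A).exists_isBasis (W : Set A) (Set.subset_univ _)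
  rw [← hI.closure_eq_closure] at h1
  rw [← hJ.closure_eq_closure] at h2
  obtain ⟨h3, h4⟩ := indep_union hUW hI.subset hJ.subset hI.indep hJ.indep
  have h5 := h3.closure_inter_eq_inter_closure
  rw [← h4, h5]
  exact ⟨h1, h2⟩

/-- the same with algebraicity -/
theorem alg_inter [IsDomain A] [FaithfulSMul R A] {U W : Submonoid A}
    (hUW : LD R U W) {z : A} (h1 : IsAlgebraic (Algebra.adjoin R (U : Set A)) z)
    (h2 : IsAlgebraic (Algebra.adjoin R (W : Set A)) z) : IsAlgebraic R z := by
  have h3 := closure_inter hUW (z := z)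
  rw [AlgebraicIndependent.matroid_closure_eq, AlgebraicIndependent.matroid_closure_eq,
    AlgebraicIndependent.matroid_closure_eq] at h3
  have h4 : IsAlgebraic (Algebra.adjoin R (∅ : Set A)) z := h3 h1 h2
  rw [Algebra.adjoin_empty] at h4
  exact Subalgebra.isAlgebraic_of_isAlgebraic_bot h4

end Pool.Agent.TH796.AL.AlgA
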