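import Mathlib
import Pool.Agent.TH796.AL.Alg1
import Pool.Agent.TH796.AL.AlgA

set_option autoImplicit false
set_option linter.unusedSectionVars false

/-!
# Project AL, part C: algebraic independence over the bounded germs
-/

namespace Pool.Agent.TH796.AL.Alg

open Filter Topology Pool.Agent.TH932.Abs Pool.Agent.TH932.Germs Pool.Agent.TH932.Chi
open Pool.Agent.TH796.AL Pool.Agent.TH932.Words Pool.Agent.TH796.AL.Strong
open Pool.Agent.TH796.AL.Final Pool.Agent.TH796.AL.TwoB Pool.Agent.TH796.AL.Grp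
open Pool.Agent.TH796.AL.Nv Pool.Agent.TH796.AL.Ai Pool.Agent.TH796.AL.Lin
open Pool.Agent.TH796.AL.AlgA

variable {m : ℕ} {B : Base m} {L : ℕ → ℝ} {hL : Tendsto L atTop atTop}

lemma kst_ne {x : ℝ} (hx : x ≠ 0) : kst hL x ≠ 0 := (map_ne_zero_iff _ (kst hL).injective).2 hx

/-- the image of the field -/
noncomputable def UF (B : Base m) (hL : Tendsto L atTop atTop) (V : Submodule ℝ (Fin m → ℝ)) :
    Submonoid (FF hL) :=
  (FV B hL V).toSubmonoid.map (kst hL : ℝ →* FF hL)

lemma mem_UF {V : Submodule ℝ (Fin m → ℝ)} {x : FF hL} :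
    x ∈ UF B hL V ↔ ∃ y ∈ FV B hL V, kst hL y = x := Iff.rfl

lemma keyA {R A : Type} [CommRing R] [Field A] (φ : R →+* A) {n : ℕ} {τ : Type} [Fintype τ]
    (f : τ ≃ Fin n) (z : τ → A) (r : A) (hr : r ≠ 0) (w : Fin n → A) (hw : ∀ i, w (f i) = r * z i)
    (hz : ∀ c : τ → R, ∑ i, φ (c i) * z i = 0 → ∀ i, c i = 0)
    (c : Fin n → R) (hc : ∑ j, φ (c j) * w j = 0) : ∀ j, c j = 0 := by
  intro j
  have h1 := hz (fun i => c (f i)) (by
    have h2 : r * ∑ i, φ (c (f i)) * z i = 0 := by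
      rw [← hc, Finset.mul_sum]
      refine Fintype.sum_equiv f _ _ fun i => ?_
      rw [hw]
      ring
    exact (mul_eq_zero.1 h2).resolve_left hr) (f.symm j)
  simpa using h1

lemma reA {R A : Type} [CommRing R] [Field A] (φ : R →+* A) {n n' : ℕ} {τ τ' : Type} [Fintype τ]
    [Fintype τ'] (f : τ ≃ Fin n) (f' : τ' ≃ Fin n') (z : τ → A) (z' : τ' → A) (r r' : A)
    (w : Fin n → A) (hw : ∀ i, w (f i) = r * z i) (w' : Fin n' → A)
    (hw' : ∀ i, w' (f' i) = r' * z' i) (γ : τ → τ' → R)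
    (h : ∑ i, ∑ k, φ (γ i k) * (z i * z' k) = 0) :
    ∑ i, ∑ k, φ (γ (f.symm i) (f'.symm k)) * (w i * w' k) = 0 := by
  have h3 : r * r' * ∑ i, ∑ k, φ (γ i k) * (z i * z' k) = 0 := by
    rw [h, mul_zero]
  rw [← h3, Finset.mul_sum]
  refine (Fintype.sum_equiv f _ _ fun i => ?_).symm
  rw [Finset.mul_sum]
  refine Fintype.sum_equiv f' _ _ fun k => ?_
  rw [hw, hw', Equiv.symm_apply_apply, Equiv.symm_apply_apply]
  ring

lemma key {τ : Type} [Fintype τ] (f : τ ≃ Fin (Fintype.card τ)) (z : τ → ℝ) (r : ℝ)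
    (hr : r ≠ 0) (hz : LI (R := RG hL B) fun i => kst hL (z i))
    (c : Fin (Fintype.card τ) → RG hL B)
    (hc : ∑ j, phi hL B (c j) * kst hL (r * z (f.symm j)) = 0) : ∀ j, c j = 0 :=
  keyA (phi hL B) f (fun i => kst hL (z i)) (kst hL r) (kst_ne hr)
    (fun j => kst hL (r * z (f.symm j))) (fun i => by
      change kst hL (r * z (f.symm (f i))) = _
      rw [map_mul, Equiv.symm_apply_apply]) hz c hc

lemma lift_res {s t : ℕ} (γ : Fin s → Fin t → RG hL B) (x : Fin s → ℝ) (y : Fin t → ℝ)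
    (h : ∑ j, ∑ k, phi hL B (γ j k) * (kst hL (x j) * kst hL (y k)) = 0) :
    ∀ E : ℝ, ∑ j, ∑ k, rho (γ j k : GG) * (algebraMap ℝ HR (x j) * algebraMap ℝ HR (y k))
      ∈ SR L E := by
  have h2 : res hL (∑ j, ∑ k, phi0 hL B (γ j k) * (kst0 hL (x j) * kst0 hL (y k))) = 0 := by
    rw [← h, map_sum]
    refine Finset.sum_congr rfl fun j _ => ?_
    rw [map_sum]
    refine Finset.sum_congr rfl fun k _ => ?_
    rw [map_mul, map_mul]
    rfl
  intro E
  have h3 := (res_eq_zero hL).1 h2 E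
  rw [AddSubmonoidClass.coe_finsetSum] at h3
  simp only [AddSubmonoidClass.coe_finsetSum] at h3
  exact h3

theorem ld {V W : Submodule ℝ (Fin m → ℝ)} (hVW : Disjoint V W) :
    LD (RG hL B) (UF B hL V) (UF B hL W) := by
  classical
  intro ι κ _ _ x' y' hx' hy' hxi hyi γ h0
  choose x hx hxx using fun i => mem_UF.1 (hx' i)
  choose y hy hyy using fun i => mem_UF.1 (hy' i)
  obtain rfl : (fun i => kst hL (x i)) = x' := funext hxx
  obtain rfl : (fun i => kst hL (y i)) = y' := funext hyy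
  set e := Fintype.equivFin ι
  set e' := Fintype.equivFin κ
  obtain ⟨q, hq0, hq⟩ := common (x := fun j => x (e.symm j)) fun j => hx _
  obtain ⟨q', hq0', hq'⟩ := common (x := fun j => y (e'.symm j)) fun j => hy _
  have h1 := lin_disj (B := B) (hL := hL) hVW (fun j => q * x (e.symm j))
    (fun j => q' * y (e'.symm j)) hq hq' (key e x q hq0 hxi) (key e' y q' hq0' hyi)
    (fun j k => γ (e.symm j) (e'.symm k)) (lift_res _ _ _ (by
      exact reA (phi hL B) e e' (fun i => kst hL (x i)) (fun i => kst hL (y i)) (kst hL q)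
        (kst hL q') (fun j => kst hL (q * x (e.symm j))) (fun i => by
          change kst hL (q * x (e.symm (e i))) = _
          rw [map_mul, Equiv.symm_apply_apply]) (fun j => kst hL (q' * y (e'.symm j))) (fun i => by
          change kst hL (q' * y (e'.symm (e' i))) = _
          rw [map_mul, Equiv.symm_apply_apply]) γ h0))
  intro i k
  have h2 := h1 (e i) (e' k)
  simpa using h2

/-- **The algebraic closures meet in the algebraic closure of the bounded germs.** -/
theorem alg_bot {V W : Submodule ℝ (Fin m → ℝ)} (hVW : Disjoint V W) {z : FF hL}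
    (h1 : IsAlgebraic (Algebra.adjoin (RG hL B) (UF B hL V : Set (FF hL))) z)
    (h2 : IsAlgebraic (Algebra.adjoin (RG hL B) (UF B hL W : Set (FF hL))) z) :
    IsAlgebraic (RG hL B) z :=
  alg_inter (ld hVW) h1 h2

end Pool.Agent.TH796.AL.Alg
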