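import Mathlib
import Pool.Agent.TH796.AL.AlgA

set_option autoImplicit false
set_option linter.unusedSectionVars false

/-!
# Project AL, part C: families algebraic over independent fields
-/

namespace Pool.Agent.TH796.AL.AlgA

variable {R A : Type} [CommRing R] [CommRing A] [Algebra R A]

open AlgebraicIndependent in
/-- elements algebraic over independent fields -/
theorem fam_indep [IsDomain A] [FaithfulSMul R A] (r : ℕ) : ∀ (U W : Fin r → Submonoid A)
    (_ : ∀ k, LD R (W k) (U k)) (_ : ∀ j k, j < k → U j ≤ W k) (x : Fin r → A)
    (_ : ∀ i, IsAlgebraic (Algebra.adjoin R (U i : Set A)) (x i))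
    (_ : ∀ i, Transcendental R (x i)), AlgebraicIndependent R x := by
  classical
  induction r with
  | zero =>
    intro U W _ _ x _ _
    exact algebraicIndependent_empty_type_iff.2 (FaithfulSMul.algebraMap_injective R A)
  | succ r ih =>
    intro U W hLD hUW x hx htr
    have h1 := ih (fun i => U i.castSucc) (fun i => W i.castSucc) (fun k => hLD _)
      (fun j k hjk => hUW _ _ (by simpa using hjk)) (fun i => x i.castSucc) (fun i => hx _)
      (fun i => htr _)
    have h2 : Transcendental (Algebra.adjoin R (Set.range fun i : Fin r => x i.castSucc))
        (x (Fin.last r)) := by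
      intro h3
      apply htr (Fin.last r)
      have h4 : x (Fin.last r) ∈ (matroid R A).closure (Set.range fun i : Fin r => x i.castSucc) := by
        rw [matroid_closure_eq]
        exact h3
      have h5 : (Set.range fun i : Fin r => x i.castSucc) ⊆
          (matroid R A).closure (W (Fin.last r) : Set A) := by
        rintro _ ⟨i, rfl⟩
        have h6 : x i.castSucc ∈ (matroid R A).closure (U i.castSucc : Set A) := by
          rw [matroid_closure_eq]
          exact hx _
        exact (matroid R A).closure_subset_closure (hUW _ _ (Fin.castSucc_lt_last i)) h6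
      have h6 := (matroid R A).closure_subset_closure_of_subset_closure h5 h4
      have h7 : x (Fin.last r) ∈ (matroid R A).closure (U (Fin.last r) : Set A) := by
        rw [matroid_closure_eq]
        exact hx _
      have h8 := closure_inter (hLD (Fin.last r)) h6 h7
      rw [matroid_closure_eq] at h8
      have h9 : IsAlgebraic (Algebra.adjoin R (∅ : Set A)) (x (Fin.last r)) := h8
      rw [Algebra.adjoin_empty] at h9
      exact Subalgebra.isAlgebraic_of_isAlgebraic_bot h9
    have h3 := (h1.option_iff_transcendental _).2 h2
    have h4 := h3.comp finSuccEquivLast finSuccEquivLast.injective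
    have h5 : (fun o : Option (Fin r) => o.elim (x (Fin.last r)) fun i => x i.castSucc) ∘
        finSuccEquivLast = x := by
      funext i
      refine Fin.lastCases ?_ (fun j => ?_) i
      · rw [Function.comp_apply, finSuccEquivLast_last]
        rfl
      · rw [Function.comp_apply, finSuccEquivLast_castSucc]
        rfl
    rw [← h5]
    exact h4

/-- sums over polynomials -/
lemma polyA (z : A) (p : Polynomial R) (h : Polynomial.aeval z p = 0) :
    ∑ j : Fin (p.natDegree + 1), algebraMap R A (p.coeff j) * z ^ (j : ℕ) = 0 := by
  rw [← h, Polynomial.aeval_eq_sum_range,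
    Finset.sum_range (fun i => p.coeff i • z ^ i)]
  exact Finset.sum_congr rfl fun j _ => (Algebra.smul_def _ _).symm

end Pool.Agent.TH796.AL.AlgA
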