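import Mathlib
import Pool.Agent.TH796.AL.Alg2
import Pool.Agent.TH796.AL.AlgB

set_option autoImplicit false
set_option linter.unusedSectionVars false

/-!
# Project AL, part C: numbers algebraic over the fields
-/

namespace Pool.Agent.TH796.AL.Alg

open Filter Topology Pool.Agent.TH932.Abs Pool.Agent.TH932.Germs Pool.Agent.TH932.Chi
open Pool.Agent.TH796.AL Pool.Agent.TH932.Words Pool.Agent.TH796.AL.Strong
open Pool.Agent.TH796.AL.Final Pool.Agent.TH796.AL.TwoB Pool.Agent.TH796.AL.Grp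
open Pool.Agent.TH796.AL.Nv Pool.Agent.TH796.AL.Ai Pool.Agent.TH796.AL.Lin
open Pool.Agent.TH796.AL.AlgA

variable {m : ℕ} {B : Base m} {L : ℕ → ℝ} {hL : Tendsto L atTop atTop}

/-- an element algebraic over `FV V` is algebraic in the residue field -/
lemma alg_kst {V : Submodule ℝ (Fin m → ℝ)} {z : ℝ} (h : IsAlgebraic (FV B hL V) z) :
    IsAlgebraic (Algebra.adjoin (RG hL B) (UF B hL V : Set (FF hL))) (kst hL z) := by
  refine IsAlgebraic.ringHom_of_comp_eq (R := FV B hL V)
    (((kst hL).comp (FV B hL V).subtype).codRestrict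
      (Algebra.adjoin (RG hL B) (UF B hL V : Set (FF hL)))
      (fun y => Algebra.subset_adjoin ⟨y, y.2, rfl⟩)) (kst hL) h ?_ ?_
  · intro a b hab
    have h1 := congrArg (fun v : Algebra.adjoin (RG hL B) (UF B hL V : Set (FF hL)) => (v : FF hL)) hab
    exact Subtype.ext ((kst hL).injective h1)
  · ext a
    rfl

/-- clearing denominators -/
lemma clear {s : ℕ} (v : Fin s → RG hL B) (x : Fin s → ℝ) (j0 : Fin s) (hb0 : v j0 ≠ 0)
    (hsmall : ∀ E : ℝ, ∑ j, rho (v j : GG) * algebraMap ℝ HR (x j) ∈ SR L E) :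
    ∃ (H : ℝ) (c : Fin s → ℕ → ℤ), (∀ᶠ n in (UU : Filter ℕ), c j0 n ≠ 0) ∧
      (∀ j, ∀ᶠ n in (UU : Filter ℕ), |(c j n : ℝ)| ≤ Real.exp (H * L n)) ∧
      ∀ E : ℝ, ∀ᶠ n in (UU : Filter ℕ), |∑ j, (c j n : ℝ) * x j| ≤ Real.exp (-(E * L n)) := by
  classical
  choose a ha using fun j => gm_surj (v j : GG)
  have hDBa : ∀ j, ∃ Hj : ℝ, Dir.DB L Hj (a j) := by
    intro j
    obtain ⟨t, ht⟩ := (v j).2.1
    rw [← ha j] at ht
    exact ⟨_, Dir.db_of_RS hL ht⟩
  choose Hj hHj using hDBa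
  have hAa : ∀ j, ∃ Cj : ℝ, ∀ᶠ n in (UU : Filter ℕ), |(a j n : ℝ)| ≤ Real.exp (Cj * L n) := by
    intro j
    obtain ⟨t, ht⟩ := (v j).2.2 none
    have h1 := SR_rho ht
    rw [← ha j, rho_gm, mem_SR] at h1
    refine ⟨-(t - 1), ?_⟩
    filter_upwards [h1 1 one_pos] with n hn
    exact hn
  choose Cj hCj using hAa
  have hdc : ∀ j n, (a j n) * (∏ i, ((a i n).den : ℚ)) = (((a j n).num * ∏ i ∈ Finset.univ.erase j, ((a i n).den : ℤ) : ℤ) : ℚ) := by
    intro j n
    rw [← Finset.mul_prod_erase _ _ (Finset.mem_univ j), ← mul_assoc, Rat.mul_den_eq_num]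
    push_cast
    rfl
  refine ⟨∑ j, |Hj j| + ∑ j, |Cj j|, fun j n => (a j n).num * ∏ i ∈ Finset.univ.erase j, ((a i n).den : ℤ), ?_, ?_, ?_⟩
  · have h1 : gm (a j0) ≠ 0 := by
      rw [ha]
      intro h0
      exact hb0 (Subtype.ext h0)
    filter_upwards [gm_ne_zero.1 h1] with n hn
    refine mul_ne_zero (Rat.num_ne_zero.2 hn) (Finset.prod_ne_zero_iff.2 fun i _ => ?_)
    have := (a i n).den_pos
    omega
  · intro j
    have h1 : ∀ᶠ n in (UU : Filter ℕ), ∀ i, ((a i n).den : ℝ) ≤ Real.exp (Hj i * L n) := by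
      rw [Filter.eventually_all]
      exact hHj
    filter_upwards [h1, hCj j, L_nonneg hL] with n h1 h2 h3
    have e1 : (((a j n).num * ∏ i ∈ Finset.univ.erase j, ((a i n).den : ℤ) : ℤ) : ℝ)
        = (a j n : ℝ) * ∏ i, ((a i n).den : ℝ) := by
      have := congrArg (fun q : ℚ => (q : ℝ)) (hdc j n)
      simp only [Rat.cast_mul, Rat.cast_prod, Rat.cast_natCast, Rat.cast_intCast] at this
      exact this.symm
    have hp : |∏ i, ((a i n).den : ℝ)| = ∏ i, ((a i n).den : ℝ) :=
      abs_of_nonneg (Finset.prod_nonneg fun i _ => Nat.cast_nonneg _)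
    rw [e1, abs_mul, hp]
    calc |(a j n : ℝ)| * ∏ i, ((a i n).den : ℝ)
        ≤ Real.exp (Cj j * L n) * ∏ i, Real.exp (Hj i * L n) := by
          refine mul_le_mul h2 (Finset.prod_le_prod (fun _ _ => Nat.cast_nonneg _)
            fun i _ => h1 i) (Finset.prod_nonneg fun _ _ => Nat.cast_nonneg _) (Real.exp_pos _).le
      _ = Real.exp ((Cj j + ∑ i, Hj i) * L n) := by
          rw [← Real.exp_sum, ← Real.exp_add, ← Finset.sum_mul, add_mul]
      _ ≤ _ := by
          refine Real.exp_le_exp.2 (mul_le_mul_of_nonneg_right ?_ h3)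
          have h4 : ∑ i, Hj i ≤ ∑ i, |Hj i| := Finset.sum_le_sum fun i _ => le_abs_self _
          have h5 : |Cj j| ≤ ∑ i, |Cj i| :=
            Finset.single_le_sum (f := fun i => |Cj i|) (fun _ _ => abs_nonneg _)
              (Finset.mem_univ j)
          have h6 := le_abs_self (Cj j)
          linarith
  · intro E
    have h1 : ∀ᶠ n in (UU : Filter ℕ), ∀ i, ((a i n).den : ℝ) ≤ Real.exp (Hj i * L n) := by
      rw [Filter.eventually_all]
      exact hHj
    have h2 := hsmall (E + 1 + ∑ i, |Hj i|)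
    have e2 : ∑ j, rho (v j : GG) * algebraMap ℝ HR (x j)
        = gr (fun n => ∑ j, (a j n : ℝ) * x j) := by
      have e3 : ∀ t : Finset (Fin s), ∑ j ∈ t, rho (v j : GG) * algebraMap ℝ HR (x j)
        = gr (fun n => ∑ j ∈ t, (a j n : ℝ) * x j) := by
        intro t
        induction t using Finset.induction_on with
        | empty => simp only [Finset.sum_empty]; exact gr_zero.symm
        | insert j t hj ih =>
          rw [Finset.sum_insert hj, ih, ← ha j, rho_gm, cst_eq, gr_mul, gr_add]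
          simp only [Finset.sum_insert hj]
      exact e3 _
    rw [e2, mem_SR] at h2
    filter_upwards [h1, h2 1 one_pos, L_nonneg hL] with n h1 h2 h3
    have e1 : ∑ j, ((((a j n).num * ∏ i ∈ Finset.univ.erase j, ((a i n).den : ℤ) : ℤ) : ℝ)) * x j
        = (∏ i, ((a i n).den : ℝ)) * ∑ j, (a j n : ℝ) * x j := by
      rw [Finset.mul_sum]
      refine Finset.sum_congr rfl fun j _ => ?_
      have := congrArg (fun q : ℚ => (q : ℝ)) (hdc j n)
      simp only [Rat.cast_mul, Rat.cast_prod, Rat.cast_natCast, Rat.cast_intCast] at this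
      rw [← this]
      ring
    rw [e1, abs_mul, abs_of_nonneg (Finset.prod_nonneg fun i _ => Nat.cast_nonneg _)]
    calc (∏ i, ((a i n).den : ℝ)) * |∑ j, (a j n : ℝ) * x j|
        ≤ (∏ i, Real.exp (Hj i * L n)) * Real.exp (-(E + 1 + ∑ i, |Hj i| - 1) * L n) := by
          refine mul_le_mul (Finset.prod_le_prod (fun _ _ => Nat.cast_nonneg _)
            fun i _ => h1 i) h2 (abs_nonneg _) (Finset.prod_nonneg fun _ _ => (Real.exp_pos _).le)
      _ = Real.exp ((∑ i, Hj i - (E + ∑ i, |Hj i|)) * L n) := by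
          rw [← Real.exp_sum, ← Real.exp_add, ← Finset.sum_mul]
          ring_nf
      _ ≤ _ := by
          refine Real.exp_le_exp.2 ?_
          have h4 : ∑ i, Hj i ≤ ∑ i, |Hj i| := Finset.sum_le_sum fun i _ => le_abs_self _
          nlinarith

/-- a transcendental number algebraic over the bounded germs is a U-number -/
theorem unumber_of_alg {z : ℝ} (hz : Transcendental ℚ z)
    (h : IsAlgebraic (RG hL B) (kst hL z)) : UNumber z := by
  obtain ⟨p, hp0, hp⟩ := h
  have h1 := polyA (kst hL z) p hp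
  have h2 : ∑ j : Fin (p.natDegree + 1), phi hL B (p.coeff j) * kst hL (z ^ (j : ℕ)) = 0 := by
    rw [← h1]
    exact Finset.sum_congr rfl fun j _ => by rw [map_pow]; rfl
  have h3 := (rel_zero_iff hL B (fun j : Fin (p.natDegree + 1) => p.coeff j)
    (fun j => z ^ (j : ℕ))).1 h2
  have hlead : p.coeff ((Fin.last p.natDegree : Fin (p.natDegree + 1)) : ℕ) ≠ 0 := by
    rw [Fin.val_last, Polynomial.coeff_natDegree]
    exact Polynomial.leadingCoeff_ne_zero.2 hp0
  obtain ⟨H, c, g1, g2, g3⟩ := clear (fun j : Fin (p.natDegree + 1) => p.coeff j)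
    (fun j => z ^ (j : ℕ)) (Fin.last p.natDegree) hlead h3
  exact unumber_of hz hL (Fin.last p.natDegree) g1 g2 g3

end Pool.Agent.TH796.AL.Alg
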