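import Mathlib
import Pool.Agent.TH796.AL.Alg3

set_option autoImplicit false
set_option linter.unusedSectionVars false

/-!
# Project AL, part C: algebraic independence of numbers algebraic over the fields
-/

namespace Pool.Agent.TH796.AL.Alg

open Filter Topology Pool.Agent.TH932.Abs Pool.Agent.TH932.Germs Pool.Agent.TH932.Chi
open Pool.Agent.TH796.AL Pool.Agent.TH932.Words Pool.Agent.TH796.AL.Strong
open Pool.Agent.TH796.AL.Final Pool.Agent.TH796.AL.TwoB Pool.Agent.TH796.AL.Grp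
open Pool.Agent.TH796.AL.Nv Pool.Agent.TH796.AL.Ai Pool.Agent.TH796.AL.Lin
open Pool.Agent.TH796.AL.AlgA

/-- polynomials over a subfield with coefficients in another one -/
lemma change_field {F K : Subfield ℝ} {z : ℝ} (p : Polynomial F) (hp0 : p ≠ 0)
    (hp : Polynomial.aeval z p = 0)
    (h : ∀ j : Fin (p.natDegree + 1), (p.coeff j : ℝ) ∈ K) : IsAlgebraic K z := by
  have h1 : p.map F.subtype ∈ Polynomial.lifts K.subtype := by
    rw [Polynomial.lifts_iff_coeff_lifts]
    intro n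
    rw [Polynomial.coeff_map]
    by_cases hn : n < p.natDegree + 1
    · exact ⟨⟨_, h ⟨n, hn⟩⟩, rfl⟩
    · rw [Polynomial.coeff_eq_zero_of_natDegree_lt (by omega), map_zero]
      exact ⟨0, map_zero _⟩
  obtain ⟨q, hq⟩ := h1
  have hq' : q.map K.subtype = p.map F.subtype := hq
  refine ⟨q, ?_, ?_⟩
  · rintro rfl
    rw [Polynomial.map_zero] at hq'
    exact hp0 ((Polynomial.map_eq_zero_iff (RingHom.injective _)).1 hq'.symm)
  · have h2 : Polynomial.eval z (q.map K.subtype) = Polynomial.eval z (p.map F.subtype) := by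
      rw [hq']
    rw [Polynomial.eval_map, Polynomial.eval_map] at h2
    exact h2.trans hp

theorem ifieldAlg {ι : Type} [Finite ι] (Γ : ι → Subgroup ℚˣ) {S : Set ℕ} (hS : S.Infinite)
    (x : ι → ℝ) (hx : ∀ i, IsAlgebraic (Fl S (Γ i)) (x i)) :
    ∃ (m : ℕ) (B : Base m) (L : ℕ → ℝ) (hL : Tendsto L atTop atTop),
      ∀ i, IsAlgebraic (FV B hL (VS B (Γ i))) (x i) := by
  choose p hp0 hp using hx
  obtain ⟨m, B, L, hL, h⟩ := ifield (ι := Σ i, Fin ((p i).natDegree + 1)) (fun k => Γ k.1) hS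
    (fun k => ((p k.1).coeff k.2 : ℝ)) (fun k => ((p k.1).coeff k.2).2)
  exact ⟨m, B, L, hL, fun i => change_field (p i) (hp0 i) (hp i) fun j => h ⟨i, j⟩⟩

lemma toQ {R A : Type} [CommRing R] [CommRing A] [Algebra R A] [Nontrivial A] {ι : Type}
    (x : ι → ℝ) (σ : ℝ →+* A) (h : AlgebraicIndependent R (fun i => σ (x i))) :
    AlgebraicIndependent ℚ x := by
  have hinj : Function.Injective (algebraMap ℤ R) := by
    have h1 : Function.Injective (σ.comp (algebraMap ℤ ℝ)) :=
      σ.injective.comp (RingHom.injective_int _)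
    have h2 : σ.comp (algebraMap ℤ ℝ) = (algebraMap R A).comp (algebraMap ℤ R) :=
      RingHom.ext_int _ _
    rw [h2, RingHom.coe_comp] at h1
    exact h1.of_comp
  have h1 : AlgebraicIndependent ℤ (fun i => σ (x i)) := h.restrictScalars hinj
  have h2 : AlgebraicIndependent ℤ x := AlgebraicIndependent.of_comp (σ.toIntAlgHom) h1
  have : Algebra.IsAlgebraic ℤ ℚ := IsLocalization.isAlgebraic ℚ (nonZeroDivisors ℤ)
  exact h2.extendScalars ℚ

lemma UF_mono {m : ℕ} {B : Base m} {L : ℕ → ℝ} {hL : Tendsto L atTop atTop}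
    {V W : Submodule ℝ (Fin m → ℝ)} (h : V ≤ W) : UF B hL V ≤ UF B hL W := by
  rintro _ ⟨y, hy, rfl⟩
  exact ⟨y, FV_mono h hy, rfl⟩

/-- **Algebraic independence of numbers algebraic over the fields.** -/
theorem indep_alg {r : ℕ} {Γ : Fin r → Subgroup ℚˣ} (hΓ : GIndep Γ) {S : Set ℕ} (hS : S.Infinite)
    (x : Fin r → ℝ) (hx : ∀ i, IsAlgebraic (Fl S (Γ i)) (x i)) (htr : ∀ i, Transcendental ℚ (x i))
    (hdep : ¬ AlgebraicIndependent ℚ x) : ∃ i, UNumber (x i) := by
  by_contra hcon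
  push Not at hcon
  obtain ⟨m, B, L, hL, h⟩ := ifieldAlg Γ hS x hx
  apply hdep
  refine toQ (R := RG hL B) x (kst hL) ?_
  refine fam_indep r (fun i => UF B hL (VS B (Γ i)))
    (fun k => UF B hL (⨆ j : Fin r, ⨆ (_ : j ≠ k), VS B (Γ j))) (fun k => ?_) (fun j k hjk => ?_)
    (fun i => kst hL (x i)) (fun i => alg_kst (h i)) (fun i hi => ?_)
  · exact ld (vindep B hΓ k).symm
  · exact UF_mono (le_iSup₂_of_le j hjk.ne le_rfl)
  · exact hcon i (unumber_of_alg (htr i) hi)

/-- **Numbers with a transcendence measure are algebraic over at most one of the fields.** -/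
theorem meas_alg {Γ Δ : Subgroup ℚˣ} (h : Γ ⊓ Δ = ⊥) {S : Set ℕ} (hS : S.Infinite) {z : ℝ}
    (hz : Transcendental ℚ z) (hU : ¬ UNumber z)
    (h1 : IsAlgebraic (Fl S Γ) z) (h2 : IsAlgebraic (Fl S Δ) z) : False := by
  obtain ⟨i, hi⟩ := indep_alg (gindep_pair h) hS ![z, z] (by
      intro i
      fin_cases i
      · exact h1
      · exact h2) (by
      intro i
      fin_cases i
      · exact hz
      · exact hz) (fun hd => by
      have h6 := hd.injective (a₁ := 0) (a₂ := 1) rfl
      exact absurd h6 (by decide))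
  revert hi
  fin_cases i
  · exact hU
  · exact hU

end Pool.Agent.TH796.AL.Alg
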