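import Mathlib
import Pool.Agent.TH796.AL.Alg4
import Pool.Agent.TH796.AL.Ai5

set_option autoImplicit false
set_option linter.unusedSectionVars false

/-!
# Project AL, part C: digits
-/

namespace Pool.Agent.TH796.AL.Alg

open Filter Topology
open Pool.Agent.TH796.AL Pool.Agent.TH932.Words Pool.Agent.TH796.AL.Strong
open Pool.Agent.TH796.AL.Final Pool.Agent.TH796.AL.TwoB Pool.Agent.TH796.AL.Grp
open Pool.Agent.TH796.AL.Ai

/-- exchange -/
lemma alg_exchange {z x : ℝ} (hx : Transcendental ℚ x) (h : AlgOver z x) : AlgOver x z := by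
  have h1 : x ∈ (AlgebraicIndependent.matroid ℤ ℝ).closure (insert z ∅) := by
    rw [AlgebraicIndependent.matroid_closure_eq, insert_empty_eq]
    exact h
  have h2 : x ∉ (AlgebraicIndependent.matroid ℤ ℝ).closure ∅ := by
    rw [AlgebraicIndependent.matroid_closure_eq]
    intro h3
    have h4 : IsAlgebraic (Algebra.adjoin ℤ (∅ : Set ℝ)) x := h3
    rw [Algebra.adjoin_empty] at h4
    exact hx ((IsFractionRing.isAlgebraic_iff ℤ ℚ ℝ).1 (Subalgebra.isAlgebraic_of_isAlgebraic_bot h4))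
  have h3 := Matroid.closure_exchange ⟨h1, h2⟩
  have h4 : z ∈ (AlgebraicIndependent.matroid ℤ ℝ).closure (insert x ∅) := h3.1
  rw [AlgebraicIndependent.matroid_closure_eq, insert_empty_eq] at h4
  exact h4

/-- algebraic over a field containing the number -/
lemma alg_field {K : Subfield ℝ} {x z : ℝ} (hx : x ∈ K) (h : AlgOver x z) : IsAlgebraic K z := by
  have hmem : ∀ a : Algebra.adjoin ℤ ({x} : Set ℝ), (a : ℝ) ∈ K := by
    intro a
    have h1 : Algebra.adjoin ℤ ({x} : Set ℝ) ≤ subalgebraOfSubring K.toSubring :=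
      Algebra.adjoin_le (Set.singleton_subset_iff.2 hx)
    exact h1 a.2
  refine IsAlgebraic.ringHom_of_comp_eq (R := Algebra.adjoin ℤ ({x} : Set ℝ))
    ((Algebra.adjoin ℤ ({x} : Set ℝ)).val.toRingHom.codRestrict K hmem :
      Algebra.adjoin ℤ ({x} : Set ℝ) →+* K) (RingHom.id ℝ) h ?_ ?_
  · intro a b hab
    have h1 := congrArg (fun v : K => (v : ℝ)) hab
    exact Subtype.ext h1
  · ext a
    rfl

/-- algebraic over a smaller field -/
lemma alg_mono {K F : Subfield ℝ} (h : K ≤ F) {z : ℝ} (hz : IsAlgebraic K z) : IsAlgebraic F z := by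
  refine IsAlgebraic.ringHom_of_comp_eq (R := K)
    (K.subtype.codRestrict F (fun a => h a.2) : K →+* F) (RingHom.id ℝ) hz ?_ ?_
  · intro a b hab
    have h1 := congrArg (fun v : F => (v : ℝ)) hab
    exact Subtype.ext h1
  · ext a
    rfl

/-- `z` is transcendental over the field `K` and no irrational number algebraic over `ℚ(z)` is in
`K` -/
def Free (K : Subfield ℝ) (z : ℝ) : Prop :=
  Transcendental K z ∧ ∀ x : ℝ, Irrational x → AlgOver z x → x ∉ K

lemma free_of {S : Set ℕ} (hS : S.Infinite) {A : Set ℕ} (hA : ∀ b ∈ A, 2 ≤ b) {z : ℝ}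
    (h : Transcendental (Fl S (GA A)) z) : Free (Subfield.closure (SA S A)) z := by
  refine ⟨fun h1 => h (alg_mono (SF_le hA) h1), fun x hx hxz hxK => ?_⟩
  have h1 : x ∈ Fl S (GA A) := SF_le hA hxK
  exact h (alg_field h1 (alg_exchange (transc_thm hS h1 hx) hxz))

/-- two sets of bases -/
theorem free_pair {z : ℝ} (hz : Transcendental ℚ z) (hU : ¬ UNumber z) {A B : Set ℕ}
    (hA : ∀ b ∈ A, 2 ≤ b) (hB : ∀ b ∈ B, 2 ≤ b) (h : GA A ⊓ GA B = ⊥) {S : Set ℕ}
    (hS : S.Infinite) :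
    Free (Subfield.closure (SA S A)) z ∨ Free (Subfield.closure (SA S B)) z := by
  by_cases h1 : IsAlgebraic (Fl S (GA A)) z
  · refine Or.inr (free_of hS hB fun h2 => ?_)
    exact meas_alg h hS hz hU h1 h2
  · exact Or.inl (free_of hS hA h1)

/-- at most one exceptional class of bases -/
theorem free_exceptional {z : ℝ} (hz : Transcendental ℚ z) (hU : ¬ UNumber z) {S : Set ℕ}
    (hS : S.Infinite) : ∃ c : ℕ, 2 ≤ c ∧ ∀ b : ℕ, 2 ≤ b → Indep b c →
      Free (Subfield.closure (SA S {b})) z := by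
  by_cases hex : ∃ c : ℕ, 2 ≤ c ∧ IsAlgebraic (Fl S (GA {c})) z
  · obtain ⟨c, hc, hcz⟩ := hex
    refine ⟨c, hc, fun b hb hbc => free_of hS (by simpa using hb) fun h2 => ?_⟩
    exact meas_alg (group_inf hb hc hbc) hS hz hU h2 hcz
  · push Not at hex
    exact ⟨2, le_rfl, fun b hb _ => free_of hS (by simpa using hb) (hex b hb)⟩

/-- numbers with a transcendence measure are transcendental -/
lemma transc_of_measT {z : ℝ} (hz : Pool.Agent.TH456.TM.MeasT (z : ℂ)) : Transcendental ℚ z := by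
  intro h
  have h1 : IsAlgebraic ℤ z := (IsFractionRing.isAlgebraic_iff ℤ ℚ ℝ).2 h
  obtain ⟨P, hP0, hP⟩ := h1
  obtain ⟨κ, c, hκ, hc, h2⟩ := hz P.natDegree
  have h3 := h2 P hP0 le_rfl (max 1 (height P)) (le_max_left _ _)
    (fun j => (coeff_le_height P j).trans (le_max_right _ _))
  rw [← Pool.Agent.TH456.TM.abs_aeval, hP, abs_zero, mul_zero] at h3
  linarith

end Pool.Agent.TH796.AL.Alg
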